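import Pool.Agent.Lib.MP_64d474_lc.ST3.Alg3

/-!
# The fourth algorithm

Let `V` be the span of the coefficient matrices and `k` its codimension.  If `k` is small, a small
integer matrix `G` with `2 k / n + 1` rows is computed by a local search for the dimension of
`G V`.  The space `E` of the vectors killed by all `M` in `V` with `G M = 0` has dimension at most
`2 k / n`.  The matrix is nonsingular if and only if some member of `V` is injective on `E`, and
the same holds for the transposed matrices.  This is decided by the Fischer norm of determinants of
size `dim E`.
-/

set_option autoImplicit false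

open Pool.Agent.Lib.MP_64d474_lc.ST
open Pool.Agent.Lib.MP_64d474_lc.ST2 (rkmod rstep cmat pwm fval subs goodF rw' nr)
open Pool.Agent.Lib.MP_64d474_lc.ST3 (zerM low his dgs goodW pb3 rs3 cost3 mvecs)

namespace Pool.Agent.Lib.MP_64d474_lc.ST4

/-! ### The coefficient matrices -/

/-- the transpose of a matrix with `n` rows and `n` columns -/
def trM (n : ℕ) (M : List (List ℕ)) : List (List ℕ) :=
  (List.range n).map fun i => (List.range n).map fun j => (M.getD j []).getD i 0

/-- the coefficient matrices modulo `p`, one for every first occurrence of a variable, zero
matrices for the other occurrences -/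
def cfs (p : ℕ) (A : RMat) : List (List (List ℕ)) :=
  (List.range (vars A).length).map fun j =>
    if (vars A).idxOf ((vars A).getD j []) = j then cmat p ((vars A).getD j []) A
    else zerM A.length

/-- these matrices (`b = false`) or the transposed ones (`b = true`) -/
def cf (b : Bool) (p : ℕ) (A : RMat) : List (List (List ℕ)) :=
  bif b then (cfs p A).map (trM A.length) else cfs p A

/-! ### The matrix `G` -/

/-- the product of the matrix with `h` rows and `n` columns and the entries `g`, row by row, with
the matrix `C`; again row by row -/
def gmul (p n h : ℕ) (g : List ℕ) (C : List (List ℕ)) : List ℕ :=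
  (List.range (h * n)).map fun x =>
    ((List.range n).map fun j =>
      g.getD (x / n * n + j) 0 * (C.getD j []).getD (x % n) 0).sum % p

/-- the dimension of `G V` modulo `p` -/
def grk (b : Bool) (p : ℕ) (A : RMat) (h : ℕ) (g : List ℕ) : ℕ :=
  rkmod p (h * A.length) ((cf b p A).map (gmul p A.length h g))

/-- the largest of these dimensions for the primes up to `B` -/
def grkQ (b : Bool) (A : RMat) (B h : ℕ) (g : List ℕ) : ℕ :=
  ((List.range B).map fun p =>
    bif isPrime (p + 1) then grk b (p + 1) A h g else 0).foldl max 0

/-- change one entry -/
def cand (n : ℕ) (g : List ℕ) (d : ℕ) : List ℕ := g.set (d / (n + 1)) (d % (n + 1))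

/-- try all changes of one entry -/
def gpass (b : Bool) (A : RMat) (B h : ℕ) (g : List ℕ) : List ℕ :=
  (List.range (h * A.length * (A.length + 1))).foldl
    (fun g d => if grkQ b A B h g < grkQ b A B h (cand A.length g d) then cand A.length g d
      else g) g

/-- the local search -/
def gopt (b : Bool) (A : RMat) (B h : ℕ) : List ℕ :=
  (gpass b A B h)^[h * A.length] (List.replicate (h * A.length) 0)

/-- the entries of the identity matrix -/
def idl (n : ℕ) : List ℕ := (List.range (n * n)).map fun x => if x / n = x % n then 1 else 0

/-- the codimension of `V` -/
def cod (A : RMat) (B : ℕ) : ℕ := A.length * A.length - grkQ false A B A.length (idl A.length)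

/-! ### The space `E` -/

/-- the unit vector with the number `i` -/
def uni (q i : ℕ) : List ℕ := (List.range q).map fun j => if j = i then 1 else 0

/-- a basis of the relations between the rows `R` with `N` entries -/
def rel (p N : ℕ) (R : List (List ℕ)) : List (List ℕ) :=
  ((rstep p)^[N] (0, List.zipWith (fun r i => r ++ uni R.length i) R (List.range R.length))).2

/-- the combination of the matrices `Cs` with the coefficients `y` -/
def comM (p n : ℕ) (Cs : List (List (List ℕ))) (y : List ℕ) : List (List ℕ) :=
  (List.range n).map fun i => (List.range n).map fun j =>
    (List.zipWith (fun c C => c * (C.getD i []).getD j 0) y Cs).sum % p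

/-- matrices that span the space of the `M` in `V` with `G M = 0` -/
def van (b : Bool) (p : ℕ) (A : RMat) (h : ℕ) (g : List ℕ) : List (List (List ℕ)) :=
  (rel p (h * A.length) ((cf b p A).map (gmul p A.length h g))).map (comM p A.length (cf b p A))

/-- the rows of column entries: the row with the number `c` contains the entries of all matrices in
the column `c` -/
def colsM (n : ℕ) (Ms : List (List (List ℕ))) : List (List ℕ) :=
  (List.range n).map fun c => Ms.flatMap fun M => M.map fun r => r.getD c 0

/-- a basis of `E` modulo `p` -/
def bas (b : Bool) (p : ℕ) (A : RMat) (h : ℕ) (g : List ℕ) : List (List ℕ) :=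
  rel p ((van b p A h g).length * A.length) (colsM A.length (van b p A h g))

/-! ### The small determinants -/

/-- the product of the row `(t ^ ((a + 1) c))`, `c < n`, the matrix `C` and the column `u` -/
def sco (p n t a : ℕ) (C : List (List ℕ)) (u : List ℕ) : ℕ :=
  ((List.range n).map fun c => pwm p t ((a + 1) * c) *
    ((List.range n).map fun d => (C.getD c []).getD d 0 * u.getD d 0).sum).sum % p

/-- the symbolic matrix with these coefficients -/
def smallM (p n t : ℕ) (Cs : List (List (List ℕ))) (U : List (List ℕ)) : RMat :=
  (List.range U.length).map fun a => U.map fun u => (List.range Cs.length).flatMap fun q =>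
    List.replicate (sco p n t a (Cs.getD q []) u) ((false, [true]), List.replicate q true)

/-- the basis has at most `E` members, and the determinant of the small matrix has a Fischer norm
that is not `0` modulo `p` -/
def hit (b : Bool) (p : ℕ) (A : RMat) (h : ℕ) (g : List ℕ) (t E : ℕ) (vs : List (List ℕ)) :
    Bool :=
  decide ((bas b p A h g).length ≤ E) &&
    !decide (fval p (smallM p A.length t (cf b p A) (bas b p A h g))
      (subs (bas b p A h g).length vs) = 0)

/-! ### Bounds -/

/-- all numbers that occur have absolute value less than `2 ^ kD L` -/
def kD (L : ℕ) : ℕ := 64 * ((L + 2) * (L + 2) * ((L + 2) * (L + 2) * ((L + 2) * (L + 2))))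

/-- an auxiliary number -/
def KD (L : ℕ) : ℕ := (4 * kD L + 4) * (4 * kD L + 4)

/-- the bound of the primes -/
def bD (L : ℕ) : ℕ := 1024 * ((KD L + 1) * (KD L + 1))

/-- some member of `V` is injective on `E`: there are many primes for which the test `hit` is
successful with the same number `t` -/
def halfG (b : Bool) (A : RMat) (L E : ℕ) (vs : List (List ℕ)) (g : List ℕ) : Bool :=
  (List.range (A.length * A.length * A.length + 1)).any fun t =>
    decide (kD L < ((List.range (bD L)).filter fun p =>
      isPrime (p + 1) && hit b (p + 1) A (E + 1) g t E vs).length)

def half (b : Bool) (A : RMat) (L E : ℕ) (vs : List (List ℕ)) : Bool :=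
  halfG b A L E vs (gopt b A (bD L) (E + 1))

/-! ### The decision -/

/-- the codimension of the span of the coefficient matrices -/
def dk (w : List Letter) : ℕ := bif wellformed w then cod (parse w) (bD w.length) else 0

/-- the codimension is small -/
def dens (w : List Letter) : Bool :=
  decide (16 * dk w ≤ nr w * nr w) && decide (3 ≤ nr w)

/-- the size of the determinants -/
def cK (w : List Letter) : ℕ := bif dens w then 2 * dk w / nr w else nr w

/-- use the values for the variables whose coefficient matrix has rank at least two -/
def useW (w : List Letter) : Bool := decide (cost3 w < cK w)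

/-- the bounds of the digits -/
def bl4 (w : List Letter) : List ℕ :=
  bif useW w then
    List.replicate (dgs (rw' w) (rs3 w)) (dmax (low (rw' w) (rs3 w)).sum (rs3 w)) ++
      his (rw' w) (rs3 w)
  else List.replicate (cK w) 1

/-- the decision for the list `vs` of lists of digits -/
def dec4 (w : List Letter) (vs : List (List ℕ)) : Bool :=
  wellformed w && bif useW w then
    vs.any fun x => goodW (parse w) (pb3 w.length) (rw' w) (rs3 w) x
  else bif dens w then
    half false (parse w) w.length (cK w) vs && half true (parse w) w.length (cK w) vs
  else goodF (parse w) (pbound w.length) vs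

def vs4 (w : List Letter) : List (List ℕ) := mvecs (bl4 w)

/-- **The decision.** -/
def accept4 (w : List Letter) : Bool := dec4 w (vs4 w)

/-- the bound of the running time -/
def tb4 (c : ℕ) (w : List Letter) : ℕ :=
  (w.length + 2) ^ c * 2 ^ (c * min (cK w) (cost3 w))

end Pool.Agent.Lib.MP_64d474_lc.ST4
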