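import Pool.Agent.Lib.MP_64d474_lc.ST4.Stmts4
import Pool.Agent.Lib.MP_64d474_lc.ST3.Asm3

/-!
# Assembly of the fourth machine
-/

set_option autoImplicit false
set_option maxHeartbeats 800000

open Finset Module Pool.Agent.Lib.PT Pool.Agent.Lib.MP_64d474_lc.ST
open Pool.Agent.Lib.MP_64d474_lc.ST2 (rkmod cmat hitv hitm goodF rw' nr wl wr rl goodF_iff
  exists_prime_iff StTab StWick StBoundF StNr StRl Hf)
open Pool.Agent.Lib.MP_64d474_lc.ST3 (zerM low his dgs goodW pb3 rs3 cost3 mvecs Sq toM lowRank
  highProd StOne StOnes StMod3 StBound3 StPrime3 StBest StHit3 StMv best okR blA goodW_iff)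

namespace Pool.Agent.Lib.MP_64d474_lc.ST4

theorem mulVec_eq_zero_of_det {n : ℕ} {X : Matrix (Fin n) (Fin n) ℚ} (h : X.det ≠ 0)
    {u : Fin n → ℚ} (hu : X.mulVec u = 0) : u = 0 :=
  Matrix.eq_zero_of_mulVec_eq_zero h hu

/-- the test for small codimension -/
theorem dense_iff (hcz : StCz) (hcod : StCod) (hloq : StLOQ) (hopt : StOpt) (hhalf : StHalf)
    (hdense : StDense) (A : SMat) (hsq : ∀ r ∈ A, r.length = A.length) (h3 : 3 ≤ A.length)
    (h16 : 16 * cod (raw A) (bD (code A).length) ≤ A.length * A.length) (E : ℕ)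
    (hE : E = 2 * cod (raw A) (bD (code A).length) / A.length) :
    (half false (raw A) (code A).length E (vecs 1 E) &&
      half true (raw A) (code A).length E (vecs 1 E)) = true ↔ (toMat A).det ≠ 0 := by
  obtain ⟨-, c2, c3, c4⟩ := hcz A hsq
  have hk := hcod A hsq
  have hl : (raw A).length = A.length := by simp [raw]
  generalize cod (raw A) (bD (code A).length) = k at h16 hE hk
  subst hE
  have hE1 : 2 * k / A.length + 1 ≤ A.length := by
    have h1 : 2 * k / A.length * A.length ≤ 2 * k := Nat.div_mul_le_self _ _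
    have h2 : 8 * (2 * k / A.length) ≤ A.length := by
      by_contra hc
      have h4 : A.length + 1 ≤ 8 * (2 * k / A.length) := by omega
      have h5 : (A.length + 1) * A.length ≤ 8 * (2 * k / A.length) * A.length :=
        Nat.mul_le_mul_right _ h4
      nlinarith
    omega
  have hlo1 := hloq A false (2 * k / A.length + 1) hsq hE1
  have hlo2 := hloq A true (2 * k / A.length + 1) hsq hE1
  rw [c2] at hlo2
  rw [← c3] at hk
  obtain ⟨d1, d2, d3⟩ := hdense ℚ A.length k (spn ℚ (czB false A)) _ _ h3 h16 hk hlo1 hlo2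
  obtain ⟨o1, o2, -⟩ := hopt false (raw A) (bD (code A).length) (2 * k / A.length + 1)
  obtain ⟨o1', o2', -⟩ := hopt true (raw A) (bD (code A).length) (2 * k / A.length + 1)
  rw [hl] at o1 o2 o1' o2'
  have e1 := hhalf A false (2 * k / A.length) _ hsq hE1 o1 o2 d1
  have e2 := hhalf A true (2 * k / A.length) _ hsq hE1 o1' o2' (by rw [c2]; exact d2)
  rw [c2] at e2
  rw [Bool.and_eq_true]
  unfold half
  rw [e1, e2, c4]
  constructor
  · rintro ⟨i1, i2⟩
    exact d3 i1 i2
  · rintro ⟨X, hX, hd⟩
    refine ⟨⟨X, hX, fun u _ hu => mulVec_eq_zero_of_det hd hu⟩,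
      ⟨X.transpose, Submodule.mem_map_of_mem (f := tp) hX, fun u _ hu => ?_⟩⟩
    exact mulVec_eq_zero_of_det (by rw [Matrix.det_transpose]; exact hd) hu

theorem accept4_code (hP : StParse) (hR : StRaw) (hS : StSizes) (hpr : StPrime)
    (hip : StIsPrime) (hone : StOne) (hon : StOnes) (hmod : StMod3) (hb : StBound3)
    (hp3 : StPrime3) (hbest : StBest) (hev : StEval) (hhit : StHit3) (hrl : StRl)
    (hwick : StWick) (htab : StTab) (hbF : StBoundF) (hnr : StNr) (hmv : StMv)
    (hcz : StCz) (hcod : StCod) (hloq : StLOQ) (hopt : StOpt) (hhalf : StHalf)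
    (hdense : StDense) (A : SMat) (hsq : ∀ r ∈ A, r.length = A.length) :
    accept4 (code A) = true ↔ (toMat A).det ≠ 0 := by
  obtain ⟨hR1, hR2, hR3⟩ := hR
  have h1 : parse (code A) = raw A := by rw [← hR1, hP]
  have hwf : wellformed (code A) = true := by
    unfold wellformed
    rw [h1, hR1, hR2, raw_square A hsq]
    simp
  obtain ⟨-, hS2, -, hS4, -⟩ := hS A
  have hvars : (vars (raw A)).length = (varsN A).length := by rw [hS2, List.length_map]
  obtain ⟨hl1, hl2, hl3⟩ := hrl A hsq
  have hrw : rw' (code A) = wl A := by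
    unfold rw'
    rw [hwf, h1]
    exact hl1
  have hn := hnr A
  have hdk : dk (code A) = cod (raw A) (bD (code A).length) := by
    unfold dk
    rw [hwf, h1, cond_true]
  unfold accept4 dec4
  rw [hwf, Bool.true_and, h1]
  cases hu : useW (code A) with
  | true =>
    obtain ⟨b1, b2, -⟩ := hbest (wl A)
    have hrs : rs3 (code A) = best (wl A) := by
      unfold rs3
      rw [hrw]
    have hR1' : 1 ≤ best (wl A) := by
      unfold okR at b1
      rw [Bool.and_eq_true, decide_eq_true_eq] at b1
      exact b1.1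
    have e1 : vs4 (code A) = mvecs (blA A (best (wl A))) := by
      unfold vs4 bl4 blA
      rw [hu, hrs, hrw, cond_true]
    rw [e1, cond_true, hrw, hrs]
    simp only [List.any_eq_true]
    constructor
    · rintro ⟨x, -, h2⟩ h3
      rw [goodW_iff hip hone hon hmod A _ _ x hsq hvars] at h2
      obtain ⟨p, -, -, -, y, hy⟩ := h2
      apply hy
      rw [← hev, h3, map_zero]
      exact dvd_zero _
    · intro h2
      obtain ⟨x, hx, y, hy, h3⟩ := hhit A (best (wl A)) hsq hR1' h2
      refine ⟨x, hx, ?_⟩
      rw [goodW_iff hip hone hon hmod A _ _ x hsq hvars]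
      obtain ⟨p, hp, hpp, hpm, hpd⟩ := hp3 (code A).length (varsN A).length _ hS4 h3
        (hb A _ x y hsq hR1' b2 (hl2.le.trans hl3) hx hy)
      exact ⟨p, hp, hpp, hpm, y, hpd⟩
  | false =>
    have e1 : vs4 (code A) = vecs 1 (cK (code A)) := by
      unfold vs4 bl4
      rw [hu, cond_false, hmv.2.2]
    rw [e1, cond_false]
    cases hd : dens (code A) with
    | true =>
      have hE : cK (code A) = 2 * cod (raw A) (bD (code A).length) / A.length := by
        unfold cK
        rw [hd, cond_true, hdk, hn]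
      unfold dens at hd
      rw [Bool.and_eq_true, decide_eq_true_eq, decide_eq_true_eq, hdk, hn] at hd
      rw [cond_true]
      exact dense_iff hcz hcod hloq hopt hhalf hdense A hsq hd.2 hd.1 _ hE
    | false =>
      have hE : cK (code A) = A.length := by
        unfold cK
        rw [hd, cond_false, hn]
      rw [cond_false, hE, goodF_iff hip htab A _ hsq, exists_prime_iff hpr (Hf A)
        (kbound (code A).length) (pbound (code A).length) (by unfold pbound; rfl) (hbF A hsq)]
      exact hwick A

theorem accept4_iff (hP : StParse) (hR : StRaw) (hS : StSizes) (hpr : StPrime)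
    (hip : StIsPrime) (hone : StOne) (hon : StOnes) (hmod : StMod3) (hb : StBound3)
    (hp3 : StPrime3) (hbest : StBest) (hev : StEval) (hhit : StHit3) (hrl : StRl)
    (hwick : StWick) (htab : StTab) (hbF : StBoundF) (hnr : StNr) (hmv : StMv)
    (hcz : StCz) (hcod : StCod) (hloq : StLOQ) (hopt : StOpt) (hhalf : StHalf)
    (hdense : StDense) (w : List Letter) :
    accept4 w = true ↔ ∃ A : SMat, code A = w ∧ Nonsingular A := by
  have hc := accept4_code hP hR hS hpr hip hone hon hmod hb hp3 hbest hev hhit hrl hwick htab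
    hbF hnr hmv hcz hcod hloq hopt hhalf hdense
  obtain ⟨hR1, hR2, hR3⟩ := hR
  constructor
  · intro h
    have h1 : wellformed w = true := by
      unfold accept4 dec4 at h
      rw [Bool.and_eq_true] at h
      exact h.1
    unfold wellformed at h1
    rw [Bool.and_eq_true, Bool.and_eq_true, decide_eq_true_eq] at h1
    obtain ⟨h2, h3, h4⟩ := h1
    have h5 := hR3 _ h3
    have hcode : code (unraw (parse w)) = w := by rw [← hR1, h5, h2]
    have hsq : ∀ r ∈ unraw (parse w), r.length = (unraw (parse w)).length :=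
      square_of_raw _ (by rw [h5]; exact h4)
    refine ⟨unraw (parse w), hcode, hsq, ?_⟩
    rw [← hc _ hsq, hcode]
    exact h
  · rintro ⟨A, rfl, hsq, hdet⟩
    exact (hc A hsq).2 hdet

end Pool.Agent.Lib.MP_64d474_lc.ST4
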