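import Pool.Agent.Lib.MP_64d474_lc.ST4.Stmts4

/-!
# Module Bas: a basis of the space `E`
-/

set_option autoImplicit false

open Finset Module Pool.Agent.Lib.PT Pool.Agent.Lib.MP_64d474_lc.ST
open Pool.Agent.Lib.MP_64d474_lc.ST2 (rkmod rstep cmat pwm fval subs goodF rw' nr wl Hf)
open Pool.Agent.Lib.MP_64d474_lc.ST3 (zerM low his dgs goodW pb3 rs3 cost3 mvecs Sq toM lowRank
  highProd)

namespace Pool.Agent.Lib.MP_64d474_lc.ST4

namespace BasAux

theorem pos_of {N n c : ℕ} (hc : c < N * n) : 0 < n := by
  rcases Nat.eq_zero_or_pos n with rfl | h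
  · simp at hc
  · exact h

theorem div_lt' {N n c : ℕ} (hc : c < N * n) : c / n < N :=
  Nat.div_lt_of_lt_mul (by rw [mul_comm]; exact hc)

theorem flat_len {α β : Type} (L : List α) (f : α → List β) (n : ℕ)
    (h : ∀ a ∈ L, (f a).length = n) : (L.flatMap f).length = L.length * n := by
  induction L with
  | nil => simp
  | cons a L ih =>
    rw [List.flatMap_cons, List.length_append, h a (by simp),
      ih (fun b hb => h b (List.mem_cons_of_mem a hb)), List.length_cons]
    ring

theorem flat_get {α : Type} (L : List α) (f : α → List ℕ) (n : ℕ)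
    (h : ∀ a ∈ L, (f a).length = n) (q : Fin L.length) {r : ℕ} (hr : r < n) :
    (L.flatMap f).getD (q * n + r) 0 = (f (L.get q)).getD r 0 := by
  induction L with
  | nil => exact q.elim0
  | cons a L ih =>
    rw [List.flatMap_cons]
    have ha : (f a).length = n := h a (by simp)
    obtain ⟨q, hq⟩ := q
    cases q with
    | zero =>
      have e : (0 : ℕ) * n + r = r := by ring
      show (f a ++ List.flatMap f L).getD (0 * n + r) 0 = (f a).getD r 0
      rw [e, List.getD_append _ _ _ _ (by rw [ha]; exact hr)]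
    | succ q =>
      have hq' : q < L.length := by
        rw [List.length_cons] at hq
        omega
      have e : (q + 1) * n + r = n + (q * n + r) := by ring
      show (f a ++ List.flatMap f L).getD ((q + 1) * n + r) 0 = (f (L.get ⟨q, hq'⟩)).getD r 0
      rw [e, List.getD_append_right _ _ _ _ (by rw [ha]; omega), ha, Nat.add_sub_cancel_left]
      exact ih (fun b hb => h b (List.mem_cons_of_mem a hb)) ⟨q, hq'⟩

theorem range_get {α : Type} (n : ℕ) (f : ℕ → α) (d : α) {i : ℕ} (hi : i < n) :
    ((List.range n).map f).getD i d = f i := by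
  rw [List.getD_eq_getElem _ _ (by simpa using hi)]
  simp

theorem zip_sum (p : ℕ) (φ : List (List ℕ) → ℕ) (Cs : List (List (List ℕ))) (y : List ℕ) :
    (((List.zipWith (fun c C => c * φ C) y Cs).sum : ℕ) : ZMod p) =
      ∑ s : Fin Cs.length, ((y.getD s 0 : ℕ) : ZMod p) * ((φ (Cs.get s) : ℕ) : ZMod p) := by
  induction Cs generalizing y with
  | nil => simp
  | cons C Cs ih =>
    cases y with
    | nil => simp
    | cons c y =>
      rw [List.zipWith_cons_cons, List.sum_cons, Nat.cast_add, ih y]
      have e := Fin.sum_univ_succ (n := Cs.length) (f := fun s : Fin (Cs.length + 1) =>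
        (((c :: y).getD s 0 : ℕ) : ZMod p) * ((φ ((C :: Cs).get s) : ℕ) : ZMod p))
      refine Eq.trans ?_ e.symm
      simp

/-- the matrix of the rows, for a general type of indices -/
def rowK (p N n : ℕ) (R : List (List ℕ)) : Matrix (Fin N) (Fin n) (ZMod p) :=
  fun c i => (((R.getD i []).getD c 0 : ℕ) : ZMod p)

/-- The relations, for a general type of indices. -/
theorem relK (h1 : StRel) (p : ℕ) [Fact p.Prime] (N : ℕ) (R : List (List ℕ))
    (hR : ∀ r ∈ R, r.length = N) (n : ℕ) (e : R.length = n) :
    (∀ y ∈ rel p N R, y.length = n) ∧ IsB (colM p n (rel p N R))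
      (LinearMap.ker (rowK p N n R).mulVecLin) := by
  subst e
  exact h1 p N R hR

variable {p : ℕ} [Fact p.Prime] {n : ℕ}

theorem mem_kerK {N : ℕ} (B : Matrix (Fin N) (Fin n) (ZMod p)) (z : Fin n → ZMod p) :
    z ∈ LinearMap.ker B.mulVecLin ↔ ∀ c, ∑ i, B c i * z i = 0 := by
  rw [LinearMap.mem_ker, Matrix.mulVecLin_apply, funext_iff]
  rfl

/-- the columns are in the kernel -/
theorem col_mem {N : ℕ} {B : Matrix (Fin N) (Fin n) (ZMod p)} {U : List (List ℕ)}
    (h : IsB (colM p n U) (LinearMap.ker B.mulVecLin)) (q : Fin U.length) :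
    (fun i : Fin n => (((U.getD q []).getD i 0 : ℕ) : ZMod p)) ∈ LinearMap.ker B.mulVecLin := by
  rw [← h.1]
  refine ⟨Pi.single q 1, ?_⟩
  rw [Matrix.mulVecLin_apply, Matrix.mulVec_single_one]
  rfl

theorem exists_col {N : ℕ} {B : Matrix (Fin N) (Fin n) (ZMod p)} {U : List (List ℕ)}
    (h : IsB (colM p n U) (LinearMap.ker B.mulVecLin)) {z : Fin n → ZMod p}
    (hz : z ∈ LinearMap.ker B.mulVecLin) : ∃ w : Fin U.length → ZMod p, ∀ i : Fin n,
      z i = ∑ q : Fin U.length, (((U.getD q []).getD i 0 : ℕ) : ZMod p) * w q := by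
  rw [← h.1] at hz
  obtain ⟨w, rfl⟩ := hz
  exact ⟨w, fun i => rfl⟩

theorem toM_comM (Cs : List (List (List ℕ))) (y : List ℕ) :
    toM p n (comM p n Cs y) =
      ∑ s : Fin Cs.length, ((y.getD s 0 : ℕ) : ZMod p) • toM p n (Cs.get s) := by
  ext i j
  rw [Matrix.sum_apply]
  have h1 : ((comM p n Cs y).getD i []).getD j 0 =
      (List.zipWith (fun c C => c * (C.getD i []).getD j 0) y Cs).sum % p := by
    rw [comM, range_get n _ [] i.2, range_get n _ 0 j.2]
  show ((((comM p n Cs y).getD i []).getD j 0 : ℕ) : ZMod p) = _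
  rw [h1, ZMod.natCast_mod, zip_sum p (fun C => (C.getD i []).getD j 0)]
  rfl

end BasAux

open BasAux in
/-- (Bas) -/
theorem stBas (h1 : StRel) (h2 : StGmul) : StBas := by
  intro b p _ A h g hSq
  set n := A.length with hn
  set Cs := cf b p A with hCs
  -- the relations between the products with `G`
  have hR₁ : ∀ r ∈ Cs.map (gmul p n h g), r.length = h * n := by
    intro r hr
    obtain ⟨C, -, rfl⟩ := List.mem_map.1 hr
    exact (h2 p n h g C).1
  obtain ⟨hy, hK₁⟩ := relK h1 p (h * n) (Cs.map (gmul p n h g)) hR₁ Cs.length (by simp)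
  set Y := rel p (h * n) (Cs.map (gmul p n h g)) with hY
  have hvan : van b p A h g = Y.map (comM p n Cs) := rfl
  set T : Fin Y.length → Matrix (Fin n) (Fin n) (ZMod p) := fun q =>
    toM p n (comM p n Cs (Y.get q)) with hT
  -- the kernel of the first relations
  have hker : ∀ z : Fin Cs.length → ZMod p,
      z ∈ LinearMap.ker (rowK p (h * n) Cs.length (Cs.map (gmul p n h g))).mulVecLin ↔
      Gm (ZMod p) h n g * ∑ s : Fin Cs.length, z s • toM p n (Cs.get s) = 0 := by
    intro z
    rw [mem_kerK]
    have e1 : ∀ (a : Fin h) (c : Fin n) (s : Fin Cs.length),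
        ((((Cs.map (gmul p n h g)).getD s []).getD ((a : ℕ) * n + c) 0 : ℕ) : ZMod p) =
          (Gm (ZMod p) h n g * toM p n (Cs.get s)) a c := by
      intro a c s
      rw [← (h2 p n h g (Cs.get s)).2 a c]
      congr 3
      rw [List.getD_eq_getElem _ _ (by simp)]
      simp
    have e2 : ∀ (a : Fin h) (c : Fin n),
        (Gm (ZMod p) h n g * ∑ s : Fin Cs.length, z s • toM p n (Cs.get s)) a c =
          ∑ s : Fin Cs.length,
            ((((Cs.map (gmul p n h g)).getD s []).getD ((a : ℕ) * n + c) 0 : ℕ) : ZMod p) *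
              z s := by
      intro a c
      rw [Matrix.mul_sum, Matrix.sum_apply]
      refine Finset.sum_congr rfl fun s _ => ?_
      rw [e1, Matrix.mul_smul, Matrix.smul_apply, smul_eq_mul, mul_comm]
    constructor
    · intro h3
      ext a c
      rw [e2]
      have hlt : (a : ℕ) * n + c < h * n := by
        calc (a : ℕ) * n + c < (a : ℕ) * n + n := by
              have := c.2
              omega
          _ = ((a : ℕ) + 1) * n := by ring
          _ ≤ h * n := Nat.mul_le_mul_right n a.2
      exact h3 ⟨(a : ℕ) * n + c, hlt⟩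
    · intro h3 c
      have hn0 : 0 < n := pos_of c.2
      have ha : (c : ℕ) / n < h := div_lt' c.2
      have h5 := e2 ⟨(c : ℕ) / n, ha⟩ ⟨(c : ℕ) % n, Nat.mod_lt _ hn0⟩
      rw [h3] at h5
      have h6 : (c : ℕ) / n * n + (c : ℕ) % n = c := by
        rw [mul_comm]
        exact Nat.div_add_mod _ _
      simp only [h6] at h5
      exact h5.symm
  have hTs : ∀ q : Fin Y.length, T q =
      ∑ s : Fin Cs.length, (((Y.getD q []).getD s 0 : ℕ) : ZMod p) • toM p n (Cs.get s) := by
    intro q
    rw [hT]
    show toM p n (comM p n Cs (Y.get q)) = _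
    rw [toM_comM]
    have : Y.getD q [] = Y.get q := by
      rw [List.getD_eq_getElem _ _ q.2]
      rfl
    rw [this]
  -- the second relations
  set W := van b p A h g with hW
  have hWlen : W.length = Y.length := by rw [hvan, List.length_map]
  have hMlen : ∀ M ∈ W, M.length = n := by
    intro M hM
    rw [hvan] at hM
    obtain ⟨y, -, rfl⟩ := List.mem_map.1 hM
    simp [comM]
  have hR₂ : ∀ r ∈ colsM n W, r.length = W.length * n := by
    intro r hr
    obtain ⟨c, -, rfl⟩ := List.mem_map.1 hr
    refine flat_len W _ n fun M hM => ?_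
    rw [List.length_map]
    exact hMlen M hM
  have hRl : (colsM n W).length = n := by simp [colsM]
  obtain ⟨hlen, hK₂⟩ := relK h1 p (W.length * n) (colsM n W) hR₂ n hRl
  refine ⟨hlen, ?_⟩
  have hEE : LinearMap.ker (rowK p (W.length * n) n (colsM n W)).mulVecLin =
      EE (Submodule.span (ZMod p) (Set.range fun q : Fin Cs.length =>
        toM p n (Cs.get q))) (Gm (ZMod p) h n g) := by
    ext u
    have hent : ∀ (q : Fin Y.length) (r i : Fin n),
        ((((colsM n W).getD i []).getD ((q : ℕ) * n + r) 0 : ℕ) : ZMod p) = T q r i := by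
      intro q r i
      have hq : (q : ℕ) < W.length := by
        rw [hWlen]
        exact q.2
      have e1 : (colsM n W).getD i [] = W.flatMap fun M => M.map fun r => r.getD i 0 :=
        range_get n _ [] i.2
      rw [e1, flat_get W (fun M => M.map fun r => r.getD i 0) n
        (fun M hM => by rw [List.length_map]; exact hMlen M hM) ⟨q, hq⟩ r.2]
      have e2 : W.get ⟨q, hq⟩ = comM p n Cs (Y.get q) := by
        show W[(q : ℕ)] = _
        simp [hvan]
      rw [e2]
      have e3 : (((comM p n Cs (Y.get q)).map fun r => r.getD i 0).getD r 0) =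
          ((comM p n Cs (Y.get q)).getD r []).getD i 0 := by
        have hl : (r : ℕ) < (comM p n Cs (Y.get q)).length := by
          simp [comM]
        rw [List.getD_eq_getElem _ _ (by rw [List.length_map]; exact hl), List.getElem_map,
          List.getD_eq_getElem (comM p n Cs (Y.get q)) _ hl]
      rw [e3]
      rfl
    have hX : u ∈ LinearMap.ker (rowK p (W.length * n) n (colsM n W)).mulVecLin ↔
        ∀ q : Fin Y.length, (T q).mulVec u = 0 := by
      rw [mem_kerK]
      constructor
      · intro h3 q
        ext r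
        have hlt : (q : ℕ) * n + r < W.length * n := by
          rw [hWlen]
          calc (q : ℕ) * n + r < (q : ℕ) * n + n := by
                have := r.2
                omega
            _ = ((q : ℕ) + 1) * n := by ring
            _ ≤ Y.length * n := Nat.mul_le_mul_right n q.2
        have h4 := h3 ⟨(q : ℕ) * n + r, hlt⟩
        show ∑ i, T q r i * u i = 0
        rw [← h4]
        exact Finset.sum_congr rfl fun i _ => by
          rw [← hent q r i]
          rfl
      · intro h3 c
        have hn0 : 0 < n := pos_of c.2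
        have ha : (c : ℕ) / n < Y.length := by
          rw [← hWlen]
          exact div_lt' c.2
        have h6 : (c : ℕ) / n * n + (c : ℕ) % n = c := by
          rw [mul_comm]
          exact Nat.div_add_mod _ _
        have h7 := congrFun (h3 ⟨(c : ℕ) / n, ha⟩) ⟨(c : ℕ) % n, Nat.mod_lt _ hn0⟩
        have h8 : ∑ i, T ⟨(c : ℕ) / n, ha⟩ ⟨(c : ℕ) % n, Nat.mod_lt _ hn0⟩ i * u i = 0 := h7
        rw [← h8]
        refine Finset.sum_congr rfl fun i _ => ?_
        rw [← hent]
        simp only [h6]
        rfl
    rw [hX]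
    constructor
    · intro h3 M hM h0
      obtain ⟨z, rfl⟩ := (Submodule.mem_span_range_iff_exists_fun (ZMod p)).1 hM
      obtain ⟨w, hw⟩ := exists_col hK₁ ((hker z).2 h0)
      have h4 : ∑ s : Fin Cs.length, z s • toM p n (Cs.get s) =
          ∑ q : Fin Y.length, w q • T q := by
        simp_rw [hTs, Finset.smul_sum, smul_smul]
        rw [Finset.sum_comm]
        refine Finset.sum_congr rfl fun s _ => ?_
        rw [hw s, Finset.sum_smul]
        exact Finset.sum_congr rfl fun q _ => by rw [mul_comm]
      rw [h4, Matrix.sum_mulVec]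
      refine Finset.sum_eq_zero fun q _ => ?_
      rw [Matrix.smul_mulVec, h3 q, smul_zero]
    · intro h3 q
      refine h3 (T q) ?_ ?_
      · rw [hTs]
        exact (Submodule.mem_span_range_iff_exists_fun (ZMod p)).2 ⟨_, rfl⟩
      · rw [hTs]
        exact (hker _).1 (col_mem hK₁ q)
  rw [← hEE]
  exact hK₂

end Pool.Agent.Lib.MP_64d474_lc.ST4
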