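import Pool.Agent.Lib.MP_64d474_lc.ST4.Stmts4

/-!
# Polynomials of the time bound (fourth machine)
-/

set_option autoImplicit false

namespace Pool.Agent.Lib.MP_64d474_lc.ST4

open Pool.Agent.Lib.MP_64d474_lc.ST Pool.Agent.Lib.MP_64d474_lc.ST3 in
theorem stBd4 : StBd4 := by
  intro p c
  refine ⟨c * p.natDegree + p.eval 1, fun w => ?_⟩
  have hx : 1 ≤ tb4 c w := by
    unfold tb4
    exact Nat.one_le_iff_ne_zero.2 (by positivity)
  have h1 : p.eval (tb4 c w) ≤ p.eval 1 * tb4 c w ^ p.natDegree := by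
    rw [Polynomial.eval_eq_sum_range, Polynomial.eval_eq_sum_range, Finset.sum_mul]
    refine Finset.sum_le_sum fun i hi => ?_
    rw [one_pow, mul_one]
    refine Nat.mul_le_mul_left _ (Nat.pow_le_pow_right hx ?_)
    exact Nat.lt_succ_iff.1 (Finset.mem_range.1 hi)
  refine h1.trans ?_
  have h2 : tb4 (c * p.natDegree + p.eval 1) w =
      (w.length + 2) ^ p.eval 1 * 2 ^ (p.eval 1 * min (cK w) (cost3 w)) *
        tb4 c w ^ p.natDegree := by
    unfold tb4
    rw [mul_pow, ← pow_mul, ← pow_mul, pow_add, add_mul, pow_add]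
    have e : c * p.natDegree * min (cK w) (cost3 w) = c * min (cK w) (cost3 w) * p.natDegree := by
      ring
    rw [e]
    ring
  rw [h2]
  refine Nat.mul_le_mul_right _ ?_
  have h3 : p.eval 1 ≤ 2 ^ p.eval 1 := Nat.lt_two_pow_self.le
  have h4 : 2 ^ p.eval 1 ≤ (w.length + 2) ^ p.eval 1 := Nat.pow_le_pow_left (by omega) _
  have h5 : 1 ≤ 2 ^ (p.eval 1 * min (cK w) (cost3 w)) :=
    Nat.one_le_iff_ne_zero.2 (by positivity)
  calc p.eval 1 ≤ (w.length + 2) ^ p.eval 1 := h3.trans h4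
    _ = (w.length + 2) ^ p.eval 1 * 1 := (mul_one _).symm
    _ ≤ _ := Nat.mul_le_mul_left _ h5

end Pool.Agent.Lib.MP_64d474_lc.ST4
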