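import Pool.Agent.Lib.MP_64d474_lc.ST4.Stmts4
import Pool.Agent.Lib.MP_64d474_lc.ST2.BoundF

/-!
# Bounds for the small determinants
-/

set_option autoImplicit false

namespace Pool.Agent.Lib.MP_64d474_lc.ST4

namespace BdHAux

theorem le_two (n L : ℕ) (h : n ≤ L) : (n : ℤ) ≤ 2 ^ L := by
  have h1 : n ≤ 2 ^ L := h.trans Nat.lt_two_pow_self.le
  exact_mod_cast h1

theorem mul_le {a b c L X Y Z : ℕ} (hb : b ≤ L) (A : Matrix (Fin a) (Fin b) ℤ)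
    (B : Matrix (Fin b) (Fin c) ℤ) (hA : ∀ i j, |A i j| ≤ 2 ^ X) (hB : ∀ i j, |B i j| ≤ 2 ^ Y)
    (hZ : L + X + Y ≤ Z) (i : Fin a) (j : Fin c) : |(A * B) i j| ≤ 2 ^ Z := by
  rw [Matrix.mul_apply]
  refine (Finset.abs_sum_le_sum_abs _ _).trans ?_
  have h1 : ∀ k ∈ Finset.univ, |A i k * B k j| ≤ (2 : ℤ) ^ X * 2 ^ Y := by
    intro k _
    rw [abs_mul]
    exact mul_le_mul (hA i k) (hB k j) (abs_nonneg _) (by positivity)
  refine (Finset.sum_le_sum h1).trans ?_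
  rw [Finset.sum_const, Finset.card_univ, Fintype.card_fin, nsmul_eq_mul]
  have h2 : (b : ℤ) * (2 ^ X * 2 ^ Y) ≤ 2 ^ L * (2 ^ X * 2 ^ Y) :=
    mul_le_mul_of_nonneg_right (le_two b L hb) (by positivity)
  refine h2.trans ?_
  rw [← pow_add, ← pow_add]
  exact pow_le_pow_right₀ (by norm_num) (by omega)

theorem vdm_le {L n e t : ℕ} (hn : n ≤ L) (he : e ≤ n) (ht : t ≤ n * n * n) (a : Fin e)
    (c : Fin n) : |vdm ℤ e n t a c| ≤ 2 ^ (3 * (L * L * L)) := by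
  have h1 : (t : ℤ) ≤ 2 ^ (3 * L) := by
    have h2 : t ≤ (2 ^ L) * (2 ^ L) * (2 ^ L) := by
      have h3 : n ≤ 2 ^ L := hn.trans Nat.lt_two_pow_self.le
      exact ht.trans (Nat.mul_le_mul (Nat.mul_le_mul h3 h3) h3)
    have h4 : (2 ^ L) * (2 ^ L) * (2 ^ L) = 2 ^ (3 * L) := by
      rw [← pow_add, ← pow_add]
      congr 1
      ring
    rw [h4] at h2
    exact_mod_cast h2
  have h5 : |vdm ℤ e n t a c| = (t : ℤ) ^ (((a : ℕ) + 1) * (c : ℕ)) := by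
    unfold vdm
    rw [abs_of_nonneg (by positivity)]
  rw [h5]
  have h6 : (t : ℤ) ^ (((a : ℕ) + 1) * (c : ℕ)) ≤ (2 ^ (3 * L)) ^ (((a : ℕ) + 1) * (c : ℕ)) :=
    pow_le_pow_left₀ (by positivity) h1 _
  refine h6.trans ?_
  rw [← pow_mul]
  refine pow_le_pow_right₀ (by norm_num) ?_
  have h7 : ((a : ℕ) + 1) * (c : ℕ) ≤ L * L :=
    Nat.mul_le_mul ((Nat.succ_le_of_lt a.2).trans (he.trans hn)) (c.2.le.trans hn)
  calc 3 * L * (((a : ℕ) + 1) * (c : ℕ)) ≤ 3 * L * (L * L) := Nat.mul_le_mul_left _ h7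
    _ = 3 * (L * L * L) := by ring

theorem fact_le {L e : ℕ} (he : e ≤ L) : (e.factorial : ℤ) ≤ 2 ^ (L * L) := by
  have h1 : e.factorial ≤ e ^ e := Nat.factorial_le_pow e
  have h2 : e ^ e ≤ (2 ^ L) ^ L := by
    calc e ^ e ≤ (2 ^ L) ^ e := Nat.pow_le_pow_left (he.trans Nat.lt_two_pow_self.le) e
      _ ≤ (2 ^ L) ^ L := Nat.pow_le_pow_right (by positivity) he
  rw [← pow_mul] at h2
  exact_mod_cast h1.trans h2

theorem prod_le {L m e B : ℕ} (hm : m ≤ L) (he : e ≤ L) (D : Fin m → Matrix (Fin e) (Fin e) ℤ)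
    (hD : ∀ q i j, |D q i j| ≤ 2 ^ B) (σ π κ : Equiv.Perm (Fin e)) :
    |(((σ.sign : ℤ) * (π.sign : ℤ) * (κ.sign : ℤ) : ℤ) : ℤ) *
      ∏ i : Fin e, ∑ q, D q i (σ i) * D q (π i) (κ i)| ≤ 2 ^ ((L + (B + B)) * L) := by
  have h0 : |(((σ.sign : ℤ) * (π.sign : ℤ) * (κ.sign : ℤ) : ℤ) : ℤ)| = 1 := by
    simp only [abs_mul, ST2.BdF.sgn, one_mul]
  rw [abs_mul, Finset.abs_prod, h0, one_mul]
  have h1 : ∀ i ∈ (Finset.univ : Finset (Fin e)),
      |∑ q, D q i (σ i) * D q (π i) (κ i)| ≤ (2 : ℤ) ^ (L + (B + B)) := by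
    intro i _
    refine (Finset.abs_sum_le_sum_abs _ _).trans ?_
    have h2 : ∀ q ∈ Finset.univ, |D q i (σ i) * D q (π i) (κ i)| ≤ (2 : ℤ) ^ B * 2 ^ B := by
      intro q _
      rw [abs_mul]
      exact mul_le_mul (hD q _ _) (hD q _ _) (abs_nonneg _) (by positivity)
    refine (Finset.sum_le_sum h2).trans ?_
    rw [Finset.sum_const, Finset.card_univ, Fintype.card_fin, nsmul_eq_mul]
    refine (mul_le_mul_of_nonneg_right (le_two m L hm) (by positivity)).trans ?_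
    rw [← pow_add, ← pow_add]
  refine (Finset.prod_le_prod (fun i _ => abs_nonneg _) h1).trans ?_
  rw [Finset.prod_const, Finset.card_univ, Fintype.card_fin, ← pow_mul]
  exact pow_le_pow_right₀ (by norm_num) (Nat.mul_le_mul_left _ he)

theorem hf_le {L m e B : ℕ} (hm : m ≤ L) (he : e ≤ L) (D : Fin m → Matrix (Fin e) (Fin e) ℤ)
    (hD : ∀ q i j, |D q i j| ≤ 2 ^ B) :
    |HfK D| ≤ 2 ^ (3 * (L * L) + (L + (B + B)) * L) := by
  unfold HfK
  have h1 := ST2.BdF.sum_le (n := e) (e.factorial * (e.factorial * 2 ^ ((L + (B + B)) * L)))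
    (fun σ => ∑ π : Equiv.Perm (Fin e), ∑ κ : Equiv.Perm (Fin e),
      (((σ.sign : ℤ) * (π.sign : ℤ) * (κ.sign : ℤ) : ℤ) : ℤ) *
        ∏ i : Fin e, ∑ q, D q i (σ i) * D q (π i) (κ i)) (fun σ =>
      ST2.BdF.sum_le (n := e) (e.factorial * 2 ^ ((L + (B + B)) * L)) _ (fun π =>
        ST2.BdF.sum_le (n := e) (2 ^ ((L + (B + B)) * L)) _ (fun κ =>
          prod_le hm he D hD σ π κ)))
  refine h1.trans ?_
  have h2 := fact_le he
  have h3 : (0 : ℤ) ≤ e.factorial := by positivity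
  have h4 : (0 : ℤ) ≤ 2 ^ ((L + (B + B)) * L) := by positivity
  have h5 : (0 : ℤ) ≤ 2 ^ (L * L) := by positivity
  calc (e.factorial : ℤ) * (e.factorial * (e.factorial * 2 ^ ((L + (B + B)) * L)))
      ≤ 2 ^ (L * L) * (2 ^ (L * L) * (2 ^ (L * L) * 2 ^ ((L + (B + B)) * L))) := by
        refine mul_le_mul h2 (mul_le_mul h2 (mul_le_mul_of_nonneg_right h2 h4) ?_ h5) ?_ h5
        · exact mul_nonneg h3 h4
        · exact mul_nonneg h3 (mul_nonneg h3 h4)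
    _ = 2 ^ (3 * (L * L) + (L + (B + B)) * L) := by
        rw [← pow_add, ← pow_add, ← pow_add]
        congr 1
        ring

theorem expo (L : ℕ) : 16 * (L + 1) ^ 3 + (3 * (L * L) +
    (L + (23 * (L + 1) ^ 3 + 23 * (L + 1) ^ 3)) * L) < kD L := by
  unfold kD
  nlinarith [Nat.zero_le L, Nat.zero_le (L ^ 2), Nat.zero_le (L ^ 3), Nat.zero_le (L ^ 4),
    Nat.zero_le (L ^ 5), Nat.zero_le (L ^ 6)]

theorem natAbs_lt {x : ℤ} {a b : ℕ} (h : |x| ≤ 2 ^ a) (hab : a < b) : x.natAbs < 2 ^ b := by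
  have h1 : (x.natAbs : ℤ) ≤ ((2 ^ a : ℕ) : ℤ) := by
    rw [Int.natCast_natAbs]
    push_cast
    exact h
  have h2 : x.natAbs ≤ 2 ^ a := by exact_mod_cast h1
  exact lt_of_le_of_lt h2 (Nat.pow_lt_pow_right (by norm_num) hab)

end BdHAux

open BdHAux

theorem stBdH : StBdH := by
  intro L n m e t C U Δ hn hm he ht hC hU hΔ
  have hD : ∀ q i j, |(vdm ℤ e n t * C q * U) i j| ≤ 2 ^ (23 * (L + 1) ^ 3) := by
    intro q i j
    have h1 : ∀ i j, |(vdm ℤ e n t * C q) i j| ≤ 2 ^ (L + 3 * (L * L * L) + 2 * L) :=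
      fun i j => mul_le hn _ _ (fun i j => vdm_le hn he ht i j) (hC q) le_rfl i j
    refine mul_le hn _ _ h1 hU ?_ i j
    nlinarith [Nat.zero_le L, Nat.zero_le (L ^ 2), Nat.zero_le (L ^ 3)]
  have h2 := hf_le hm (he.trans hn) (fun q => vdm ℤ e n t * C q * U) hD
  have h3 := expo L
  constructor
  · refine natAbs_lt (a := 16 * (L + 1) ^ 3 + (3 * (L * L) +
      (L + (23 * (L + 1) ^ 3 + 23 * (L + 1) ^ 3)) * L)) ?_ h3
    rw [abs_mul, pow_add]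
    exact mul_le_mul hΔ h2 (abs_nonneg _) (by positivity)
  · exact natAbs_lt hΔ (by omega)

end Pool.Agent.Lib.MP_64d474_lc.ST4
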