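import Pool.Agent.Lib.MP_64d474_lc.ST4.Stmts4

/-!
# The dimension of a space of block matrices with these identities
-/

set_option autoImplicit false

open Finset Module

namespace Pool.Agent.Lib.MP_64d474_lc.ST4

namespace Blk4Aux

theorem rn {F M N : Type} [Field F] [AddCommGroup M] [Module F M] [AddCommGroup N] [Module F N]
    [Module.Finite F M] (V : Submodule F M) (g : M →ₗ[F] N) :
    finrank F V = finrank F (V.map g) + finrank F (V ⊓ LinearMap.ker g : Submodule F M) := by
  have h := LinearMap.finrank_range_add_finrank_ker (g.domRestrict V)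
  have e1 : LinearMap.range (g.domRestrict V) = V.map g := by
    rw [LinearMap.range_domRestrict]
  have e2 : finrank F (LinearMap.ker (g.domRestrict V)) =
      finrank F (V ⊓ LinearMap.ker g : Submodule F M) := by
    rw [LinearMap.ker_domRestrict]
    have : (V ⊓ LinearMap.ker g : Submodule F M) =
        (Submodule.comap V.subtype (LinearMap.ker g)).map V.subtype := by
      rw [Submodule.map_comap_subtype]
    rw [this]
    exact (Submodule.equivMapOfInjective V.subtype V.subtype_injective _).finrank_eq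
  rw [← h, e1, e2]

variable {F : Type} [Field F]

/-- the pair of vectors -/
def ff {r d : ℕ} (ξ η : Fin d → F) : BM F r d →ₗ[F] (Fin r → F) × (Fin r → F) where
  toFun M := (Matrix.vecMul η M.toBlocks₂₁, M.toBlocks₁₂.mulVec ξ)
  map_add' x y := by
    have e1 : (x + y).toBlocks₂₁ = x.toBlocks₂₁ + y.toBlocks₂₁ := rfl
    have e2 : (x + y).toBlocks₁₂ = x.toBlocks₁₂ + y.toBlocks₁₂ := rfl
    rw [e1, e2, Matrix.vecMul_add, Matrix.add_mulVec]
    rfl
  map_smul' c x := by
    have e1 : (c • x).toBlocks₂₁ = c • x.toBlocks₂₁ := rfl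
    have e2 : (c • x).toBlocks₁₂ = c • x.toBlocks₁₂ := rfl
    rw [e1, e2, Matrix.vecMul_smul, Matrix.smul_mulVec]
    rfl

/-- the first block -/
def fL {r d : ℕ} : BM F r d →ₗ[F] Matrix (Fin r) (Fin r) F where
  toFun M := M.toBlocks₁₁
  map_add' _ _ := rfl
  map_smul' _ _ := rfl

/-- the products with the vectors -/
def fP {r p : ℕ} (b c : Fin p → Fin r → F) :
    Matrix (Fin r) (Fin r) F →ₗ[F] ((Fin p × Fin r) → F) × ((Fin p × Fin r) → F) where
  toFun X := (fun w => Matrix.vecMul (c w.1) X w.2, fun w => X.mulVec (b w.1) w.2)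
  map_add' x y := by
    refine Prod.ext ?_ ?_
    · funext w
      simp [Matrix.vecMul_add]
    · funext w
      simp [Matrix.add_mulVec]
  map_smul' s x := by
    refine Prod.ext ?_ ?_
    · funext w
      simp [Matrix.vecMul_smul]
    · funext w
      simp [Matrix.smul_mulVec]

theorem quad [CharZero F] (A B C : F)
    (h : ∀ s : F, s ≠ 0 → s * s * A + s * B + C = 0) : C = 0 := by
  have h1 := h 1 one_ne_zero
  have h2 := h (-1) (neg_ne_zero.mpr one_ne_zero)
  have h3 := h 2 two_ne_zero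
  have e : (6 : F) * C = 0 := by
    linear_combination 6 * h1 + 2 * h2 - 2 * h3
  rcases mul_eq_zero.mp e with h | h
  · exact absurd h (by norm_num)
  · exact h

end Blk4Aux

open Blk4Aux

theorem stBlk4 (h1 : StIso) (h2 : StPhi) (h3 : StKer2) : StBlk4 := by
  intro F _ _ r d p k V hV hk ξ η hξ hη hv
  obtain ⟨v, hvV, hb, hc⟩ := hv
  have hpr : p ≤ r := by
    have := hb.fintype_card_le_finrank
    simpa using this
  -- step one
  have s1 := rn V (ff ξ η)
  have i1 : finrank F (V.map (ff ξ η)) ≤ r := by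
    have := h1 F (Fin r) (V.map (ff ξ η)) (by
      rintro w ⟨M, hM, rfl⟩
      have h := (hV M hM).2.1
      have e : (Matrix.vecMul η M.toBlocks₂₁) ⬝ᵥ (M.toBlocks₁₂.mulVec ξ) = 0 := by
        rw [Matrix.dotProduct_mulVec, Matrix.vecMul_vecMul, h, Matrix.vecMul_zero,
          zero_dotProduct]
      exact e)
    simpa using this
  -- step two
  set V1 : Submodule F (BM F r d) := V ⊓ LinearMap.ker (ff ξ η) with hV1
  have s2 := rn V1 (fL (r := r) (d := d))
  have m1 : ∀ M ∈ V1, M ∈ V ∧ Matrix.vecMul η M.toBlocks₂₁ = 0 ∧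
      M.toBlocks₁₂.mulVec ξ = 0 := by
    intro M hM
    have hM2 : ff ξ η M = 0 := hM.2
    exact ⟨hM.1, congrArg Prod.fst hM2, congrArg Prod.snd hM2⟩
  have i2 : finrank F (V1 ⊓ LinearMap.ker (fL (F := F) (r := r) (d := d)) :
      Submodule F (BM F r d)) + 2 * r ≤ 2 * (r * d) := by
    refine h3 F r d ξ η hξ hη _ ?_
    intro M hM
    have a := m1 M hM.1
    have a2 : M.toBlocks₁₁ = 0 := hM.2
    exact ⟨a2, (hV M a.1).1, a.2.2, a.2.1⟩
  -- step three
  set W2 : Submodule F (Matrix (Fin r) (Fin r) F) := V1.map (fL (r := r) (d := d)) with hW2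
  set b : Fin p → Fin r → F := fun i => (v i).toBlocks₁₂.mulVec ξ with hbdef
  set c : Fin p → Fin r → F := fun i => Matrix.vecMul η (v i).toBlocks₂₁ with hcdef
  have s3 := rn W2 (fP b c)
  have key : ∀ X ∈ W2, ∀ i, (c i) ⬝ᵥ (X.mulVec (X.mulVec (b i))) = 0 := by
    rintro X ⟨M', hM', rfl⟩ i
    obtain ⟨hMV, hη', hξ'⟩ := m1 M' hM'
    set X : Matrix (Fin r) (Fin r) F := M'.toBlocks₁₁ with hX
    set Y : Matrix (Fin r) (Fin r) F := (v i).toBlocks₁₁ with hY
    refine quad ((c i) ⬝ᵥ (Y.mulVec (Y.mulVec (b i))))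
      ((c i) ⬝ᵥ (Y.mulVec (X.mulVec (b i))) + (c i) ⬝ᵥ (X.mulVec (Y.mulVec (b i)))) _ ?_
    intro s hs
    have hM : s • v i + M' ∈ V := V.add_mem (V.smul_mem s (hvV i)) hMV
    have h := (hV _ hM).2.2
    have e21 : (s • v i + M').toBlocks₂₁ = s • (v i).toBlocks₂₁ + M'.toBlocks₂₁ := rfl
    have e12 : (s • v i + M').toBlocks₁₂ = s • (v i).toBlocks₁₂ + M'.toBlocks₁₂ := rfl
    have e11 : (s • v i + M').toBlocks₁₁ = s • Y + X := rfl
    have f1 : Matrix.vecMul η (s • v i + M').toBlocks₂₁ = s • c i := by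
      rw [e21, Matrix.vecMul_add, hη', add_zero, Matrix.vecMul_smul]
    have f2 : (s • v i + M').toBlocks₁₂.mulVec ξ = s • b i := by
      rw [e12, Matrix.add_mulVec, hξ', add_zero, Matrix.smul_mulVec]
    have h0 : (s • c i) ⬝ᵥ (((s • Y + X) * (s • Y + X)).mulVec (s • b i)) = 0 := by
      rw [← f1, ← f2, Matrix.dotProduct_mulVec, Matrix.vecMul_vecMul,
        Matrix.dotProduct_mulVec, Matrix.vecMul_vecMul, ← e11, h, Matrix.vecMul_zero,
        zero_dotProduct]
    have h00 : s * (s * ((c i) ⬝ᵥ (((s • Y + X) * (s • Y + X)).mulVec (b i)))) = 0 := by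
      rw [← h0, Matrix.mulVec_smul, smul_dotProduct, dotProduct_smul, smul_eq_mul, smul_eq_mul]
    have h01 : (c i) ⬝ᵥ (((s • Y + X) * (s • Y + X)).mulVec (b i)) = 0 := by
      rcases mul_eq_zero.mp h00 with h | h
      · exact absurd h hs
      · rcases mul_eq_zero.mp h with h | h
        · exact absurd h hs
        · exact h
    rw [← h01, ← Matrix.mulVec_mulVec]
    simp only [Matrix.add_mulVec, Matrix.smul_mulVec, Matrix.mulVec_add, Matrix.mulVec_smul,
      dotProduct_add, dotProduct_smul, smul_eq_mul, smul_add]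
    show _ + (c i) ⬝ᵥ (X.mulVec (X.mulVec (b i))) = _
    ring
  have i3 : finrank F (W2.map (fP b c)) ≤ p * r := by
    have := h1 F (Fin p × Fin r) (W2.map (fP b c)) (by
      rintro w ⟨X, hX, rfl⟩
      rw [Fintype.sum_prod_type]
      refine Finset.sum_eq_zero fun i _ => ?_
      have e := key X hX i
      rw [Matrix.dotProduct_mulVec] at e
      exact e)
    simpa using this
  have i4 : finrank F (W2 ⊓ LinearMap.ker (fP b c) :
      Submodule F (Matrix (Fin r) (Fin r) F)) ≤ (r - p) * (r - p) := by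
    refine h2 F r p b c hb hc _ ?_
    intro X hX i
    have hX2 : fP b c X = 0 := hX.2
    constructor
    · funext a
      exact congrFun (congrArg Prod.snd hX2) (i, a)
    · funext a
      exact congrFun (congrArg Prod.fst hX2) (i, a)
  obtain ⟨q, rfl⟩ := Nat.exists_eq_add_of_le hpr
  have e : p + q - p = q := by omega
  rw [e] at i4 ⊢
  nlinarith [s1, s2, s3, i1, i2, i3, i4, hk]

end Pool.Agent.Lib.MP_64d474_lc.ST4
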