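import Pool.Agent.Lib.MP_64d474_lc.ST4.Stmts4
import Pool.Agent.Lib.MP_64d474_lc.ST2.Mult
import Pool.Agent.Lib.MP_64d474_lc.ST2.Rl
import Pool.Agent.Lib.MP_64d474_lc.ST3.Ones

/-!
# The fourth machine: the coefficient matrices
-/

set_option autoImplicit false

open Finset Module Pool.Agent.Lib.PT Pool.Agent.Lib.MP_64d474_lc.ST
open Pool.Agent.Lib.MP_64d474_lc.ST2 (cmat)
open Pool.Agent.Lib.MP_64d474_lc.ST2.MultAux (cz length_cmat length_row)
open Pool.Agent.Lib.MP_64d474_lc.ST2.RlAux (idx_bits)
open Pool.Agent.Lib.MP_64d474_lc.ST3 (zerM Sq toM)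
open Pool.Agent.Lib.MP_64d474_lc.ST3.OnesAux (raw_length toM_cmat sq_zerM toM_zerM)

namespace Pool.Agent.Lib.MP_64d474_lc.ST4

namespace Cf4

theorem cz_eq (A : SMat) (k : ℕ) : cz A k = fun (i j : Fin A.length) =>
    (((A.getD i []).getD j []).map fun f => if f.2 = k then f.1 else 0).sum := by
  funext i j
  unfold cz evalM evalE
  congr 1
  apply List.map_congr_left
  intro f _
  by_cases h : f.2 = k
  · simp [h]
  · simp [h]

theorem vars_getD (A : SMat) (q : Fin (varsN A).length) :
    (vars (raw A)).getD q [] = ((varsN A).get q).bits := by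
  have hv : vars (raw A) = (varsN A).map Nat.bits := (stSizes A).2.1
  rw [hv, List.getD_eq_getElem _ _ (by rw [List.length_map]; exact q.isLt), List.getElem_map]
  rfl

theorem length_cfs (p : ℕ) (A : SMat) : (cfs p (raw A)).length = (varsN A).length := by
  have hv : vars (raw A) = (varsN A).map Nat.bits := (stSizes A).2.1
  rw [cfs, List.length_map, List.length_range, hv, List.length_map]

theorem cfs_getD (p : ℕ) (A : SMat) (q : Fin (varsN A).length) :
    (cfs p (raw A)).getD q [] = if (varsN A).idxOf ((varsN A).get q) = q then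
      cmat p ((varsN A).get q).bits (raw A) else zerM A.length := by
  have hv : vars (raw A) = (varsN A).map Nat.bits := (stSizes A).2.1
  have hl : (q : ℕ) < (cfs p (raw A)).length := by
    rw [length_cfs]
    exact q.isLt
  rw [List.getD_eq_getElem _ _ hl]
  unfold cfs
  rw [List.getElem_map, List.getElem_range, vars_getD, raw_length]
  have h1 : (vars (raw A)).idxOf ((varsN A).get q).bits =
      (varsN A).idxOf ((varsN A).get q) := by
    rw [hv, idx_bits]
  rw [h1]

theorem sq_cfs (p : ℕ) (A : SMat) (hA : ∀ r ∈ A, r.length = A.length)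
    (q : Fin (varsN A).length) : Sq A.length ((cfs p (raw A)).getD q []) := by
  rw [cfs_getD]
  by_cases h : (varsN A).idxOf ((varsN A).get q) = q
  · rw [if_pos h]
    exact ⟨length_cmat p _ A, length_row p _ A hA⟩
  · rw [if_neg h]
    exact sq_zerM _

theorem toM_cfs (p : ℕ) (hp : 0 < p) (A : SMat) (hA : ∀ r ∈ A, r.length = A.length)
    (q : Fin (varsN A).length) : toM p A.length ((cfs p (raw A)).getD q []) =
      (czF A q).map (Int.cast : ℤ → ZMod p) := by
  rw [cfs_getD, czF]
  by_cases h : (varsN A).idxOf ((varsN A).get q) = q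
  · rw [if_pos h, if_pos h, toM_cmat A hA p hp, cz_eq]
  · rw [if_neg h, if_neg h, toM_zerM]
    ext i j
    simp

theorem sq_trM (n : ℕ) (M : List (List ℕ)) : Sq n (trM n M) := by
  refine ⟨by simp [trM], fun r hr => ?_⟩
  rw [trM, List.mem_map] at hr
  obtain ⟨i, _, rfl⟩ := hr
  rw [List.length_map, List.length_range]

theorem toM_trM (p n : ℕ) (M : List (List ℕ)) : toM p n (trM n M) = (toM p n M).transpose := by
  ext i j
  have hi : (i : ℕ) < n := i.isLt
  have hj : (j : ℕ) < n := j.isLt
  show ((((trM n M).getD i []).getD j 0 : ℕ) : ZMod p) =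
    ((((M.getD j []).getD i 0) : ℕ) : ZMod p)
  congr 1
  simp [trM, List.getD_eq_getElem?_getD, hi, hj]

end Cf4

open Cf4

theorem stCf : StCf := by
  intro A b p hp hA
  have hmem : ∀ C ∈ cfs p (raw A), ∃ q : Fin (varsN A).length, C = (cfs p (raw A)).getD q [] := by
    intro C hC
    obtain ⟨q, hq, rfl⟩ := List.getElem_of_mem hC
    rw [length_cfs] at hq
    exact ⟨⟨q, hq⟩, (List.getD_eq_getElem _ _ _).symm⟩
  cases b with
  | false =>
    refine ⟨?_, ?_, ?_⟩
    · exact length_cfs p A
    · intro C hC
      obtain ⟨q, rfl⟩ := hmem C hC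
      exact sq_cfs p A hA q
    · intro q
      exact toM_cfs p hp A hA q
  | true =>
    refine ⟨?_, ?_, ?_⟩
    · show ((cfs p (raw A)).map (trM (raw A).length)).length = _
      rw [List.length_map]
      exact length_cfs p A
    · intro C hC
      change C ∈ (cfs p (raw A)).map (trM (raw A).length) at hC
      rw [List.mem_map] at hC
      obtain ⟨D, _, rfl⟩ := hC
      rw [raw_length]
      exact sq_trM _ _
    · intro q
      have hl : (q : ℕ) < (cfs p (raw A)).length := by
        rw [length_cfs]
        exact q.isLt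
      have h1 : (cf true p (raw A)).getD q [] =
          trM A.length ((cfs p (raw A)).getD q []) := by
        show ((cfs p (raw A)).map (trM (raw A).length)).getD q [] = _
        rw [List.getD_eq_getElem _ _ (by rw [List.length_map]; exact hl), List.getElem_map,
          List.getD_eq_getElem _ _ hl, raw_length]
      rw [h1, toM_trM, toM_cfs p hp A hA q]
      rfl

end Pool.Agent.Lib.MP_64d474_lc.ST4
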