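import Pool.Agent.Lib.MP_64d474_lc.ST4.Stmts4

/-!
# The codimension of the span of the coefficient matrices
-/

set_option autoImplicit false

open Finset Module Pool.Agent.Lib.MP_64d474_lc.ST

namespace Pool.Agent.Lib.MP_64d474_lc.ST4

namespace CodAux

theorem idl_length (n : ℕ) : (idl n).length = n * n := by
  unfold idl
  rw [List.length_map, List.length_range]

theorem idl_le (n : ℕ) (x : ℕ) (hx : x ∈ idl n) : x ≤ n := by
  unfold idl at hx
  obtain ⟨i, hi, rfl⟩ := List.mem_map.mp hx
  have h1 : i < n * n := List.mem_range.mp hi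
  have h2 : 0 < n := by
    rcases Nat.eq_zero_or_pos n with h | h
    · subst h; omega
    · exact h
  split_ifs <;> omega

theorem Gm_idl (n : ℕ) : Gm ℚ n n (idl n) = 1 := by
  ext a j
  have ha := a.isLt
  have hj := j.isLt
  have hlt : (a : ℕ) * n + j < n * n := by
    have h1 : ((a : ℕ) + 1) * n ≤ n * n := Nat.mul_le_mul_right n ha
    have h2 : ((a : ℕ) + 1) * n = a * n + n := by ring
    omega
  have hn : 0 < n := lt_of_le_of_lt (Nat.zero_le _) ha
  have h1 : (idl n).getD ((a : ℕ) * n + j) 0 = if (a : ℕ) = j then 1 else 0 := by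
    rw [List.getD_eq_getElem _ _ (by rw [idl_length]; exact hlt)]
    unfold idl
    rw [List.getElem_map, List.getElem_range]
    have e1 : ((a : ℕ) * n + j) / n = a := by
      rw [Nat.mul_comm, Nat.mul_add_div hn, Nat.div_eq_of_lt hj, add_zero]
    have e2 : ((a : ℕ) * n + j) % n = j := by
      rw [Nat.mul_comm, Nat.mul_add_mod, Nat.mod_eq_of_lt hj]
    rw [e1, e2]
  unfold Gm
  rw [h1, Matrix.one_apply]
  by_cases h : a = j
  · subst h; simp
  · have h2 : ¬ (a : ℕ) = j := fun h3 => h (Fin.ext h3)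
    simp [h, h2]

theorem gl_one {n : ℕ} (V : Submodule ℚ (Matrix (Fin n) (Fin n) ℚ)) :
    V.map (gl (1 : Matrix (Fin n) (Fin n) ℚ)) = V := by
  have h : gl (1 : Matrix (Fin n) (Fin n) ℚ) = LinearMap.id := by
    ext1 M
    exact Matrix.one_mul M
  rw [h, Submodule.map_id]

end CodAux

open CodAux in
/-- (Cod) -/
theorem stCod (h1 : StGrkQ) (h3 : StCz) : StCod := by
  intro A hA
  have hl : (raw A).length = A.length := by unfold raw; rw [List.length_map]
  unfold cod
  rw [hl, h1 A false A.length (idl A.length) hA le_rfl (idl_length _) (idl_le _), Gm_idl,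
    gl_one, (h3 A hA).2.2.1]
  have h4 : spanDim A ≤ A.length * A.length := by
    rw [← (h3 A hA).2.2.1]
    refine le_trans (Submodule.finrank_le _) ?_
    rw [Module.finrank_matrix]
    simp
  omega

end Pool.Agent.Lib.MP_64d474_lc.ST4
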