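import Pool.Agent.Lib.MP_64d474_lc.ST4.Stmts4

/-!
# Module `Common`: two linear maps of rank at least `p` and a common independent family
-/

set_option autoImplicit false

open Finset Module

namespace Pool.Agent.Lib.MP_64d474_lc.ST4

namespace CommonAux

open Polynomial

/-- The determinant of `1 + t B` vanishes for finitely many `t` only. -/
theorem finite_det {F : Type} [Field F] {p : ℕ} (B : Matrix (Fin p) (Fin p) F) :
    ∃ S : Finset F, ∀ t ∉ S, (1 + t • B).det ≠ 0 := by
  classical
  set P : F[X] := (1 + (X : F[X]) • B.map C : Matrix (Fin p) (Fin p) F[X]).det with hP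
  have hev : ∀ t : F, P.eval t = (1 + t • B).det := by
    intro t
    rw [hP, ← coe_evalRingHom, RingHom.map_det]
    congr 1
    ext i j
    by_cases hij : i = j
    · subst hij
      simp
      ring
    · simp [hij]
      ring
  have hP0 : P ≠ 0 := by
    intro h0
    have h1 := hev 0
    rw [h0, eval_zero, zero_smul, add_zero, Matrix.det_one] at h1
    exact zero_ne_one h1
  refine ⟨P.roots.toFinset, fun t ht h0 => ht ?_⟩
  rw [Multiset.mem_toFinset, mem_roots hP0, IsRoot.def, hev]
  exact h0

/-- Small perturbations of independent families are independent. -/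
theorem finite_dep {F W : Type} [Field F] [AddCommGroup W] [Module F W] {p : ℕ}
    (u w : Fin p → W) (hu : LinearIndependent F u) :
    ∃ S : Finset F, ∀ t ∉ S, LinearIndependent F (fun i => u i + t • w i) := by
  classical
  obtain ⟨φ, hφ⟩ := (Fintype.linearCombination F u).exists_leftInverse_of_injective
    (LinearMap.ker_eq_bot_of_injective (linearIndependent_iff_injective_fintypeLinearCombination.mp
      hu))
  have hφu : ∀ i, φ (u i) = Pi.single i 1 := by
    intro i
    have h1 := LinearMap.congr_fun hφ (Pi.single i (1 : F))
    rw [LinearMap.comp_apply, Fintype.linearCombination_apply_single, one_smul,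
      LinearMap.id_apply] at h1
    exact h1
  obtain ⟨S, hS⟩ := finite_det (Matrix.of fun i j => φ (w i) j)
  refine ⟨S, fun t ht => ?_⟩
  have h1 := Matrix.linearIndependent_rows_of_det_ne_zero (hS t ht)
  refine LinearIndependent.of_comp φ ?_
  have h2 : (φ ∘ fun i => u i + t • w i) =
      (1 + t • (Matrix.of fun i j => φ (w i) j) : Matrix (Fin p) (Fin p) F).row := by
    funext i
    ext j
    rw [Function.comp_apply, map_add, map_smul, hφu]
    simp [Matrix.one_apply, Pi.single_apply, eq_comm]
  rw [h2]
  exact h1

end CommonAux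

open CommonAux

/-- (Common) two linear maps of rank at least `p`: a common independent family -/
theorem stCommon : StCommon := by
  classical
  intro F _ _ V W W' _ _ _ _ _ _ _ _ _ f g p hf hg
  obtain ⟨a', ha'⟩ := exists_linearIndependent_of_le_finrank hf
  obtain ⟨b', hb'⟩ := exists_linearIndependent_of_le_finrank hg
  choose a ha using fun i => (a' i).2
  choose b hb using fun i => (b' i).2
  have hfa : LinearIndependent F (fun i => f (a i)) := by
    have h1 := ha'.map' (LinearMap.range f).subtype (Submodule.ker_subtype _)
    have h2 : (fun i => f (a i)) = (LinearMap.range f).subtype ∘ a' := by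
      funext i
      exact ha i
    rw [h2]
    exact h1
  have hgb : LinearIndependent F (fun i => g (b i)) := by
    have h1 := hb'.map' (LinearMap.range g).subtype (Submodule.ker_subtype _)
    have h2 : (fun i => g (b i)) = (LinearMap.range g).subtype ∘ b' := by
      funext i
      exact hb i
    rw [h2]
    exact h1
  obtain ⟨S1, hS1⟩ := finite_dep (fun i => f (a i)) (fun i => f (b i)) hfa
  obtain ⟨S2, hS2⟩ := finite_dep (fun i => g (b i)) (fun i => g (a i)) hgb
  obtain ⟨t, ht⟩ := Infinite.exists_notMem_finset (insert 0 (S1 ∪ S2.image fun s => s⁻¹))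
  rw [Finset.mem_insert, Finset.mem_union, Finset.mem_image, not_or, not_or] at ht
  obtain ⟨ht0, ht1, ht2⟩ := ht
  have ht2' : t⁻¹ ∉ S2 := fun h => ht2 ⟨t⁻¹, h, inv_inv t⟩
  refine ⟨fun i => a i + t • b i, ?_, ?_⟩
  · have h1 := hS1 t ht1
    have h2 : (fun i => f (a i + t • b i)) = fun i => f (a i) + t • f (b i) := by
      funext i
      rw [map_add, map_smul]
    rw [h2]
    exact h1
  · have h1 := (hS2 t⁻¹ ht2').units_smul (fun _ => Units.mk0 t ht0)
    have h2 : (fun i => g (a i + t • b i)) =
        (fun _ : Fin p => Units.mk0 t ht0) • fun i => g (b i) + t⁻¹ • g (a i) := by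
      funext i
      show g (a i + t • b i) = t • (g (b i) + t⁻¹ • g (a i))
      rw [map_add, map_smul, smul_add, smul_smul, mul_inv_cancel₀ ht0, one_smul, add_comm]
    rw [h2]
    exact h1

end Pool.Agent.Lib.MP_64d474_lc.ST4
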