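import Pool.Agent.Lib.MP_64d474_lc.ST4.Stmts4

set_option autoImplicit false

/-!
# Module Cond: a condenser
-/

open Finset Polynomial

namespace Pool.Agent.Lib.MP_64d474_lc.ST4

namespace CondAux

variable {F : Type} [Field F]

/-- the polynomial of a column -/
noncomputable def col {n e : ℕ} (M : Matrix (Fin n) (Fin e) F) (c : Fin e) : F[X] :=
  ∑ j : Fin n, C (M j c) * X ^ (j : ℕ)

/-- the polynomial of a vector -/
noncomputable def pol (n : ℕ) : (Fin n → F) →ₗ[F] F[X] where
  toFun v := ∑ j : Fin n, C (v j) * X ^ (j : ℕ)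
  map_add' v w := by
    rw [← Finset.sum_add_distrib]
    exact Finset.sum_congr rfl fun j _ => by rw [Pi.add_apply, C_add, add_mul]
  map_smul' a v := by
    rw [RingHom.id_apply, Finset.smul_sum]
    exact Finset.sum_congr rfl fun j _ => by
      rw [Pi.smul_apply, smul_eq_mul, C_mul, smul_eq_C_mul, mul_assoc]

theorem coeff_pol {n : ℕ} (v : Fin n → F) (j : Fin n) : (pol n v).coeff j = v j := by
  change (∑ i : Fin n, C (v i) * X ^ (i : ℕ)).coeff j = v j
  rw [finsetSum_coeff, Finset.sum_eq_single j]
  · rw [coeff_C_mul, coeff_X_pow, if_pos rfl, mul_one]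
  · intro i _ hi
    rw [coeff_C_mul, coeff_X_pow, if_neg (fun h => hi (Fin.ext h).symm), mul_zero]
  · exact fun h => absurd (mem_univ _) h

theorem natDegree_pol {n : ℕ} (v : Fin n → F) : (pol n v).natDegree ≤ n - 1 := by
  change (∑ i : Fin n, C (v i) * X ^ (i : ℕ)).natDegree ≤ n - 1
  refine natDegree_sum_le_of_forall_le _ _ fun i _ => ?_
  exact (natDegree_C_mul_X_pow_le _ _).trans (by omega)

theorem pol_inj {n : ℕ} : Function.Injective (pol (F := F) n) := by
  intro v w h
  funext j
  rw [← coeff_pol v j, ← coeff_pol w j, h]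

theorem eval_pol {n : ℕ} (v : Fin n → F) (t : F) : (pol n v).eval t = ∑ j, v j * t ^ (j : ℕ) := by
  change (∑ i : Fin n, C (v i) * X ^ (i : ℕ)).eval t = _
  rw [eval_finsetSum]
  exact Finset.sum_congr rfl fun j _ => by rw [eval_mul, eval_C, eval_pow, eval_X]

/-- members with strictly increasing degrees -/
theorem exists_deg {n e : ℕ} (M : Matrix (Fin n) (Fin e) F) (hM : Function.Injective M.mulVec) :
    ∃ (d : Fin e → ℕ) (g : Fin e → Fin e → F), StrictMono d ∧
      ∀ i, pol n (M.mulVec (g i)) ≠ 0 ∧ (pol n (M.mulVec (g i))).natDegree = d i := by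
  classical
  let D : Finset ℕ := (range n).filter fun d => ∃ v : Fin e → F, pol n (M.mulVec v) ≠ 0 ∧
    (pol n (M.mulVec v)).natDegree = d
  have hcard : e ≤ D.card := by
    let L : (Fin e → F) →ₗ[F] (D → F) :=
      LinearMap.pi fun d => (lcoeff F (d : ℕ)).comp ((pol n).comp M.mulVecLin)
    have hL : Function.Injective L := by
      rw [injective_iff_map_eq_zero]
      intro v hv
      by_contra hne
      have h0 : pol n (M.mulVec v) ≠ 0 := by
        intro h
        apply hne
        have h1 : M.mulVec v = 0 := pol_inj (by rw [h, map_zero])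
        exact hM (by rw [h1, Matrix.mulVec_zero])
      have hn : 0 < n := by
        rcases Nat.eq_zero_or_pos n with rfl | h
        · exact absurd (by
            change (∑ i : Fin 0, C (M.mulVec v i) * X ^ (i : ℕ)) = (0 : F[X])
            simp) h0
        · exact h
      have hd : (pol n (M.mulVec v)).natDegree ∈ D := by
        refine mem_filter.2 ⟨mem_range.2 ?_, v, h0, rfl⟩
        have := natDegree_pol (M.mulVec v)
        omega
      have h2 := congrFun hv ⟨_, hd⟩
      have h3 : (pol n (M.mulVec v)).coeff (pol n (M.mulVec v)).natDegree = 0 := h2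
      rw [coeff_natDegree, leadingCoeff_eq_zero] at h3
      exact h0 h3
    have h := LinearMap.finrank_le_finrank_of_injective hL
    rwa [Module.finrank_fin_fun, Module.finrank_fintype_fun_eq_card, Fintype.card_coe] at h
  obtain ⟨D', hD', hc⟩ := Finset.exists_subset_card_eq hcard
  have hex : ∀ i : Fin e, ∃ v : Fin e → F, pol n (M.mulVec v) ≠ 0 ∧
      (pol n (M.mulVec v)).natDegree = D'.orderEmbOfFin hc i := by
    intro i
    exact (mem_filter.1 (hD' (Finset.orderEmbOfFin_mem D' hc i))).2
  choose g hg using hex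
  exact ⟨fun i => D'.orderEmbOfFin hc i, g, (D'.orderEmbOfFin hc).strictMono, hg⟩

theorem perm_eq_one {e : ℕ} (σ : Equiv.Perm (Fin e)) (h : Monotone σ) : σ = 1 := by
  have hs : StrictMono σ := h.strictMono_of_injective σ.injective
  have h1 : (StrictMono.orderIsoOfSurjective σ hs σ.surjective) = OrderIso.refl (Fin e) :=
    Subsingleton.elim _ _
  ext i
  have h2 := congrArg (fun f : Fin e ≃o Fin e => ((f i : Fin e) : ℕ)) h1
  exact h2

theorem rearr {e : ℕ} (d : Fin e → ℕ) (hd : StrictMono d) (σ : Equiv.Perm (Fin e))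
    (hσ : σ ≠ 1) : ∑ i : Fin e, (((σ i : Fin e) : ℕ) + 1) * d i < ∑ i : Fin e, ((i : ℕ) + 1) * d i := by
  have hf : Monovary (fun i : Fin e => (i : ℕ) + 1) d := by
    intro i j hij
    have : i < j := hd.lt_iff_lt.1 hij
    have := Fin.lt_def.1 this
    simp only
    omega
  refine (hf.sum_comp_perm_mul_lt_sum_mul_iff (σ := σ)).2 fun hm => hσ (perm_eq_one σ ?_)
  intro i j hij
  rcases hij.eq_or_lt with rfl | hlt
  · exact le_rfl
  · have h := hm (hd hlt)
    simp only [Function.comp_apply] at h
    rw [Fin.le_def]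
    omega

theorem det_ne {e : ℕ} (u : Fin e → F[X]) (d : Fin e → ℕ) (hd : StrictMono d)
    (hu : ∀ i, u i ≠ 0 ∧ (u i).natDegree = d i) :
    (Matrix.of fun a c : Fin e => expand F ((a : ℕ) + 1) (u c)).det ≠ 0 := by
  intro h0
  have hne : ∀ (a : ℕ) (c : Fin e), expand F (a + 1) (u c) ≠ 0 := fun a c =>
    (expand_ne_zero (Nat.succ_pos a)).2 (hu c).1
  have hcoef : (Matrix.of fun a c : Fin e => expand F ((a : ℕ) + 1) (u c)).det.coeff
      (∑ i : Fin e, ((i : ℕ) + 1) * d i) ≠ 0 := by
    rw [Matrix.det_apply, finsetSum_coeff, Finset.sum_eq_single 1]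
    · rw [Equiv.Perm.sign_one, one_smul]
      simp only [Equiv.Perm.coe_one, id, Matrix.of_apply]
      have h1 : (∏ x : Fin e, expand F ((x : ℕ) + 1) (u x)).natDegree =
          ∑ i : Fin e, ((i : ℕ) + 1) * d i := by
        rw [natDegree_prod _ _ fun i _ => hne _ _]
        exact Finset.sum_congr rfl fun i _ => by rw [natDegree_expand, (hu i).2, mul_comm]
      rw [← h1, coeff_natDegree, Ne, leadingCoeff_eq_zero]
      exact Finset.prod_ne_zero_iff.2 fun i _ => hne _ _
    · intro σ _ hσ
      have h1 : (∏ x : Fin e, expand F (((σ x : Fin e) : ℕ) + 1) (u x)).natDegree <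
          ∑ i : Fin e, ((i : ℕ) + 1) * d i := by
        rw [natDegree_prod _ _ fun i _ => hne _ _]
        refine lt_of_eq_of_lt (Finset.sum_congr rfl fun i _ => ?_) (rearr d hd σ hσ)
        rw [natDegree_expand, (hu i).2, mul_comm]
      simp only [Matrix.of_apply]
      rw [coeff_smul, coeff_eq_zero_of_natDegree_lt h1, smul_zero]
    · exact fun h => absurd (mem_univ _) h
  rw [h0, coeff_zero] at hcoef
  exact hcoef rfl

theorem cond [CharZero F] (n e : ℕ) (M : Matrix (Fin n) (Fin e) F)
    (hM : Function.Injective M.mulVec) :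
    ∃ t < n * n * n + 1,
      ((Matrix.of fun (a : Fin e) (c : Fin n) => ((t : ℕ) : F) ^ (((a : ℕ) + 1) * (c : ℕ))) *
        M).det ≠ 0 := by
  classical
  have hen : e ≤ n := by
    have h := LinearMap.finrank_le_finrank_of_injective (f := M.mulVecLin) hM
    rwa [Module.finrank_fin_fun, Module.finrank_fin_fun] at h
  let A : Matrix (Fin e) (Fin e) F[X] :=
    Matrix.of fun a c => expand F ((a : ℕ) + 1) (pol n (fun j => M j c))
  have hA : A.det ≠ 0 := by
    obtain ⟨d, g, hd, hg⟩ := exists_deg M hM
    intro h0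
    refine det_ne (fun i => pol n (M.mulVec (g i))) d hd hg ?_
    have h1 : (Matrix.of fun a c : Fin e => expand F ((a : ℕ) + 1) (pol n (M.mulVec (g c)))) =
        A * (Matrix.of fun c i : Fin e => C (g i c)) := by
      refine Matrix.ext fun a i => ?_
      rw [Matrix.mul_apply, Matrix.of_apply]
      have h2 : M.mulVec (g i) = ∑ c, g i c • fun j => M j c := by
        funext j
        rw [Matrix.mulVec, dotProduct, Finset.sum_apply]
        exact Finset.sum_congr rfl fun c _ => by rw [Pi.smul_apply, smul_eq_mul, mul_comm]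
      rw [h2, map_sum, map_sum]
      refine Finset.sum_congr rfl fun c _ => ?_
      rw [map_smul, smul_eq_C_mul, map_mul, expand_C, mul_comm]
      rfl
    rw [h1, Matrix.det_mul, h0, zero_mul]
  have hdeg : A.det.natDegree ≤ n * n * n := by
    rw [Matrix.det_apply]
    refine natDegree_sum_le_of_forall_le _ _ fun σ _ => ?_
    refine (natDegree_smul_le _ _).trans ((natDegree_prod_le _ _).trans ?_)
    calc ∑ i : Fin e, (A (σ i) i).natDegree ≤ ∑ i : Fin e, n * n := by
          refine Finset.sum_le_sum fun i _ => ?_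
          change (expand F _ (pol n _)).natDegree ≤ _
          rw [natDegree_expand, mul_comm]
          refine Nat.mul_le_mul ?_ ((natDegree_pol _).trans (by omega))
          have := (σ i).isLt
          omega
      _ = e * (n * n) := by rw [Finset.sum_const, card_univ, Fintype.card_fin, smul_eq_mul]
      _ ≤ n * n * n := by
          rw [mul_comm]
          exact Nat.mul_le_mul_left _ hen
  by_contra hcon
  push Not at hcon
  apply hA
  refine eq_zero_of_natDegree_lt_card_of_eval_eq_zero' A.det
    ((range (n * n * n + 1)).image (fun t : ℕ => (t : F))) ?_ ?_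
  · intro x hx
    obtain ⟨t, ht, rfl⟩ := mem_image.1 hx
    have h1 := hcon t (mem_range.1 ht)
    rw [← h1]
    have h2 : eval ((t : ℕ) : F) A.det = (evalRingHom ((t : ℕ) : F)) A.det := rfl
    rw [h2, RingHom.map_det]
    congr 1
    refine Matrix.ext fun a c => ?_
    rw [RingHom.mapMatrix_apply, Matrix.map_apply, Matrix.mul_apply]
    change eval _ (expand F _ (pol n _)) = _
    rw [expand_eval, eval_pol]
    refine Finset.sum_congr rfl fun j _ => ?_
    rw [Matrix.of_apply, ← pow_mul, mul_comm]
  · rw [card_image_of_injective _ Nat.cast_injective, card_range]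
    omega

end CondAux

/-- (Cond) -/
theorem stCond : StCond := by
  intro F _ _ n e M hM
  exact CondAux.cond n e M hM

end Pool.Agent.Lib.MP_64d474_lc.ST4
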