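import Pool.Agent.Lib.MP_64d474_lc.ST4.Stmts4
import Pool.Agent.Lib.MP_64d474_lc.ST.Prime
import Pool.Agent.Lib.MP_64d474_lc.ST.IsPrime

/-!
# Counting primes
-/

set_option autoImplicit false

open Pool.Agent.Lib.MP_64d474_lc.ST

namespace Pool.Agent.Lib.MP_64d474_lc.ST4

namespace CountP

/-- A polynomial is smaller than an exponential function. -/
lemma poly_le (k : ℕ) (hk : 64 ≤ k) :
    1024 * (((4 * k + 4) * (4 * k + 4) + 1) * ((4 * k + 4) * (4 * k + 4) + 1)) ≤ 2 ^ k := by
  induction k, hk using Nat.le_induction with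
  | base => norm_num
  | succ k hk ih =>
    rw [pow_succ]
    have h1 : ((4 * (k + 1) + 4) * (4 * (k + 1) + 4) + 1) *
        ((4 * (k + 1) + 4) * (4 * (k + 1) + 4) + 1) ≤
        2 * (((4 * k + 4) * (4 * k + 4) + 1) * ((4 * k + 4) * (4 * k + 4) + 1)) := by
      set a := (4 * k + 4) * (4 * k + 4) + 1 with ha
      have e : (4 * (k + 1) + 4) * (4 * (k + 1) + 4) + 1 = a + (32 * k + 48) := by
        rw [ha]; ring
      rw [e]
      have h2 : 4 * (32 * k + 48) ≤ a := by
        rw [ha]; nlinarith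
      nlinarith
    omega

lemma len_le_pow (l : List ℕ) (B : ℕ) (h : ∀ x ∈ l, x ≤ B) : l.prod ≤ B ^ l.length :=
  List.prod_le_pow_card l B h

lemma kD_ge (L : ℕ) : 64 ≤ kD L := by
  have h1 : 0 < (L + 2) * (L + 2) * ((L + 2) * (L + 2) * ((L + 2) * (L + 2))) := by
    have h2 : 0 < (L + 2) * (L + 2) := Nat.mul_pos (Nat.succ_pos _) (Nat.succ_pos _)
    exact Nat.mul_pos h2 (Nat.mul_pos h2 h2)
  unfold kD
  generalize (L + 2) * (L + 2) * ((L + 2) * (L + 2) * ((L + 2) * (L + 2))) = x at h1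
  omega

lemma bD_le (L : ℕ) : bD L ≤ 2 ^ kD L := by
  have h := poly_le (kD L) (kD_ge L)
  unfold bD KD
  generalize kD L = k at h ⊢
  exact h

lemma bD_ne (L : ℕ) : bD L ≠ 0 := by
  unfold bD
  generalize KD L = k
  have h2 : 0 < (k + 1) * (k + 1) := Nat.mul_pos (Nat.succ_pos _) (Nat.succ_pos _)
  omega

lemma KD_gt (L : ℕ) : kD L * (3 * kD L) < KD L := by
  unfold KD
  generalize kD L = k
  nlinarith

end CountP

theorem stCount : StCount := by
  refine ⟨fun L => ?_, fun B k D hD hlt => ?_⟩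
  · by_contra hcon
    rw [not_le] at hcon
    set l := (List.range (bD L)).filter fun p => isPrime (p + 1) with hl
    have hlen : l.length ≤ 3 * kD L := by omega
    set P : ℕ := (l.map fun p => p + 1).prod with hP
    have hk : 64 ≤ kD L := CountP.kD_ge L
    have hpoly : bD L ≤ 2 ^ kD L := CountP.bD_le L
    have hPle : P ≤ bD L ^ l.length := by
      have h1 := CountP.len_le_pow (l.map fun p => p + 1) (bD L) (by
        intro x hx
        obtain ⟨p, hp, rfl⟩ := List.mem_map.1 hx
        have := List.mem_range.1 (List.mem_filter.1 hp).1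
        omega)
      rwa [List.length_map] at h1
    have hPpos : P ≠ 0 := by
      rw [hP]
      intro h0
      obtain ⟨p, _, hp⟩ := List.mem_map.1 (List.prod_eq_zero_iff.1 h0)
      omega
    have hlt : (P : ℤ).natAbs < 2 ^ KD L := by
      rw [Int.natAbs_natCast]
      have h0 : bD L ≠ 0 := CountP.bD_ne L
      calc P ≤ bD L ^ l.length := hPle
        _ ≤ bD L ^ (3 * kD L) := Nat.pow_le_pow_right (Nat.pos_of_ne_zero h0) hlen
        _ ≤ (2 ^ kD L) ^ (3 * kD L) := Nat.pow_le_pow_left hpoly _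
        _ = 2 ^ (kD L * (3 * kD L)) := by rw [← pow_mul]
        _ < 2 ^ KD L := Nat.pow_lt_pow_right (by norm_num) (CountP.KD_gt L)
    obtain ⟨p, hp1, hp2, hp3⟩ := stPrime (KD L) (P : ℤ) (by exact_mod_cast hPpos) hlt
    refine hp3 ?_
    have hmem : p ∈ l.map fun p => p + 1 := by
      refine List.mem_map.2 ⟨p - 1, List.mem_filter.2 ⟨List.mem_range.2 ?_, ?_⟩, ?_⟩
      · have := hp2.pos
        have h2 : p ≤ bD L := hp1
        omega
      · have h3 : p - 1 + 1 = p := Nat.succ_pred_eq_of_pos hp2.pos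
        rw [h3]
        exact (stIsPrime p).2 hp2
      · exact Nat.succ_pred_eq_of_pos hp2.pos
    exact_mod_cast List.dvd_prod hmem
  · set l := (List.range B).filter fun p =>
      isPrime (p + 1) && decide (((p + 1 : ℕ) : ℤ) ∣ D) with hl
    have hnd : (l.map fun p => p + 1).Nodup := by
      refine List.Nodup.map (fun a b h => by simpa using h) ?_
      exact List.Nodup.filter _ List.nodup_range
    set s := (l.map fun p => p + 1).toFinset with hs
    have hcard : s.card = l.length := by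
      rw [hs, List.toFinset_card_of_nodup hnd, List.length_map]
    have hmem : ∀ a ∈ s, a.Prime ∧ a ∣ D.natAbs := by
      intro a ha
      rw [hs, List.mem_toFinset] at ha
      obtain ⟨p, hp, rfl⟩ := List.mem_map.1 ha
      have h1 := (List.mem_filter.1 hp).2
      rw [Bool.and_eq_true, decide_eq_true_eq] at h1
      refine ⟨(stIsPrime _).1 h1.1, ?_⟩
      have h2 := Int.natAbs_dvd_natAbs.2 h1.2
      rwa [Int.natAbs_natCast] at h2
    have hdvd : ∏ p ∈ s, p ∣ D.natAbs :=
      Finset.prod_primes_dvd D.natAbs (fun a ha => (hmem a ha).1.prime) fun a ha => (hmem a ha).2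
    have hle : ∏ p ∈ s, p ≤ D.natAbs :=
      Nat.le_of_dvd (Int.natAbs_pos.2 hD) hdvd
    have h2 : 2 ^ s.card ≤ ∏ p ∈ s, p :=
      Finset.pow_card_le_prod s (fun p => p) 2 fun a ha => (hmem a ha).1.two_le
    have h3 : 2 ^ s.card < 2 ^ k := lt_of_le_of_lt (h2.trans hle) hlt
    have h4 := (Nat.pow_lt_pow_iff_right (by norm_num : 1 < 2)).1 h3
    omega

end Pool.Agent.Lib.MP_64d474_lc.ST4
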