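import Pool.Agent.Lib.MP_64d474_lc.ST4.Stmts4
import Pool.Agent.Lib.MP_64d474_lc.ST.Rank
import Pool.Agent.Lib.MP_64d474_lc.ST.Gen
import Pool.Agent.Lib.MP_64d474_lc.ST.Sizes

/-!
# The integral coefficient matrices: sizes, span and determinant
-/

set_option autoImplicit false

open Finset Module Pool.Agent.Lib.PT Pool.Agent.Lib.MP_64d474_lc.ST

namespace Pool.Agent.Lib.MP_64d474_lc.ST4

namespace CzAux

theorem cast_coef (e : List (ℤ × ℕ)) (k : ℕ) :
    (((e.map fun f => if f.2 = k then f.1 else 0).sum : ℤ) : ℚ) =
      (e.map fun p => if p.2 = k then (p.1 : ℚ) else 0).sum := by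
  induction e with
  | nil => simp
  | cons q e ih =>
    rw [List.map_cons, List.sum_cons, List.map_cons, List.sum_cons, Int.cast_add, ih]
    by_cases h : q.2 = k
    · rw [if_pos h, if_pos h]
    · rw [if_neg h, if_neg h, Int.cast_zero]

theorem czF_pos {A : SMat} {q : Fin (varsN A).length}
    (h : (varsN A).idxOf ((varsN A).get q) = q) (i j : Fin A.length) :
    czF A q i j = (((A.getD i []).getD j []).map fun f =>
      if f.2 = (varsN A).get q then f.1 else 0).sum := by
  have h1 : czF A q = fun i j : Fin A.length => (((A.getD i []).getD j []).map fun f =>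
      if f.2 = (varsN A).get q then f.1 else 0).sum := if_pos h
  exact congrFun (congrFun h1 i) j

theorem czF_neg {A : SMat} {q : Fin (varsN A).length}
    (h : ¬(varsN A).idxOf ((varsN A).get q) = q) : czF A q = 0 := if_neg h

theorem czF_map (A : SMat) (q : Fin (varsN A).length) :
    (czF A q).map (Int.cast : ℤ → ℚ) = mats A q := by
  ext i j
  rw [Matrix.map_apply, mats]
  by_cases h : (varsN A).idxOf ((varsN A).get q) = q
  · rw [if_pos h, czF_pos h]
    exact cast_coef _ _
  · rw [if_neg h, czF_neg h, Matrix.zero_apply, Matrix.zero_apply, Int.cast_zero]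

theorem abs_coef (e : List (ℤ × ℕ)) (k : ℕ) (B : ℤ) (hB : 0 ≤ B) (h : ∀ p ∈ e, |p.1| ≤ B) :
    |(e.map fun f => if f.2 = k then f.1 else 0).sum| ≤ e.length * B := by
  induction e with
  | nil => simp
  | cons q e ih =>
    rw [List.map_cons, List.sum_cons, List.length_cons]
    have h1 := ih fun p hp => h p (List.mem_cons_of_mem _ hp)
    have h2 : |(if q.2 = k then q.1 else 0 : ℤ)| ≤ B := by
      by_cases hq : q.2 = k
      · rw [if_pos hq]
        exact h q List.mem_cons_self
      · rw [if_neg hq, abs_zero]
        exact hB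
    refine (abs_add_le _ _).trans ?_
    push_cast
    linarith

theorem mem_getD {α : Type} (l : List (List α)) (i : ℕ) : l.getD i [] ∈ l ∨ l.getD i [] = [] := by
  by_cases hi : i < l.length
  · rw [List.getD_eq_getElem _ _ hi]
    exact Or.inl (List.getElem_mem hi)
  · exact Or.inr (List.getD_eq_default _ _ (not_lt.1 hi))

theorem abs_czF (A : SMat) (q : Fin (varsN A).length) (i j : Fin A.length) :
    |czF A q i j| ≤ 2 ^ (2 * (code A).length) := by
  obtain ⟨-, -, -, -, hlen, hcoef⟩ := stSizes A
  by_cases h : (varsN A).idxOf ((varsN A).get q) = q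
  · rw [czF_pos h]
    have key : ∀ e : List (ℤ × ℕ), e.length ≤ (code A).length →
        (∀ p ∈ e, p.1.natAbs < 2 ^ (code A).length) →
        |(e.map fun f => if f.2 = (varsN A).get q then f.1 else 0).sum| ≤
          2 ^ (2 * (code A).length) := by
      intro e he1 he2
      have h1 := abs_coef e ((varsN A).get q) (2 ^ (code A).length) (by positivity)
        fun p hp => by
          have h2 := he2 p hp
          rw [Int.abs_eq_natAbs]
          exact_mod_cast h2.le
      refine h1.trans ?_
      have h3 : (e.length : ℤ) ≤ 2 ^ (code A).length := by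
        exact_mod_cast (he1.trans Nat.lt_two_pow_self.le)
      calc (e.length : ℤ) * 2 ^ (code A).length
          ≤ 2 ^ (code A).length * 2 ^ (code A).length :=
            mul_le_mul_of_nonneg_right h3 (by positivity)
        _ = 2 ^ (2 * (code A).length) := by rw [← pow_add, two_mul]
    rcases mem_getD A i with h1 | h1
    · rcases mem_getD (A.getD i []) j with h2 | h2
      · exact key _ (hlen _ h1 _ h2) (hcoef _ h1 _ h2)
      · rw [h2]
        exact key [] (Nat.zero_le _) fun p hp => absurd hp List.not_mem_nil
    · rw [h1]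
      exact key [] (Nat.zero_le _) fun p hp => absurd hp List.not_mem_nil
  · rw [czF_neg h, Matrix.zero_apply, abs_zero]
    positivity

theorem abs_czB (A : SMat) (b : Bool) (q : Fin (varsN A).length) (i j : Fin A.length) :
    |czB b A q i j| ≤ 2 ^ (2 * (code A).length) := by
  cases b
  · exact abs_czF A q i j
  · exact abs_czF A q j i

theorem spn_false (A : SMat) :
    spn ℚ (czB false A) = Submodule.span ℚ (Set.range (mats A)) := by
  have h : (fun q => (czB false A q).map (Int.cast : ℤ → ℚ)) = mats A := by
    funext q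
    exact czF_map A q
  rw [spn, h]

theorem spn_true (A : SMat) : spn ℚ (czB true A) = (spn ℚ (czB false A)).map tp := by
  rw [spn, spn, Submodule.map_span, ← Set.range_comp]
  rfl

theorem mats_first {A : SMat} {k : ℕ} (h : (varsN A).idxOf k < (varsN A).length) :
    mats A ⟨(varsN A).idxOf k, h⟩ = coefMat A k := by
  have h2 : (varsN A).get ⟨(varsN A).idxOf k, h⟩ = k := by
    rw [List.get_eq_getElem]
    exact List.getElem_idxOf h
  rw [mats, h2, if_pos rfl]

theorem coefMat_zero {A : SMat} {k : ℕ} (h : k ∉ varsN A) : coefMat A k = 0 := by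
  ext i j
  rw [coefMat, Matrix.zero_apply]
  apply List.sum_eq_zero
  intro x hx
  obtain ⟨p, hp, rfl⟩ := List.mem_map.1 hx
  rw [if_neg]
  rintro rfl
  exact h (Rankm.mem_varsN A i j p hp)

theorem span_coef (A : SMat) : Submodule.span ℚ (Set.range (mats A)) =
    Submodule.span ℚ (Set.range (ST3.coefMatrix A)) := by
  apply le_antisymm
  · rw [Submodule.span_le]
    rintro _ ⟨q, rfl⟩
    rw [mats]
    by_cases h : (varsN A).idxOf ((varsN A).get q) = q
    · rw [if_pos h]
      exact Submodule.subset_span ⟨(varsN A).get q, rfl⟩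
    · rw [if_neg h]
      exact Submodule.zero_mem _
  · rw [Submodule.span_le]
    rintro _ ⟨k, rfl⟩
    show coefMat A k ∈ Submodule.span ℚ (Set.range (mats A))
    by_cases h : k ∈ varsN A
    · rw [← mats_first (List.idxOf_lt_length_iff.2 h)]
      exact Submodule.subset_span ⟨_, rfl⟩
    · rw [coefMat_zero h]
      exact Submodule.zero_mem _

theorem eval_det (A : SMat) (x : ℕ → ℚ) :
    MvPolynomial.eval₂Hom (Int.castRingHom ℚ) x (toMat A).det = (evalM A x).det := by
  rw [RingHom.map_det]
  congr 1
  ext i j
  show MvPolynomial.eval₂Hom (Int.castRingHom ℚ) x (form _) = evalE x _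
  unfold form evalE
  rw [map_list_sum, List.map_map]
  congr 1
  refine List.map_congr_left fun p _ => ?_
  show MvPolynomial.eval₂Hom (Int.castRingHom ℚ) x
    (MvPolynomial.C p.1 * MvPolynomial.X p.2) = (p.1 : ℚ) * x p.2
  rw [map_mul, MvPolynomial.eval₂Hom_C, MvPolynomial.eval₂Hom_X']
  rfl

theorem det_iff (A : SMat) (hA : ∀ r ∈ A, r.length = A.length) :
    (toMat A).det ≠ 0 ↔ ∃ X ∈ Submodule.span ℚ (Set.range (mats A)), X.det ≠ 0 := by
  constructor
  · intro h
    obtain ⟨x, hx⟩ := stGen A h
    refine ⟨evalM A x, ?_, hx⟩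
    rw [(stRank A hA).2 x]
    exact Submodule.sum_mem _ fun j _ =>
      Submodule.smul_mem _ _ (Submodule.subset_span ⟨j, rfl⟩)
  · rintro ⟨X, hX, hdet⟩ h0
    obtain ⟨y, hy⟩ := (Submodule.mem_span_range_iff_exists_fun ℚ).1 hX
    let x : ℕ → ℚ := fun k =>
      if h : (varsN A).idxOf k < (varsN A).length then y ⟨(varsN A).idxOf k, h⟩ else 0
    have hx : evalM A x = X := by
      rw [(stRank A hA).2 x, ← hy]
      refine Finset.sum_congr rfl fun j _ => ?_
      by_cases h : (varsN A).idxOf ((varsN A).get j) = j
      · have h1 : x ((varsN A).get j) = y j := by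
          show (if h : (varsN A).idxOf ((varsN A).get j) < (varsN A).length then
            y ⟨(varsN A).idxOf ((varsN A).get j), h⟩ else 0) = y j
          have h2 : (varsN A).idxOf ((varsN A).get j) < (varsN A).length := by
            rw [h]
            exact j.2
          rw [dif_pos h2]
          congr 1
          exact Fin.ext h
        rw [h1]
      · rw [mats, if_neg h, smul_zero, smul_zero]
    apply hdet
    rw [← hx, ← eval_det, h0, map_zero]

end CzAux

open CzAux in
/-- **(Cz)** -/
theorem stCz : StCz := by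
  intro A hA
  refine ⟨fun b q i j => abs_czB A b q i j, spn_true A, ?_, ?_⟩
  · rw [spn_false, span_coef]
    rfl
  · rw [spn_false]
    exact det_iff A hA

end Pool.Agent.Lib.MP_64d474_lc.ST4
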