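import Pool.Agent.Lib.MP_64d474_lc.ST3.Defs3

/-!
# The span of the coefficient matrices
-/

set_option autoImplicit false

open Pool.Agent.Lib.MP_64d474_lc.ST

namespace Pool.Agent.Lib.MP_64d474_lc.ST4

/-- The dimension of the span of the coefficient matrices. -/
noncomputable def spanDim (A : SMat) : ℕ :=
  Module.finrank ℚ (Submodule.span ℚ (Set.range (ST3.coefMatrix A)))

end Pool.Agent.Lib.MP_64d474_lc.ST4
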