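import Pool.Agent.Lib.MP_64d474_lc.ST4.Stmts4
import Pool.Agent.Lib.MP_64d474_lc.SubExp.Grid

/-!
# Fourth machine, module `Deg`: the entries of a local optimum
-/

set_option autoImplicit false

open Finset Module

namespace Pool.Agent.Lib.MP_64d474_lc.ST4

namespace DegAux

variable {F : Type} [Field F] {n h : ℕ}

theorem chg_eq (G : Matrix (Fin h) (Fin n) F) (i : Fin h) (j : Fin n) (t : F) :
    chg G i j t = chg G i j 0 + t • Matrix.single i j (1 : F) := by
  ext a c
  rw [Matrix.add_apply, Matrix.smul_apply]
  by_cases hac : a = i ∧ c = j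
  · obtain ⟨rfl, rfl⟩ := hac
    rw [Matrix.single_apply_same]
    simp [chg]
  · rw [Matrix.single_apply_of_ne]
    · simp [chg, hac]
    · rintro ⟨rfl, rfl⟩
      exact hac ⟨rfl, rfl⟩

theorem single_mul_eq (i : Fin h) (j : Fin n) (M : Matrix (Fin n) (Fin n) F) :
    Matrix.single i j (1 : F) * M = ∑ c, M j c • Matrix.single i c (1 : F) := by
  ext a c
  rw [Matrix.sum_apply]
  simp only [Matrix.smul_apply, smul_eq_mul]
  by_cases ha : a = i
  · subst ha
    rw [Matrix.single_mul_apply_same, one_mul, Finset.sum_eq_single c]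
    · rw [Matrix.single_apply_same, mul_one]
    · intro b _ hb
      rw [Matrix.single_apply_of_ne, mul_zero]
      rintro ⟨-, h2⟩
      exact hb h2
    · intro hc
      exact absurd (Finset.mem_univ c) hc
  · rw [Matrix.single_mul_apply_of_ne _ _ _ _ _ ha]
    symm
    refine Finset.sum_eq_zero fun b _ => ?_
    rw [Matrix.single_apply_of_ne, mul_zero]
    rintro ⟨h1, -⟩
    exact ha h1.symm

/-- the dimension of the image under a pencil `A + t B` whose second member has small rank -/
theorem pencil {W : Type} [AddCommGroup W] [Module F W] [FiniteDimensional F W] [CharZero F]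
    (V : Submodule F (Matrix (Fin n) (Fin n) F)) (T : F → Matrix (Fin n) (Fin n) F →ₗ[F] W)
    (T₀ : Matrix (Fin n) (Fin n) F →ₗ[F] W) (u : Fin n → W) (j : Fin n)
    (hT : ∀ t M, T t M = T₀ M + t • ∑ c, M j c • u c) (r : ℕ) (t : F)
    (hr : r ≤ finrank F (V.map (T t))) : ∃ v : ℕ, v ≤ n ∧ r ≤ finrank F (V.map (T (v : F))) := by
  classical
  obtain ⟨w, hw⟩ := exists_linearIndependent_of_le_finrank (R := F) (M := V.map (T t)) hr
  have hM : ∀ q, ∃ M ∈ V, T t M = (w q : W) := fun q => (w q).2
  choose M hMV hMw using hM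
  have hli : LinearIndependent F (fun q => T t (M q)) := by
    have h1 : LinearIndependent F (fun q => ((w q : V.map (T t)) : W)) :=
      hw.map' (V.map (T t)).subtype (Submodule.ker_subtype _)
    have h2 : (fun q => T t (M q)) = fun q => ((w q : V.map (T t)) : W) := funext hMw
    rw [h2]
    exact h1
  obtain ⟨g, hg⟩ : ∃ g : W →ₗ[F] (Fin r → F), ∀ q, g (T t (M q)) = Pi.single q 1 := by
    obtain ⟨g, hg⟩ := (Fintype.linearCombination F (fun q => T t (M q))).exists_leftInverse_of_injective
      (by
        rw [LinearMap.ker_eq_bot']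
        intro y hy
        rw [Fintype.linearCombination_apply] at hy
        exact funext (Fintype.linearIndependent_iff.1 hli y hy))
    refine ⟨g, fun q => ?_⟩
    have h1 := LinearMap.congr_fun hg (Pi.single q 1)
    rw [LinearMap.comp_apply, LinearMap.id_apply, Fintype.linearCombination_apply_single,
      one_smul] at h1
    exact h1
  let B₀ : Matrix (Fin r) (Fin r) F := Matrix.of fun l q => g (T₀ (M q)) l
  let U : Matrix (Fin r) (Fin n) F := Matrix.of fun l c => g (u c) l
  let U' : Matrix (Fin n) (Fin r) F := Matrix.of fun c q => M q j c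
  have hD : ∀ t' : F, B₀ + t' • (U * U') = Matrix.of fun l q => g (T t' (M q)) l := by
    intro t'
    ext l q
    rw [Matrix.add_apply, Matrix.smul_apply, Matrix.mul_apply, Matrix.of_apply, hT, map_add,
      map_smul, map_sum, Pi.add_apply, Pi.smul_apply, Finset.sum_apply]
    congr 2
    refine Finset.sum_congr rfl fun c _ => ?_
    rw [map_smul, Pi.smul_apply, smul_eq_mul, mul_comm]
    rfl
  obtain ⟨v, hv, hdet⟩ := SubExp.exists_nat_le (m := 1) (fun _ => n) B₀ (fun _ => U * U')
    (fun _ => U) (fun _ => U') (fun _ => rfl) (fun _ => Polynomial.X) 1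
    (fun _ => Polynomial.natDegree_X_le) t (by
      rw [Fin.sum_univ_one, Polynomial.eval_X, hD]
      have h1 : (Matrix.of fun l q => g (T t (M q)) l) = (1 : Matrix (Fin r) (Fin r) F) := by
        ext l q
        rw [Matrix.of_apply, hg, Matrix.one_apply, Pi.single_apply]
      rw [h1, Matrix.det_one]
      exact one_ne_zero)
  refine ⟨v, by simpa using hv, ?_⟩
  rw [Fin.sum_univ_one, Polynomial.eval_X, hD] at hdet
  have hli' : LinearIndependent F (fun q => T (v : F) (M q)) := by
    rw [Fintype.linearIndependent_iff]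
    intro y hy
    have h1 : (Matrix.of fun l q => g (T (v : F) (M q)) l).mulVec y = 0 := by
      funext l
      have h2 := congrFun (congrArg g hy) l
      rw [map_sum, Finset.sum_apply, map_zero, Pi.zero_apply] at h2
      rw [Matrix.mulVec, dotProduct, Pi.zero_apply, ← h2]
      refine Finset.sum_congr rfl fun q _ => ?_
      rw [map_smul, Pi.smul_apply, smul_eq_mul, mul_comm, Matrix.of_apply]
    have h3 := Matrix.eq_zero_of_mulVec_eq_zero hdet h1
    exact fun q => congrFun h3 q
  have hli2 : LinearIndependent F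
      (fun q => (⟨T (v : F) (M q), Submodule.mem_map_of_mem (hMV q)⟩ : V.map (T (v : F)))) :=
    LinearIndependent.of_comp (V.map (T (v : F))).subtype hli'
  have h4 := hli2.fintype_card_le_finrank
  rwa [Fintype.card_fin] at h4

end DegAux

open DegAux in
/-- Module `Deg` -/
theorem stDeg : StDeg := by
  intro F _ _ n h V G hLO i j t
  by_contra hlt
  rw [not_le] at hlt
  obtain ⟨v, hv, hr⟩ := pencil V (fun t => gl (chg G i j t)) (gl (chg G i j 0))
    (fun c => Matrix.single i c (1 : F)) j (fun t M => by
      change chg G i j t * M = chg G i j 0 * M + t • _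
      rw [chg_eq, Matrix.add_mul, Matrix.smul_mul, single_mul_eq]) _ t hlt
  have h1 := hLO i j v hv
  omega

end Pool.Agent.Lib.MP_64d474_lc.ST4
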