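import Pool.Agent.Lib.MP_64d474_lc.ST4.Stmts4
import Pool.Agent.Lib.MP_64d474_lc.ST2.Hit2

/-!
# Dense: spaces of matrices of small codimension
-/

set_option autoImplicit false

open Finset Module Pool.Agent.Lib.PT Pool.Agent.Lib.MP_64d474_lc.ST

namespace Pool.Agent.Lib.MP_64d474_lc.ST4

namespace DenseAux

/-- the bound of the dimension -/
theorem dim_le {n k e : ℕ} (hn : 3 ≤ n) (hk : 16 * k ≤ n * n)
    (h : e * (n - (2 * k / n + 1)) ≤ k) : e ≤ 2 * k / n := by
  set q := 2 * k / n with hq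
  have h1 : n * q ≤ 2 * k := Nat.mul_div_le _ _
  have h2 : 2 * k < n * (q + 1) := by
    have := Nat.lt_mul_div_succ (2 * k) (show 0 < n by omega)
    simpa [hq] using this
  have h3 : 8 * q ≤ n := by
    by_contra hc
    push Not at hc
    have h4 : n * n < n * (8 * q) := Nat.mul_lt_mul_of_pos_left hc (by omega)
    have h5 : n * (8 * q) = 8 * (n * q) := by ring
    omega
  have h4 : 2 * (q + 1) ≤ n := by
    rcases Nat.eq_zero_or_pos q with h0 | h0
    · omega
    · omega
  by_contra hc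
  push Not at hc
  have h5 : (q + 1) * (n - (q + 1)) ≤ k := le_trans (Nat.mul_le_mul_right _ hc) h
  have h6 : (q + 1) * n ≤ (q + 1) * (2 * (n - (q + 1))) := Nat.mul_le_mul_left _ (by omega)
  have h7 : (q + 1) * (2 * (n - (q + 1))) = 2 * ((q + 1) * (n - (q + 1))) := by ring
  have h8 : n * (q + 1) = (q + 1) * n := by ring
  omega

/-- the codimension is small enough -/
theorem codim_le {n k : ℕ} (hn : 3 ≤ n) (hk : 16 * k ≤ n * n) :
    k + (2 * k / n + 1) * n ≤ n * n := by
  set q := 2 * k / n with hq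
  have h1 : n * q ≤ 2 * k := Nat.mul_div_le _ _
  have h2 : (q + 1) * n = n * q + n := by ring
  have h3 : 3 * n ≤ n * n := Nat.mul_le_mul_right _ hn
  omega

theorem tp_inj {F : Type} [Field F] {n : ℕ} :
    Function.Injective (tp : Matrix (Fin n) (Fin n) F →ₗ[F] Matrix (Fin n) (Fin n) F) := by
  intro x y h
  exact Matrix.transpose_injective h

theorem finrank_tp {F : Type} [Field F] {n : ℕ} (V : Submodule F (Matrix (Fin n) (Fin n) F)) :
    finrank F (V.map tp) = finrank F V :=
  (LinearEquiv.finrank_eq (Submodule.equivMapOfInjective tp tp_inj V)).symm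

end DenseAux

open DenseAux in
/-- (Dense) -/
theorem stDense (h1 : StTop) (h2 : StGenA) (h3 : StLemK) (h4 : StDimE) : StDense := by
  classical
  intro F _ _ n k V G G' hn hk hV hG hG'
  have hc := codim_le hn hk
  have hV' : n * n = finrank F (V.map tp) + k := by rw [finrank_tp]; exact hV
  refine ⟨dim_le hn hk (h4 F n _ k V G hG (Nat.le_add_left 1 _) hV hc),
    dim_le hn hk (h4 F n _ k (V.map tp) G' hG' (Nat.le_add_left 1 _) hV' hc), fun hI hI' => ?_⟩
  obtain ⟨A, hA, hmax, hE, hE'⟩ := h2 F n V (EE V G) (EE (V.map tp) G') hI hI'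
  refine ⟨A, hA, ?_⟩
  by_cases hr : n ≤ A.rank
  · exact ST2.det_ne_zero_of_rank A hr
  · exfalso
    push Not at hr
    have hdet : A.det = 0 := by
      by_contra h0
      have h5 := Matrix.rank_of_isUnit A ((Matrix.isUnit_iff_isUnit_det A).2 (Ne.isUnit h0))
      rw [Fintype.card_fin] at h5
      omega
    obtain ⟨ξ, hξ, hξ0⟩ := Matrix.exists_mulVec_eq_zero_iff.2 hdet
    obtain ⟨η, hη, hη0⟩ := Matrix.exists_mulVec_eq_zero_iff.2
      ((Matrix.det_transpose A).trans hdet)
    rcases h1 F n k V A hA hmax hr hV hk ξ η hξ hη hξ0 hη0 with h5 | h5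
    · exact hξ (hE ξ (h3 F n _ V G hG ξ (Nat.lt_succ_of_le h5)) hξ0)
    · exact hη (hE' η (h3 F n _ (V.map tp) G' hG' η (Nat.lt_succ_of_le h5)) hη0)

end Pool.Agent.Lib.MP_64d474_lc.ST4
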