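import Pool.Agent.Lib.MP_64d474_lc.ST4.Stmts4

/-!
# Module DimE
-/

set_option autoImplicit false

open Finset Module

namespace Pool.Agent.Lib.MP_64d474_lc.ST4

namespace DimEAux

variable {F : Type} [Field F] {n h : ℕ}

/-- rank and nullity of the product with `G` on `V` -/
theorem rankNull (V : Submodule F (Matrix (Fin n) (Fin n) F)) (G : Matrix (Fin h) (Fin n) F) :
    finrank F (V.map (gl G)) +
      finrank F (LinearMap.ker ((gl G).comp V.subtype)) = finrank F V := by
  have e := LinearMap.finrank_range_add_finrank_ker ((gl G).comp V.subtype)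
  rwa [LinearMap.range_comp, Submodule.range_subtype] at e

theorem gl_zero {G : Matrix (Fin h) (Fin n) F} {V : Submodule F (Matrix (Fin n) (Fin n) F)}
    (x : LinearMap.ker ((gl G).comp V.subtype)) : G * x.1.1 = 0 := x.2

theorem mem_ker {G : Matrix (Fin h) (Fin n) F} {V : Submodule F (Matrix (Fin n) (Fin n) F)}
    (x : LinearMap.ker ((gl G).comp V.subtype)) (u : Fin n → F) :
    Matrix.mulVecLin x.1.1 u ∈ LinearMap.ker G.mulVecLin := by
  rw [LinearMap.mem_ker, Matrix.mulVecLin_apply, Matrix.mulVecLin_apply, Matrix.mulVec_mulVec,
    gl_zero x, Matrix.zero_mulVec]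

/-- the map on the quotient -/
noncomputable def phi1 (V : Submodule F (Matrix (Fin n) (Fin n) F)) (G : Matrix (Fin h) (Fin n) F)
    (x : LinearMap.ker ((gl G).comp V.subtype)) :
    ((Fin n → F) ⧸ EE V G) →ₗ[F] LinearMap.ker G.mulVecLin :=
  (EE V G).liftQ ((Matrix.mulVecLin x.1.1).codRestrict (LinearMap.ker G.mulVecLin) (mem_ker x))
    (by
      intro u hu
      rw [LinearMap.mem_ker]
      apply Subtype.ext
      exact hu x.1.1 x.1.2 (gl_zero x))

theorem phi1_mk (V : Submodule F (Matrix (Fin n) (Fin n) F)) (G : Matrix (Fin h) (Fin n) F)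
    (x : LinearMap.ker ((gl G).comp V.subtype)) (u : Fin n → F) :
    ((phi1 V G x (Submodule.Quotient.mk u) : LinearMap.ker G.mulVecLin) : Fin n → F) =
      x.1.1.mulVec u := rfl

/-- the embedding of the space of the `M` in `V` with `G M = 0` -/
noncomputable def phi (V : Submodule F (Matrix (Fin n) (Fin n) F)) (G : Matrix (Fin h) (Fin n) F) :
    LinearMap.ker ((gl G).comp V.subtype) →ₗ[F]
      (((Fin n → F) ⧸ EE V G) →ₗ[F] LinearMap.ker G.mulVecLin) where
  toFun := phi1 V G
  map_add' x y := by
    apply Submodule.linearMap_qext
    apply LinearMap.ext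
    intro u
    apply Subtype.ext
    exact Matrix.add_mulVec x.1.1 y.1.1 u
  map_smul' c x := by
    apply Submodule.linearMap_qext
    apply LinearMap.ext
    intro u
    apply Subtype.ext
    exact Matrix.smul_mulVec c x.1.1 u

theorem phi_inj (V : Submodule F (Matrix (Fin n) (Fin n) F)) (G : Matrix (Fin h) (Fin n) F) :
    Function.Injective (phi V G) := by
  rw [injective_iff_map_eq_zero]
  intro x hx
  have key : ∀ u : Fin n → F, x.1.1.mulVec u = 0 := by
    intro u
    have e1 := phi1_mk V G x u
    have e2 : phi1 V G x = 0 := hx
    rw [e2] at e1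
    exact e1.symm
  apply Subtype.ext
  apply Subtype.ext
  apply Matrix.ext_of_mulVec_single
  intro j
  rw [key]
  exact (Matrix.zero_mulVec _).symm

end DimEAux

open DimEAux

/-- Module DimE. -/
theorem stDimE (h1 : StImg) : StDimE := by
  intro F _ _ n h k V G hLO hh hk hkh
  have rn := rankNull V G
  have hmap : finrank F (V.map (gl G)) ≤ h * n := by
    have e := Submodule.finrank_le (V.map (gl G))
    rwa [Module.finrank_matrix, Module.finrank_self, mul_one, Fintype.card_fin, Fintype.card_fin]
      at e
  have hE : finrank F ((Fin n → F) ⧸ EE V G) + finrank F (EE V G) = n := by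
    rw [Submodule.finrank_quotient_add_finrank, Module.finrank_fin_fun]
  by_cases hr : LinearMap.range G.mulVecLin = ⊤
  · have hG := LinearMap.finrank_range_add_finrank_ker G.mulVecLin
    rw [hr, finrank_top, Module.finrank_fin_fun, Module.finrank_fin_fun] at hG
    have hK := LinearMap.finrank_le_finrank_of_injective (phi_inj V G)
    rw [Module.finrank_linearMap] at hK
    have e1 : finrank F (LinearMap.ker G.mulVecLin) = n - h := by omega
    rw [e1] at hK
    have hhn : h ≤ n := by omega
    obtain ⟨m, rfl⟩ := Nat.exists_eq_add_of_le hhn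
    have e2 : h + m - h = m := by omega
    rw [e2] at hK ⊢
    have e3 : finrank F ((Fin (h + m) → F) ⧸ EE V G) * m + finrank F (EE V G) * m =
        (h + m) * m := by rw [← add_mul, hE]
    have e4 : (h + m) * (h + m) = h * (h + m) + (h + m) * m := by ring
    omega
  · rcases Nat.eq_zero_or_pos n with hn | hn
    · subst hn
      rw [Nat.zero_sub, mul_zero]
      exact Nat.zero_le _
    exfalso
    obtain ⟨f, hf0, hf⟩ := Submodule.exists_le_ker_of_lt_top _ (lt_top_iff_ne_top.2 hr)
    have hfi : ∃ i, f (Pi.single i 1) ≠ 0 := by
      by_contra hc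
      push Not at hc
      apply hf0
      apply LinearMap.pi_ext'
      intro i
      apply LinearMap.ext_ring
      exact hc i
    obtain ⟨i, hi⟩ := hfi
    have hz : ∀ X : Matrix (Fin n) (Fin n) F, ∀ c, f (fun a => (G * X) a c) = 0 := by
      intro X c
      have e : (fun a => (G * X) a c) = G.mulVecLin (fun b => X b c) := by
        funext a
        rfl
      rw [e]
      exact hf (LinearMap.mem_range_self _ _)
    have hker : finrank F (LinearMap.ker ((gl G).comp V.subtype)) = 0 := by
      have key : ∀ x : LinearMap.ker ((gl G).comp V.subtype), x.1.1 = 0 := by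
        intro x
        ext j c
        obtain ⟨M', _, hM'⟩ := h1 F n h V G hLO x.1.1 x.1.2 (gl_zero x) i j
        have e := hz M' c
        rw [hM'] at e
        have e2 : (fun a => (Matrix.of fun a c => if a = i then x.1.1 j c else 0 :
            Matrix (Fin h) (Fin n) F) a c) = x.1.1 j c • (Pi.single i (1 : F) : Fin h → F) := by
          funext a
          by_cases ha : a = i
          · subst ha
            simp
          · simp [ha]
        rw [e2, map_smul, smul_eq_mul] at e
        rcases mul_eq_zero.1 e with e3 | e3
        · exact e3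
        · exact absurd e3 hi
      have : Subsingleton (LinearMap.ker ((gl G).comp V.subtype)) := by
        refine ⟨fun x y => ?_⟩
        apply Subtype.ext
        apply Subtype.ext
        rw [key x, key y]
      exact Module.finrank_zero_of_subsingleton
    have hlt : finrank F (V.map (gl G)) < h * n := by
      have hne : V.map (gl G) ≠ ⊤ := by
        intro htop
        have hX : (Matrix.of fun a _ => if a = i then (1 : F) else 0 :
            Matrix (Fin h) (Fin n) F) ∈ V.map (gl G) := by
          rw [htop]
          exact Submodule.mem_top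
        obtain ⟨M, _, hM⟩ := hX
        have e := hz M ⟨0, hn⟩
        have hM2 : G * M = (Matrix.of fun a _ => if a = i then (1 : F) else 0 :
            Matrix (Fin h) (Fin n) F) := hM
        rw [hM2] at e
        have e2 : (fun a => (Matrix.of fun a _ => if a = i then (1 : F) else 0 :
            Matrix (Fin h) (Fin n) F) a ⟨0, hn⟩) = (Pi.single i (1 : F) : Fin h → F) := by
          funext a
          by_cases ha : a = i
          · subst ha
            simp
          · simp [ha]
        rw [e2] at e
        exact hi e
      have e := Submodule.finrank_lt hne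
      rwa [Module.finrank_matrix, Module.finrank_self, mul_one, Fintype.card_fin,
        Fintype.card_fin] at e
    omega

end Pool.Agent.Lib.MP_64d474_lc.ST4
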