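import Pool.Agent.Lib.MP_64d474_lc.ST4.Stmts4

/-!
# The fourth machine: a basis of the space `E` modulo almost all primes
-/

set_option autoImplicit false

open Finset Module

namespace Pool.Agent.Lib.MP_64d474_lc.ST4

namespace EU4

section defs

variable {n m h d : ℕ}

/-- the first matrix: its kernel are the coefficients `y` with `G (sum y_q C_q) = 0` -/
def K1 (C : Fin m → Matrix (Fin n) (Fin n) ℤ) (G : Matrix (Fin h) (Fin n) ℤ) :
    Matrix (Fin (h * n)) (Fin m) ℤ :=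
  fun x q => (G * C q) (finProdFinEquiv.symm x).1 (finProdFinEquiv.symm x).2

/-- the combinations of the matrices -/
def ML (C : Fin m → Matrix (Fin n) (Fin n) ℤ) (Y : Matrix (Fin m) (Fin d) ℤ) (l : Fin d) :
    Matrix (Fin n) (Fin n) ℤ := ∑ q, Y q l • C q

/-- the second matrix -/
def K2 (C : Fin m → Matrix (Fin n) (Fin n) ℤ) (Y : Matrix (Fin m) (Fin d) ℤ) :
    Matrix (Fin (d * n)) (Fin n) ℤ :=
  fun x j => ML C Y (finProdFinEquiv.symm x).1 (finProdFinEquiv.symm x).2 j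

end defs

section field

variable {F : Type} [Field F] {n m h d : ℕ}

theorem k1_iff (C : Fin m → Matrix (Fin n) (Fin n) ℤ) (G : Matrix (Fin h) (Fin n) ℤ)
    (y : Fin m → F) :
    ((K1 C G).map (Int.cast : ℤ → F)).mulVec y = 0 ↔
      G.map (Int.cast : ℤ → F) * (∑ q, y q • (C q).map (Int.cast : ℤ → F)) = 0 := by
  have key : ∀ (a : Fin h) (c : Fin n),
      ((K1 C G).map (Int.cast : ℤ → F)).mulVec y (finProdFinEquiv (a, c)) =
        (G.map (Int.cast : ℤ → F) * (∑ q, y q • (C q).map (Int.cast : ℤ → F))) a c := by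
    intro a c
    rw [Matrix.mul_sum, Matrix.sum_apply]
    simp only [Matrix.mulVec, dotProduct]
    refine Finset.sum_congr rfl fun q _ => ?_
    rw [Matrix.mul_smul, Matrix.smul_apply, smul_eq_mul, mul_comm]
    congr 1
    simp only [K1, Matrix.map_apply, Equiv.symm_apply_apply, Matrix.mul_apply, Int.cast_sum,
      Int.cast_mul]
  constructor
  · intro h0
    ext a c
    rw [← key, h0]
    rfl
  · intro h0
    funext x
    obtain ⟨⟨a, c⟩, rfl⟩ := finProdFinEquiv.surjective x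
    rw [key, h0]
    rfl

theorem ml_map (C : Fin m → Matrix (Fin n) (Fin n) ℤ) (Y : Matrix (Fin m) (Fin d) ℤ)
    (l : Fin d) :
    (ML C Y l).map (Int.cast : ℤ → F) =
      ∑ q, (Y.map (Int.cast : ℤ → F)) q l • (C q).map (Int.cast : ℤ → F) := by
  ext i j
  simp only [ML, Matrix.map_apply, Matrix.sum_apply, Matrix.smul_apply, smul_eq_mul,
    Int.cast_sum, Int.cast_mul]

theorem k2_iff (C : Fin m → Matrix (Fin n) (Fin n) ℤ) (Y : Matrix (Fin m) (Fin d) ℤ)
    (u : Fin n → F) :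
    ((K2 C Y).map (Int.cast : ℤ → F)).mulVec u = 0 ↔
      ∀ l, ((ML C Y l).map (Int.cast : ℤ → F)).mulVec u = 0 := by
  have key : ∀ (l : Fin d) (i : Fin n),
      ((K2 C Y).map (Int.cast : ℤ → F)).mulVec u (finProdFinEquiv (l, i)) =
        ((ML C Y l).map (Int.cast : ℤ → F)).mulVec u i := by
    intro l i
    simp only [Matrix.mulVec, dotProduct]
    refine Finset.sum_congr rfl fun j _ => ?_
    simp only [K2, Matrix.map_apply, Equiv.symm_apply_apply]
  constructor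
  · intro h0 l
    funext i
    rw [← key, h0]
    rfl
  · intro h0
    funext x
    obtain ⟨⟨l, i⟩, rfl⟩ := finProdFinEquiv.surjective x
    rw [key, h0]
    rfl

/-- the kernel of the second matrix -/
theorem ker_eq (C : Fin m → Matrix (Fin n) (Fin n) ℤ) (G : Matrix (Fin h) (Fin n) ℤ)
    (Y : Matrix (Fin m) (Fin d) ℤ)
    (hY : LinearMap.range (Y.map (Int.cast : ℤ → F)).mulVecLin =
      LinearMap.ker ((K1 C G).map (Int.cast : ℤ → F)).mulVecLin) :
    LinearMap.ker ((K2 C Y).map (Int.cast : ℤ → F)).mulVecLin =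
      EE (spn F C) (G.map (Int.cast : ℤ → F)) := by
  ext u
  rw [LinearMap.mem_ker, Matrix.mulVecLin_apply, k2_iff]
  constructor
  · intro hu M hM hG
    obtain ⟨y, rfl⟩ := (Submodule.mem_span_range_iff_exists_fun F).1 hM
    have h1 : y ∈ LinearMap.ker ((K1 C G).map (Int.cast : ℤ → F)).mulVecLin := by
      rw [LinearMap.mem_ker, Matrix.mulVecLin_apply, k1_iff]
      exact hG
    rw [← hY] at h1
    obtain ⟨z, hz⟩ := h1
    rw [Matrix.mulVecLin_apply] at hz
    have h2 : (∑ q, y q • (C q).map (Int.cast : ℤ → F)) =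
        ∑ l, z l • (ML C Y l).map (Int.cast : ℤ → F) := by
      rw [← hz]
      simp only [ml_map, Matrix.mulVec, dotProduct, Finset.sum_smul, Finset.smul_sum, smul_smul]
      rw [Finset.sum_comm]
      refine Finset.sum_congr rfl fun l _ => Finset.sum_congr rfl fun q _ => ?_
      rw [mul_comm]
    rw [h2, Matrix.sum_mulVec]
    refine Finset.sum_eq_zero fun l _ => ?_
    rw [Matrix.smul_mulVec, hu l, smul_zero]
  · intro hu l
    apply hu
    · rw [ml_map]
      exact Submodule.sum_mem _ fun q _ =>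
        Submodule.smul_mem _ _ (Submodule.subset_span ⟨q, rfl⟩)
    · rw [ml_map]
      have h1 : (Y.map (Int.cast : ℤ → F)).mulVecLin (Pi.single l 1) ∈
          LinearMap.ker ((K1 C G).map (Int.cast : ℤ → F)).mulVecLin := by
        rw [← hY]
        exact LinearMap.mem_range_self _ _
      rw [LinearMap.mem_ker, Matrix.mulVecLin_apply, k1_iff] at h1
      rw [← h1]
      congr 1
      refine Finset.sum_congr rfl fun q _ => ?_
      rw [Matrix.mulVecLin_apply, Matrix.mulVec_single_one]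
      rfl

end field

/-! ### Bounds -/

theorem sum_bound {ι : Type} [Fintype ι] (f : ι → ℤ) (L a : ℕ) (hc : Fintype.card ι ≤ L)
    (hf : ∀ i, |f i| ≤ 2 ^ a) : |∑ i, f i| ≤ 2 ^ (a + L) := by
  calc |∑ i, f i| ≤ ∑ i, |f i| := Finset.abs_sum_le_sum_abs _ _
    _ ≤ ∑ _i : ι, (2 : ℤ) ^ a := Finset.sum_le_sum fun i _ => hf i
    _ = (Fintype.card ι : ℤ) * 2 ^ a := by
      rw [Finset.sum_const, Finset.card_univ, nsmul_eq_mul]
    _ ≤ 2 ^ L * 2 ^ a := by
      apply mul_le_mul_of_nonneg_right _ (by positivity)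
      have h1 : Fintype.card ι < 2 ^ L := lt_of_le_of_lt hc Nat.lt_two_pow_self
      exact_mod_cast h1.le
    _ = 2 ^ (a + L) := by rw [pow_add, mul_comm]

theorem prod_bound (x y : ℤ) (a b : ℕ) (hx : |x| ≤ 2 ^ a) (hy : |y| ≤ 2 ^ b) :
    |x * y| ≤ 2 ^ (a + b) := by
  rw [abs_mul, pow_add]
  exact mul_le_mul hx hy (abs_nonneg _) (by positivity)

theorem mono_bound (x : ℤ) (a b : ℕ) (hx : |x| ≤ 2 ^ a) (hab : a ≤ b) : |x| ≤ 2 ^ b :=
  hx.trans (pow_le_pow_right₀ (by norm_num) hab)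

end EU4

open EU4

theorem stEU (h1 : StKB) : StEU := by
  intro L n m h C G hn hm hh hC hG
  have hK1 : ∀ i j, |K1 C G i j| ≤ 2 ^ (5 * L) := by
    intro i j
    have h2 : |K1 C G i j| ≤ 2 ^ ((2 * L + 2 * L) + L) := by
      simp only [K1, Matrix.mul_apply]
      apply sum_bound
      · rw [Fintype.card_fin]
        exact hn
      · intro k
        exact prod_bound _ _ _ _ (hG _ _) (hC _ _ _)
    exact mono_bound _ _ _ h2 (by omega)
  obtain ⟨d, Y, Δ1, hΔ1, hΔ1b, hYb, hYQ, hYp⟩ := h1 (h * n) m (5 * L) (K1 C G) hK1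
  have hmb : m * (5 * L + m) ≤ 6 * L ^ 2 := by
    calc m * (5 * L + m) ≤ L * (5 * L + L) := by gcongr
      _ = 6 * L ^ 2 := by ring
  have hK2 : ∀ i j, |K2 C Y i j| ≤ 2 ^ (6 * L ^ 2 + 3 * L) := by
    intro i j
    have h2 : |K2 C Y i j| ≤ 2 ^ ((6 * L ^ 2 + 2 * L) + L) := by
      simp only [K2, ML, Matrix.sum_apply, Matrix.smul_apply, smul_eq_mul]
      apply sum_bound
      · rw [Fintype.card_fin]
        exact hm
      · intro k
        exact prod_bound _ _ _ _ (mono_bound _ _ _ (hYb _ _) hmb) (hC _ _ _)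
    exact mono_bound _ _ _ h2 (by omega)
  obtain ⟨e, U, Δ2, hΔ2, hΔ2b, hUb, hUQ, hUp⟩ :=
    h1 (d * n) n (6 * L ^ 2 + 3 * L) (K2 C Y) hK2
  have hnb : n * (6 * L ^ 2 + 3 * L + n) ≤ 6 * L ^ 3 + 4 * L ^ 2 := by
    calc n * (6 * L ^ 2 + 3 * L + n) ≤ L * (6 * L ^ 2 + 3 * L + L) := by gcongr
      _ = 6 * L ^ 3 + 4 * L ^ 2 := by ring
  have hfin : 6 * L ^ 2 + (6 * L ^ 3 + 4 * L ^ 2) ≤ 16 * (L + 1) ^ 3 := by
    have h3 : 16 * (L + 1) ^ 3 = 16 * L ^ 3 + 48 * L ^ 2 + 48 * L + 16 := by ring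
    rw [h3]
    omega
  refine ⟨e, U, Δ1 * Δ2, mul_ne_zero hΔ1 hΔ2, ?_, ?_, ?_, ?_⟩
  · exact mono_bound _ _ _ (prod_bound _ _ _ _ (mono_bound _ _ _ hΔ1b hmb)
      (mono_bound _ _ _ hΔ2b hnb)) hfin
  · intro i j
    exact mono_bound _ _ _ (hUb i j) (hnb.trans (by omega))
  · rw [← ker_eq C G Y hYQ.1]
    exact hUQ
  · intro p hp hdiv
    have hd1 : ¬ (p : ℤ) ∣ Δ1 := fun hd => hdiv (dvd_mul_of_dvd_left hd _)
    have hd2 : ¬ (p : ℤ) ∣ Δ2 := fun hd => hdiv (dvd_mul_of_dvd_right hd _)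
    rw [← ker_eq C G Y (hYp p hd1).1]
    exact hUp p hd2

end Pool.Agent.Lib.MP_64d474_lc.ST4
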