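import Pool.Agent.Lib.MP_64d474_lc.ST4.Stmts4
import Pool.Agent.Lib.MP_64d474_lc.ST2.Xm

/-!
# The Fischer norm of the small symbolic matrix (module Fv)
-/

set_option autoImplicit false

open Finset Module Pool.Agent.Lib.PT Pool.Agent.Lib.MP_64d474_lc.ST
open Pool.Agent.Lib.MP_64d474_lc.ST2 (rkmod rstep cmat pwm fval subs goodF rw' nr wl Hf ipZ)
open Pool.Agent.Lib.MP_64d474_lc.ST3 (zerM low his dgs goodW pb3 rs3 cost3 mvecs Sq toM lowRank
  highProd)

namespace Pool.Agent.Lib.MP_64d474_lc.ST4

namespace Fv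

/-- the digits of the number `2 ^ q - 1` -/
theorem bits_pow (q : ℕ) : (2 ^ q - 1).bits = List.replicate q true := by
  induction q with
  | zero => simp
  | succ q ih =>
    have h1 : 2 ^ (q + 1) - 1 = Nat.bit true (2 ^ q - 1) := by
      have h2 : 1 ≤ 2 ^ q := Nat.one_le_two_pow
      rw [Nat.bit_val, pow_succ]
      simp only [Bool.toNat_true]
      omega
    rw [h1, Nat.bits_append_bit _ _ (fun _ => rfl), ih, List.replicate_succ]

theorem pow_inj {q r : ℕ} (h : 2 ^ q - 1 = 2 ^ r - 1) : q = r := by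
  have h1 : 1 ≤ 2 ^ q := Nat.one_le_two_pow
  have h2 : 1 ≤ 2 ^ r := Nat.one_le_two_pow
  have h3 : 2 ^ q = 2 ^ r := by omega
  exact Nat.pow_right_injective (le_refl 2) h3

/-- one entry -/
def entZ (m : ℕ) (s : ℕ → ℕ) : List (ℤ × ℕ) :=
  (List.range m).flatMap fun q => List.replicate (s q) ((1 : ℤ), 2 ^ q - 1)

/-- the symbolic matrix -/
def smallZ (p n t : ℕ) (Cs : List (List (List ℕ))) (U : List (List ℕ)) : SMat :=
  (List.range U.length).map fun a => U.map fun u =>
    entZ Cs.length fun q => sco p n t a (Cs.getD q []) u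

theorem raw_smallZ (p n t : ℕ) (Cs : List (List (List ℕ))) (U : List (List ℕ)) :
    raw (smallZ p n t Cs U) = smallM p n t Cs U := by
  unfold raw smallZ smallM entZ
  rw [List.map_map]
  refine List.map_congr_left fun a _ => ?_
  simp only [Function.comp, List.map_map]
  refine List.map_congr_left fun u _ => ?_
  simp only [Function.comp, List.map_flatMap, List.map_replicate]
  congr 1
  funext q
  congr 1
  unfold rawPair
  simp only [bits_pow]
  congr 1

theorem smallZ_length (p n t : ℕ) (Cs : List (List (List ℕ))) (U : List (List ℕ)) :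
    (smallZ p n t Cs U).length = U.length := by
  unfold smallZ
  rw [List.length_map, List.length_range]

theorem smallZ_get (p n t : ℕ) (Cs : List (List (List ℕ))) (U : List (List ℕ)) (i j : ℕ)
    (hi : i < U.length) (hj : j < U.length) :
    ((smallZ p n t Cs U).getD i []).getD j [] =
      entZ Cs.length fun q => sco p n t i (Cs.getD q []) (U.getD j []) := by
  unfold smallZ
  simp [List.getD_eq_getElem?_getD, hi, hj]

/-! ### Inner products -/

theorem ipZ_nil_left (f : List (ℤ × ℕ)) : ipZ [] f = 0 := rfl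

theorem ipZ_append_left (e e' f : List (ℤ × ℕ)) : ipZ (e ++ e') f = ipZ e f + ipZ e' f := by
  unfold ipZ
  rw [List.flatMap_append, List.sum_append]

theorem ipZ_nil_right (e : List (ℤ × ℕ)) : ipZ e [] = 0 := by
  unfold ipZ
  induction e with
  | nil => rfl
  | cons q e ih => rw [List.flatMap_cons, List.sum_append, ih]; rfl

theorem ipZ_append_right (e f f' : List (ℤ × ℕ)) : ipZ e (f ++ f') = ipZ e f + ipZ e f' := by
  unfold ipZ
  induction e with
  | nil => rfl
  | cons q e ih =>
    rw [List.flatMap_cons, List.flatMap_cons, List.flatMap_cons, List.sum_append, List.sum_append,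
      List.sum_append, ih, List.filter_append, List.map_append, List.sum_append]
    ring

theorem ipZ_flat_left {α : Type} (l : List α) (g : α → List (ℤ × ℕ)) (f : List (ℤ × ℕ)) :
    ipZ (l.flatMap g) f = (l.map fun x => ipZ (g x) f).sum := by
  induction l with
  | nil => rfl
  | cons x l ih => rw [List.flatMap_cons, ipZ_append_left, ih, List.map_cons, List.sum_cons]

theorem ipZ_flat_right {α : Type} (l : List α) (g : α → List (ℤ × ℕ)) (e : List (ℤ × ℕ)) :
    ipZ e (l.flatMap g) = (l.map fun x => ipZ e (g x)).sum := by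
  induction l with
  | nil => exact ipZ_nil_right e
  | cons x l ih => rw [List.flatMap_cons, ipZ_append_right, ih, List.map_cons, List.sum_cons]

theorem ipZ_rep (a b v w : ℕ) : ipZ (List.replicate a ((1 : ℤ), v)) (List.replicate b ((1 : ℤ), w)) =
    if v = w then (a : ℤ) * b else 0 := by
  induction a with
  | zero => simp [ipZ_nil_left]
  | succ a ih =>
    rw [List.replicate_succ, show ((1 : ℤ), v) :: List.replicate a ((1 : ℤ), v) =
      [((1 : ℤ), v)] ++ List.replicate a ((1 : ℤ), v) from rfl, ipZ_append_left, ih]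
    have h1 : ipZ [((1 : ℤ), v)] (List.replicate b ((1 : ℤ), w)) = if v = w then (b : ℤ) else 0 := by
      unfold ipZ
      simp only [List.flatMap_cons, List.flatMap_nil, List.append_nil, List.filter_replicate]
      by_cases h : v = w
      · subst h
        simp
      · have h' : ¬ w = v := fun h2 => h h2.symm
        simp [h, h']
    rw [h1]
    split_ifs
    · push_cast; ring
    · ring

theorem sum_map_rangeZ (m : ℕ) (f : ℕ → ℤ) :
    ((List.range m).map f).sum = ∑ i : Fin m, f i := by
  rw [Fin.sum_univ_eq_sum_range]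
  induction m with
  | zero => rfl
  | succ m ih =>
    rw [List.range_succ, List.map_append, List.sum_append, ih, Finset.sum_range_succ]
    simp

theorem sum_map_rangeN (m : ℕ) (f : ℕ → ℕ) :
    ((List.range m).map f).sum = ∑ i : Fin m, f i := by
  rw [Fin.sum_univ_eq_sum_range]
  induction m with
  | zero => rfl
  | succ m ih =>
    rw [List.range_succ, List.map_append, List.sum_append, ih, Finset.sum_range_succ]
    simp

theorem ipZ_ent (m : ℕ) (s s' : ℕ → ℕ) :
    ipZ (entZ m s) (entZ m s') = ∑ q : Fin m, (s q : ℤ) * s' q := by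
  unfold entZ
  rw [ipZ_flat_left, sum_map_rangeZ]
  refine Finset.sum_congr rfl fun q _ => ?_
  rw [ipZ_flat_right, sum_map_rangeZ, Finset.sum_eq_single q]
  · rw [ipZ_rep, if_pos rfl]
  · intro r _ hr
    rw [ipZ_rep, if_neg]
    intro h
    exact hr (Fin.ext (pow_inj h).symm)
  · intro h
    exact absurd (Finset.mem_univ q) h

theorem Hf_eq (A : SMat) (e : ℕ) (he : A.length = e) : Hf A =
    ∑ σ : Equiv.Perm (Fin e), ∑ π : Equiv.Perm (Fin e), ∑ κ : Equiv.Perm (Fin e),
      ((σ.sign : ℤ) * (π.sign : ℤ) * (κ.sign : ℤ)) *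
        ∏ i : Fin e, ipZ ((A.getD i []).getD (σ i) []) ((A.getD (π i) []).getD (κ i) []) := by
  subst he
  rfl

/-! ### The coefficients -/

theorem sco_cast (p n t : ℕ) (C : List (List ℕ)) (U : List (List ℕ)) (i j : Fin U.length) :
    ((sco p n t i C (U.getD j []) : ℕ) : ZMod p) =
      (vdm (ZMod p) U.length n t * toM p n C * colM p n U) i j := by
  unfold sco
  rw [ZMod.natCast_mod, sum_map_rangeN, Matrix.mul_assoc, Matrix.mul_apply, Nat.cast_sum]
  refine Finset.sum_congr rfl fun c _ => ?_
  rw [Nat.cast_mul, sum_map_rangeN, Matrix.mul_apply, Nat.cast_sum, ST2.Xm.pwm_eq,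
    ZMod.natCast_mod, Nat.cast_pow]
  congr 1
  refine Finset.sum_congr rfl fun d _ => ?_
  rw [Nat.cast_mul]
  rfl

end Fv

open Fv in
/-- (Fv) the small symbolic matrix -/
theorem stFv (h1 : StTabE) : StFv := by
  intro p n t E Cs U hp _ _ hE
  have hl := smallZ_length p n t Cs U
  have h2 := h1 (smallZ p n t Cs U) p E hp (by rw [hl]; exact hE)
  rw [raw_smallZ, hl, Hf_eq _ _ hl] at h2
  rw [h2]
  unfold HfK
  rw [Int.cast_sum]
  refine Finset.sum_congr rfl fun σ _ => ?_
  rw [Int.cast_sum]
  refine Finset.sum_congr rfl fun π _ => ?_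
  rw [Int.cast_sum]
  refine Finset.sum_congr rfl fun κ _ => ?_
  rw [Int.cast_mul, Int.cast_prod]
  congr 1
  refine Finset.prod_congr rfl fun i _ => ?_
  rw [smallZ_get p n t Cs U _ _ i.isLt (σ i).isLt, smallZ_get p n t Cs U _ _ (π i).isLt (κ i).isLt,
    ipZ_ent, Int.cast_sum]
  refine Finset.sum_congr rfl fun q _ => ?_
  rw [Int.cast_mul, Int.cast_natCast, Int.cast_natCast, sco_cast, sco_cast]
  have h3 : Cs.getD (q : ℕ) [] = Cs.get q := by
    rw [List.getD_eq_getElem _ _ q.isLt]
    rfl
  rw [h3]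

end Pool.Agent.Lib.MP_64d474_lc.ST4
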