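import Pool.Agent.Lib.MP_64d474_lc.ST4.Stmts4

/-!
# The module GenA: a member of largest rank that is injective on both spaces
-/

set_option autoImplicit false

open Finset Module

namespace Pool.Agent.Lib.MP_64d474_lc.ST4

namespace GenA

variable {F : Type} [Field F] {n : ℕ}

theorem exists_max (V : Submodule F (Matrix (Fin n) (Fin n) F)) :
    ∃ A ∈ V, ∀ M ∈ V, M.rank ≤ A.rank := by
  have hne : {r : ℕ | ∃ M ∈ V, M.rank = r}.Nonempty := ⟨_, 0, V.zero_mem, rfl⟩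
  have hbd : BddAbove {r : ℕ | ∃ M ∈ V, M.rank = r} := by
    refine ⟨n, ?_⟩
    rintro _ ⟨M, -, rfl⟩
    have := M.rank_le_card_width
    simpa using this
  obtain ⟨A, hA, hr⟩ := Nat.sSup_mem hne hbd
  refine ⟨A, hA, fun M hM => ?_⟩
  rw [hr]
  exact le_csSup hbd ⟨M, hM, rfl⟩

end GenA

open GenA in
theorem stGenA (h1 : StLine) : StGenA := by
  classical
  intro F _ _ n V E E' hE hE'
  have hinf : Infinite F := inferInstance
  obtain ⟨A0, hA0, hmax⟩ := exists_max V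
  obtain ⟨X, hX, hXE⟩ := hE
  obtain ⟨X', hX', hXE'⟩ := hE'
  obtain ⟨Y, hY, rfl⟩ := Submodule.mem_map.1 hX'
  have hXE'' : ∀ u ∈ E', Y.transpose.mulVec u = 0 → u = 0 := hXE'
  -- the first step
  obtain ⟨⟨S1, hS1⟩, hS2, -⟩ := h1 F n A0 X E
  obtain ⟨S2, hS2⟩ := hS2 hXE
  obtain ⟨t, ht⟩ := Infinite.exists_notMem_finset (S1 ∪ S2)
  rw [Finset.mem_union, not_or] at ht
  -- the second step
  obtain ⟨⟨S3, hS3⟩, -, hS4⟩ := h1 F n (A0 + t • X) Y E
  obtain ⟨S4, hS4⟩ := hS4 (hS2 t ht.2)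
  obtain ⟨-, hS5, -⟩ := h1 F n (A0 + t • X).transpose Y.transpose E'
  obtain ⟨S5, hS5⟩ := hS5 hXE''
  obtain ⟨s, hs⟩ := Infinite.exists_notMem_finset (S3 ∪ S4 ∪ S5)
  rw [Finset.mem_union, Finset.mem_union, not_or, not_or] at hs
  refine ⟨A0 + t • X + s • Y, V.add_mem (V.add_mem hA0 (V.smul_mem t hX)) (V.smul_mem s hY),
    fun M hM => ?_, hS4 s hs.1.2, ?_⟩
  · exact ((hmax M hM).trans (hS1 t ht.1)).trans (hS3 s hs.1.1)
  · intro u hu h0
    rw [Matrix.transpose_add, Matrix.transpose_smul] at h0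
    exact hS5 s hs.2 u hu h0

end Pool.Agent.Lib.MP_64d474_lc.ST4
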