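import Pool.Agent.Lib.MP_64d474_lc.ST4.Stmts4

/-!
# The product with the matrix `G`, row by row
-/

set_option autoImplicit false

open Pool.Agent.Lib.PT Pool.Agent.Lib.MP_64d474_lc.ST
open Pool.Agent.Lib.MP_64d474_lc.ST3 (toM)

namespace Pool.Agent.Lib.MP_64d474_lc.ST4

namespace GmulAux

theorem sum_range_fin (p n : ℕ) (f : ℕ → ℕ) :
    ((((List.range n).map f).sum : ℕ) : ZMod p) = ∑ j : Fin n, ((f j : ℕ) : ZMod p) := by
  have h1 : ((List.range n).map f).sum = ∑ j ∈ Finset.range n, f j := by
    rw [← List.sum_toFinset f (List.nodup_range (n := n)), List.toFinset_range]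
  rw [h1, Nat.cast_sum, Finset.sum_range]

theorem getD_map_range (m : ℕ) (f : ℕ → ℕ) (x : ℕ) (hx : x < m) :
    ((List.range m).map f).getD x 0 = f x := by
  rw [List.getD_eq_getElem?_getD, List.getElem?_map, List.getElem?_range hx]
  rfl

end GmulAux

theorem stGmul : StGmul := by
  intro p _ n h g C
  refine ⟨?_, ?_⟩
  · simp only [gmul, List.length_map, List.length_range]
  · intro a c
    have hn : 0 < n := lt_of_le_of_lt (Nat.zero_le _) c.2
    have hx : (a : ℕ) * n + c < h * n := by
      have h1 : ((a : ℕ) + 1) * n ≤ h * n := Nat.mul_le_mul_right n a.2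
      have h2 : ((a : ℕ) + 1) * n = (a : ℕ) * n + n := by ring
      have h3 := c.2
      omega
    have hd : ((a : ℕ) * n + c) / n = a := by
      rw [mul_comm, Nat.mul_add_div hn, Nat.div_eq_of_lt c.2, Nat.add_zero]
    have hm : ((a : ℕ) * n + c) % n = c := by
      rw [mul_comm, Nat.mul_add_mod, Nat.mod_eq_of_lt c.2]
    unfold gmul
    rw [GmulAux.getD_map_range (h * n) _ _ hx, hd, hm, ZMod.natCast_mod,
      GmulAux.sum_range_fin p n, Matrix.mul_apply]
    refine Finset.sum_congr rfl fun j _ => ?_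
    rw [Nat.cast_mul]
    rfl

end Pool.Agent.Lib.MP_64d474_lc.ST4
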