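import Pool.Agent.Lib.MP_64d474_lc.ST4.Stmts4
import Pool.Agent.Lib.MP_64d474_lc.ST2.Mult

/-!
# Fourth machine, module `GrkQ`: the dimension of `G V` is the largest rank modulo a small prime
-/

set_option autoImplicit false

open Finset Module Pool.Agent.Lib.MP_64d474_lc.ST
open Pool.Agent.Lib.MP_64d474_lc.ST2 (rkmod)
open Pool.Agent.Lib.MP_64d474_lc.ST2.MultAux (exists_minor le_foldl mem_le_foldl foldl_le)
open Pool.Agent.Lib.MP_64d474_lc.ST3 (toM Sq)

namespace Pool.Agent.Lib.MP_64d474_lc.ST4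

namespace GrkQAux

/-! ### Minors -/

theorem le_rank {F : Type*} [Field F] {α β : Type*} [Fintype α] [Fintype β] {r : ℕ}
    (B : Matrix α β F) (a : Fin r → α) (b : Fin r → β) (h : (B.submatrix a b).det ≠ 0) :
    r ≤ B.rank := by
  have h1 := Matrix.rank_of_det_ne_zero h
  rw [Fintype.card_fin] at h1
  have h2 := Matrix.rank_submatrix_le B a b
  omega

theorem det_cast {F : Type*} [Field F] {α β : Type*} {r : ℕ} (C : Matrix α β ℤ)
    (a : Fin r → α) (b : Fin r → β) :
    ((C.map (Int.cast : ℤ → F)).submatrix a b).det = (((C.submatrix a b).det : ℤ) : F) :=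
  ((Int.castRingHom F).map_det (C.submatrix a b)).symm

/-! ### The integer matrix -/

/-- `G` with integer entries -/
def GZ (h n : ℕ) (g : List ℕ) : Matrix (Fin h) (Fin n) ℤ :=
  fun a j => ((g.getD ((a : ℕ) * n + j) 0 : ℕ) : ℤ)

theorem GZ_map (F : Type) [Field F] (h n : ℕ) (g : List ℕ) :
    (GZ h n g).map (Int.cast : ℤ → F) = Gm F h n g := by
  ext a j
  simp [GZ, Gm]

/-- the rows are the products of `G` and the coefficient matrices -/
def NZ (b : Bool) (A : SMat) (h : ℕ) (g : List ℕ) :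
    Matrix (Fin (varsN A).length) (Fin h × Fin A.length) ℤ :=
  fun q x => (GZ h A.length g * czB b A q) x.1 x.2

theorem NZ_map (F : Type) [Field F] (b : Bool) (A : SMat) (h : ℕ) (g : List ℕ)
    (q : Fin (varsN A).length) (x : Fin h × Fin A.length) :
    (NZ b A h g).map (Int.cast : ℤ → F) q x =
      (Gm F h A.length g * (czB b A q).map (Int.cast : ℤ → F)) x.1 x.2 := by
  rw [← GZ_map]
  have h1 : (GZ h A.length g).map (Int.cast : ℤ → F) * (czB b A q).map (Int.cast : ℤ → F) =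
      (GZ h A.length g * czB b A q).map (Int.cast : ℤ → F) :=
    (Matrix.map_mul (f := Int.castRingHom F)).symm
  rw [h1]
  rfl

/-- The rank over `ℚ` is the dimension of `G V`. -/
theorem rank_rat (b : Bool) (A : SMat) (h : ℕ) (g : List ℕ) :
    ((NZ b A h g).map (Int.cast : ℤ → ℚ)).rank =
      finrank ℚ ((spn ℚ (czB b A)).map (gl (Gm ℚ h A.length g))) := by
  rw [Matrix.rank_eq_finrank_span_row]
  let e : (Fin h × Fin A.length → ℚ) ≃ₗ[ℚ] (Matrix (Fin h) (Fin A.length) ℚ) :=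
    LinearEquiv.curry ℚ ℚ (Fin h) (Fin A.length)
  have h1 : ((spn ℚ (czB b A)).map (gl (Gm ℚ h A.length g))) =
      (Submodule.span ℚ (Set.range ((NZ b A h g).map (Int.cast : ℤ → ℚ)).row)).map
        (e : (Fin h × Fin A.length → ℚ) →ₗ[ℚ] (Matrix (Fin h) (Fin A.length) ℚ)) := by
    unfold spn
    rw [Submodule.map_span, Submodule.map_span, ← Set.range_comp, ← Set.range_comp]
    congr 2
    funext q
    ext a c
    exact (NZ_map ℚ b A h g q (a, c)).symm
  rw [h1]
  exact (LinearEquiv.finrank_map_eq e _).symm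

theorem getD_map {α β : Type*} (f : α → β) (l : List α) (i : ℕ) (hi : i < l.length) (d : α)
    (d' : β) : (l.map f).getD i d' = f (l.getD i d) := by
  simp [List.getD_eq_getElem?_getD, hi]

/-- The rank modulo `p`. -/
theorem grk_eq (h1 : StGmul) (h2 : StCf) (h4 : ST2.StRk) (b : Bool) (A : SMat)
    (hA : ∀ r ∈ A, r.length = A.length) (h : ℕ) (g : List ℕ) (p : ℕ) (hp : p.Prime) :
    grk b p (raw A) h g = ((NZ b A h g).map (Int.cast : ℤ → ZMod p)).rank := by
  have : Fact p.Prime := ⟨hp⟩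
  have hraw : (raw A).length = A.length := by simp [raw]
  obtain ⟨hlen, hsq, hcf⟩ := h2 A b p hp.pos hA
  unfold grk
  rw [hraw]
  set M := (cf b p (raw A)).map (gmul p A.length h g) with hM
  have hMlen : M.length = (varsN A).length := by rw [hM, List.length_map, hlen]
  have hrow : ∀ r ∈ M, r.length = h * A.length := by
    intro r hr
    obtain ⟨C, -, rfl⟩ := List.mem_map.1 hr
    exact (h1 p A.length h g C).1
  rw [h4 p (h * A.length) M hrow]
  have e : (Matrix.of fun (i : Fin M.length) (j : Fin (h * A.length)) =>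
      (((M.getD i []).getD j 0 : ℕ) : ZMod p)) =
      ((NZ b A h g).map (Int.cast : ℤ → ZMod p)).submatrix (finCongr hMlen)
        (finProdFinEquiv (m := h) (n := A.length)).symm := by
    ext i j
    obtain ⟨x, rfl⟩ := (finProdFinEquiv (m := h) (n := A.length)).surjective j
    rw [Matrix.submatrix_apply, Equiv.symm_apply_apply, NZ_map, ← hcf]
    have hi : (i : ℕ) < (cf b p (raw A)).length := by
      rw [hlen, ← hMlen]
      exact i.isLt
    have hi' : ((finCongr hMlen i : Fin (varsN A).length) : ℕ) = (i : ℕ) := rfl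
    have hMi : M.getD i [] = gmul p A.length h g ((cf b p (raw A)).getD i []) :=
      getD_map (gmul p A.length h g) (cf b p (raw A)) i hi [] []
    have hj : ((finProdFinEquiv x : Fin (h * A.length)) : ℕ) = (x.1 : ℕ) * A.length + x.2 := by
      show (x.2 : ℕ) + A.length * x.1 = _
      ring
    rw [Matrix.of_apply, hMi, hj, hi']
    exact (h1 p A.length h g _).2 x.1 x.2
  rw [e, Matrix.rank_submatrix]

/-! ### Bounds -/

theorem entry_le (h3 : StCz) (h7 : StSizes) (b : Bool) (A : SMat)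
    (hA : ∀ r ∈ A, r.length = A.length) (h : ℕ) (g : List ℕ) (hg : ∀ x ∈ g, x ≤ A.length)
    (q : Fin (varsN A).length) (x : Fin h × Fin A.length) :
    |NZ b A h g q x| ≤ (2 ^ (4 * (code A).length) : ℤ) := by
  obtain ⟨-, -, hn, -, -, -⟩ := h7 A
  obtain ⟨hb, -⟩ := h3 A hA
  obtain ⟨L, hL⟩ : ∃ L, L = (code A).length := ⟨_, rfl⟩
  rw [← hL] at hn hb ⊢
  have hL2 : L + 1 ≤ 2 ^ L := Nat.lt_two_pow_self
  have hnL : A.length ≤ 2 ^ L := by omega
  unfold NZ
  rw [Matrix.mul_apply]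
  have h5 : ∀ j ∈ (Finset.univ : Finset (Fin A.length)),
      |GZ h A.length g x.1 j * czB b A q j x.2| ≤ (2 ^ L : ℤ) * 2 ^ (2 * L) := by
    intro j _
    rw [abs_mul]
    refine mul_le_mul ?_ (hb b q j x.2) (abs_nonneg _) (by positivity)
    unfold GZ
    rw [Nat.abs_cast]
    have h6 : g.getD ((x.1 : ℕ) * A.length + j) 0 ≤ A.length := by
      rw [List.getD_eq_getElem?_getD]
      rcases hgo : g[(x.1 : ℕ) * A.length + (j : ℕ)]? with _ | y
      · exact Nat.zero_le _
      · exact hg y (List.mem_of_getElem? hgo)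
    exact_mod_cast h6.trans hnL
  calc |∑ j, GZ h A.length g x.1 j * czB b A q j x.2|
      ≤ ∑ j, |GZ h A.length g x.1 j * czB b A q j x.2| := Finset.abs_sum_le_sum_abs _ _
    _ ≤ ∑ _j : Fin A.length, (2 ^ L : ℤ) * 2 ^ (2 * L) := Finset.sum_le_sum h5
    _ = (A.length : ℤ) * (2 ^ L * 2 ^ (2 * L)) := by
        rw [Finset.sum_const, Finset.card_univ, Fintype.card_fin, nsmul_eq_mul]
    _ ≤ (2 ^ L : ℤ) * (2 ^ L * 2 ^ (2 * L)) := by
        refine mul_le_mul_of_nonneg_right ?_ (by positivity)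
        exact_mod_cast hnL
    _ = 2 ^ (4 * L) := by
        rw [← pow_add, ← pow_add]
        congr 1
        ring

theorem KD_gt (L : ℕ) : 5 * (L * L) < KD L := by
  unfold KD kD
  have h1 : L * L ≤ (L + 2) * (L + 2) := Nat.mul_le_mul (by omega) (by omega)
  have h2 : 1 ≤ (L + 2) * (L + 2) := by nlinarith
  have h3 : (L + 2) * (L + 2) ≤ (L + 2) * (L + 2) * ((L + 2) * (L + 2) * ((L + 2) * (L + 2))) := by
    have h4 : 1 ≤ (L + 2) * (L + 2) * ((L + 2) * (L + 2)) := Nat.mul_le_mul h2 h2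
    calc (L + 2) * (L + 2) = (L + 2) * (L + 2) * 1 := (mul_one _).symm
      _ ≤ _ := Nat.mul_le_mul_left _ h4
  obtain ⟨T, hT⟩ : ∃ T, T = (L + 2) * (L + 2) * ((L + 2) * (L + 2) * ((L + 2) * (L + 2))) :=
    ⟨_, rfl⟩
  rw [← hT] at h3 ⊢
  nlinarith

theorem minor_lt (h3 : StCz) (h7 : StSizes) (b : Bool) (A : SMat)
    (hA : ∀ r ∈ A, r.length = A.length) (h : ℕ) (g : List ℕ) (hg : ∀ x ∈ g, x ≤ A.length)
    (r : ℕ) (a : Fin r → Fin (varsN A).length) (c : Fin r → Fin h × Fin A.length)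
    (hr : r ≤ (varsN A).length) :
    ((NZ b A h g).submatrix a c).det.natAbs < 2 ^ KD (code A).length := by
  have hent : ∀ i j, |(NZ b A h g).submatrix a c i j| ≤ (2 ^ (4 * (code A).length) : ℤ) :=
    fun i j => entry_le h3 h7 b A hA h g hg (a i) (c j)
  obtain ⟨-, -, -, hm, -, -⟩ := h7 A
  obtain ⟨L, hL⟩ : ∃ L, L = (code A).length := ⟨_, rfl⟩
  rw [← hL] at hm hent ⊢
  have hL2 : L + 1 ≤ 2 ^ L := Nat.lt_two_pow_self
  have hdet := Matrix.det_le (abv := AbsoluteValue.abs) (A := (NZ b A h g).submatrix a c) hent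
  rw [Fintype.card_fin, nsmul_eq_mul] at hdet
  have hrL : r ≤ L := hr.trans hm
  have h1 : |((NZ b A h g).submatrix a c).det| < (2 ^ KD L : ℤ) := by
    refine lt_of_le_of_lt hdet ?_
    have h2 : r.factorial ≤ 2 ^ (L * L) := by
      calc r.factorial ≤ r ^ r := Nat.factorial_le_pow _
        _ ≤ (2 ^ L) ^ r := Nat.pow_le_pow_left (by omega) _
        _ ≤ (2 ^ L) ^ L := Nat.pow_le_pow_right Nat.one_le_two_pow hrL
        _ = 2 ^ (L * L) := by rw [← pow_mul]
    have h3 : (2 ^ (4 * L)) ^ r ≤ 2 ^ (4 * L * L) := by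
      rw [← pow_mul]
      exact Nat.pow_le_pow_right (by norm_num) (Nat.mul_le_mul_left _ hrL)
    have h4 : r.factorial * (2 ^ (4 * L)) ^ r < 2 ^ KD L := by
      calc _ ≤ 2 ^ (L * L) * 2 ^ (4 * L * L) := Nat.mul_le_mul h2 h3
        _ = 2 ^ (L * L + 4 * L * L) := by rw [← pow_add]
        _ < 2 ^ KD L := by
            refine Nat.pow_lt_pow_right (by norm_num) ?_
            have h5 := KD_gt L
            have h8 : 4 * L * L = 4 * (L * L) := by ring
            omega
    exact_mod_cast h4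
  rw [Int.abs_eq_natAbs] at h1
  exact_mod_cast h1

end GrkQAux

open GrkQAux

/-- The dimension of `G V` is the largest dimension modulo a small prime. -/
theorem stGrkQ (h1 : StGmul) (h2 : StCf) (h3 : StCz) (h4 : ST2.StRk) (h5 : ST.StPrime)
    (h6 : ST.StIsPrime) (h7 : ST.StSizes) : StGrkQ := by
  classical
  intro A b h g hA _ _ hg
  rw [← rank_rat]
  have hle : ∀ p : ℕ, p.Prime →
      grk b p (raw A) h g ≤ ((NZ b A h g).map (Int.cast : ℤ → ℚ)).rank := by
    intro p hp
    have : Fact p.Prime := ⟨hp⟩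
    rw [grk_eq h1 h2 h4 b A hA h g p hp]
    obtain ⟨a, c, hab⟩ := exists_minor ((NZ b A h g).map (Int.cast : ℤ → ZMod p))
    rw [det_cast] at hab
    refine le_rank _ a c ?_
    rw [det_cast]
    intro h0
    rw [Int.cast_eq_zero] at h0
    rw [h0, Int.cast_zero] at hab
    exact hab rfl
  obtain ⟨p, hpb, hpp, hpr⟩ : ∃ p ≤ bD (code A).length, p.Prime ∧
      ((NZ b A h g).map (Int.cast : ℤ → ℚ)).rank ≤ grk b p (raw A) h g := by
    obtain ⟨a, c, hab⟩ := exists_minor ((NZ b A h g).map (Int.cast : ℤ → ℚ))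
    rw [det_cast, Int.cast_ne_zero] at hab
    have hr : ((NZ b A h g).map (Int.cast : ℤ → ℚ)).rank ≤ (varsN A).length := by
      have := Matrix.rank_le_card_height ((NZ b A h g).map (Int.cast : ℤ → ℚ))
      rwa [Fintype.card_fin] at this
    obtain ⟨p, hpb, hpp, hpd⟩ := h5 _ _ hab (minor_lt h3 h7 b A hA h g hg _ a c hr)
    have : Fact p.Prime := ⟨hpp⟩
    refine ⟨p, hpb, hpp, ?_⟩
    rw [grk_eq h1 h2 h4 b A hA h g p hpp]
    refine le_rank _ a c ?_
    rw [det_cast]
    intro h0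
    exact hpd ((ZMod.intCast_zmod_eq_zero_iff_dvd _ _).1 h0)
  unfold grkQ
  apply le_antisymm
  · refine foldl_le (fun x hx => ?_) 0 (Nat.zero_le _)
    obtain ⟨q, hq, rfl⟩ := List.mem_map.1 hx
    by_cases h : isPrime (q + 1) = true
    · rw [h, cond_true]
      exact hle (q + 1) ((h6 _).1 h)
    · rw [Bool.not_eq_true] at h
      rw [h, cond_false]
      exact Nat.zero_le _
  · refine hpr.trans (mem_le_foldl (List.mem_map.2 ⟨p - 1, ?_, ?_⟩) 0)
    · have := hpp.pos
      exact List.mem_range.2 (by omega)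
    · have h2 : p - 1 + 1 = p := Nat.sub_add_cancel hpp.pos
      rw [h2, (h6 p).2 hpp, cond_true]

end Pool.Agent.Lib.MP_64d474_lc.ST4
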