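import Pool.Agent.Lib.MP_64d474_lc.ST4.Stmts4
import Pool.Agent.Lib.MP_64d474_lc.ST.IsPrime

/-!
# The test for injectivity on `E`
-/

set_option autoImplicit false

open Finset Module Pool.Agent.Lib.PT Pool.Agent.Lib.MP_64d474_lc.ST
open Pool.Agent.Lib.MP_64d474_lc.ST2 (rkmod rstep cmat pwm fval subs goodF rw' nr wl Hf)
open Pool.Agent.Lib.MP_64d474_lc.ST3 (zerM low his dgs goodW pb3 rs3 cost3 mvecs Sq toM lowRank
  highProd)

namespace Pool.Agent.Lib.MP_64d474_lc.ST4

namespace Halfaux

theorem length_filter_le_add (l : List ℕ) (p q r : ℕ → Bool)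
    (h : ∀ x ∈ l, p x = true → q x = true ∨ r x = true) :
    (l.filter p).length ≤ (l.filter q).length + (l.filter r).length := by
  induction l with
  | nil => simp
  | cons a l ih =>
    have h1 := ih fun x hx => h x (List.mem_cons_of_mem a hx)
    have h2 := h a List.mem_cons_self
    rw [List.filter_cons, List.filter_cons, List.filter_cons]
    cases hp : p a <;> cases hq : q a <;> cases hr : r a <;>
      simp_all <;> omega

theorem length_filter_le (l : List ℕ) (p q : ℕ → Bool)
    (h : ∀ x ∈ l, p x = true → q x = true) : (l.filter p).length ≤ (l.filter q).length := by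
  have h1 := length_filter_le_add l p q (fun _ => false) fun x hx hp => Or.inl (h x hx hp)
  have h2 : (l.filter fun _ => false).length = 0 := by simp
  omega

end Halfaux

theorem stHalf (h1 : StHit4) (h2 : StCount) : StHalf := by
  intro A b E g hA hE hg hgx hrk
  obtain ⟨Δ, H, hΔ, hΔb, hHb, hhit, hinj, hex⟩ := h1 A b E g hA hE hg hgx hrk
  obtain ⟨hcount, hbad⟩ := h2
  have hlen : (raw A).length = A.length := by simp [raw]
  constructor
  · intro hh
    unfold halfG at hh
    rw [List.any_eq_true] at hh
    obtain ⟨t, ht, hd⟩ := hh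
    rw [hlen, List.mem_range] at ht
    rw [decide_eq_true_eq] at hd
    by_contra hcon
    have hH0 : H t = 0 := by
      by_contra hne
      exact hcon (hinj t hne)
    have hb := hbad (bD (code A).length) (kD (code A).length) Δ hΔ hΔb
    have hle := Halfaux.length_filter_le (List.range (bD (code A).length))
      (fun p => isPrime (p + 1) && hit b (p + 1) (raw A) (E + 1) g t E (vecs 1 E))
      (fun p => isPrime (p + 1) && decide (((p + 1 : ℕ) : ℤ) ∣ Δ)) (by
        intro p _ hp
        rw [Bool.and_eq_true] at hp
        rw [Bool.and_eq_true, decide_eq_true_eq]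
        refine ⟨hp.1, ?_⟩
        by_contra hnd
        have : Fact (p + 1).Prime := ⟨(stIsPrime (p + 1)).1 hp.1⟩
        have h3 := (hhit (p + 1) hnd t (by omega)).1 hp.2
        rw [hH0] at h3
        exact h3 (dvd_zero _))
    omega
  · intro hi
    obtain ⟨t, ht, hne⟩ := hex hi
    unfold halfG
    rw [List.any_eq_true]
    refine ⟨t, by rw [hlen, List.mem_range]; omega, ?_⟩
    rw [decide_eq_true_eq]
    have hb := hbad (bD (code A).length) (kD (code A).length) (Δ * H t) (mul_ne_zero hΔ hne)
      (hHb t ht)
    have hc := hcount (code A).length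
    have hle := Halfaux.length_filter_le_add (List.range (bD (code A).length))
      (fun p => isPrime (p + 1))
      (fun p => isPrime (p + 1) && hit b (p + 1) (raw A) (E + 1) g t E (vecs 1 E))
      (fun p => isPrime (p + 1) && decide (((p + 1 : ℕ) : ℤ) ∣ Δ * H t)) (by
        intro p _ hp
        by_cases hd : ((p + 1 : ℕ) : ℤ) ∣ Δ * H t
        · right
          rw [Bool.and_eq_true, decide_eq_true_eq]
          exact ⟨hp, hd⟩
        · left
          rw [Bool.and_eq_true]
          refine ⟨hp, ?_⟩
          have : Fact (p + 1).Prime := ⟨(stIsPrime (p + 1)).1 hp⟩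
          have h3 : ¬ ((p + 1 : ℕ) : ℤ) ∣ Δ := fun h => hd (Dvd.dvd.mul_right h _)
          exact (hhit (p + 1) h3 t ht).2 fun h => hd (Dvd.dvd.mul_left h _))
    omega

end Pool.Agent.Lib.MP_64d474_lc.ST4
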