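import Pool.Agent.Lib.MP_64d474_lc.ST4.Stmts4

/-!
# The Fischer norm of a determinant and multiplication with a matrix
-/

set_option autoImplicit false

open Finset Pool.Agent.Lib.MP_64d474_lc.ST

namespace Pool.Agent.Lib.MP_64d474_lc.ST4

namespace HfMAux

variable {K : Type} [CommRing K] {m e : ℕ} (D : Fin m → Matrix (Fin e) (Fin e) K)

/-- The coefficient of the determinant which belongs to a function. -/
def Cc (a : Fin e → Fin m) : K :=
  ∑ σ : Equiv.Perm (Fin e), ((σ.sign : ℤ) : K) * ∏ i, D (a i) i (σ i)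

/-- The symmetrisation. -/
def Sy (a : Fin e → Fin m) : K := ∑ τ : Equiv.Perm (Fin e), Cc D (a ∘ τ)

lemma Cc_eq_det (a : Fin e → Fin m) :
    Cc D a = (Matrix.of fun i j => D (a i) i j).det := by
  rw [← Matrix.det_transpose, Matrix.det_apply']
  rfl

lemma Cc_mul (g : Matrix (Fin e) (Fin e) K) (a : Fin e → Fin m) :
    Cc (fun q => D q * g) a = Cc D a * g.det := by
  rw [Cc_eq_det, Cc_eq_det, ← Matrix.det_mul]
  congr 1

lemma Sy_mul (g : Matrix (Fin e) (Fin e) K) (a : Fin e → Fin m) :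
    Sy (fun q => D q * g) a = Sy D a * g.det := by
  unfold Sy
  rw [Finset.sum_mul]
  exact Finset.sum_congr rfl fun τ _ => Cc_mul D g _

lemma inner_sum (a : Fin e → Fin m) :
    ∑ π : Equiv.Perm (Fin e), ∑ κ : Equiv.Perm (Fin e),
      (((π.sign : ℤ) : K) * ((κ.sign : ℤ) : K)) * ∏ i, D (a i) (π i) (κ i) = Sy D a := by
  have h1 : ∀ π : Equiv.Perm (Fin e), ∑ κ : Equiv.Perm (Fin e),
      (((π.sign : ℤ) : K) * ((κ.sign : ℤ) : K)) * ∏ i, D (a i) (π i) (κ i) =
        Cc D (a ∘ (π⁻¹ : Equiv.Perm _)) := by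
    intro π
    unfold Cc
    rw [← Equiv.sum_comp (Equiv.mulRight π) fun κ : Equiv.Perm (Fin e) =>
      (((π.sign : ℤ) : K) * ((κ.sign : ℤ) : K)) * ∏ i, D (a i) (π i) (κ i)]
    refine Finset.sum_congr rfl fun κ _ => ?_
    have e1 : ∏ i, D (a i) (π i) ((Equiv.mulRight π κ) i) =
        ∏ i, D ((a ∘ (π⁻¹ : Equiv.Perm _)) i) i (κ i) := by
      rw [← Equiv.prod_comp π fun j => D ((a ∘ (π⁻¹ : Equiv.Perm _)) j) j (κ j)]
      refine Finset.prod_congr rfl fun i _ => ?_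
      simp
    rw [e1]
    have e2 : (((π.sign : ℤ) : K) * (((Equiv.mulRight π κ).sign : ℤ) : K)) =
        ((κ.sign : ℤ) : K) := by
      rw [Equiv.coe_mulRight, Equiv.Perm.sign_mul]
      push_cast
      have h2 : (((π.sign : ℤ)) * (π.sign : ℤ)) = 1 := by
        rw [← Units.val_mul, Int.units_mul_self, Units.val_one]
      have h3 : (((π.sign : ℤ) : K)) * ((π.sign : ℤ) : K) = 1 := by
        rw [← Int.cast_mul, h2, Int.cast_one]
      linear_combination ((κ.sign : ℤ) : K) * h3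
    rw [e2]
  rw [Finset.sum_congr rfl fun π _ => h1 π]
  unfold Sy
  rw [← Equiv.sum_comp (Equiv.inv (Equiv.Perm (Fin e))) fun τ : Equiv.Perm (Fin e) => Cc D (a ∘ τ)]
  refine Finset.sum_congr rfl fun π _ => ?_
  rfl

lemma hfK_eq : HfK D = ∑ a : Fin e → Fin m, Cc D a * Sy D a := by
  classical
  unfold HfK
  have h1 : ∀ σ π κ : Equiv.Perm (Fin e),
      (((σ.sign : ℤ) * (π.sign : ℤ) * (κ.sign : ℤ) : ℤ) : K) *
        ∏ i : Fin e, ∑ q, D q i (σ i) * D q (π i) (κ i) =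
      ∑ a : Fin e → Fin m, (((σ.sign : ℤ) : K) * ∏ i, D (a i) i (σ i)) *
        ((((π.sign : ℤ) : K) * ((κ.sign : ℤ) : K)) * ∏ i, D (a i) (π i) (κ i)) := by
    intro σ π κ
    rw [Finset.prod_univ_sum, Fintype.piFinset_univ, Finset.mul_sum]
    refine Finset.sum_congr rfl fun a _ => ?_
    rw [Finset.prod_mul_distrib]
    push_cast
    ring
  calc _ = ∑ σ : Equiv.Perm (Fin e), ∑ π : Equiv.Perm (Fin e), ∑ κ : Equiv.Perm (Fin e),
        ∑ a : Fin e → Fin m, (((σ.sign : ℤ) : K) * ∏ i, D (a i) i (σ i)) *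
        ((((π.sign : ℤ) : K) * ((κ.sign : ℤ) : K)) * ∏ i, D (a i) (π i) (κ i)) := by
        refine Finset.sum_congr rfl fun σ _ => Finset.sum_congr rfl fun π _ =>
          Finset.sum_congr rfl fun κ _ => h1 σ π κ
    _ = ∑ σ : Equiv.Perm (Fin e), ∑ a : Fin e → Fin m,
        (((σ.sign : ℤ) : K) * ∏ i, D (a i) i (σ i)) * Sy D a := by
        refine Finset.sum_congr rfl fun σ _ => ?_
        have e1 : ∀ π : Equiv.Perm (Fin e), ∑ κ : Equiv.Perm (Fin e),
            ∑ a : Fin e → Fin m, (((σ.sign : ℤ) : K) * ∏ i, D (a i) i (σ i)) *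
              ((((π.sign : ℤ) : K) * ((κ.sign : ℤ) : K)) * ∏ i, D (a i) (π i) (κ i)) =
            ∑ a : Fin e → Fin m, ∑ κ : Equiv.Perm (Fin e),
              (((σ.sign : ℤ) : K) * ∏ i, D (a i) i (σ i)) *
              ((((π.sign : ℤ) : K) * ((κ.sign : ℤ) : K)) * ∏ i, D (a i) (π i) (κ i)) :=
          fun π => Finset.sum_comm
        rw [Finset.sum_congr rfl fun π _ => e1 π, Finset.sum_comm]
        refine Finset.sum_congr rfl fun a _ => ?_
        rw [← inner_sum D a, Finset.mul_sum]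
        refine Finset.sum_congr rfl fun π _ => ?_
        rw [Finset.mul_sum]
    _ = ∑ a : Fin e → Fin m, Cc D a * Sy D a := by
        rw [Finset.sum_comm]
        refine Finset.sum_congr rfl fun a _ => ?_
        rw [← Finset.sum_mul]
        rfl

end HfMAux

open HfMAux in
/-- (HfM) -/
theorem stHfM : StHfM := by
  intro K _ m e D g
  rw [hfK_eq, hfK_eq, Finset.mul_sum]
  refine Finset.sum_congr rfl fun a _ => ?_
  rw [Cc_mul, Sy_mul]
  ring

end Pool.Agent.Lib.MP_64d474_lc.ST4
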