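import Pool.Agent.Lib.MP_64d474_lc.ST4.Stmts4
import Pool.Agent.Lib.MP_64d474_lc.ST2.Wick

/-!
# The Fischer norm over the integers
-/

set_option autoImplicit false

open Finset Pool.Agent.Lib.MP_64d474_lc.ST

namespace Pool.Agent.Lib.MP_64d474_lc.ST4

namespace HfZAux

open MvPolynomial
open Pool.Agent.Lib.MP_64d474_lc.ST2.WickAux (Cc Sy mo hf_eq hf_eq_zero det_eq poly_eq_zero)

variable {m e : ℕ} (D : Fin m → Matrix (Fin e) (Fin e) ℤ)

/-- the coefficients -/
def w (i j : Fin e) (q : Fin m) : ℤ := D q i j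

/-- the variables -/
def v (q : Fin m) : ℕ := q

lemma v_inj : Function.Injective (v (m := m)) := Fin.val_injective

lemma hfK_eq : HfK D = ∑ a : Fin e → Fin m, Cc (w D) a * Sy (w D) a := by
  rw [← hf_eq (w D)]
  unfold HfK
  refine Finset.sum_congr rfl fun σ _ => Finset.sum_congr rfl fun π _ =>
    Finset.sum_congr rfl fun κ _ => ?_
  rw [Int.cast_id]
  rfl

/-- the polynomial -/
noncomputable def P : MvPolynomial ℕ ℤ :=
  ∑ a : Fin e → Fin m, monomial (mo v a) (Cc (w D) a)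

lemma eval_P (y : ℕ → ℚ) : eval₂ (Int.castRingHom ℚ) y (P D) =
    (∑ q, y (v q) • (D q).map (Int.cast : ℤ → ℚ)).det := by
  unfold P
  rw [← det_eq (w D), ← Matrix.det_transpose, Matrix.det_apply', eval₂_sum]
  refine Finset.sum_congr rfl fun σ _ => ?_
  rw [eval₂_mul, eval₂_prod]
  have h1 : eval₂ (Int.castRingHom ℚ) y ((σ.sign : ℤ) : MvPolynomial ℕ ℤ) = ((σ.sign : ℤ) : ℚ) := by
    have e1 : ((σ.sign : ℤ) : MvPolynomial ℕ ℤ) = C (σ.sign : ℤ) :=
      (map_intCast (C : ℤ →+* MvPolynomial ℕ ℤ) (σ.sign : ℤ)).symm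
    rw [e1, eval₂_C]
    rfl
  rw [h1]
  congr 1
  refine Finset.prod_congr rfl fun i _ => ?_
  rw [eval₂_sum, Matrix.transpose_apply, Matrix.sum_apply]
  refine Finset.sum_congr rfl fun q _ => ?_
  rw [eval₂_mul, eval₂_C, eval₂_X, Matrix.smul_apply, Matrix.map_apply, smul_eq_mul, mul_comm]
  rfl

lemma P_ne : P D ≠ 0 ↔ ∃ y : ℕ → ℚ, eval₂ (Int.castRingHom ℚ) y (P D) ≠ 0 := by
  constructor
  · intro h
    by_contra hcon
    push Not at hcon
    apply h
    have h1 : MvPolynomial.map (Int.castRingHom ℚ) (P D) = 0 := by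
      apply MvPolynomial.funext
      intro y
      rw [eval_map, hcon, map_zero]
    exact (map_injective (Int.castRingHom ℚ) Int.cast_injective) (by rw [h1, map_zero])
  · rintro ⟨y, hy⟩ h
    rw [h, eval₂_zero] at hy
    exact hy rfl

end HfZAux

open HfZAux in
/-- The Fischer norm over the integers. -/
theorem stHfZ : StHfZ := by
  intro m e D
  rw [hfK_eq, ne_eq, ST2.WickAux.hf_eq_zero, ← ST2.WickAux.poly_eq_zero (w D) v_inj]
  change P D ≠ 0 ↔ _
  rw [P_ne]
  constructor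
  · rintro ⟨y, hy⟩
    rw [eval_P] at hy
    exact ⟨fun q => y (v q), hy⟩
  · rintro ⟨x, hx⟩
    refine ⟨fun k => if h : k < m then x ⟨k, h⟩ else 0, ?_⟩
    rw [eval_P]
    have h1 : ∀ q : Fin m, (if h : v q < m then x ⟨v q, h⟩ else 0) = x q := by
      intro q
      rw [dif_pos (show v q < m from q.2)]
      rfl
    simpa only [h1] using hx

end Pool.Agent.Lib.MP_64d474_lc.ST4
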