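import Pool.Agent.Lib.MP_64d474_lc.ST4.Stmts4

/-!
# The test for one half of the condition
-/

set_option autoImplicit false

open Finset Module Pool.Agent.Lib.PT Pool.Agent.Lib.MP_64d474_lc.ST
open Pool.Agent.Lib.MP_64d474_lc.ST2 (rkmod rstep cmat pwm fval subs goodF rw' nr wl Hf)
open Pool.Agent.Lib.MP_64d474_lc.ST3 (zerM low his dgs goodW pb3 rs3 cost3 mvecs Sq toM lowRank
  highProd)

namespace Pool.Agent.Lib.MP_64d474_lc.ST4

namespace Hit4Aux

/-! ### The values of the table are smaller than `p` -/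

theorem look_lt {p : ℕ} (hp : 0 < p) (T : ST2.Tab) (hT : ∀ y ∈ T, y.2 < p)
    (k : List ℕ × List ℕ × List ℕ) : ST2.look T k < p := by
  unfold ST2.look
  cases h : (T.filter fun t => decide (t.1 = k)) with
  | nil => simpa using hp
  | cons a l =>
    have : a ∈ T.filter fun t => decide (t.1 = k) := by rw [h]; exact List.mem_cons_self
    exact hT a (List.mem_of_mem_filter this)

theorem fstep_lt {p : ℕ} (hp : 0 < p) (A : RMat) (S : List (List ℕ)) (s : ℕ × ST2.Tab) :
    ∀ y ∈ (ST2.fstep p A S s).2, y.2 < p := by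
  intro y hy
  unfold ST2.fstep at hy
  simp only [List.mem_map] at hy
  obtain ⟨x, _, rfl⟩ := hy
  exact Nat.mod_lt _ hp

theorem fval_lt {p : ℕ} (hp : 1 < p) (A : RMat) (S : List (List ℕ)) : fval p A S < p := by
  unfold fval
  apply look_lt (by omega)
  cases hA : A.length with
  | zero =>
    intro y hy
    simp only [Function.iterate_zero, id_eq, List.mem_singleton] at hy
    rw [hy]
    exact Nat.mod_lt _ (by omega)
  | succ n =>
    rw [Function.iterate_succ_apply']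
    exact fstep_lt (by omega) A S _

theorem fval_eq_zero {p : ℕ} (hp : 1 < p) (A : RMat) (S : List (List ℕ)) :
    fval p A S = 0 ↔ ((fval p A S : ℕ) : ZMod p) = 0 := by
  rw [ZMod.natCast_eq_zero_iff]
  constructor
  · intro h; rw [h]; exact dvd_zero _
  · intro h; exact Nat.eq_zero_of_dvd_of_lt h (fval_lt hp A S)

/-! ### The Fischer norm -/

theorem HfK_map {K K' : Type} [CommRing K] [CommRing K'] (f : K →+* K') {m e : ℕ}
    (D : Fin m → Matrix (Fin e) (Fin e) K) :
    HfK (fun q => (D q).map f) = f (HfK D) := by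
  unfold HfK
  simp only [map_sum, map_mul, map_prod, Matrix.map_apply, map_intCast]

theorem HfK_cast {K : Type} [CommRing K] {m m' e : ℕ} (h : m' = m)
    (D : Fin m → Matrix (Fin e) (Fin e) K) (D' : Fin m' → Matrix (Fin e) (Fin e) K)
    (hD : ∀ q : Fin m', D' q = D (Fin.cast h q)) : HfK D' = HfK D := by
  subst h
  congr 1
  funext q
  exact hD q

theorem vdm_map {K K' : Type} [CommRing K] [CommRing K'] (f : K →+* K') (e n t : ℕ) :
    (vdm K e n t).map f = vdm K' e n t := by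
  ext i j
  simp only [vdm, Matrix.map_apply, map_pow, map_natCast]

/-! ### Bases -/

section bases

variable {F : Type} [Field F] {n : ℕ}

theorem isB_finrank {e : ℕ} {U : Matrix (Fin n) (Fin e) F} {E : Submodule F (Fin n → F)}
    (h : IsB U E) : finrank F E = e := by
  rw [← h.1, LinearMap.finrank_range_of_inj (f := U.mulVecLin) h.2]
  simp

theorem isB_mul {e l : ℕ} {U : Matrix (Fin n) (Fin e) F} {B : Matrix (Fin n) (Fin l) F}
    {E : Submodule F (Fin n → F)} (hU : IsB U E) (hB : IsB B E) :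
    ∃ g : Matrix (Fin e) (Fin l) F, B = U * g := by
  have hcol : ∀ j : Fin l, ∃ y : Fin e → F, U.mulVec y = fun i => B i j := by
    intro j
    have h1 : (B.mulVecLin (Pi.single j 1)) ∈ LinearMap.range B.mulVecLin := ⟨_, rfl⟩
    rw [hB.1, ← hU.1] at h1
    obtain ⟨y, hy⟩ := h1
    refine ⟨y, ?_⟩
    rw [Matrix.mulVecLin_apply, Matrix.mulVecLin_apply, Matrix.mulVec_single_one] at hy
    rw [hy]
    rfl
  choose y hy using hcol
  refine ⟨fun i j => y j i, ?_⟩
  ext i j
  rw [Matrix.mul_apply]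
  exact (congrFun (hy j) i).symm

theorem isB_unit {e : ℕ} {U B : Matrix (Fin n) (Fin e) F}
    {E : Submodule F (Fin n → F)} (hU : IsB U E) (hB : IsB B E) :
    ∃ g : Matrix (Fin e) (Fin e) F, B = U * g ∧ g.det ≠ 0 := by
  obtain ⟨g, hg⟩ := isB_mul hU hB
  obtain ⟨g', hg'⟩ := isB_mul hB hU
  refine ⟨g, hg, ?_⟩
  have h1 : U = U * (g * g') := by
    rw [← Matrix.mul_assoc, ← hg]; exact hg'
  have h2 : g * g' = 1 := by
    apply Matrix.ext_of_mulVec_single
    intro j
    apply hU.2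
    have h3 : U.mulVec ((g * g').mulVec (Pi.single j 1)) = U.mulVec (Pi.single j 1) := by
      rw [Matrix.mulVec_mulVec, ← h1]
    rw [h3, Matrix.one_mulVec]
  intro h0
  have h3 := congrArg Matrix.det h2
  rw [Matrix.det_mul, h0, zero_mul, Matrix.det_one] at h3
  exact zero_ne_one h3

end bases

theorem Gm_map {F : Type} [Field F] (h n : ℕ) (g : List ℕ) :
    (Matrix.of (fun (a : Fin h) (j : Fin n) => ((g.getD ((a : ℕ) * n + j) 0 : ℕ) : ℤ))).map
      (Int.cast : ℤ → F) = Gm F h n g := by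
  ext a j
  simp [Gm]

/-! ### The forms over the field -/

theorem form_map {K : Type} [CommRing K] {n e m : ℕ} (t : ℕ)
    (C : Fin m → Matrix (Fin n) (Fin n) ℤ) (U : Matrix (Fin n) (Fin e) ℤ) (q : Fin m) :
    (vdm ℤ e n t * C q * U).map (Int.cast : ℤ → K) =
      vdm K e n t * (C q).map (Int.cast : ℤ → K) * U.map (Int.cast : ℤ → K) := by
  have h1 : ∀ {a b : ℕ} (M : Matrix (Fin a) (Fin b) ℤ),
      M.map (Int.cast : ℤ → K) = M.map (Int.castRingHom K) := fun _ => rfl
  rw [h1, h1, h1, Matrix.map_mul, Matrix.map_mul, vdm_map]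

theorem form_sum {n e m : ℕ} (t : ℕ)
    (C : Fin m → Matrix (Fin n) (Fin n) ℤ) (U : Matrix (Fin n) (Fin e) ℤ) (x : Fin m → ℚ) :
    (∑ q, x q • (vdm ℤ e n t * C q * U).map (Int.cast : ℤ → ℚ)) =
      vdm ℚ e n t * (∑ q, x q • (C q).map (Int.cast : ℤ → ℚ)) * U.map (Int.cast : ℤ → ℚ) := by
  rw [Matrix.mul_sum, Matrix.sum_mul]
  refine Finset.sum_congr rfl fun q _ => ?_
  rw [form_map, Matrix.mul_smul, Matrix.smul_mul]

/-- (5th part) -/
theorem part5 (h3 : StHfZ) {n e m : ℕ} (t : ℕ) (C : Fin m → Matrix (Fin n) (Fin n) ℤ)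
    (U : Matrix (Fin n) (Fin e) ℤ) (E : Submodule ℚ (Fin n → ℚ))
    (hU : IsB (U.map (Int.cast : ℤ → ℚ)) E)
    (hH : HfK (fun q => vdm ℤ e n t * C q * U) ≠ 0) : Inj (spn ℚ C) E := by
  obtain ⟨x, hx⟩ := (h3 m e _).1 hH
  rw [form_sum] at hx
  refine ⟨∑ q, x q • (C q).map (Int.cast : ℤ → ℚ), ?_, ?_⟩
  · exact Submodule.sum_mem _ fun q _ => Submodule.smul_mem _ _
      (Submodule.subset_span ⟨q, rfl⟩)
  · intro u hu hXu
    rw [← hU.1] at hu
    obtain ⟨y, rfl⟩ := hu
    rw [Matrix.mulVecLin_apply] at hXu ⊢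
    have h1 : (vdm ℚ e n t * (∑ q, x q • (C q).map (Int.cast : ℤ → ℚ)) *
        U.map (Int.cast : ℤ → ℚ)).mulVec y = 0 := by
      rw [← Matrix.mulVec_mulVec, ← Matrix.mulVec_mulVec, hXu, Matrix.mulVec_zero]
    have h2 : y = 0 := Matrix.eq_zero_of_mulVec_eq_zero hx h1
    rw [h2, Matrix.mulVec_zero]

/-- (6th part) -/
theorem part6 (h3 : StHfZ) (h8 : StCond) {n e m : ℕ} (C : Fin m → Matrix (Fin n) (Fin n) ℤ)
    (U : Matrix (Fin n) (Fin e) ℤ) (E : Submodule ℚ (Fin n → ℚ))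
    (hU : IsB (U.map (Int.cast : ℤ → ℚ)) E) (hI : Inj (spn ℚ C) E) :
    ∃ t ≤ n * n * n, HfK (fun q => vdm ℤ e n t * C q * U) ≠ 0 := by
  obtain ⟨X, hX, hinj⟩ := hI
  obtain ⟨x, hx⟩ := (Submodule.mem_span_range_iff_exists_fun ℚ).1 hX
  have hM : Function.Injective (X * U.map (Int.cast : ℤ → ℚ)).mulVec := by
    intro y y' hy
    apply hU.2
    have h1 : X.mulVec ((U.map (Int.cast : ℤ → ℚ)).mulVec (y - y')) = 0 := by
      rw [Matrix.mulVec_mulVec, Matrix.mulVec_sub, hy, sub_self]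
    have h2 : (U.map (Int.cast : ℤ → ℚ)).mulVec (y - y') ∈ E := by
      rw [← hU.1]; exact ⟨y - y', rfl⟩
    have h3 := hinj _ h2 h1
    rw [Matrix.mulVec_sub, sub_eq_zero] at h3
    exact h3
  obtain ⟨t, ht, hdet⟩ := h8 ℚ n e _ hM
  refine ⟨t, by omega, (h3 m e _).2 ⟨x, ?_⟩⟩
  rw [form_sum, hx, Matrix.mul_assoc]
  exact hdet

/-- (4th part) the value modulo `p` -/
theorem part4 (h2 : StHfM) (h4 : StFv) (p : ℕ) [hp : Fact p.Prime] {n e m : ℕ} (t E : ℕ)
    (C : Fin m → Matrix (Fin n) (Fin n) ℤ)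
    (U : Matrix (Fin n) (Fin e) ℤ) (Cs : List (List (List ℕ))) (Bs : List (List ℕ))
    (hl : Cs.length = m) (hC : ∀ M ∈ Cs, Sq n M)
    (hCs : ∀ q : Fin m, toM p n (Cs.getD q []) = (C q).map (Int.cast : ℤ → ZMod p))
    (V : Submodule (ZMod p) (Fin n → ZMod p)) (hB : ∀ u ∈ Bs, u.length = n)
    (hBV : IsB (colM p n Bs) V) (hUV : IsB (U.map (Int.cast : ℤ → ZMod p)) V) (heE : e ≤ E) :
    Bs.length ≤ E ∧ (fval p (smallM p n t Cs Bs) (subs Bs.length (vecs 1 E)) = 0 ↔
      (p : ℤ) ∣ HfK (fun q => vdm ℤ e n t * C q * U)) := by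
  have hlen : e = Bs.length := by rw [← isB_finrank hUV, isB_finrank hBV]
  subst hlen
  refine ⟨heE, ?_⟩
  rw [fval_eq_zero hp.out.one_lt, h4 p n t E Cs Bs hp.out.pos hC hB heE]
  obtain ⟨g, hg, hdet⟩ := isB_unit hUV hBV
  have h5 : HfK (fun q : Fin Cs.length =>
      vdm (ZMod p) Bs.length n t * toM p n (Cs.get q) * colM p n Bs) =
      HfK (fun q : Fin m => vdm (ZMod p) Bs.length n t * (C q).map (Int.cast : ℤ → ZMod p) *
        U.map (Int.cast : ℤ → ZMod p) * g) := by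
    apply HfK_cast hl
    intro q
    rw [hg, ← hCs, ← Matrix.mul_assoc]
    congr 3
    have h6 : Cs.getD (Fin.cast hl q : ℕ) [] = Cs.get q := by
      rw [List.getD_eq_getElem?_getD, List.get_eq_getElem]
      simp
    rw [h6]
  rw [h5, h2]
  have h6 : HfK (fun q : Fin m => vdm (ZMod p) Bs.length n t *
      (C q).map (Int.cast : ℤ → ZMod p) * U.map (Int.cast : ℤ → ZMod p)) =
      ((HfK (fun q => vdm ℤ Bs.length n t * C q * U) : ℤ) : ZMod p) := by
    have h7 := HfK_map (Int.castRingHom (ZMod p)) (fun q => vdm ℤ Bs.length n t * C q * U)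
    rw [eq_intCast] at h7
    rw [← h7]
    congr 1
    funext q
    exact (form_map t C U q).symm
  rw [h6, mul_eq_zero, ZMod.intCast_zmod_eq_zero_iff_dvd]
  constructor
  · rintro (h | h)
    · exact absurd (pow_eq_zero_iff (two_ne_zero) |>.1 h) hdet
    · exact h
  · intro h; exact Or.inr h

end Hit4Aux

open Hit4Aux in
/-- (Hit4) -/
theorem stHit4 (h1 : StEU) (h2 : StHfM) (h3 : StHfZ) (h4 : StFv) (h5 : StBas) (h6 : StCf)
    (h7 : StCz) (h8 : StCond) (h9 : StBdH) (h10 : ST.StSizes) : StHit4 := by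
  intro A b E g hA hE hg hgn hfin
  obtain ⟨-, -, hn, hm, -, -⟩ := h10 A
  have hC := (h7 A hA).1 b
  set L := (code A).length with hL
  have hG : ∀ (i : Fin (E + 1)) (j : Fin A.length),
      |(Matrix.of (fun (a : Fin (E + 1)) (j : Fin A.length) =>
        ((g.getD ((a : ℕ) * A.length + j) 0 : ℕ) : ℤ))) i j| ≤ 2 ^ (2 * L) := by
    intro i j
    rw [Matrix.of_apply, Nat.abs_cast]
    have h11 : g.getD ((i : ℕ) * A.length + j) 0 ≤ A.length := by
      rw [List.getD_eq_getElem?_getD]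
      rcases lt_or_ge ((i : ℕ) * A.length + j) g.length with h | h
      · rw [List.getElem?_eq_getElem h]
        exact hgn _ (List.getElem_mem h)
      · rw [List.getElem?_eq_none h]
        exact Nat.zero_le _
    have h12 : g.getD ((i : ℕ) * A.length + j) 0 ≤ 2 ^ (2 * L) :=
      calc _ ≤ A.length := h11
        _ ≤ L := hn
        _ ≤ 2 ^ L := Nat.lt_two_pow_self.le
        _ ≤ 2 ^ (2 * L) := Nat.pow_le_pow_right (by norm_num) (by omega)
    exact_mod_cast h12
  obtain ⟨e, U, Δ, hΔ, hΔb, hUb, hUQ, hUp⟩ := h1 L A.length (varsN A).length (E + 1) (czB b A)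
    (Matrix.of (fun (a : Fin (E + 1)) (j : Fin A.length) =>
      ((g.getD ((a : ℕ) * A.length + j) 0 : ℕ) : ℤ))) hn hm (by omega) hC hG
  rw [Gm_map] at hUQ
  have he : e ≤ E := by rw [← isB_finrank hUQ]; exact hfin
  refine ⟨Δ, fun t => HfK (fun q => vdm ℤ e A.length t * czB b A q * U), hΔ, ?_, ?_, ?_, ?_, ?_⟩
  · exact (h9 L A.length (varsN A).length e 0 (czB b A) U Δ hn hm (by omega) (Nat.zero_le _) hC
      hUb hΔb).2
  · intro t ht
    exact (h9 L A.length (varsN A).length e t (czB b A) U Δ hn hm (by omega) ht hC hUb hΔb).1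
  · intro p hp hpΔ t _
    obtain ⟨hcl, hcS, hcT⟩ := h6 A b p hp.out.pos hA
    have hrl : (raw A).length = A.length := by simp [raw]
    have hb := h5 b p (raw A) (E + 1) g (by rw [hrl]; exact hcS)
    rw [hrl] at hb
    obtain ⟨hb1, hb2⟩ := hb
    have hspan : Submodule.span (ZMod p) (Set.range fun q : Fin (cf b p (raw A)).length =>
        toM p A.length ((cf b p (raw A)).get q)) = spn (ZMod p) (czB b A) := by
      unfold spn
      congr 1
      ext M
      constructor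
      · rintro ⟨q, rfl⟩
        refine ⟨Fin.cast hcl q, ?_⟩
        simp only
        rw [← hcT]
        congr 1
        rw [List.getD_eq_getElem?_getD, List.get_eq_getElem]
        simp
      · rintro ⟨q, rfl⟩
        refine ⟨Fin.cast hcl.symm q, ?_⟩
        simp only
        rw [← hcT]
        congr 1
        rw [List.getD_eq_getElem?_getD, List.get_eq_getElem]
        simp [hcl]
    rw [hspan] at hb2
    have hUp' := hUp p hpΔ
    rw [Gm_map] at hUp'
    obtain ⟨ha, hb⟩ := part4 h2 h4 p t E (czB b A) U (cf b p (raw A))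
      (bas b p (raw A) (E + 1) g) hcl hcS hcT _ hb1 hb2 hUp' he
    unfold hit
    rw [hrl]
    simp only [Bool.and_eq_true, decide_eq_true_eq, Bool.not_eq_true', decide_eq_false_iff_not]
    rw [hb]
    exact ⟨fun h => h.2, fun h => ⟨ha, h⟩⟩
  · intro t ht
    exact part5 h3 t (czB b A) U _ hUQ ht
  · intro hI
    exact part6 h3 h8 (czB b A) U _ hUQ hI

end Pool.Agent.Lib.MP_64d474_lc.ST4
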