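import Pool.Agent.Lib.MP_64d474_lc.ST4.Stmts4

/-!
# Module Img
-/

set_option autoImplicit false

open Finset Module

namespace Pool.Agent.Lib.MP_64d474_lc.ST4

namespace ImgAux

variable {F : Type} [Field F] {n h : ℕ}

/-- the row `j` of `M` as row `i` -/
def rw1 (i : Fin h) (j : Fin n) : Matrix (Fin n) (Fin n) F →ₗ[F] Matrix (Fin h) (Fin n) F where
  toFun M := Matrix.of fun a c => if a = i then M j c else 0
  map_add' x y := by
    ext a c
    by_cases ha : a = i <;> simp [ha]
  map_smul' t x := by
    ext a c
    by_cases ha : a = i <;> simp [ha]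

theorem gl_chg (G : Matrix (Fin h) (Fin n) F) (i : Fin h) (j : Fin n) (t : F)
    (M : Matrix (Fin n) (Fin n) F) :
    gl (chg G i j (G i j + t)) M = gl G M + t • rw1 i j M := by
  ext a c
  change (chg G i j (G i j + t) * M) a c = (G * M) a c + t * (if a = i then M j c else 0)
  rw [Matrix.mul_apply, Matrix.mul_apply]
  by_cases ha : a = i
  · rw [if_pos ha]
    have e : ∀ b, chg G i j (G i j + t) a b * M b c =
        G a b * M b c + (if b = j then t * M b c else 0) := by
      intro b
      unfold chg
      by_cases hb : b = j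
      · rw [if_pos ⟨ha, hb⟩, if_pos hb, ha, hb]
        ring
      · rw [if_neg fun h => hb h.2, if_neg hb, add_zero]
    rw [Finset.sum_congr rfl fun b _ => e b, Finset.sum_add_distrib, Finset.sum_ite_eq' Finset.univ j,
      if_pos (Finset.mem_univ j)]
  · rw [if_neg ha, mul_zero, add_zero]
    refine Finset.sum_congr rfl fun b _ => ?_
    unfold chg
    rw [if_neg fun h => ha h.1]

end ImgAux

open ImgAux

/-- Module Img. -/
theorem stImg (h1 : StPen2) (h2 : StDeg) : StImg := by
  intro F _ _ n h V G hLO M hM h0 i j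
  let T : V →ₗ[F] Matrix (Fin h) (Fin n) F := (gl G).comp V.subtype
  let T' : V →ₗ[F] Matrix (Fin h) (Fin n) F := (rw1 i j).comp V.subtype
  have hT : LinearMap.range T = V.map (gl G) := by
    rw [LinearMap.range_comp, Submodule.range_subtype]
  have key : ∀ t : F, finrank F (LinearMap.range (T + t • T')) ≤
      finrank F (LinearMap.range T) := by
    intro t
    have e : T + t • T' = (gl (chg G i j (G i j + t))).comp V.subtype := by
      ext1 x
      exact (gl_chg G i j t x.1).symm
    rw [e, LinearMap.range_comp, Submodule.range_subtype, hT]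
    exact h2 F n h V G hLO i j _
  obtain ⟨x, hx⟩ := h1 F V (Matrix (Fin h) (Fin n) F) T T' key ⟨M, hM⟩ h0
  exact ⟨x.1, x.2, hx⟩

end Pool.Agent.Lib.MP_64d474_lc.ST4
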