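import Pool.Agent.Lib.MP_64d474_lc.ST4.Stmts4

/-!
# (Iso) totally isotropic subspaces
-/

set_option autoImplicit false

open Finset Module

namespace Pool.Agent.Lib.MP_64d474_lc.ST4

namespace IsoAux

variable {F : Type} [Field F] {ι : Type} [Fintype ι]

/-- the polar form of the hyperbolic form -/
def pol : ((ι → F) × (ι → F)) →ₗ[F] Module.Dual F ((ι → F) × (ι → F)) where
  toFun w :=
    { toFun := fun w' => ∑ i, (w.1 i * w'.2 i + w'.1 i * w.2 i)
      map_add' := by
        intro x y
        rw [← Finset.sum_add_distrib]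
        refine Finset.sum_congr rfl fun i _ => ?_
        simp only [Prod.fst_add, Prod.snd_add, Pi.add_apply]
        ring
      map_smul' := by
        intro c x
        rw [RingHom.id_apply, smul_eq_mul, Finset.mul_sum]
        refine Finset.sum_congr rfl fun i _ => ?_
        simp only [Prod.smul_fst, Prod.smul_snd, Pi.smul_apply, smul_eq_mul]
        ring }
  map_add' := by
    intro x y
    refine LinearMap.ext fun w' => ?_
    change ∑ i, ((x + y).1 i * w'.2 i + w'.1 i * (x + y).2 i) =
      ∑ i, (x.1 i * w'.2 i + w'.1 i * x.2 i) + ∑ i, (y.1 i * w'.2 i + w'.1 i * y.2 i)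
    rw [← Finset.sum_add_distrib]
    refine Finset.sum_congr rfl fun i _ => ?_
    simp only [Prod.fst_add, Prod.snd_add, Pi.add_apply]
    ring
  map_smul' := by
    intro c x
    refine LinearMap.ext fun w' => ?_
    change ∑ i, ((c • x).1 i * w'.2 i + w'.1 i * (c • x).2 i) =
      c • ∑ i, (x.1 i * w'.2 i + w'.1 i * x.2 i)
    rw [smul_eq_mul, Finset.mul_sum]
    refine Finset.sum_congr rfl fun i _ => ?_
    simp only [Prod.smul_fst, Prod.smul_snd, Pi.smul_apply, smul_eq_mul]
    ring

theorem pol_apply (w w' : (ι → F) × (ι → F)) :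
    pol w w' = ∑ i, (w.1 i * w'.2 i + w'.1 i * w.2 i) := rfl

theorem pol_injective : Function.Injective (pol (F := F) (ι := ι)) := by
  classical
  rw [injective_iff_map_eq_zero]
  intro w hw
  refine Prod.ext (funext fun j => ?_) (funext fun j => ?_)
  · have h : pol w ((0 : ι → F), Pi.single j 1) = 0 := by rw [hw]; rfl
    rw [pol_apply] at h
    simpa [Pi.single_apply] using h
  · have h : pol w ((Pi.single j 1 : ι → F), 0) = 0 := by rw [hw]; rfl
    rw [pol_apply] at h
    simpa [Pi.single_apply] using h

end IsoAux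

open IsoAux in
theorem stIso : StIso := by
  intro F _ _ ι _ W hW
  have hfin : finrank F ((ι → F) × (ι → F)) = 2 * Fintype.card ι := by
    rw [Module.finrank_prod, Module.finrank_fintype_fun_eq_card]
    ring
  have hsurj : Function.Surjective (pol (F := F) (ι := ι)) := by
    rw [← LinearMap.injective_iff_surjective_of_finrank_eq_finrank]
    · exact pol_injective
    · exact (Subspace.dual_finrank_eq).symm
  set φ : ((ι → F) × (ι → F)) →ₗ[F] Module.Dual F W := W.dualRestrict ∘ₗ pol with hφ
  have hφs : Function.Surjective φ := by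
    rw [hφ, LinearMap.coe_comp]
    exact (Subspace.dualRestrict_surjective).comp hsurj
  have hker : W ≤ LinearMap.ker φ := by
    intro w hw
    rw [LinearMap.mem_ker]
    refine LinearMap.ext fun w' => ?_
    change ∑ i, (w.1 i * (w' : (ι → F) × (ι → F)).2 i + (w' : (ι → F) × (ι → F)).1 i * w.2 i) = 0
    have h1 := hW w hw
    have h2 := hW w' w'.2
    have h3 := hW (w + w') (add_mem hw w'.2)
    have h4 : ∑ i, (w + (w' : (ι → F) × (ι → F))).1 i * (w + (w' : (ι → F) × (ι → F))).2 i =
        (∑ i, w.1 i * w.2 i + ∑ i, (w' : (ι → F) × (ι → F)).1 i * (w' : (ι → F) × (ι → F)).2 i) +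
        ∑ i, (w.1 i * (w' : (ι → F) × (ι → F)).2 i +
          (w' : (ι → F) × (ι → F)).1 i * w.2 i) := by
      rw [← Finset.sum_add_distrib, ← Finset.sum_add_distrib]
      refine Finset.sum_congr rfl fun i _ => ?_
      simp only [Prod.fst_add, Prod.snd_add, Pi.add_apply]
      ring
    rw [h3, h1, h2, zero_add, zero_add] at h4
    exact h4.symm
  have h1 := LinearMap.finrank_range_add_finrank_ker φ
  rw [LinearMap.range_eq_top.2 hφs, finrank_top, Subspace.dual_finrank_eq, hfin] at h1
  have h2 := Submodule.finrank_mono hker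
  omega

end Pool.Agent.Lib.MP_64d474_lc.ST4
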