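import Pool.Agent.Lib.MP_64d474_lc.ST4.Stmts4
import Pool.Agent.Lib.MP_64d474_lc.ST2.Mult

/-!
# Fourth machine, module `KB`: a basis of the kernel of an integer matrix, modulo almost all primes
-/

set_option autoImplicit false

open Finset Module Pool.Agent.Lib.MP_64d474_lc.ST
open Pool.Agent.Lib.MP_64d474_lc.ST2.MultAux (exists_minor)

namespace Pool.Agent.Lib.MP_64d474_lc.ST4

namespace KBAux

/-! ### Minors -/

theorem le_rank {F : Type*} [Field F] {α β : Type*} [Fintype α] [Fintype β] {r : ℕ}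
    (B : Matrix α β F) (a : Fin r → α) (b : Fin r → β) (h : (B.submatrix a b).det ≠ 0) :
    r ≤ B.rank := by
  have h1 := Matrix.rank_of_det_ne_zero h
  rw [Fintype.card_fin] at h1
  have h2 := Matrix.rank_submatrix_le B a b
  omega

theorem det_cast {F : Type*} [Field F] {α β : Type*} {r : ℕ} (C : Matrix α β ℤ)
    (a : Fin r → α) (b : Fin r → β) :
    ((C.map (Int.cast : ℤ → F)).submatrix a b).det = (((C.submatrix a b).det : ℤ) : F) :=
  ((Int.castRingHom F).map_det (C.submatrix a b)).symm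

theorem rank_le_rat {F : Type*} [Field F] {N n : ℕ} (K : Matrix (Fin N) (Fin n) ℤ) :
    (K.map (Int.cast : ℤ → F)).rank ≤ (K.map (Int.cast : ℤ → ℚ)).rank := by
  obtain ⟨a, b, h⟩ := exists_minor (K.map (Int.cast : ℤ → F))
  refine le_rank _ a b ?_
  rw [det_cast] at h ⊢
  have h1 : (K.submatrix a b).det ≠ 0 := by
    intro h0
    rw [h0, Int.cast_zero] at h
    exact h rfl
  exact_mod_cast h1

theorem inj_of_det {R : Type*} [CommRing R] {r : ℕ} {α β : Type*} (B : Matrix α β R)
    (a : Fin r → α) (b : Fin r → β) (h : (B.submatrix a b).det ≠ 0) :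
    Function.Injective b := by
  intro i j hij
  by_contra hne
  refine h (Matrix.det_zero_of_column_eq hne fun k => ?_)
  rw [Matrix.submatrix_apply, Matrix.submatrix_apply, hij]

/-! ### The bound -/

theorem det_bound {n r a : ℕ} (hr : r ≤ n) (M : Matrix (Fin r) (Fin r) ℤ)
    (hM : ∀ i j, |M i j| ≤ 2 ^ a) : |M.det| ≤ 2 ^ (n * (a + n)) := by
  have h1 := Matrix.det_le (A := M) (abv := AbsoluteValue.abs) (x := 2 ^ a) hM
  rw [Fintype.card_fin, AbsoluteValue.abs_apply] at h1
  refine h1.trans ?_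
  rw [nsmul_eq_mul]
  have h2 : (Nat.factorial r : ℤ) ≤ 2 ^ (n * n) := by
    have h3 : Nat.factorial r ≤ r ^ r := Nat.factorial_le_pow r
    have h4 : r ^ r ≤ (2 ^ r) ^ r := Nat.pow_le_pow_left (Nat.lt_two_pow_self).le r
    have h5 : (2 ^ r) ^ r ≤ 2 ^ (n * n) := by
      rw [← pow_mul]
      exact Nat.pow_le_pow_right (by norm_num) (Nat.mul_le_mul hr hr)
    exact_mod_cast h3.trans (h4.trans h5)
  have h3 : ((2 : ℤ) ^ a) ^ r ≤ 2 ^ (n * a) := by
    rw [← pow_mul]
    exact pow_le_pow_right₀ (by norm_num) (by rw [mul_comm]; exact Nat.mul_le_mul_right a hr)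
  calc (Nat.factorial r : ℤ) * (2 ^ a) ^ r ≤ 2 ^ (n * n) * 2 ^ (n * a) :=
        mul_le_mul h2 h3 (by positivity) (by positivity)
    _ = 2 ^ (n * (a + n)) := by
        rw [← pow_add]
        congr 1
        ring

/-! ### The kernel -/

theorem isB_of {F : Type} [Field F] {N n r e : ℕ} (A : Matrix (Fin N) (Fin n) F)
    (I : Fin r → Fin N) (J : Fin r → Fin n) (hd : (A.submatrix I J).det ≠ 0) (hr : A.rank ≤ r)
    (φ : Fin r ⊕ Fin e ≃ Fin n) (U : Matrix (Fin n) (Fin e) F) (Δ : F) (hΔ : Δ ≠ 0)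
    (hU : ∀ k k', U (φ (Sum.inr k')) k = if k' = k then Δ else 0)
    (hAU : A.submatrix I id * U = 0) : IsB U (LinearMap.ker A.mulVecLin) := by
  have hn : r + e = n := by
    have h := Fintype.card_congr φ
    rw [Fintype.card_sum, Fintype.card_fin, Fintype.card_fin, Fintype.card_fin] at h
    exact h
  have hinj : Function.Injective U.mulVec := by
    have h0 : Function.Injective U.mulVecLin := by
      rw [injective_iff_map_eq_zero]
      intro x hx
      rw [Matrix.mulVecLin_apply] at hx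
      funext k
      have h1 := congrFun hx (φ (Sum.inr k))
      rw [Matrix.mulVec, dotProduct, Pi.zero_apply] at h1
      simp only [hU, ite_mul, zero_mul] at h1
      rw [Finset.sum_ite_eq Finset.univ k (fun x_1 => Δ * x x_1), if_pos (Finset.mem_univ k)] at h1
      exact (mul_eq_zero.1 h1).resolve_left hΔ
    exact h0
  set B := A.submatrix I id with hB
  have hBr : B.rank = r := by
    refine le_antisymm ?_ ?_
    · have h := Matrix.rank_le_card_height B
      rwa [Fintype.card_fin] at h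
    · exact le_rank B id J hd
  have hk1 : finrank F (LinearMap.ker B.mulVecLin) = e := by
    have h := LinearMap.finrank_range_add_finrank_ker B.mulVecLin
    rw [Module.finrank_fintype_fun_eq_card, Fintype.card_fin] at h
    rw [Matrix.rank] at hBr
    omega
  have hk2 : e ≤ finrank F (LinearMap.ker A.mulVecLin) := by
    have h := LinearMap.finrank_range_add_finrank_ker A.mulVecLin
    rw [Module.finrank_fintype_fun_eq_card, Fintype.card_fin] at h
    rw [Matrix.rank] at hr
    omega
  have hle : LinearMap.ker A.mulVecLin ≤ LinearMap.ker B.mulVecLin := by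
    intro x hx
    rw [LinearMap.mem_ker, Matrix.mulVecLin_apply] at hx ⊢
    funext i
    exact congrFun hx (I i)
  have heq : LinearMap.ker A.mulVecLin = LinearMap.ker B.mulVecLin :=
    Submodule.eq_of_le_of_finrank_le hle (by rw [hk1]; exact hk2)
  refine ⟨?_, hinj⟩
  rw [heq]
  refine Submodule.eq_of_le_of_finrank_le ?_ ?_
  · rintro _ ⟨x, rfl⟩
    rw [LinearMap.mem_ker, Matrix.mulVecLin_apply, Matrix.mulVecLin_apply, Matrix.mulVec_mulVec,
      hAU, Matrix.zero_mulVec]
  · rw [hk1]
    have h := LinearMap.finrank_range_of_inj (f := U.mulVecLin) hinj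
    rw [h, Module.finrank_fintype_fun_eq_card, Fintype.card_fin]

end KBAux

open KBAux in
theorem stKB : StKB := by
  classical
  intro N n a K hK
  obtain ⟨r, hr, I, J, hIJ⟩ : ∃ r, (K.map (Int.cast : ℤ → ℚ)).rank = r ∧
      ∃ (I : Fin r → Fin N) (J : Fin r → Fin n),
        ((K.map (Int.cast : ℤ → ℚ)).submatrix I J).det ≠ 0 := by
    obtain ⟨I, J, h⟩ := exists_minor (K.map (Int.cast : ℤ → ℚ))
    exact ⟨_, rfl, I, J, h⟩
  have hrn : r ≤ n := by
    have h := Matrix.rank_le_card_width (K.map (Int.cast : ℤ → ℚ))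
    rwa [Fintype.card_fin, hr] at h
  rw [det_cast] at hIJ
  set M := K.submatrix I J with hM
  have hΔ : M.det ≠ 0 := by
    intro h0
    rw [h0, Int.cast_zero] at hIJ
    exact hIJ rfl
  have hJ : Function.Injective J := inj_of_det K I J hΔ
  obtain ⟨e, τ⟩ : ∃ e : ℕ, Nonempty (Fin e ≃ ((Set.range J)ᶜ : Set (Fin n))) :=
    ⟨_, ⟨(Fintype.equivFin _).symm⟩⟩
  obtain ⟨τ⟩ := τ
  let φ : Fin r ⊕ Fin e ≃ Fin n :=
    (Equiv.sumCongr (Equiv.ofInjective J hJ) τ).trans (Equiv.Set.sumCompl (Set.range J))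
  have hφ : ∀ s, φ (Sum.inl s) = J s := fun s => rfl
  let b : Fin e → Fin r → ℤ := fun k i => K (I i) (φ (Sum.inr k))
  let U : Matrix (Fin n) (Fin e) ℤ := fun i k =>
    Sum.elim (fun s => -(Matrix.cramer M (b k) s)) (fun k' => if k' = k then M.det else 0)
      (φ.symm i)
  have hU1 : ∀ s k, U (φ (Sum.inl s)) k = -(Matrix.cramer M (b k) s) := by
    intro s k
    simp only [U, Equiv.symm_apply_apply, Sum.elim_inl]
  have hU2 : ∀ k k', U (φ (Sum.inr k')) k = if k' = k then M.det else 0 := by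
    intro k k'
    simp only [U, Equiv.symm_apply_apply, Sum.elim_inr]
  have hKU : K.submatrix I id * U = 0 := by
    ext i k
    rw [Matrix.mul_apply, ← Equiv.sum_comp φ, Fintype.sum_sum_type]
    simp only [hU1, hU2, Matrix.submatrix_apply, id_eq, mul_ite, mul_zero]
    rw [Finset.sum_ite_eq' Finset.univ k, if_pos (Finset.mem_univ k)]
    have h := congrFun (Matrix.mulVec_cramer M (b k)) i
    rw [Pi.smul_apply, smul_eq_mul, Matrix.mulVec, dotProduct] at h
    have h2 : ∑ s, K (I i) (φ (Sum.inl s)) * -(Matrix.cramer M (b k) s) =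
        -∑ s, M i s * Matrix.cramer M (b k) s := by
      rw [← Finset.sum_neg_distrib]
      refine Finset.sum_congr rfl fun s _ => ?_
      rw [hφ, mul_neg]
      rfl
    rw [h2, h]
    simp only [b, Matrix.zero_apply]
    ring
  have hbd : ∀ M' : Matrix (Fin r) (Fin r) ℤ, (∀ i j, |M' i j| ≤ 2 ^ a) →
      |M'.det| ≤ 2 ^ (n * (a + n)) := fun M' h => det_bound hrn M' h
  have hΔb : |M.det| ≤ 2 ^ (n * (a + n)) := hbd M fun i j => hK _ _
  have key : ∀ (F : Type) [Field F], ((M.det : ℤ) : F) ≠ 0 →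
      IsB (U.map (Int.cast : ℤ → F)) (LinearMap.ker (K.map (Int.cast : ℤ → F)).mulVecLin) := by
    intro F _ hF
    refine isB_of (K.map (Int.cast : ℤ → F)) I J ?_ (hr ▸ rank_le_rat K) φ
      (U.map (Int.cast : ℤ → F)) ((M.det : ℤ) : F) hF ?_ ?_
    · rw [det_cast]
      exact hF
    · intro k k'
      rw [Matrix.map_apply, hU2]
      split_ifs
      · rfl
      · exact Int.cast_zero
    · have h1 : (K.map (Int.cast : ℤ → F)).submatrix I id * U.map (Int.cast : ℤ → F) =
          (K.submatrix I id * U).map (Int.cast : ℤ → F) :=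
        (Matrix.map_mul (f := Int.castRingHom F)).symm
      rw [h1, hKU]
      ext i k
      simp
  refine ⟨e, U, M.det, hΔ, hΔb, ?_, ?_, ?_⟩
  · intro i k
    rcases h : φ.symm i with s | k'
    · have h1 : i = φ (Sum.inl s) := by rw [← h, Equiv.apply_symm_apply]
      rw [h1, hU1, abs_neg, Matrix.cramer_apply]
      refine hbd _ fun i j => ?_
      rw [Matrix.updateCol_apply]
      split_ifs
      · exact hK _ _
      · exact hK _ _
    · have h1 : i = φ (Sum.inr k') := by rw [← h, Equiv.apply_symm_apply]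
      rw [h1, hU2]
      split_ifs
      · exact hΔb
      · rw [abs_zero]
        positivity
  · exact key ℚ (by exact_mod_cast hΔ)
  · intro p _ hp
    refine key (ZMod p) ?_
    rwa [Ne, ZMod.intCast_zmod_eq_zero_iff_dvd]

end Pool.Agent.Lib.MP_64d474_lc.ST4
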