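import Pool.Agent.Lib.MP_64d474_lc.ST4.Stmts4

/-!
# The fourth machine: (Ker2)
-/

set_option autoImplicit false

open Finset Module

namespace Pool.Agent.Lib.MP_64d474_lc.ST4

namespace Ker2

variable {F : Type} [Field F] {r d : ℕ}

/-- the value at the vector `ξ` -/
def f1 (ξ : Fin d → F) : Matrix (Fin r) (Fin d) F →ₗ[F] (Fin r → F) where
  toFun N := N.mulVec ξ
  map_add' x y := Matrix.add_mulVec x y ξ
  map_smul' c x := Matrix.smul_mulVec c x ξ

/-- the value of the transpose at the vector `η` -/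
def f2 (η : Fin d → F) : Matrix (Fin d) (Fin r) F →ₗ[F] (Fin r → F) where
  toFun N := Matrix.vecMul η N
  map_add' x y := Matrix.vecMul_add x y η
  map_smul' c x := by
    rw [Matrix.vecMul_smul]
    rfl

theorem f1_ker {ξ : Fin d → F} (hξ : ξ ≠ 0) :
    r + finrank F (LinearMap.ker (f1 (r := r) ξ)) = r * d := by
  obtain ⟨j, hj⟩ := Function.ne_iff.1 hξ
  have hj' : ξ j ≠ 0 := hj
  have h1 : LinearMap.range (f1 (r := r) ξ) = ⊤ := by
    rw [LinearMap.range_eq_top]
    intro y
    refine ⟨Matrix.of fun i k => if k = j then y i / ξ j else 0, ?_⟩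
    ext i
    change ∑ k, (if k = j then y i / ξ j else 0) * ξ k = y i
    rw [Finset.sum_eq_single j (fun k _ hk => by rw [if_neg hk, zero_mul])
      (fun h => absurd (Finset.mem_univ j) h), if_pos rfl, div_mul_cancel₀ _ hj']
  have h2 := LinearMap.finrank_range_add_finrank_ker (f1 (r := r) ξ)
  rw [h1, finrank_top, Module.finrank_fin_fun] at h2
  rw [h2, Module.finrank_matrix]
  simp

theorem f2_ker {η : Fin d → F} (hη : η ≠ 0) :
    r + finrank F (LinearMap.ker (f2 (r := r) η)) = r * d := by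
  obtain ⟨j, hj⟩ := Function.ne_iff.1 hη
  have hj' : η j ≠ 0 := hj
  have h1 : LinearMap.range (f2 (r := r) η) = ⊤ := by
    rw [LinearMap.range_eq_top]
    intro y
    refine ⟨Matrix.of fun k i => if k = j then y i / η j else 0, ?_⟩
    ext i
    change ∑ k, η k * (if k = j then y i / η j else 0) = y i
    rw [Finset.sum_eq_single j (fun k _ hk => by rw [if_neg hk, mul_zero])
      (fun h => absurd (Finset.mem_univ j) h), if_pos rfl, mul_div_cancel₀ _ hj']
  have h2 := LinearMap.finrank_range_add_finrank_ker (f2 (r := r) η)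
  rw [h1, finrank_top, Module.finrank_fin_fun] at h2
  rw [h2, Module.finrank_matrix]
  simp [mul_comm]

end Ker2

open Ker2 in
/-- (Ker2) -/
theorem stKer2 : StKer2 := by
  intro F _ r d ξ η hξ hη W hW
  let φ : W →ₗ[F] LinearMap.ker (f1 (r := r) ξ) × LinearMap.ker (f2 (r := r) η) :=
    { toFun := fun M => (⟨M.1.toBlocks₁₂, (hW M.1 M.2).2.2.1⟩,
        ⟨M.1.toBlocks₂₁, (hW M.1 M.2).2.2.2⟩)
      map_add' := fun _ _ => rfl
      map_smul' := fun _ _ => rfl }
  have hφ : Function.Injective φ := by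
    intro M N h
    have h1 : M.1.toBlocks₁₂ = N.1.toBlocks₁₂ := congrArg Subtype.val (congrArg Prod.fst h)
    have h2 : M.1.toBlocks₂₁ = N.1.toBlocks₂₁ := congrArg Subtype.val (congrArg Prod.snd h)
    apply Subtype.ext
    rw [← Matrix.fromBlocks_toBlocks M.1, ← Matrix.fromBlocks_toBlocks N.1, h1, h2,
      (hW M.1 M.2).1, (hW N.1 N.2).1, (hW M.1 M.2).2.1, (hW N.1 N.2).2.1]
  have h3 := LinearMap.finrank_le_finrank_of_injective hφ
  rw [Module.finrank_prod] at h3
  have h4 := f1_ker (r := r) hξ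
  have h5 := f2_ker (r := r) hη
  omega

end Pool.Agent.Lib.MP_64d474_lc.ST4
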