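import Pool.Agent.Lib.MP_64d474_lc.ST4.Stmts4

/-!
# The result of the local search is a local optimum
-/

set_option autoImplicit false

open Module Pool.Agent.Lib.MP_64d474_lc.ST

namespace Pool.Agent.Lib.MP_64d474_lc.ST4

namespace LOQAux

theorem idx {n i j i' j' : ℕ} (hj : j < n) (hj' : j' < n) :
    i * n + j = i' * n + j' ↔ i = i' ∧ j = j' := by
  constructor
  · intro h
    have h1 : (i * n + j) / n = i := by
      rw [mul_comm, Nat.mul_add_div (by omega), Nat.div_eq_of_lt hj, Nat.add_zero]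
    have h2 : (i' * n + j') / n = i' := by
      rw [mul_comm, Nat.mul_add_div (by omega), Nat.div_eq_of_lt hj', Nat.add_zero]
    have h3 : i = i' := by rw [← h1, ← h2, h]
    refine ⟨h3, ?_⟩
    rw [h3] at h
    omega
  · rintro ⟨rfl, rfl⟩
    rfl

theorem chg_eq {h n : ℕ} (g : List ℕ) (hg : g.length = h * n) (i : Fin h) (j : Fin n) (v : ℕ) :
    chg (Gm ℚ h n g) i j (v : ℚ) = Gm ℚ h n (g.set ((i : ℕ) * n + j) v) := by
  funext a c
  unfold chg Gm
  have hlt : (i : ℕ) * n + j < g.length := by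
    rw [hg]
    have h1 : ((i : ℕ) + 1) * n ≤ h * n := Nat.mul_le_mul_right _ i.isLt
    have h2 := j.isLt
    nlinarith
  by_cases h1 : a = i ∧ c = j
  · obtain ⟨rfl, rfl⟩ := h1
    rw [if_pos ⟨rfl, rfl⟩, List.getD_eq_getElem _ _ (by rw [List.length_set]; exact hlt),
      List.getElem_set_self]
  · rw [if_neg h1]
    have h2 : (i : ℕ) * n + j ≠ (a : ℕ) * n + c := by
      intro h3
      rw [idx j.isLt c.isLt] at h3
      exact h1 ⟨Fin.ext h3.1.symm, Fin.ext h3.2.symm⟩
    congr 1
    rw [List.getD_eq_getElem?_getD, List.getD_eq_getElem?_getD, List.getElem?_set_ne h2]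

end LOQAux

open LOQAux in
/-- (LOQ) -/
theorem stLOQ (h1 : StOpt) (h2 : StGrkQ) : StLOQ := by
  intro A b h hsq hh i j v hv
  have hl : (raw A).length = A.length := by simp [raw]
  obtain ⟨o1, o2, o3⟩ := h1 b (raw A) (bD (code A).length) h
  rw [hl] at o1 o2 o3
  have hlt : (i : ℕ) * A.length + j < h * A.length := by
    have h1 : ((i : ℕ) + 1) * A.length ≤ h * A.length := Nat.mul_le_mul_right _ i.isLt
    have h2 := j.isLt
    nlinarith
  have h3 := o3 ((i : ℕ) * A.length + j) hlt v hv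
  rw [h2 A b h _ hsq hh (by rw [List.length_set]; exact o1) (by
      intro x hx
      rcases List.mem_or_eq_of_mem_set hx with h4 | h4
      · exact o2 x h4
      · rw [h4]
        exact hv), h2 A b h _ hsq hh o1 o2] at h3
  rw [chg_eq _ o1]
  exact h3

end Pool.Agent.Lib.MP_64d474_lc.ST4
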