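import Pool.Agent.Lib.MP_64d474_lc.ST4.Stmts4

/-!
# LemK: vectors with a small space of values
-/

set_option autoImplicit false

open Finset Module Pool.Agent.Lib.PT Pool.Agent.Lib.MP_64d474_lc.ST

namespace Pool.Agent.Lib.MP_64d474_lc.ST4

/-- (LemK) -/
theorem stLemK (h1 : StImg) : StLemK := by
  classical
  intro F _ _ n h V G hLO u hu M hM hGM
  set W : Submodule F (Fin h → F) := (V.map (ev u)).map G.mulVecLin with hW
  have hWlt : W < ⊤ := by
    refine Ne.lt_top fun htop => ?_
    have h2 : finrank F W ≤ finrank F (V.map (ev u)) := Submodule.finrank_map_le _ _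
    rw [htop, finrank_top, Module.finrank_fin_fun] at h2
    omega
  obtain ⟨f, hf0, hf⟩ := Submodule.exists_le_ker_of_lt_top W hWlt
  obtain ⟨i, hi⟩ : ∃ i : Fin h, f (Pi.single i 1) ≠ 0 := by
    by_contra hcon
    push Not at hcon
    refine hf0 (LinearMap.pi_ext' fun i => ?_)
    ext
    simpa using hcon i
  funext j
  obtain ⟨M', hM', hGM'⟩ := h1 F n h V G hLO M hM hGM i j
  have h3 : G.mulVec (M'.mulVec u) = ((M.mulVec u) j) • (Pi.single i (1 : F) : Fin h → F) := by
    rw [Matrix.mulVec_mulVec, hGM']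
    funext a
    by_cases ha : a = i
    · subst ha
      simp [Matrix.mulVec, dotProduct]
    · simp [Matrix.mulVec, dotProduct, ha]
  have h4 : G.mulVec (M'.mulVec u) ∈ W :=
    ⟨M'.mulVec u, ⟨M', hM', rfl⟩, rfl⟩
  have h5 : f (G.mulVec (M'.mulVec u)) = 0 := hf h4
  rw [h3, map_smul, smul_eq_mul] at h5
  exact (mul_eq_zero.1 h5).resolve_right hi

end Pool.Agent.Lib.MP_64d474_lc.ST4
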