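import Pool.Agent.Lib.MP_64d474_lc.ST4.Stmts4

/-!
# Fourth machine, module `Line`: lines of matrices
-/

set_option autoImplicit false

open Finset Module

namespace Pool.Agent.Lib.MP_64d474_lc.ST4

namespace LineAux

variable {F : Type} [Field F] {n : ℕ}

theorem add_smul_mulVec (A X : Matrix (Fin n) (Fin n) F) (t : F) (u : Fin n → F) :
    (A + t • X).mulVec u = A.mulVec u + t • X.mulVec u := by
  rw [Matrix.add_mulVec, Matrix.smul_mulVec]

/-- If `A` is injective on `E` then `A + t X` is injective on `E` for almost all `t`. -/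
theorem inj_zero (A X : Matrix (Fin n) (Fin n) F) (E : Submodule F (Fin n → F))
    (h : ∀ u ∈ E, A.mulVec u = 0 → u = 0) :
    ∃ S : Finset F, ∀ t ∉ S, ∀ u ∈ E, (A + t • X).mulVec u = 0 → u = 0 := by
  classical
  let f : E →ₗ[F] (Fin n → F) := A.mulVecLin.domRestrict E
  have hf : LinearMap.ker f = ⊥ := by
    rw [LinearMap.ker_eq_bot']
    intro u hu
    exact Subtype.ext (h u u.2 hu)
  obtain ⟨p, hp⟩ := f.exists_leftInverse_of_injective hf
  let g : Module.End F E := p.comp (X.mulVecLin.domRestrict E)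
  refine ⟨(g.finite_hasEigenvalue.toFinset).image fun μ => -μ⁻¹, ?_⟩
  intro t ht u hu h0
  by_contra hne
  apply ht
  have hpf : ∀ w : E, p (A.mulVec w) = w := fun w => LinearMap.congr_fun hp w
  have hg : ∀ w : E, g w = p (X.mulVec w) := fun w => rfl
  have h1 : (⟨u, hu⟩ : E) + t • g ⟨u, hu⟩ = 0 := by
    rw [add_smul_mulVec] at h0
    have h2 := congrArg p h0
    rw [map_add, map_smul, map_zero] at h2
    rw [hg]
    have h5 : p (A.mulVec u) = ⟨u, hu⟩ := hpf ⟨u, hu⟩
    rw [h5] at h2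
    exact h2
  have ht0 : t ≠ 0 := by
    rintro rfl
    rw [zero_smul, add_zero] at h1
    exact hne (congrArg Subtype.val h1)
  rw [Finset.mem_image]
  refine ⟨-t⁻¹, ?_, ?_⟩
  · rw [Set.Finite.mem_toFinset]
    refine Module.End.hasEigenvalue_of_hasEigenvector (x := (⟨u, hu⟩ : E)) ⟨?_, ?_⟩
    · rw [Module.End.mem_eigenspace_iff]
      have h3 : t • g ⟨u, hu⟩ = -(⟨u, hu⟩ : E) := by
        rw [add_comm] at h1
        exact eq_neg_of_add_eq_zero_left h1
      have h4 : g ⟨u, hu⟩ = t⁻¹ • (t • g ⟨u, hu⟩) := by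
        rw [smul_smul, inv_mul_cancel₀ ht0, one_smul]
      rw [h4, h3, smul_neg, neg_smul]
    · intro h3
      exact hne (congrArg Subtype.val h3)
  · rw [inv_neg, inv_inv, neg_neg]

/-- If `X` is injective on `E` then `A + t X` is injective on `E` for almost all `t`. -/
theorem inj_inf (A X : Matrix (Fin n) (Fin n) F) (E : Submodule F (Fin n → F))
    (h : ∀ u ∈ E, X.mulVec u = 0 → u = 0) :
    ∃ S : Finset F, ∀ t ∉ S, ∀ u ∈ E, (A + t • X).mulVec u = 0 → u = 0 := by
  classical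
  obtain ⟨S, hS⟩ := inj_zero X A E h
  refine ⟨insert 0 (S.image fun s => s⁻¹), ?_⟩
  intro t ht u hu h0
  rw [Finset.mem_insert, not_or] at ht
  obtain ⟨ht0, ht1⟩ := ht
  have ht2 : t⁻¹ ∉ S := fun h2 => ht1 (Finset.mem_image.2 ⟨t⁻¹, h2, inv_inv t⟩)
  refine hS t⁻¹ ht2 u hu ?_
  rw [add_smul_mulVec] at h0 ⊢
  have h3 := congrArg (fun w => t⁻¹ • w) h0
  simp only [smul_add, smul_zero, smul_smul, inv_mul_cancel₀ ht0, one_smul] at h3
  rw [add_comm]
  exact h3

theorem rank_zero (A X : Matrix (Fin n) (Fin n) F) :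
    ∃ S : Finset F, ∀ t ∉ S, A.rank ≤ (A + t • X).rank := by
  obtain ⟨E, hE⟩ := Submodule.exists_isCompl (LinearMap.ker A.mulVecLin)
  have hA : ∀ u ∈ E, A.mulVec u = 0 → u = 0 := by
    intro u hu h0
    have h1 : u ∈ LinearMap.ker A.mulVecLin ⊓ E := ⟨h0, hu⟩
    rw [hE.inf_eq_bot] at h1
    exact h1
  have hr : A.rank = finrank F E := by
    have h1 := LinearMap.finrank_range_add_finrank_ker A.mulVecLin
    have h2 := Submodule.finrank_add_eq_of_isCompl hE
    have h3 : A.rank = finrank F (LinearMap.range A.mulVecLin) := rfl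
    omega
  obtain ⟨S, hS⟩ := inj_zero A X E hA
  refine ⟨S, fun t ht => ?_⟩
  let g : E →ₗ[F] (Fin n → F) := (A + t • X).mulVecLin.domRestrict E
  have hg : Function.Injective g := by
    rw [← LinearMap.ker_eq_bot, LinearMap.ker_eq_bot']
    intro u hu
    exact Subtype.ext (hS t ht u u.2 hu)
  rw [hr, ← LinearMap.finrank_range_of_inj hg]
  apply Submodule.finrank_mono
  rintro _ ⟨u, rfl⟩
  exact ⟨u, rfl⟩

end LineAux

theorem stLine : StLine := fun _ _ _ A X E =>
  ⟨LineAux.rank_zero A X, LineAux.inj_inf A X E, LineAux.inj_zero A X E⟩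

end Pool.Agent.Lib.MP_64d474_lc.ST4
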