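import Pool.Agent.Lib.MP_64d474_lc.ST4.Alg4
import Pool.Agent.Lib.MP_64d474_lc.ST4.Defs4
import Pool.Agent.Lib.MP_64d474_lc.ST3.Stmts3

/-!
# Statements of the modules of the fourth machine
-/

set_option autoImplicit false

open Finset Module Pool.Agent.Lib.PT Pool.Agent.Lib.MP_64d474_lc.ST
open Pool.Agent.Lib.MP_64d474_lc.ST2 (rkmod rstep cmat pwm fval subs goodF rw' nr wl Hf)
open Pool.Agent.Lib.MP_64d474_lc.ST3 (zerM low his dgs goodW pb3 rs3 cost3 mvecs Sq toM lowRank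
  highProd)

namespace Pool.Agent.Lib.MP_64d474_lc.ST4

/-! ### Linear algebra: definitions -/

section linear

variable {F : Type} [Field F] {n h : ℕ}

/-- the product with `G` from the left -/
def gl (G : Matrix (Fin h) (Fin n) F) :
    Matrix (Fin n) (Fin n) F →ₗ[F] Matrix (Fin h) (Fin n) F where
  toFun M := G * M
  map_add' x y := Matrix.mul_add G x y
  map_smul' c x := Matrix.mul_smul G c x

/-- the value at the vector `u` -/
def ev (u : Fin n → F) : Matrix (Fin n) (Fin n) F →ₗ[F] (Fin n → F) where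
  toFun M := M.mulVec u
  map_add' x y := Matrix.add_mulVec x y u
  map_smul' c x := Matrix.smul_mulVec c x u

/-- the transpose -/
def tp : Matrix (Fin n) (Fin n) F →ₗ[F] Matrix (Fin n) (Fin n) F where
  toFun M := M.transpose
  map_add' _ _ := rfl
  map_smul' _ _ := rfl

/-- the vectors killed by all members `M` of `V` with `G M = 0` -/
def EE (V : Submodule F (Matrix (Fin n) (Fin n) F)) (G : Matrix (Fin h) (Fin n) F) :
    Submodule F (Fin n → F) where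
  carrier := {u | ∀ M ∈ V, G * M = 0 → M.mulVec u = 0}
  add_mem' := by
    intro a b ha hb M hM h0
    rw [Matrix.mulVec_add, ha M hM h0, hb M hM h0, add_zero]
  zero_mem' := by
    intro M _ _
    rw [Matrix.mulVec_zero]
  smul_mem' := by
    intro c a ha M hM h0
    rw [Matrix.mulVec_smul, ha M hM h0, smul_zero]

/-- the matrix `G` with one entry replaced -/
def chg (G : Matrix (Fin h) (Fin n) F) (i : Fin h) (j : Fin n) (t : F) :
    Matrix (Fin h) (Fin n) F := fun a c => if a = i ∧ c = j then t else G a c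

/-- the dimension of `G V` does not increase if one entry of `G` is replaced by a small number -/
def LO (V : Submodule F (Matrix (Fin n) (Fin n) F)) (G : Matrix (Fin h) (Fin n) F) : Prop :=
  ∀ (i : Fin h) (j : Fin n) (v : ℕ), v ≤ n →
    finrank F (V.map (gl (chg G i j (v : F)))) ≤ finrank F (V.map (gl G))

/-- some member of `V` is injective on `E` -/
def Inj (V : Submodule F (Matrix (Fin n) (Fin n) F)) (E : Submodule F (Fin n → F)) : Prop :=
  ∃ X ∈ V, ∀ u ∈ E, X.mulVec u = 0 → u = 0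

/-- the columns of `U` are a basis of `E` -/
def IsB {e : ℕ} (U : Matrix (Fin n) (Fin e) F) (E : Submodule F (Fin n → F)) : Prop :=
  LinearMap.range U.mulVecLin = E ∧ Function.Injective U.mulVec

/-- the Vandermonde matrix `t ^ ((a + 1) c)` -/
def vdm (K : Type) [CommRing K] (e n t : ℕ) : Matrix (Fin e) (Fin n) K :=
  fun a c => (t : K) ^ (((a : ℕ) + 1) * (c : ℕ))

end linear

/-- block matrices -/
abbrev BM (F : Type) (r d : ℕ) : Type := Matrix (Fin r ⊕ Fin d) (Fin r ⊕ Fin d) F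

/-! ### Linear algebra: modules -/

/-- (Pencil) -/
def StPencil : Prop := ∀ (F : Type) [Field F] [CharZero F] (r d : ℕ) (M : BM F r d),
  (∀ t : F, (Matrix.fromBlocks 1 0 0 0 + t • M : BM F r d).rank ≤ r) →
  M.toBlocks₂₂ = 0 ∧ ∀ k : ℕ, M.toBlocks₂₁ * M.toBlocks₁₁ ^ k * M.toBlocks₁₂ = 0

/-- (Common) two linear maps of rank at least `p`: a common independent family -/
def StCommon : Prop := ∀ (F : Type) [Field F] [CharZero F] (V W W' : Type) [AddCommGroup V]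
  [Module F V] [AddCommGroup W] [Module F W] [AddCommGroup W'] [Module F W'] [Module.Finite F V]
  [Module.Finite F W] [Module.Finite F W'] (f : V →ₗ[F] W) (g : V →ₗ[F] W') (p : ℕ),
  p ≤ finrank F (LinearMap.range f) → p ≤ finrank F (LinearMap.range g) →
  ∃ v : Fin p → V, LinearIndependent F (fun i => f (v i)) ∧
    LinearIndependent F (fun i => g (v i))

/-- (Iso) totally isotropic subspaces -/
def StIso : Prop := ∀ (F : Type) [Field F] [CharZero F] (ι : Type) [Fintype ι]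
  (W : Submodule F ((ι → F) × (ι → F))), (∀ w ∈ W, ∑ i, w.1 i * w.2 i = 0) →
  finrank F W ≤ Fintype.card ι

/-- (Phi) -/
def StPhi : Prop := ∀ (F : Type) [Field F] (r p : ℕ) (b c : Fin p → Fin r → F),
  LinearIndependent F b → LinearIndependent F c →
  ∀ W : Submodule F (Matrix (Fin r) (Fin r) F),
  (∀ X ∈ W, ∀ i, X.mulVec (b i) = 0 ∧ Matrix.vecMul (c i) X = 0) →
  finrank F W ≤ (r - p) * (r - p)

/-- (Ker2) -/
def StKer2 : Prop := ∀ (F : Type) [Field F] (r d : ℕ) (ξ η : Fin d → F), ξ ≠ 0 → η ≠ 0 →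
  ∀ W : Submodule F (BM F r d), (∀ M ∈ W, M.toBlocks₁₁ = 0 ∧ M.toBlocks₂₂ = 0 ∧
    M.toBlocks₁₂.mulVec ξ = 0 ∧ Matrix.vecMul η M.toBlocks₂₁ = 0) →
  finrank F W + 2 * r ≤ 2 * (r * d)

/-- (Blk4) the dimension of a space with these identities -/
def StBlk4 : Prop := ∀ (F : Type) [Field F] [CharZero F] (r d p k : ℕ)
  (V : Submodule F (BM F r d)), (∀ M ∈ V, M.toBlocks₂₂ = 0 ∧
    M.toBlocks₂₁ * M.toBlocks₁₂ = 0 ∧
    M.toBlocks₂₁ * (M.toBlocks₁₁ * M.toBlocks₁₁) * M.toBlocks₁₂ = 0) →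
  finrank F V + k = (r + d) * (r + d) →
  ∀ ξ η : Fin d → F, ξ ≠ 0 → η ≠ 0 →
  (∃ v : Fin p → BM F r d, (∀ i, v i ∈ V) ∧
    LinearIndependent F (fun i => (v i).toBlocks₁₂.mulVec ξ) ∧
    LinearIndependent F (fun i => Matrix.vecMul η (v i).toBlocks₂₁)) →
  p * (r - p) + r + d * d ≤ k

/-- (NF) the normal form of a matrix -/
def StNF : Prop := ∀ (F : Type) [Field F] (n : ℕ) (A : Matrix (Fin n) (Fin n) F),
  ∃ (P Q : Matrix (Fin n) (Fin n) F) (e : Fin n ≃ Fin A.rank ⊕ Fin (n - A.rank)),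
    IsUnit P.det ∧ IsUnit Q.det ∧
    A = P * (Matrix.fromBlocks 1 0 0 0 : BM F A.rank (n - A.rank)).submatrix e e * Q

/-- (Top) elements of largest rank -/
def StTop : Prop := ∀ (F : Type) [Field F] [CharZero F] (n k : ℕ)
  (V : Submodule F (Matrix (Fin n) (Fin n) F)) (A : Matrix (Fin n) (Fin n) F), A ∈ V →
  (∀ M ∈ V, M.rank ≤ A.rank) → A.rank < n → n * n = finrank F V + k → 16 * k ≤ n * n →
  ∀ ξ η : Fin n → F, ξ ≠ 0 → η ≠ 0 → A.mulVec ξ = 0 → A.transpose.mulVec η = 0 →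
  finrank F (V.map (ev ξ)) ≤ 2 * k / n ∨ finrank F ((V.map tp).map (ev η)) ≤ 2 * k / n

/-- (Line) -/
def StLine : Prop := ∀ (F : Type) [Field F] (n : ℕ) (A X : Matrix (Fin n) (Fin n) F)
  (E : Submodule F (Fin n → F)), (∃ S : Finset F, ∀ t ∉ S, A.rank ≤ (A + t • X).rank) ∧
  ((∀ u ∈ E, X.mulVec u = 0 → u = 0) →
    ∃ S : Finset F, ∀ t ∉ S, ∀ u ∈ E, (A + t • X).mulVec u = 0 → u = 0) ∧
  ((∀ u ∈ E, A.mulVec u = 0 → u = 0) →
    ∃ S : Finset F, ∀ t ∉ S, ∀ u ∈ E, (A + t • X).mulVec u = 0 → u = 0)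

/-- (GenA) -/
def StGenA : Prop := ∀ (F : Type) [Field F] [CharZero F] (n : ℕ)
  (V : Submodule F (Matrix (Fin n) (Fin n) F)) (E E' : Submodule F (Fin n → F)), Inj V E →
  Inj (V.map tp) E' → ∃ A ∈ V, (∀ M ∈ V, M.rank ≤ A.rank) ∧
    (∀ u ∈ E, A.mulVec u = 0 → u = 0) ∧ ∀ u ∈ E', A.transpose.mulVec u = 0 → u = 0

/-- (Pen2) -/
def StPen2 : Prop := ∀ (F : Type) [Field F] [CharZero F] (V W : Type) [AddCommGroup V]
  [Module F V] [AddCommGroup W] [Module F W] [Module.Finite F V] [Module.Finite F W]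
  (T T' : V →ₗ[F] W), (∀ t : F, finrank F (LinearMap.range (T + t • T')) ≤
    finrank F (LinearMap.range T)) → ∀ x, T x = 0 → T' x ∈ LinearMap.range T

/-- (Deg) -/
def StDeg : Prop := ∀ (F : Type) [Field F] [CharZero F] (n h : ℕ)
  (V : Submodule F (Matrix (Fin n) (Fin n) F)) (G : Matrix (Fin h) (Fin n) F), LO V G →
  ∀ (i : Fin h) (j : Fin n) (t : F),
    finrank F (V.map (gl (chg G i j t))) ≤ finrank F (V.map (gl G))

/-- (Img) -/
def StImg : Prop := ∀ (F : Type) [Field F] [CharZero F] (n h : ℕ)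
  (V : Submodule F (Matrix (Fin n) (Fin n) F)) (G : Matrix (Fin h) (Fin n) F), LO V G →
  ∀ M ∈ V, G * M = 0 → ∀ (i : Fin h) (j : Fin n), ∃ M' ∈ V,
    G * M' = Matrix.of fun a c => if a = i then M j c else 0

/-- (LemK) -/
def StLemK : Prop := ∀ (F : Type) [Field F] [CharZero F] (n h : ℕ)
  (V : Submodule F (Matrix (Fin n) (Fin n) F)) (G : Matrix (Fin h) (Fin n) F), LO V G →
  ∀ u : Fin n → F, finrank F (V.map (ev u)) < h → u ∈ EE V G

/-- (DimE) -/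
def StDimE : Prop := ∀ (F : Type) [Field F] [CharZero F] (n h k : ℕ)
  (V : Submodule F (Matrix (Fin n) (Fin n) F)) (G : Matrix (Fin h) (Fin n) F), LO V G →
  1 ≤ h → n * n = finrank F V + k → k + h * n ≤ n * n → finrank F (EE V G) * (n - h) ≤ k

/-- (Dense) -/
def StDense : Prop := ∀ (F : Type) [Field F] [CharZero F] (n k : ℕ)
  (V : Submodule F (Matrix (Fin n) (Fin n) F)) (G G' : Matrix (Fin (2 * k / n + 1)) (Fin n) F),
  3 ≤ n → 16 * k ≤ n * n → n * n = finrank F V + k → LO V G → LO (V.map tp) G' →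
  finrank F (EE V G) ≤ 2 * k / n ∧ finrank F (EE (V.map tp) G') ≤ 2 * k / n ∧
  (Inj V (EE V G) → Inj (V.map tp) (EE (V.map tp) G') → ∃ X ∈ V, X.det ≠ 0)

/-- (Cond) -/
def StCond : Prop := ∀ (F : Type) [Field F] [CharZero F] (n e : ℕ)
  (M : Matrix (Fin n) (Fin e) F), Function.Injective M.mulVec →
  ∃ t < n * n * n + 1, (vdm F e n t * M).det ≠ 0

/-! ### Integer matrices -/

/-- (KB) a basis of the kernel of an integer matrix, modulo almost all primes -/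
def StKB : Prop := ∀ (N n a : ℕ) (K : Matrix (Fin N) (Fin n) ℤ), (∀ i j, |K i j| ≤ 2 ^ a) →
  ∃ (e : ℕ) (U : Matrix (Fin n) (Fin e) ℤ) (Δ : ℤ), Δ ≠ 0 ∧ |Δ| ≤ 2 ^ (n * (a + n)) ∧
    (∀ i j, |U i j| ≤ 2 ^ (n * (a + n))) ∧
    IsB (U.map (Int.cast : ℤ → ℚ))
      (LinearMap.ker (K.map (Int.cast : ℤ → ℚ)).mulVecLin) ∧
    ∀ (p : ℕ) [Fact p.Prime], ¬ (p : ℤ) ∣ Δ → IsB (U.map (Int.cast : ℤ → ZMod p))
      (LinearMap.ker (K.map (Int.cast : ℤ → ZMod p)).mulVecLin)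

/-- the span of the matrices -/
def spn (F : Type) [Field F] {n m : ℕ} (C : Fin m → Matrix (Fin n) (Fin n) ℤ) :
    Submodule F (Matrix (Fin n) (Fin n) F) :=
  Submodule.span F (Set.range fun q => (C q).map (Int.cast : ℤ → F))

/-- (EU) -/
def StEU : Prop := ∀ (L n m h : ℕ) (C : Fin m → Matrix (Fin n) (Fin n) ℤ)
  (G : Matrix (Fin h) (Fin n) ℤ), n ≤ L → m ≤ L → h ≤ L → (∀ q i j, |C q i j| ≤ 2 ^ (2 * L)) →
  (∀ i j, |G i j| ≤ 2 ^ (2 * L)) →
  ∃ (e : ℕ) (U : Matrix (Fin n) (Fin e) ℤ) (Δ : ℤ), Δ ≠ 0 ∧ |Δ| ≤ 2 ^ (16 * (L + 1) ^ 3) ∧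
    (∀ i j, |U i j| ≤ 2 ^ (16 * (L + 1) ^ 3)) ∧
    IsB (U.map (Int.cast : ℤ → ℚ)) (EE (spn ℚ C) (G.map (Int.cast : ℤ → ℚ))) ∧
    ∀ (p : ℕ) [Fact p.Prime], ¬ (p : ℤ) ∣ Δ → IsB (U.map (Int.cast : ℤ → ZMod p))
      (EE (spn (ZMod p) C) (G.map (Int.cast : ℤ → ZMod p)))

/-! ### The Fischer norm -/

/-- the Fischer norm of the determinant of a linear combination of matrices -/
def HfK {K : Type} [CommRing K] {m e : ℕ} (D : Fin m → Matrix (Fin e) (Fin e) K) : K :=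
  ∑ σ : Equiv.Perm (Fin e), ∑ π : Equiv.Perm (Fin e), ∑ κ : Equiv.Perm (Fin e),
    (((σ.sign : ℤ) * (π.sign : ℤ) * (κ.sign : ℤ) : ℤ) : K) *
      ∏ i : Fin e, ∑ q, D q i (σ i) * D q (π i) (κ i)

/-- (HfM) multiplication with a matrix from the right -/
def StHfM : Prop := ∀ (K : Type) [CommRing K] (m e : ℕ) (D : Fin m → Matrix (Fin e) (Fin e) K)
  (g : Matrix (Fin e) (Fin e) K), HfK (fun q => D q * g) = g.det ^ 2 * HfK D

/-- (HfZ) -/
def StHfZ : Prop := ∀ (m e : ℕ) (D : Fin m → Matrix (Fin e) (Fin e) ℤ), HfK D ≠ 0 ↔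
  ∃ x : Fin m → ℚ, (∑ q, x q • (D q).map (Int.cast : ℤ → ℚ)).det ≠ 0

/-- (TabE) -/
def StTabE : Prop := ∀ (A : SMat) (p E : ℕ), 0 < p → A.length ≤ E →
  ((fval p (raw A) (subs A.length (vecs 1 E)) : ℕ) : ZMod p) = ((Hf A : ℤ) : ZMod p)

/-- the matrix with the columns `U` modulo `p` -/
def colM (p n : ℕ) (U : List (List ℕ)) : Matrix (Fin n) (Fin U.length) (ZMod p) :=
  fun i j => (((U.getD j []).getD i 0 : ℕ) : ZMod p)

/-- (Fv) the small symbolic matrix -/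
def StFv : Prop := ∀ (p n t E : ℕ) (Cs : List (List (List ℕ))) (U : List (List ℕ)), 0 < p →
  (∀ C ∈ Cs, Sq n C) → (∀ u ∈ U, u.length = n) → U.length ≤ E →
  ((fval p (smallM p n t Cs U) (subs U.length (vecs 1 E)) : ℕ) : ZMod p) =
    HfK fun q : Fin Cs.length => vdm (ZMod p) U.length n t * toM p n (Cs.get q) * colM p n U

/-! ### Relations -/

/-- the matrix with the rows `R` modulo `p`, transposed -/
def rowT (p N : ℕ) (R : List (List ℕ)) : Matrix (Fin N) (Fin R.length) (ZMod p) :=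
  fun c i => (((R.getD i []).getD c 0 : ℕ) : ZMod p)

/-- (Rel) -/
def StRel : Prop := ∀ (p : ℕ) [Fact p.Prime] (N : ℕ) (R : List (List ℕ)),
  (∀ r ∈ R, r.length = N) → (∀ y ∈ rel p N R, y.length = R.length) ∧
    IsB (colM p R.length (rel p N R)) (LinearMap.ker (rowT p N R).mulVecLin)

/-- the matrix `G` -/
def Gm (F : Type) [Field F] (h n : ℕ) (g : List ℕ) : Matrix (Fin h) (Fin n) F :=
  fun a j => ((g.getD ((a : ℕ) * n + j) 0 : ℕ) : F)

/-- (Gmul) -/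
def StGmul : Prop := ∀ (p : ℕ) [Fact p.Prime] (n h : ℕ) (g : List ℕ) (C : List (List ℕ)),
  (gmul p n h g C).length = h * n ∧ ∀ (a : Fin h) (c : Fin n),
    (((gmul p n h g C).getD ((a : ℕ) * n + c) 0 : ℕ) : ZMod p) =
      (Gm (ZMod p) h n g * toM p n C) a c

/-- (Bas) -/
def StBas : Prop := ∀ (b : Bool) (p : ℕ) [Fact p.Prime] (A : RMat) (h : ℕ) (g : List ℕ),
  (∀ C ∈ cf b p A, Sq A.length C) →
  (∀ u ∈ bas b p A h g, u.length = A.length) ∧
    IsB (colM p A.length (bas b p A h g))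
      (EE (Submodule.span (ZMod p) (Set.range fun q : Fin (cf b p A).length =>
        toM p A.length ((cf b p A).get q))) (Gm (ZMod p) h A.length g))

/-! ### The coefficient matrices -/

/-- the coefficient matrices, one for every first occurrence of a variable -/
def czF (A : SMat) (q : Fin (varsN A).length) : Matrix (Fin A.length) (Fin A.length) ℤ :=
  if (varsN A).idxOf ((varsN A).get q) = q then
    fun i j => (((A.getD i []).getD j []).map fun f =>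
      if f.2 = (varsN A).get q then f.1 else 0).sum
  else 0

/-- these matrices or the transposed ones -/
def czB (b : Bool) (A : SMat) (q : Fin (varsN A).length) :
    Matrix (Fin A.length) (Fin A.length) ℤ :=
  bif b then (czF A q).transpose else czF A q

/-- (Cf) -/
def StCf : Prop := ∀ (A : SMat) (b : Bool) (p : ℕ), 0 < p → (∀ r ∈ A, r.length = A.length) →
  (cf b p (raw A)).length = (varsN A).length ∧ (∀ C ∈ cf b p (raw A), Sq A.length C) ∧
  ∀ q : Fin (varsN A).length, toM p A.length ((cf b p (raw A)).getD q []) =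
    (czB b A q).map (Int.cast : ℤ → ZMod p)

/-- (Cz) -/
def StCz : Prop := ∀ A : SMat, (∀ r ∈ A, r.length = A.length) →
  (∀ (b : Bool) (q : Fin (varsN A).length) (i j : Fin A.length),
    |czB b A q i j| ≤ 2 ^ (2 * (code A).length)) ∧
  spn ℚ (czB true A) = (spn ℚ (czB false A)).map tp ∧
  finrank ℚ (spn ℚ (czB false A)) = spanDim A ∧
  ((toMat A).det ≠ 0 ↔ ∃ X ∈ spn ℚ (czB false A), X.det ≠ 0)

/-- (GrkQ) -/
def StGrkQ : Prop := ∀ (A : SMat) (b : Bool) (h : ℕ) (g : List ℕ),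
  (∀ r ∈ A, r.length = A.length) → h ≤ A.length → g.length = h * A.length →
  (∀ x ∈ g, x ≤ A.length) → grkQ b (raw A) (bD (code A).length) h g =
    finrank ℚ ((spn ℚ (czB b A)).map (gl (Gm ℚ h A.length g)))

/-- (Cod) -/
def StCod : Prop := ∀ A : SMat, (∀ r ∈ A, r.length = A.length) →
  A.length * A.length = spanDim A + cod (raw A) (bD (code A).length)

/-- (Opt) the local search -/
def StOpt : Prop := ∀ (b : Bool) (A : RMat) (B h : ℕ),
  (gopt b A B h).length = h * A.length ∧ (∀ x ∈ gopt b A B h, x ≤ A.length) ∧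
  ∀ i < h * A.length, ∀ v ≤ A.length,
    grkQ b A B h ((gopt b A B h).set i v) ≤ grkQ b A B h (gopt b A B h)

/-- (LOQ) -/
def StLOQ : Prop := ∀ (A : SMat) (b : Bool) (h : ℕ), (∀ r ∈ A, r.length = A.length) →
  h ≤ A.length → LO (spn ℚ (czB b A))
    (Gm ℚ h A.length (gopt b (raw A) (bD (code A).length) h))

/-- (BdH) bounds for the small determinants -/
def StBdH : Prop := ∀ (L n m e t : ℕ) (C : Fin m → Matrix (Fin n) (Fin n) ℤ)
  (U : Matrix (Fin n) (Fin e) ℤ) (Δ : ℤ), n ≤ L → m ≤ L → e ≤ n → t ≤ n * n * n →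
  (∀ q i j, |C q i j| ≤ 2 ^ (2 * L)) → (∀ i j, |U i j| ≤ 2 ^ (16 * (L + 1) ^ 3)) →
  |Δ| ≤ 2 ^ (16 * (L + 1) ^ 3) →
  (Δ * HfK fun q => vdm ℤ e n t * C q * U).natAbs < 2 ^ kD L ∧ Δ.natAbs < 2 ^ kD L

/-- (Hit4) -/
def StHit4 : Prop := ∀ (A : SMat) (b : Bool) (E : ℕ) (g : List ℕ),
  (∀ r ∈ A, r.length = A.length) → E + 1 ≤ A.length → g.length = (E + 1) * A.length →
  (∀ x ∈ g, x ≤ A.length) →
  finrank ℚ (EE (spn ℚ (czB b A)) (Gm ℚ (E + 1) A.length g)) ≤ E →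
  ∃ (Δ : ℤ) (H : ℕ → ℤ), Δ ≠ 0 ∧ Δ.natAbs < 2 ^ kD (code A).length ∧
    (∀ t ≤ A.length * A.length * A.length, (Δ * H t).natAbs < 2 ^ kD (code A).length) ∧
    (∀ (p : ℕ) [Fact p.Prime], ¬ (p : ℤ) ∣ Δ → ∀ t ≤ A.length * A.length * A.length,
      (hit b p (raw A) (E + 1) g t E (vecs 1 E) = true ↔ ¬ (p : ℤ) ∣ H t)) ∧
    (∀ t, H t ≠ 0 → Inj (spn ℚ (czB b A)) (EE (spn ℚ (czB b A)) (Gm ℚ (E + 1) A.length g))) ∧
    (Inj (spn ℚ (czB b A)) (EE (spn ℚ (czB b A)) (Gm ℚ (E + 1) A.length g)) →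
      ∃ t ≤ A.length * A.length * A.length, H t ≠ 0)

/-- (Count) -/
def StCount : Prop := (∀ L : ℕ,
    3 * kD L + 1 ≤ ((List.range (bD L)).filter fun p => isPrime (p + 1)).length) ∧
  ∀ (B k : ℕ) (D : ℤ), D ≠ 0 → D.natAbs < 2 ^ k →
    ((List.range B).filter fun p =>
      isPrime (p + 1) && decide (((p + 1 : ℕ) : ℤ) ∣ D)).length ≤ k

/-- (Half) -/
def StHalf : Prop := ∀ (A : SMat) (b : Bool) (E : ℕ) (g : List ℕ),
  (∀ r ∈ A, r.length = A.length) → E + 1 ≤ A.length → g.length = (E + 1) * A.length →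
  (∀ x ∈ g, x ≤ A.length) →
  finrank ℚ (EE (spn ℚ (czB b A)) (Gm ℚ (E + 1) A.length g)) ≤ E →
  (halfG b (raw A) (code A).length E (vecs 1 E) g = true ↔
    Inj (spn ℚ (czB b A)) (EE (spn ℚ (czB b A)) (Gm ℚ (E + 1) A.length g)))

/-! ### Parameters -/

def StBd4 : Prop := ∀ (p : Polynomial ℕ) (c : ℕ), ∃ c', ∀ w : List Letter,
  p.eval (tb4 c w) ≤ tb4 c' w

def StNum4 : Prop := ∀ c : ℕ, ∃ c' : ℕ, ∀ (w : List Letter) (κ R P : ℕ), 1 ≤ R → 1 ≤ P →
  dk w ≤ κ * nr w → (low (rw' w) R).sum ≤ R ^ 3 →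
  ((his (rw' w) R).map fun x => x + 1).prod ≤ P →
  tb4 c w ≤ (w.length + 2) ^ c' * min (2 ^ (c' * κ)) (P ^ c' * (R + 1) ^ (c' * R ^ 2))

def StLoop4 : Prop := ∃ c : ℕ, (∀ w : List Letter, sz w ≤ tb4 c w) ∧
  TB (tb4 c) fun w : List Letter => (w, vs4 w)

/-! ### Polynomial time -/

def StPTCf : Prop := PTime fun q : Bool × ℕ × RMat => cf q.1 (q.2.1 + 1) q.2.2

def StPTGmul : Prop := PTime fun q : ℕ × ℕ × ℕ × List ℕ × List (List ℕ) =>
  gmul (q.1 + 1) q.2.1 q.2.2.1 q.2.2.2.1 q.2.2.2.2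

def StPTGrk : Prop := PTime fun q : Bool × RMat × ℕ × ℕ × List ℕ =>
  grkQ q.1 q.2.1 q.2.2.1 q.2.2.2.1 q.2.2.2.2

def StPTOpt : Prop := PTime fun q : Bool × RMat × ℕ × ℕ => gopt q.1 q.2.1 q.2.2.1 q.2.2.2

def StPTRel : Prop := PTime fun q : ℕ × ℕ × List (List ℕ) => rel (q.1 + 1) q.2.1 q.2.2

def StPTBas : Prop := PTime fun q : Bool × ℕ × RMat × ℕ × List ℕ =>
  bas q.1 (q.2.1 + 1) q.2.2.1 q.2.2.2.1 q.2.2.2.2

def StPTSmall : Prop := PTime fun q : ℕ × ℕ × ℕ × List (List (List ℕ)) × List (List ℕ) =>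
  smallM (q.1 + 1) q.2.1 q.2.2.1 q.2.2.2.1 q.2.2.2.2

def StPTHit : Prop :=
  PTime fun q : Bool × ℕ × RMat × ℕ × List ℕ × ℕ × ℕ × List (List ℕ) =>
    hit q.1 (q.2.1 + 1) q.2.2.1 q.2.2.2.1 q.2.2.2.2.1 q.2.2.2.2.2.1 q.2.2.2.2.2.2.1
      q.2.2.2.2.2.2.2

def StPTHalf : Prop := PTime fun q : Bool × RMat × ℕ × ℕ × List (List ℕ) =>
  half q.1 q.2.1 q.2.2.1 q.2.2.2.1 q.2.2.2.2

def StPTCod : Prop := PTime fun q : RMat × ℕ => cod q.1 q.2

def StPTPar4 : Prop := (PTime fun w : List Letter => cK w) ∧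
  (PTime fun w : List Letter => dens w) ∧ (PTime fun w : List Letter => useW w) ∧
  PTime fun w : List Letter => bl4 w

def StPTDec4 : Prop := PTime fun q : List Letter × List (List ℕ) => dec4 q.1 q.2

end Pool.Agent.Lib.MP_64d474_lc.ST4
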