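import Pool.Agent.Lib.MP_64d474_lc.ST3.Loop3
import Pool.Agent.Lib.MP_64d474_lc.ST4.Stmts4

/-!
# The loop that lists all digits: the fourth machine
-/

set_option autoImplicit false
set_option maxHeartbeats 1000000

open Pool.Agent.Lib.PT Function Pool.Agent.Lib.MP_64d474_lc.ST
open Pool.Agent.Lib.MP_64d474_lc.ST2 (rw' nr)
open Pool.Agent.Lib.MP_64d474_lc.ST3 (low his dgs rs3 cost3 mvecs costR okR best StMv StBest StSum3)

namespace Pool.Agent.Lib.MP_64d474_lc.ST4

namespace Loop4

open Pool.Agent.Lib.MP_64d474_lc.ST.Loop (ext ptime_ext sz_word)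
open Pool.Agent.Lib.MP_64d474_lc.ST3.Loop3 (mvecs_cons sz_mvecs prod_take_le lt_pow_log
  prod_le_two_pow length_le_sum sum_filter_le le_sum)

/-- the state: the remaining bounds in reverse order, the lists, the input -/
abbrev St : Type := List ℕ × List (List ℕ) × List Letter

def step (q : St) : St := (q.1.tail, ext (q.1.headD 0) q.2.1, q.2.2)

def tst (q : St) : Bool := !(q.1.isEmpty)

def init (w : List Letter) : St := ((bl4 w).reverse, [[]], w)

/-- the state after `i` rounds -/
def after (w : List Letter) (i : ℕ) : St :=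
  ((bl4 w).reverse.drop i, mvecs ((bl4 w).reverse.take i).reverse, w)

theorem step_iter (w : List Letter) (i : ℕ) (hi : i ≤ (bl4 w).length) :
    step^[i] (init w) = after w i := by
  induction i with
  | zero =>
    unfold after init
    simp [mvecs]
  | succ i ih =>
    rw [iterate_succ_apply', ih (by omega)]
    unfold step after
    have hlt : i < (bl4 w).reverse.length := by
      rw [List.length_reverse]
      omega
    have e1 : (bl4 w).reverse.drop i = (bl4 w).reverse[i] :: (bl4 w).reverse.drop (i + 1) :=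
      List.drop_eq_getElem_cons hlt
    have e2 : ((bl4 w).reverse.take (i + 1)).reverse =
        (bl4 w).reverse[i] :: ((bl4 w).reverse.take i).reverse := by
      rw [List.take_succ_eq_append_getElem hlt, List.reverse_append]
      rfl
    rw [e2, mvecs_cons, e1]
    rfl

theorem ptime_step : PTime step := by
  have h1 : PTime fun q : St => ext (q.1.headD 0) q.2.1 :=
    ptime_ext.comp (g := fun q : St => (q.1.headD 0, q.2.1)) (by fun_prop)
  unfold step
  fun_prop

theorem ptime_tst : PTime tst := by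
  unfold tst
  fun_prop

theorem ptime_init (h : StPTPar4) : PTime init := by
  obtain ⟨-, -, -, h1⟩ := h
  unfold init
  fun_prop

/-! ### The numerical bounds -/

/-- the size of the state -/
theorem sz_after (hm : StMv) (w : List Letter) (i n M P : ℕ) (hn : (bl4 w).length ≤ n)
    (hM : ∀ b ∈ bl4 w, b ≤ M) (hP : ((bl4 w).map fun b => b + 1).prod ≤ P) :
    sz (after w i) ≤ (n * (2 * M + 2) + 1) + (P * (n * (2 * M + 2) + 2) + 1) + sz w + 2 := by
  unfold after
  rw [sz_mk, sz_mk]
  have h1 : sz ((bl4 w).reverse.drop i) ≤ n * (2 * M + 2) + 1 := by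
    have h := sz_le_of_forall (l := (bl4 w).reverse.drop i) (B := 2 * M + 1) (by
      intro x hx
      rw [sz_nat]
      have := hM x (List.mem_reverse.1 (List.mem_of_mem_drop hx))
      omega)
    refine h.trans ?_
    have h2 : ((bl4 w).reverse.drop i).length ≤ n := by
      rw [List.length_drop, List.length_reverse]
      omega
    have := Nat.mul_le_mul_right (2 * M + 2) h2
    have e : 2 * M + 1 + 1 = 2 * M + 2 := by omega
    rw [e]
    omega
  have h2 := sz_mvecs hm ((bl4 w).reverse.take i).reverse n M P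
    (by
      rw [List.length_reverse, List.length_take, List.length_reverse]
      omega)
    (fun b hb => hM b (List.mem_reverse.1 (List.mem_of_mem_take (List.mem_reverse.1 hb))))
    ((prod_take_le _ _).trans hP)
  omega

/-- the length, the largest member and the product of the bounds -/
theorem bounds {w : List Letter} (hs : StSum3) (hb : StBest) :
    (bl4 w).length ≤ 32 * (w.length + 2) ^ 2 ∧ (∀ b ∈ bl4 w, b ≤ 8 * (w.length + 2) ^ 5) ∧
      ((bl4 w).map fun b => b + 1).prod ≤ 2 ^ (72 * min (cK w) (cost3 w)) := by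
  obtain ⟨g1, -, g3⟩ := hs w
  set Y := w.length + 2 with hY
  have hY2 : 2 ≤ Y := by omega
  have hcK : cK w ≤ nr w := by
    unfold cK
    cases hd : dens w with
    | false => exact le_rfl
    | true =>
      unfold dens at hd
      rw [Bool.and_eq_true, decide_eq_true_iff, decide_eq_true_iff] at hd
      rw [cond_true]
      apply Nat.div_le_of_le_mul
      omega
  rcases hu : useW w with _ | _
  swap
  · -- the first case
    have hn : cost3 w < cK w := by simpa [useW] using hu
    have hbl : bl4 w = List.replicate (dgs (rw' w) (rs3 w))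
        (dmax (low (rw' w) (rs3 w)).sum (rs3 w)) ++ his (rw' w) (rs3 w) := by simp [bl4, hu]
    obtain ⟨k1, k2, -⟩ := hb (rw' w)
    have hrs : rs3 w = best (rw' w) := rfl
    rw [← hrs] at k1 k2
    have hcost : cost3 w = costR (rw' w) (rs3 w) := rfl
    rw [Nat.min_eq_right hn.le, hcost, hbl]
    unfold costR
    set l := rw' w with hl
    set R := rs3 w with hR
    unfold okR at k1
    rw [Bool.and_eq_true, decide_eq_true_iff, decide_eq_true_iff] at k1
    obtain ⟨k3, k4⟩ := k1
    set s := (low l R).sum with hsdef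
    have hRY : R ≤ Y := by omega
    have hRR : R * R = R ^ 2 := by ring
    have hRRR : R * (R * R) = R ^ 3 := by ring
    rw [hRRR] at k4
    have hR2 : 1 ≤ R ^ 2 := Nat.one_le_pow _ _ k3
    have hR2' : R ≤ R ^ 2 := by nlinarith
    have d1 : dgs l R ≤ 9 * R ^ 2 := by
      unfold dgs
      rw [← hsdef]
      unfold digs srcs blks
      have h4 : s / R ≤ R ^ 2 := by
        apply Nat.div_le_of_le_mul
        calc s ≤ R ^ 3 := k4
          _ = R * R ^ 2 := by ring
      rw [hRR]
      omega
    have d2 : dmax s R ≤ 5 * R ^ 5 := by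
      unfold dmax srcs
      rw [hRR]
      calc (4 * R ^ 2 + R) * s ≤ (5 * R ^ 2) * R ^ 3 := Nat.mul_le_mul (by omega) k4
        _ = 5 * R ^ 5 := by ring
    have d3 : dmax s R + 1 ≤ (R + 1) ^ 8 := by
      have h1 : R ^ 5 ≤ (R + 1) ^ 5 := Nat.pow_le_pow_left (by omega) 5
      have h2 : 8 ≤ (R + 1) ^ 3 := by
        calc 8 = 2 ^ 3 := by norm_num
          _ ≤ (R + 1) ^ 3 := Nat.pow_le_pow_left (by omega) 3
      have h3 : 1 ≤ (R + 1) ^ 5 := Nat.one_le_pow _ _ (by omega)
      calc dmax s R + 1 ≤ 8 * (R + 1) ^ 5 := by omega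
        _ ≤ (R + 1) ^ 3 * (R + 1) ^ 5 := Nat.mul_le_mul_right _ h2
        _ = (R + 1) ^ 8 := by ring
    have hhis : ∀ x ∈ his l R, 1 ≤ x ∧ x ≤ l.sum := by
      intro x hx
      unfold his at hx
      rw [List.mem_filter, decide_eq_true_iff] at hx
      exact ⟨by omega, le_sum hx.1⟩
    have d4 : (his l R).length ≤ Y := by
      have h1 := length_le_sum _ fun x hx => (hhis x hx).1
      have h2 : (his l R).sum ≤ l.sum := sum_filter_le _ _
      omega
    have hY1 : Y ≤ Y ^ 2 := by nlinarith
    have hYR : R ^ 2 ≤ Y ^ 2 := Nat.pow_le_pow_left hRY 2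
    refine ⟨?_, ?_, ?_⟩
    · rw [List.length_append, List.length_replicate]
      omega
    · intro b hb'
      rw [List.mem_append] at hb'
      rcases hb' with h | h
      · obtain rfl := (List.mem_replicate.1 h).2
        have h5 : R ^ 5 ≤ Y ^ 5 := Nat.pow_le_pow_left hRY 5
        omega
      · have h5 := (hhis b h).2
        have h6 : Y ≤ Y ^ 5 := Nat.le_self_pow (by norm_num) _
        omega
    · rw [List.map_append, List.prod_append, List.map_replicate, List.prod_replicate]
      have p1 : (dmax s R + 1) ^ dgs l R ≤ 2 ^ (72 * (R * R * (Nat.log 2 (R + 1) + 1))) := by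
        calc (dmax s R + 1) ^ dgs l R ≤ ((R + 1) ^ 8) ^ dgs l R := Nat.pow_le_pow_left d3 _
          _ ≤ ((R + 1) ^ 8) ^ (9 * R ^ 2) :=
            Nat.pow_le_pow_right (Nat.pow_pos (by omega)) d1
          _ = (R + 1) ^ (72 * R ^ 2) := by rw [← pow_mul]; ring_nf
          _ ≤ (2 ^ (Nat.log 2 (R + 1) + 1)) ^ (72 * R ^ 2) :=
            Nat.pow_le_pow_left (lt_pow_log R) _
          _ = 2 ^ (72 * (R * R * (Nat.log 2 (R + 1) + 1))) := by rw [← pow_mul]; ring_nf
      have p2 := prod_le_two_pow (his l R)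
      set c1 := R * R * (Nat.log 2 (R + 1) + 1) with hc1
      set c2 := ((his l R).map fun x => Nat.log 2 (x + 1) + 1).sum with hc2
      calc (dmax s R + 1) ^ dgs l R * ((his l R).map fun b => b + 1).prod ≤
          2 ^ (72 * c1) * 2 ^ c2 := Nat.mul_le_mul p1 p2
        _ = 2 ^ (72 * c1 + c2) := (pow_add _ _ _).symm
        _ ≤ 2 ^ (72 * (c1 + c2)) := Nat.pow_le_pow_right (by norm_num) (by omega)
  · -- the second case
    have hn : cK w ≤ cost3 w := by simpa [useW] using hu
    have hbl : bl4 w = List.replicate (cK w) 1 := by simp [bl4, hu]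
    rw [Nat.min_eq_left hn, hbl]
    have hY1 : Y ≤ Y ^ 2 := by nlinarith
    refine ⟨?_, ?_, ?_⟩
    · rw [List.length_replicate]
      omega
    · intro b hb'
      obtain rfl := (List.mem_replicate.1 hb').2
      have : 1 ≤ Y ^ 5 := Nat.one_le_pow _ _ (by omega)
      omega
    · rw [List.map_replicate, List.prod_replicate]
      exact Nat.pow_le_pow_right (by norm_num) (by omega)

theorem size_state {w : List Letter} (hs : StSum3) (hb : StBest) (hm : StMv) (i : ℕ) :
    sz (after w i) + sz w + (bl4 w).length ≤ tb4 100 w := by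
  obtain ⟨h1, h2, h3⟩ := bounds (w := w) hs hb
  have h4 := sz_after hm w i _ _ _ h1 h2 h3
  have h5 := sz_word w
  unfold tb4
  set C := min (cK w) (cost3 w) with hC
  set Y := w.length + 2 with hY
  have hY2 : 2 ≤ Y := by omega
  have hYpos : 0 < Y := by omega
  set Z := 2 ^ (72 * C) with hZ
  have hZ1 : 1 ≤ Z := Nat.one_le_two_pow
  set X := 32 * Y ^ 2 * (2 * (8 * Y ^ 5) + 2) with hX
  have y5 : 1 ≤ Y ^ 5 := Nat.one_le_pow _ _ hYpos
  have y2 : Y ≤ Y ^ 2 := by nlinarith
  have x1 : X + 2 ≤ 1024 * Y ^ 7 := by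
    have e1 : 32 * Y ^ 2 * (2 * (8 * Y ^ 5) + 2) ≤ 32 * Y ^ 2 * (18 * Y ^ 5) :=
      Nat.mul_le_mul_left _ (by omega)
    have e2 : 32 * Y ^ 2 * (18 * Y ^ 5) = 576 * Y ^ 7 := by ring
    have e3 : 1 ≤ Y ^ 7 := Nat.one_le_pow _ _ hYpos
    omega
  have x2 : Z * (X + 2) ≤ Z * (1024 * Y ^ 7) := Nat.mul_le_mul_left _ x1
  have x3 : 1024 * Y ^ 7 ≤ Z * (1024 * Y ^ 7) := Nat.le_mul_of_pos_left _ (by omega)
  have x4 : Y ^ 2 ≤ Y ^ 7 := Nat.pow_le_pow_right hYpos (by norm_num)
  have x5 : sz (after w i) + sz w + (bl4 w).length ≤ 4 * (Z * (1024 * Y ^ 7)) := by omega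
  refine x5.trans ?_
  have x6 : 4096 ≤ Y ^ 12 := by
    calc 4096 = 2 ^ 12 := by norm_num
      _ ≤ Y ^ 12 := Nat.pow_le_pow_left hY2 12
  calc 4 * (Z * (1024 * Y ^ 7)) = 4096 * (Y ^ 7 * Z) := by ring
    _ ≤ Y ^ 12 * (Y ^ 7 * Z) := Nat.mul_le_mul_right _ x6
    _ = Y ^ 19 * 2 ^ (72 * C) := by rw [hZ]; ring
    _ ≤ Y ^ 100 * 2 ^ (100 * C) :=
      Nat.mul_le_mul (Nat.pow_le_pow_right hYpos (by norm_num))
        (Nat.pow_le_pow_right (by norm_num) (by omega))

end Loop4

open Loop4 in
theorem stLoop4 (h1 : StSum3) (h2 : StPTPar4) (h3 : StBest) (h4 : StMv) : StLoop4 := by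
  have hg : ∀ w : List Letter, sz w ≤ tb4 100 w := fun w => by
    have := size_state (w := w) h1 h3 h4 0
    omega
  refine ⟨100, hg, ?_⟩
  have h := TB.iter (f := step) (b := tst) (s := init) (g := tb4 100)
    (fun w => (bl4 w).length) ptime_step ptime_tst (ptime_init h2) hg
    (fun w => by
      have := size_state (w := w) h1 h3 h4 0
      omega)
    (fun w i hi => by
      rw [step_iter w i hi]
      have := size_state (w := w) h1 h3 h4 i
      omega)
    (fun w i hi => by
      rw [step_iter w i hi.le]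
      unfold after tst
      have hlt : i < (bl4 w).reverse.length := by
        rw [List.length_reverse]
        omega
      rw [List.drop_eq_getElem_cons hlt]
      rfl)
    (fun w => by
      rw [step_iter w _ le_rfl]
      unfold after tst
      simp)
  have h5 := TB.comp (f := fun q : St => (q.2.2, q.2.1)) (by fun_prop) h hg
  have e : (fun w : List Letter => (w, vs4 w)) = fun w =>
      (fun q : St => (q.2.2, q.2.1)) (step^[(bl4 w).length] (init w)) := by
    funext w
    rw [step_iter w _ le_rfl]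
    unfold after vs4
    have e1 : (bl4 w).reverse.take (bl4 w).length = (bl4 w).reverse :=
      List.take_of_length_le (by rw [List.length_reverse])
    simp only [e1, List.reverse_reverse]
  rw [e]
  exact h5

end Pool.Agent.Lib.MP_64d474_lc.ST4
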