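import Pool.Agent.Lib.MP_64d474_lc.ST4.Stmts4

set_option autoImplicit false

namespace Pool.Agent.Lib.MP_64d474_lc.ST4

namespace NFAux

theorem aux {F : Type} [Field F] (n N : ℕ) (hN : N = n) (A : Matrix (Fin n) (Fin n) F)
    (h : ∃ (V U : Matrix (Fin n) (Fin n) F) (e : Fin n ≃ Fin A.rank ⊕ Fin (N - A.rank)),
      IsUnit V ∧ IsUnit U ∧ V * A * U = (Matrix.fromBlocks 1 0 0 0).submatrix e e) :
    ∃ (P Q : Matrix (Fin n) (Fin n) F) (e : Fin n ≃ Fin A.rank ⊕ Fin (n - A.rank)),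
    IsUnit P.det ∧ IsUnit Q.det ∧
    A = P * (Matrix.fromBlocks 1 0 0 0 : BM F A.rank (n - A.rank)).submatrix e e * Q := by
  subst hN
  obtain ⟨V, U, e, hV, hU, h⟩ := h
  have hV' := (Matrix.isUnit_iff_isUnit_det _).1 hV
  have hU' := (Matrix.isUnit_iff_isUnit_det _).1 hU
  refine ⟨V⁻¹, U⁻¹, e, ?_, ?_, ?_⟩
  · exact Matrix.isUnit_nonsing_inv_det V hV'
  · exact Matrix.isUnit_nonsing_inv_det U hU'
  · rw [← h, ← Matrix.mul_assoc, ← Matrix.mul_assoc, Matrix.nonsing_inv_mul V hV', Matrix.one_mul,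
      Matrix.mul_assoc, Matrix.mul_nonsing_inv U hU', Matrix.mul_one]

end NFAux

/-- (NF) the normal form of a matrix -/
theorem stNF : StNF := by
  intro F _ n A
  exact NFAux.aux n (Fintype.card (Fin n)) (Fintype.card_fin n) A (Matrix.exists_rank_normal_form A)

end Pool.Agent.Lib.MP_64d474_lc.ST4
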