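import Pool.Agent.Lib.MP_64d474_lc.ST4.Stmts4
import Pool.Agent.Lib.MP_64d474_lc.ST3.Num3

/-!
# The bound of the running time of the fourth machine in numbers
-/

set_option autoImplicit false

open Pool.Agent.Lib.MP_64d474_lc.ST
open Pool.Agent.Lib.MP_64d474_lc.ST2 (rw' nr)
open Pool.Agent.Lib.MP_64d474_lc.ST3 (low his okR costR cost3 rs3)

namespace Pool.Agent.Lib.MP_64d474_lc.ST4

namespace Num4

theorem cK_le (w : List Letter) (κ : ℕ) (h : dk w ≤ κ * nr w) : cK w ≤ 16 * κ + 2 := by
  unfold cK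
  cases hd : dens w with
  | true =>
    rw [cond_true]
    have h1 : 2 * dk w ≤ 2 * κ * nr w := by nlinarith
    have h2 : 2 * dk w / nr w ≤ 2 * κ := by
      refine Nat.div_le_of_le_mul ?_
      linarith [mul_comm (nr w) (2 * κ)]
    omega
  | false =>
    rw [cond_false]
    simp only [dens, Bool.and_eq_false_iff, decide_eq_false_iff_not, not_le] at hd
    rcases hd with hd | hd
    · have h1 : nr w * nr w < 16 * κ * nr w := by nlinarith
      have h2 : nr w < 16 * κ := lt_of_mul_lt_mul_right h1 (Nat.zero_le _)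
      omega
    · omega

end Num4

open Num4 in
/-- (Num4) -/
theorem stNum4 (h1 : ST3.StBest) : StNum4 := by
  intro c
  refine ⟨16 * c, fun w κ R P hR _ hκ hs hP => ?_⟩
  have hok : okR (rw' w) R = true := by
    have h : (low (rw' w) R).sum ≤ R * (R * R) := by
      refine hs.trans (le_of_eq ?_)
      ring
    simp only [okR, Bool.and_eq_true, decide_eq_true_eq]
    exact ⟨hR, h⟩
  have hc : 2 ^ cost3 w ≤ (R + 1) ^ (2 * R ^ 2) * P ^ 2 := by
    refine le_trans (Nat.pow_le_pow_right (by norm_num) ?_)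
      (ST3.Num3Aux.costR_bound (rw' w) R P hR hP)
    exact (h1 (rw' w)).2.2 R hok
  rw [tb4]
  rcases min_choice (2 ^ (16 * c * κ)) (P ^ (16 * c) * (R + 1) ^ (16 * c * R ^ 2)) with e | e <;>
    rw [e]
  · have h4 : 4 ^ c ≤ (w.length + 2) ^ (2 * c) := by
      rw [show (4 : ℕ) = 2 ^ 2 by norm_num, ← pow_mul]
      exact Nat.pow_le_pow_left (by omega) _
    calc (w.length + 2) ^ c * 2 ^ (c * min (cK w) (cost3 w))
        ≤ (w.length + 2) ^ c * 2 ^ (c * (16 * κ + 2)) := by
          refine Nat.mul_le_mul_left _ (Nat.pow_le_pow_right (by norm_num) ?_)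
          exact Nat.mul_le_mul_left _ ((min_le_left _ _).trans (cK_le w κ hκ))
      _ = (w.length + 2) ^ c * 4 ^ c * 2 ^ (16 * c * κ) := by
          rw [show (4 : ℕ) = 2 ^ 2 by norm_num, ← pow_mul, mul_assoc, ← pow_add]
          congr 2
          ring
      _ ≤ (w.length + 2) ^ c * (w.length + 2) ^ (2 * c) * 2 ^ (16 * c * κ) :=
          Nat.mul_le_mul_right _ (Nat.mul_le_mul_left _ h4)
      _ ≤ (w.length + 2) ^ (16 * c) * 2 ^ (16 * c * κ) := by
          rw [← pow_add]
          exact Nat.mul_le_mul_right _ (Nat.pow_le_pow_right (by omega) (by omega))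
  · have hw : (w.length + 2) ^ c ≤ (w.length + 2) ^ (16 * c) :=
      Nat.pow_le_pow_right (by omega) (by omega)
    refine Nat.mul_le_mul hw ?_
    calc 2 ^ (c * min (cK w) (cost3 w)) ≤ 2 ^ (c * cost3 w) :=
          Nat.pow_le_pow_right (by norm_num) (Nat.mul_le_mul_left _ (min_le_right _ _))
      _ = (2 ^ cost3 w) ^ c := by rw [← pow_mul, mul_comm]
      _ ≤ ((R + 1) ^ (2 * R ^ 2) * P ^ 2) ^ c := Nat.pow_le_pow_left hc _
      _ = P ^ (2 * c) * (R + 1) ^ (2 * c * R ^ 2) := by
          rw [mul_pow, ← pow_mul, ← pow_mul, mul_comm]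
          congr 2
          ring
      _ ≤ P ^ (16 * c) * (R + 1) ^ (16 * c * R ^ 2) := by
          refine Nat.mul_le_mul (Nat.pow_le_pow_right (by omega) (by omega))
            (Nat.pow_le_pow_right (by omega) ?_)
          exact Nat.mul_le_mul_right _ (by omega)

end Pool.Agent.Lib.MP_64d474_lc.ST4
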