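import Pool.Agent.Lib.MP_64d474_lc.ST4.Stmts4

/-!
# The local search
-/

set_option autoImplicit false

open Pool.Agent.Lib.MP_64d474_lc.ST
open Pool.Agent.Lib.MP_64d474_lc.ST2 (rkmod rstep)

namespace Pool.Agent.Lib.MP_64d474_lc.ST4

namespace OptAux

variable (f : List ℕ → ℕ) (n : ℕ)

/-- one change, if it is an improvement -/
def stp (g : List ℕ) (d : ℕ) : List ℕ := if f g < f (cand n g d) then cand n g d else g

/-- one pass -/
def pas (D : List ℕ) (g : List ℕ) : List ℕ := D.foldl (stp f n) g

theorem le_stp (g : List ℕ) (d : ℕ) : f g ≤ f (stp f n g d) := by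
  unfold stp
  split_ifs with h
  · exact h.le
  · exact le_rfl

theorem le_pas (D g : List ℕ) : f g ≤ f (pas f n D g) := by
  induction D generalizing g with
  | nil => exact le_rfl
  | cons d D ih =>
    unfold pas
    rw [List.foldl_cons]
    exact (le_stp f n g d).trans (ih _)

theorem pas_eq (D g : List ℕ) (h : f (pas f n D g) ≤ f g) :
    pas f n D g = g ∧ ∀ d ∈ D, f (cand n g d) ≤ f g := by
  induction D generalizing g with
  | nil => exact ⟨rfl, by simp⟩
  | cons d D ih =>
    have e : pas f n (d :: D) g = pas f n D (stp f n g d) := rfl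
    rw [e] at h ⊢
    have h1 := le_pas f n D (stp f n g d)
    by_cases h2 : f g < f (cand n g d)
    · have h3 : stp f n g d = cand n g d := if_pos h2
      rw [h3] at h1 h
      exact absurd (h1.trans h) (not_le.2 h2)
    · have h3 : stp f n g d = g := if_neg h2
      rw [h3] at h ⊢
      obtain ⟨i1, i2⟩ := ih g h
      refine ⟨i1, fun x hx => ?_⟩
      rcases List.mem_cons.1 hx with rfl | hx
      · exact not_lt.1 h2
      · exact i2 x hx

theorem pas_stable (D g : List ℕ) (h : ∀ d ∈ D, f (cand n g d) ≤ f g) : pas f n D g = g := by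
  induction D with
  | nil => rfl
  | cons d D ih =>
    have e : pas f n (d :: D) g = pas f n D (stp f n g d) := rfl
    have h3 : stp f n g d = g := if_neg (not_lt.2 (h d List.mem_cons_self))
    rw [e, h3]
    exact ih fun x hx => h x (List.mem_cons_of_mem _ hx)

theorem iter (D g : List ℕ) (k : ℕ) :
    (∀ d ∈ D, f (cand n ((pas f n D)^[k] g) d) ≤ f ((pas f n D)^[k] g)) ∨
      k ≤ f ((pas f n D)^[k] g) := by
  induction k with
  | zero => exact Or.inr (Nat.zero_le _)
  | succ k ih =>
    rw [Function.iterate_succ_apply']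
    rcases ih with h | h
    · left
      rw [pas_stable f n D _ h]
      exact h
    · by_cases h2 : f (pas f n D ((pas f n D)^[k] g)) ≤ f ((pas f n D)^[k] g)
      · left
        obtain ⟨i1, i2⟩ := pas_eq f n D _ h2
        rw [i1]
        exact i2
      · right
        omega

theorem inv_stp {g : List ℕ} (h : ∀ x ∈ g, x ≤ n) (d : ℕ) :
    (stp f n g d).length = g.length ∧ ∀ x ∈ stp f n g d, x ≤ n := by
  unfold stp
  split_ifs
  · unfold cand
    refine ⟨List.length_set .., fun x hx => ?_⟩
    rcases List.mem_or_eq_of_mem_set hx with h1 | h1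
    · exact h x h1
    · rw [h1]
      exact Nat.le_of_lt_succ (Nat.mod_lt _ (Nat.succ_pos n))
  · exact ⟨rfl, h⟩

theorem inv_pas (D : List ℕ) {g : List ℕ} (h : ∀ x ∈ g, x ≤ n) :
    (pas f n D g).length = g.length ∧ ∀ x ∈ pas f n D g, x ≤ n := by
  induction D generalizing g with
  | nil => exact ⟨rfl, h⟩
  | cons d D ih =>
    have e : pas f n (d :: D) g = pas f n D (stp f n g d) := rfl
    obtain ⟨i1, i2⟩ := inv_stp f n h d
    obtain ⟨j1, j2⟩ := ih i2
    rw [e]
    exact ⟨j1.trans i1, j2⟩

theorem inv_iter (D : List ℕ) {g : List ℕ} (h : ∀ x ∈ g, x ≤ n) (k : ℕ) :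
    ((pas f n D)^[k] g).length = g.length ∧ ∀ x ∈ (pas f n D)^[k] g, x ≤ n := by
  induction k with
  | zero => exact ⟨rfl, h⟩
  | succ k ih =>
    rw [Function.iterate_succ_apply']
    obtain ⟨j1, j2⟩ := inv_pas f n D ih.2
    exact ⟨j1.trans ih.1, j2⟩

theorem rstep_le (p k : ℕ) (s : ℕ × List (List ℕ)) : ((rstep p)^[k] s).1 ≤ s.1 + k := by
  induction k generalizing s with
  | zero => exact le_rfl
  | succ k ih =>
    rw [Function.iterate_succ_apply]
    have h1 := ih (rstep p s)
    have h2 : (rstep p s).1 ≤ s.1 + 1 := by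
      unfold rstep
      split_ifs
      · exact Nat.le_succ _
      · exact le_rfl
    omega

theorem rkmod_le (p N : ℕ) (M : List (List ℕ)) : rkmod p N M ≤ N := by
  have h := rstep_le p N (0, M)
  unfold rkmod
  omega

theorem foldl_max_le {l : List ℕ} {B : ℕ} (h : ∀ x ∈ l, x ≤ B) (a : ℕ) (ha : a ≤ B) :
    l.foldl max a ≤ B := by
  induction l generalizing a with
  | nil => exact ha
  | cons x l ih =>
    rw [List.foldl_cons]
    exact ih (fun y hy => h y (List.mem_cons_of_mem _ hy)) _
      (max_le ha (h x List.mem_cons_self))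

theorem grkQ_le (b : Bool) (A : RMat) (B h : ℕ) (g : List ℕ) :
    grkQ b A B h g ≤ h * A.length := by
  unfold grkQ
  apply foldl_max_le _ _ (Nat.zero_le _)
  intro x hx
  obtain ⟨p, -, rfl⟩ := List.mem_map.1 hx
  cases isPrime (p + 1) with
  | false => exact Nat.zero_le _
  | true => exact rkmod_le _ _ _

end OptAux

open OptAux in
/-- (Opt) the local search -/
theorem stOpt : StOpt := by
  intro b A B h
  have e : gopt b A B h = (pas (grkQ b A B h) A.length
      (List.range (h * A.length * (A.length + 1))))^[h * A.length]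
        (List.replicate (h * A.length) 0) := rfl
  have h0 : ∀ x ∈ List.replicate (h * A.length) 0, x ≤ A.length := by
    intro x hx
    rw [List.eq_of_mem_replicate hx]
    exact Nat.zero_le _
  have h1 := inv_iter (grkQ b A B h) A.length
    (List.range (h * A.length * (A.length + 1))) h0 (h * A.length)
  have h2 := iter (grkQ b A B h) A.length
    (List.range (h * A.length * (A.length + 1))) (List.replicate (h * A.length) 0) (h * A.length)
  rw [← e] at h1 h2
  rw [List.length_replicate] at h1
  refine ⟨h1.1, h1.2, fun i hi v hv => ?_⟩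
  rcases h2 with h2 | h2
  · have h3 : i * (A.length + 1) + v < h * A.length * (A.length + 1) := by
      have : (i + 1) * (A.length + 1) ≤ h * A.length * (A.length + 1) :=
        Nat.mul_le_mul_right _ hi
      nlinarith
    have h4 := h2 (i * (A.length + 1) + v) (List.mem_range.2 h3)
    unfold cand at h4
    have e1 : (i * (A.length + 1) + v) / (A.length + 1) = i := by
      rw [mul_comm, Nat.mul_add_div (Nat.succ_pos _), Nat.div_eq_of_lt (Nat.lt_succ_of_le hv),
        Nat.add_zero]
    have e2 : (i * (A.length + 1) + v) % (A.length + 1) = v := by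
      rw [mul_comm, Nat.mul_add_mod, Nat.mod_eq_of_lt (Nat.lt_succ_of_le hv)]
    rw [e1, e2] at h4
    exact h4
  · exact (grkQ_le b A B h _).trans h2

end Pool.Agent.Lib.MP_64d474_lc.ST4
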