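import Pool.Agent.Lib.MP_64d474_lc.ST4.Stmts4

/-!
# The basis of the space `E` is computable in polynomial time
-/

set_option autoImplicit false

open Pool.Agent.Lib.PT Pool.Agent.Lib.MP_64d474_lc.ST

namespace Pool.Agent.Lib.MP_64d474_lc.ST4

namespace PTBasAux

/-- modulus, size, the matrices and the coefficients -/
abbrev CT : Type := ℕ × ℕ × List (List (List ℕ)) × List ℕ

theorem ptime_comM (hz : ST.StZip) : PTime fun t : CT =>
    comM (t.1 + 1) t.2.1 t.2.2.1 t.2.2.2 := by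
  have a1 : PTime fun w : ((CT × ℕ) × ℕ) × ℕ × List (List ℕ) =>
      w.2.1 * (w.2.2.getD w.1.1.2 []).getD w.1.2 0 := by
    have b1 : PTime fun w : ((CT × ℕ) × ℕ) × ℕ × List (List ℕ) => w.2.2.getD w.1.1.2 [] :=
      PTime.getD (by fun_prop) (by fun_prop) (by fun_prop)
    have b2 : PTime fun w : ((CT × ℕ) × ℕ) × ℕ × List (List ℕ) =>
        (w.2.2.getD w.1.1.2 []).getD w.1.2 0 :=
      PTime.getD b1 (by fun_prop) (by fun_prop)
    exact PTime.mul (by fun_prop) b2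
  have a2 : PTime fun v : (CT × ℕ) × ℕ =>
      List.zipWith (fun (c : ℕ) (C : List (List ℕ)) => c * (C.getD v.1.2 []).getD v.2 0)
        v.1.1.2.2.2 v.1.1.2.2.1 :=
    hz ((CT × ℕ) × ℕ) ℕ (List (List ℕ)) ℕ (fun v => v.1.1.2.2.2) (fun v => v.1.1.2.2.1)
      (fun v c C => c * (C.getD v.1.2 []).getD v.2 0) (by fun_prop) (by fun_prop) a1
  have a3 : PTime fun v : (CT × ℕ) × ℕ =>
      (List.zipWith (fun (c : ℕ) (C : List (List ℕ)) => c * (C.getD v.1.2 []).getD v.2 0)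
        v.1.1.2.2.2 v.1.1.2.2.1).sum % (v.1.1.1 + 1) := a2.sum.mod (by fun_prop)
  have a4 : PTime fun u : CT × ℕ => (List.range u.1.2.1).map fun j =>
      (List.zipWith (fun (c : ℕ) (C : List (List ℕ)) => c * (C.getD u.2 []).getD j 0)
        u.1.2.2.2 u.1.2.2.1).sum % (u.1.1 + 1) :=
    PTime.map (f := fun (u : CT × ℕ) (j : ℕ) =>
      (List.zipWith (fun (c : ℕ) (C : List (List ℕ)) => c * (C.getD u.2 []).getD j 0)
        u.1.2.2.2 u.1.2.2.1).sum % (u.1.1 + 1)) (by fun_prop) a3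
  exact PTime.map (f := fun (t : CT) (i : ℕ) => (List.range t.2.1).map fun j =>
      (List.zipWith (fun (c : ℕ) (C : List (List ℕ)) => c * (C.getD i []).getD j 0)
        t.2.2.2 t.2.2.1).sum % (t.1 + 1)) (by fun_prop) a4

/-- the arguments of `bas` -/
abbrev BT : Type := Bool × ℕ × RMat × ℕ × List ℕ

theorem ptime_cf (h1 : StPTCf) : PTime fun q : BT => cf q.1 (q.2.1 + 1) q.2.2.1 := by
  have h1' : PTime fun q : Bool × ℕ × RMat => cf q.1 (q.2.1 + 1) q.2.2 := h1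
  exact h1'.comp (g := fun q : BT => (q.1, q.2.1, q.2.2.1)) (by fun_prop)

theorem ptime_van (h1 : StPTCf) (h2 : StPTGmul) (h3 : StPTRel) (hz : ST.StZip) :
    PTime fun q : BT => van q.1 (q.2.1 + 1) q.2.2.1 q.2.2.2.1 q.2.2.2.2 := by
  have h2' : PTime fun q : ℕ × ℕ × ℕ × List ℕ × List (List ℕ) =>
    gmul (q.1 + 1) q.2.1 q.2.2.1 q.2.2.2.1 q.2.2.2.2 := h2
  have h3' : PTime fun q : ℕ × ℕ × List (List ℕ) => rel (q.1 + 1) q.2.1 q.2.2 := h3
  have c0 := ptime_cf h1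
  have c1 : PTime fun u : BT × List (List ℕ) =>
      gmul (u.1.2.1 + 1) u.1.2.2.1.length u.1.2.2.2.1 u.1.2.2.2.2 u.2 :=
    h2'.comp (g := fun u : BT × List (List ℕ) =>
      (u.1.2.1, u.1.2.2.1.length, u.1.2.2.2.1, u.1.2.2.2.2, u.2)) (by fun_prop)
  have c2 : PTime fun q : BT => (cf q.1 (q.2.1 + 1) q.2.2.1).map
      (gmul (q.2.1 + 1) q.2.2.1.length q.2.2.2.1 q.2.2.2.2) :=
    PTime.map (f := fun (q : BT) (C : List (List ℕ)) =>
      gmul (q.2.1 + 1) q.2.2.1.length q.2.2.2.1 q.2.2.2.2 C) c0 c1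
  have c3 : PTime fun q : BT => rel (q.2.1 + 1) (q.2.2.2.1 * q.2.2.1.length)
      ((cf q.1 (q.2.1 + 1) q.2.2.1).map
        (gmul (q.2.1 + 1) q.2.2.1.length q.2.2.2.1 q.2.2.2.2)) :=
    h3'.comp (g := fun q : BT => (q.2.1, q.2.2.2.1 * q.2.2.1.length,
      (cf q.1 (q.2.1 + 1) q.2.2.1).map
        (gmul (q.2.1 + 1) q.2.2.1.length q.2.2.2.1 q.2.2.2.2)))
      (PTime.pair (by fun_prop) (PTime.pair (by fun_prop) c2))
  have c4 : PTime fun u : BT × List ℕ => cf u.1.1 (u.1.2.1 + 1) u.1.2.2.1 :=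
    c0.comp (g := fun u : BT × List ℕ => u.1) (by fun_prop)
  have c5 : PTime fun u : BT × List ℕ =>
      comM (u.1.2.1 + 1) u.1.2.2.1.length (cf u.1.1 (u.1.2.1 + 1) u.1.2.2.1) u.2 :=
    (ptime_comM hz).comp (g := fun u : BT × List ℕ =>
      (u.1.2.1, u.1.2.2.1.length, cf u.1.1 (u.1.2.1 + 1) u.1.2.2.1, u.2))
      (PTime.pair (by fun_prop) (PTime.pair (by fun_prop) (PTime.pair c4 (by fun_prop))))
  exact PTime.map (f := fun (q : BT) (y : List ℕ) =>
    comM (q.2.1 + 1) q.2.2.1.length (cf q.1 (q.2.1 + 1) q.2.2.1) y) c3 c5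

theorem ptime_colsM : PTime fun t : ℕ × List (List (List ℕ)) => colsM t.1 t.2 := by
  have d1 : PTime fun w : (((ℕ × List (List (List ℕ))) × ℕ) × List (List ℕ)) × List ℕ =>
      w.2.getD w.1.1.2 0 := PTime.getD (by fun_prop) (by fun_prop) (by fun_prop)
  have d2 : PTime fun v : ((ℕ × List (List (List ℕ))) × ℕ) × List (List ℕ) =>
      v.2.map fun r => r.getD v.1.2 0 :=
    PTime.map (f := fun (v : ((ℕ × List (List (List ℕ))) × ℕ) × List (List ℕ)) (r : List ℕ) =>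
      r.getD v.1.2 0) (by fun_prop) d1
  have d3 : PTime fun u : (ℕ × List (List (List ℕ))) × ℕ =>
      u.1.2.flatMap fun M => M.map fun r => r.getD u.2 0 :=
    PTime.flatMap (f := fun (u : (ℕ × List (List (List ℕ))) × ℕ) (M : List (List ℕ)) =>
      M.map fun r => r.getD u.2 0) (by fun_prop) d2
  have d4 : PTime fun t : ℕ × List (List (List ℕ)) => List.range t.1 := by fun_prop
  exact PTime.map (f := fun (t : ℕ × List (List (List ℕ))) (c : ℕ) =>
    t.2.flatMap fun M => M.map fun r => r.getD c 0) d4 d3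

end PTBasAux

open PTBasAux in
/-- Module PTBas. -/
theorem stPTBas (h1 : StPTCf) (h2 : StPTGmul) (h3 : StPTRel) (hz : ST.StZip) : StPTBas := by
  have h3' : PTime fun q : ℕ × ℕ × List (List ℕ) => rel (q.1 + 1) q.2.1 q.2.2 := h3
  have e0 := ptime_van h1 h2 h3 hz
  have e1 : PTime fun q : BT => colsM q.2.2.1.length
      (van q.1 (q.2.1 + 1) q.2.2.1 q.2.2.2.1 q.2.2.2.2) :=
    ptime_colsM.comp (g := fun q : BT => (q.2.2.1.length,
      van q.1 (q.2.1 + 1) q.2.2.1 q.2.2.2.1 q.2.2.2.2)) (PTime.pair (by fun_prop) e0)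
  have e2 : PTime fun q : BT =>
      (van q.1 (q.2.1 + 1) q.2.2.1 q.2.2.2.1 q.2.2.2.2).length * q.2.2.1.length :=
    e0.length.mul (by fun_prop)
  exact h3'.comp (g := fun q : BT => (q.2.1,
    (van q.1 (q.2.1 + 1) q.2.2.1 q.2.2.2.1 q.2.2.2.2).length * q.2.2.1.length,
    colsM q.2.2.1.length (van q.1 (q.2.1 + 1) q.2.2.1 q.2.2.2.1 q.2.2.2.2)))
    (PTime.pair (by fun_prop) (PTime.pair e2 e1))

end Pool.Agent.Lib.MP_64d474_lc.ST4
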