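import Pool.Agent.Lib.MP_64d474_lc.ST4.Stmts4
import Pool.Agent.Lib.MP_64d474_lc.ST2.PTMult

/-!
# The list of the coefficient matrices is computable in polynomial time
-/

set_option autoImplicit false

open Pool.Agent.Lib.PT Pool.Agent.Lib.MP_64d474_lc.ST
open Pool.Agent.Lib.MP_64d474_lc.ST2 (cmat)
open Pool.Agent.Lib.MP_64d474_lc.ST3 (zerM)

namespace Pool.Agent.Lib.MP_64d474_lc.ST4

namespace PTCfAux

theorem ptime_zerM {α : Type} [Enc α] {f : α → ℕ} (hf : PTime f) : PTime fun a => zerM (f a) :=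
  PTime.replicate hf (PTime.replicate hf (PTime.const 0))

/-- the transposed matrix -/
theorem ptime_trM : PTime fun q : ℕ × List (List ℕ) => trM q.1 q.2 := by
  have h1 : PTime fun t : ((ℕ × List (List ℕ)) × ℕ) × ℕ =>
      (t.1.1.2.getD t.2 []).getD t.1.2 0 := by fun_prop
  have h2 : PTime fun t : (ℕ × List (List ℕ)) × ℕ =>
      (List.range t.1.1).map fun j => (t.1.2.getD j []).getD t.2 0 :=
    PTime.map (l := fun t : (ℕ × List (List ℕ)) × ℕ => List.range t.1.1)
      (f := fun (t : (ℕ × List (List ℕ)) × ℕ) (j : ℕ) => (t.1.2.getD j []).getD t.2 0)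
      (by fun_prop) h1
  exact PTime.map (l := fun q : ℕ × List (List ℕ) => List.range q.1)
    (f := fun (q : ℕ × List (List ℕ)) (i : ℕ) =>
      (List.range q.1).map fun j => (q.2.getD j []).getD i 0) (by fun_prop) h2

/-- the coefficient matrices -/
theorem ptime_cfs : PTime fun q : ℕ × RMat => cfs (q.1 + 1) q.2 := by
  have hV : PTime fun t : (ℕ × RMat) × ℕ => vars t.1.2 :=
    PTMatAux.ptime_vars.comp (g := fun t : (ℕ × RMat) × ℕ => t.1.2) (by fun_prop)
  have hV0 : PTime fun q : ℕ × RMat => vars q.2 :=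
    PTMatAux.ptime_vars.comp (g := fun q : ℕ × RMat => q.2) (by fun_prop)
  have hG : PTime fun t : (ℕ × RMat) × ℕ => (vars t.1.2).getD t.2 [] :=
    PTime.getD hV (by fun_prop) (by fun_prop)
  have hI : PTime fun t : (ℕ × RMat) × ℕ =>
      (vars t.1.2).idxOf ((vars t.1.2).getD t.2 []) := PTime.idxOf hV hG
  have hj : PTime fun t : (ℕ × RMat) × ℕ => t.2 := by fun_prop
  have hM : PTime fun t : (ℕ × RMat) × ℕ =>
      cmat (t.1.1 + 1) ((vars t.1.2).getD t.2 []) t.1.2 :=
    ST2.PTMultAux.ptime_cmat.comp (g := fun t : (ℕ × RMat) × ℕ =>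
      ((t.1.1, (vars t.1.2).getD t.2 []), t.1.2))
      (PTime.pair (PTime.pair (by fun_prop) hG) (by fun_prop))
  have hZ : PTime fun t : (ℕ × RMat) × ℕ => zerM t.1.2.length :=
    ptime_zerM (by fun_prop)
  have hA : PTime fun t : (ℕ × RMat) × ℕ =>
      if (vars t.1.2).idxOf ((vars t.1.2).getD t.2 []) = t.2 then
        cmat (t.1.1 + 1) ((vars t.1.2).getD t.2 []) t.1.2 else zerM t.1.2.length :=
    PTime.ite (p := fun t : (ℕ × RMat) × ℕ =>
      (vars t.1.2).idxOf ((vars t.1.2).getD t.2 []) = t.2) (hI.eq hj) hM hZ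
  exact PTime.map (f := fun (q : ℕ × RMat) (j : ℕ) =>
    if (vars q.2).idxOf ((vars q.2).getD j []) = j then
      cmat (q.1 + 1) ((vars q.2).getD j []) q.2 else zerM q.2.length) hV0.length.range hA

end PTCfAux

open PTCfAux in
/-- Module PTCf. -/
theorem stPTCf : StPTCf := by
  have h1 : PTime fun q : Bool × ℕ × RMat => cfs (q.2.1 + 1) q.2.2 :=
    ptime_cfs.comp (g := fun q : Bool × ℕ × RMat => q.2) (by fun_prop)
  have h2 : PTime fun t : (Bool × ℕ × RMat) × List (List ℕ) => trM t.1.2.2.length t.2 :=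
    ptime_trM.comp (g := fun t : (Bool × ℕ × RMat) × List (List ℕ) => (t.1.2.2.length, t.2))
      (by fun_prop)
  have h3 : PTime fun q : Bool × ℕ × RMat => (cfs (q.2.1 + 1) q.2.2).map (trM q.2.2.length) :=
    PTime.map (f := fun (q : Bool × ℕ × RMat) (M : List (List ℕ)) => trM q.2.2.length M) h1 h2
  have h4 : PTime fun q : Bool × ℕ × RMat => q.1 := by fun_prop
  exact PTime.cond h4 h3 h1

end Pool.Agent.Lib.MP_64d474_lc.ST4
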