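import Pool.Agent.Lib.MP_64d474_lc.ST4.Stmts4

set_option autoImplicit false

open Pool.Agent.Lib.PT Pool.Agent.Lib.MP_64d474_lc.ST

namespace Pool.Agent.Lib.MP_64d474_lc.ST4

namespace PTCodAux

theorem ptime_idl (hd : ST.StDiv) : PTime fun n : ℕ => idl n := by
  have h1 : PTime fun q : ℕ × ℕ => q.2 / q.1 := hd _ _ _ (by fun_prop) (by fun_prop)
  have h2 : PTime fun q : ℕ × ℕ => decide (q.2 / q.1 = q.2 % q.1) := by fun_prop
  have h3 : PTime fun q : ℕ × ℕ => if q.2 / q.1 = q.2 % q.1 then 1 else 0 :=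
    PTime.ite h2 (PTime.const 1) (PTime.const 0)
  exact (PTime.map (l := fun n : ℕ => List.range (n * n))
    (f := fun n x => if x / n = x % n then 1 else 0) (by fun_prop) h3).of_eq fun n => by
      simp only [idl]

end PTCodAux

open PTCodAux in
theorem stPTCod (h1 : StPTGrk) (hd : ST.StDiv) : StPTCod := by
  have h2 : PTime fun q : RMat × ℕ => idl q.1.length :=
    PTime.comp (f := fun n : ℕ => idl n) (ptime_idl hd) (g := fun q : RMat × ℕ => q.1.length)
      (by fun_prop)
  have h3 : PTime fun q : RMat × ℕ => (false, q.1, q.2, q.1.length, idl q.1.length) := by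
    fun_prop
  have h4 : PTime fun q : RMat × ℕ => grkQ false q.1 q.2 q.1.length (idl q.1.length) :=
    (PTime.comp (f := fun q : Bool × RMat × ℕ × ℕ × List ℕ =>
      grkQ q.1 q.2.1 q.2.2.1 q.2.2.2.1 q.2.2.2.2) h1 h3).of_eq fun q => by simp only
  unfold StPTCod cod
  fun_prop

end Pool.Agent.Lib.MP_64d474_lc.ST4
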