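import Pool.Agent.Lib.MP_64d474_lc.ST4.Stmts4

/-!
# The product `G C` is computable in polynomial time
-/

set_option autoImplicit false

open Pool.Agent.Lib.PT Pool.Agent.Lib.MP_64d474_lc.ST

namespace Pool.Agent.Lib.MP_64d474_lc.ST4

namespace PTGmulAux

/-- modulus, size, number of rows, the entries, the matrix -/
abbrev GT : Type := ℕ × ℕ × ℕ × List ℕ × List (List ℕ)

theorem ptime_term (hd : ST.StDiv) : PTime fun v : (GT × ℕ) × ℕ =>
    v.1.1.2.2.2.1.getD (v.1.2 / v.1.1.2.1 * v.1.1.2.1 + v.2) 0 *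
      (v.1.1.2.2.2.2.getD v.2 []).getD (v.1.2 % v.1.1.2.1) 0 := by
  have a0 : PTime fun v : (GT × ℕ) × ℕ => v.1.2 / v.1.1.2.1 :=
    hd ((GT × ℕ) × ℕ) (fun v => v.1.2) (fun v => v.1.1.2.1) (by fun_prop) (by fun_prop)
  have a1 : PTime fun v : (GT × ℕ) × ℕ => v.1.2 / v.1.1.2.1 * v.1.1.2.1 + v.2 :=
    (a0.mul (by fun_prop)).add (by fun_prop)
  have a2 : PTime fun v : (GT × ℕ) × ℕ =>
      v.1.1.2.2.2.1.getD (v.1.2 / v.1.1.2.1 * v.1.1.2.1 + v.2) 0 :=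
    PTime.getD (by fun_prop) a1 (by fun_prop)
  have a3 : PTime fun v : (GT × ℕ) × ℕ => v.1.2 % v.1.1.2.1 :=
    PTime.mod (by fun_prop) (by fun_prop)
  have a4 : PTime fun v : (GT × ℕ) × ℕ => v.1.1.2.2.2.2.getD v.2 [] :=
    PTime.getD (by fun_prop) (by fun_prop) (by fun_prop)
  have a5 : PTime fun v : (GT × ℕ) × ℕ =>
      (v.1.1.2.2.2.2.getD v.2 []).getD (v.1.2 % v.1.1.2.1) 0 :=
    PTime.getD a4 a3 (by fun_prop)
  exact a2.mul a5

end PTGmulAux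

open PTGmulAux in
/-- Module PTGmul. -/
theorem stPTGmul (hd : ST.StDiv) : StPTGmul := by
  have b1 : PTime fun u : GT × ℕ => (List.range u.1.2.1).map fun j =>
      u.1.2.2.2.1.getD (u.2 / u.1.2.1 * u.1.2.1 + j) 0 *
        (u.1.2.2.2.2.getD j []).getD (u.2 % u.1.2.1) 0 :=
    PTime.map (f := fun (u : GT × ℕ) (j : ℕ) =>
      u.1.2.2.2.1.getD (u.2 / u.1.2.1 * u.1.2.1 + j) 0 *
        (u.1.2.2.2.2.getD j []).getD (u.2 % u.1.2.1) 0) (by fun_prop) (ptime_term hd)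
  have b2 : PTime fun u : GT × ℕ => ((List.range u.1.2.1).map fun j =>
      u.1.2.2.2.1.getD (u.2 / u.1.2.1 * u.1.2.1 + j) 0 *
        (u.1.2.2.2.2.getD j []).getD (u.2 % u.1.2.1) 0).sum % (u.1.1 + 1) :=
    b1.sum.mod (by fun_prop)
  have b3 : PTime fun t : GT => List.range (t.2.2.1 * t.2.1) := by fun_prop
  exact PTime.map (f := fun (t : GT) (x : ℕ) => ((List.range t.2.1).map fun j =>
      t.2.2.2.1.getD (x / t.2.1 * t.2.1 + j) 0 *
        (t.2.2.2.2.getD j []).getD (x % t.2.1) 0).sum % (t.1 + 1)) b3 b2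

end Pool.Agent.Lib.MP_64d474_lc.ST4
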