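import Pool.Agent.Lib.MP_64d474_lc.ST4.Stmts4
import Pool.Agent.Lib.MP_64d474_lc.ST2.PTMult

/-!
# The dimension of the image is computable in polynomial time
-/

set_option autoImplicit false

open Pool.Agent.Lib.PT Pool.Agent.Lib.MP_64d474_lc.ST
open Pool.Agent.Lib.MP_64d474_lc.ST2 (rkmod)

namespace Pool.Agent.Lib.MP_64d474_lc.ST4

namespace PTGrkAux

/-- The input together with a prime. -/
abbrev Q := (Bool × RMat × ℕ × ℕ × List ℕ) × ℕ

theorem ptime_grk (h1 : StPTCf) (h2 : StPTGmul) (h3 : ST2.StPTRk) : PTime fun q : Q =>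
    grk q.1.1 (q.2 + 1) q.1.2.1 q.1.2.2.2.1 q.1.2.2.2.2 := by
  have h1' : PTime fun q : Bool × ℕ × RMat => cf q.1 (q.2.1 + 1) q.2.2 := h1
  have h2' : PTime fun q : ℕ × ℕ × ℕ × List ℕ × List (List ℕ) =>
    gmul (q.1 + 1) q.2.1 q.2.2.1 q.2.2.2.1 q.2.2.2.2 := h2
  have h3' : PTime fun q : ℕ × ℕ × List (List ℕ) => rkmod (q.1 + 1) q.2.1 q.2.2 := h3
  have e2 : PTime fun q : Q => cf q.1.1 (q.2 + 1) q.1.2.1 :=
    h1'.comp (g := fun q : Q => (q.1.1, q.2, q.1.2.1)) (by fun_prop)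
  have e3 : PTime fun t : Q × List (List ℕ) =>
      gmul (t.1.2 + 1) t.1.1.2.1.length t.1.1.2.2.2.1 t.1.1.2.2.2.2 t.2 :=
    h2'.comp (g := fun t : Q × List (List ℕ) =>
      (t.1.2, t.1.1.2.1.length, t.1.1.2.2.2.1, t.1.1.2.2.2.2, t.2)) (by fun_prop)
  have e4 : PTime fun q : Q => (cf q.1.1 (q.2 + 1) q.1.2.1).map
      fun C => gmul (q.2 + 1) q.1.2.1.length q.1.2.2.2.1 q.1.2.2.2.2 C :=
    PTime.map (f := fun (q : Q) (C : List (List ℕ)) =>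
      gmul (q.2 + 1) q.1.2.1.length q.1.2.2.2.1 q.1.2.2.2.2 C) e2 e3
  have e5 : PTime fun q : Q => q.1.2.2.2.1 * q.1.2.1.length := by fun_prop
  exact h3'.comp (g := fun q : Q => (q.2, q.1.2.2.2.1 * q.1.2.1.length,
    (cf q.1.1 (q.2 + 1) q.1.2.1).map
      fun C => gmul (q.2 + 1) q.1.2.1.length q.1.2.2.2.1 q.1.2.2.2.2 C))
    (PTime.pair (by fun_prop) (PTime.pair e5 e4))

end PTGrkAux

open PTGrkAux in
theorem stPTGrk (h1 : StPTCf) (h2 : StPTGmul) (h3 : ST2.StPTRk) (h4 : ST.StPTPrime) :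
    StPTGrk := by
  have h4' : PTime fun p : ℕ => isPrime p := h4
  have e1 : PTime fun q : Q => isPrime (q.2 + 1) :=
    h4'.comp (g := fun q : Q => q.2 + 1) (by fun_prop)
  have e6 : PTime fun q : Q => bif isPrime (q.2 + 1) then
      grk q.1.1 (q.2 + 1) q.1.2.1 q.1.2.2.2.1 q.1.2.2.2.2 else 0 :=
    PTime.cond e1 (ptime_grk h1 h2 h3) (PTime.const 0)
  have e7 : PTime fun q : Bool × RMat × ℕ × ℕ × List ℕ => List.range q.2.2.1 := by fun_prop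
  have e8 : PTime fun q : Bool × RMat × ℕ × ℕ × List ℕ => (List.range q.2.2.1).map fun p =>
      bif isPrime (p + 1) then grk q.1 (p + 1) q.2.1 q.2.2.2.1 q.2.2.2.2 else 0 :=
    PTime.map (f := fun (q : Bool × RMat × ℕ × ℕ × List ℕ) (p : ℕ) =>
      bif isPrime (p + 1) then grk q.1 (p + 1) q.2.1 q.2.2.2.1 q.2.2.2.2 else 0) e7 e6
  exact ST2.PTMultAux.ptime_maxl.comp e8

end Pool.Agent.Lib.MP_64d474_lc.ST4
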