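import Pool.Agent.Lib.MP_64d474_lc.ST4.Stmts4

/-!
# The test of one half is computable in polynomial time
-/

set_option autoImplicit false

open Pool.Agent.Lib.PT Pool.Agent.Lib.MP_64d474_lc.ST

namespace Pool.Agent.Lib.MP_64d474_lc.ST4

namespace PTHalfAux

/-- side, matrix, length, size, vectors and the matrix `G` -/
abbrev GT : Type := (Bool × RMat × ℕ × ℕ × List (List ℕ)) × List ℕ

/-- with the numbers `t` and `p` -/
abbrev VT : Type := (GT × ℕ) × ℕ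

theorem ptime_bDh {α : Type} [Enc α] {f : α → ℕ} (hf : PTime f) : PTime fun a => bD (f a) := by
  unfold bD KD kD
  fun_prop

theorem ptime_kDh {α : Type} [Enc α] {f : α → ℕ} (hf : PTime f) : PTime fun a => kD (f a) := by
  unfold kD
  fun_prop

theorem ptime_hit (h1 : StPTHit) : PTime fun v : VT =>
    hit v.1.1.1.1 (v.2 + 1) v.1.1.1.2.1 (v.1.1.1.2.2.2.1 + 1) v.1.1.2 v.1.2 v.1.1.1.2.2.2.1
      v.1.1.1.2.2.2.2 := by
  have h2 : PTime fun v : VT => (v.1.1.1.1, v.2, v.1.1.1.2.1, v.1.1.1.2.2.2.1 + 1, v.1.1.2,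
    v.1.2, v.1.1.1.2.2.2.1, v.1.1.1.2.2.2.2) := by fun_prop
  exact (PTime.comp (f := fun q : Bool × ℕ × RMat × ℕ × List ℕ × ℕ × ℕ × List (List ℕ) =>
    hit q.1 (q.2.1 + 1) q.2.2.1 q.2.2.2.1 q.2.2.2.2.1 q.2.2.2.2.2.1 q.2.2.2.2.2.2.1
      q.2.2.2.2.2.2.2) h1 h2).of_eq fun v => by simp only

theorem ptime_prime (h3 : ST.StPTPrime) : PTime fun v : VT => isPrime (v.2 + 1) := by
  have h2 : PTime fun v : VT => v.2 + 1 := by fun_prop
  exact (PTime.comp (f := fun p : ℕ => isPrime p) h3 h2).of_eq fun v => by simp only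

theorem ptime_body (h1 : StPTHit) (h3 : ST.StPTPrime) : PTime fun v : VT =>
    (isPrime (v.2 + 1) &&
      hit v.1.1.1.1 (v.2 + 1) v.1.1.1.2.1 (v.1.1.1.2.2.2.1 + 1) v.1.1.2 v.1.2 v.1.1.1.2.2.2.1
        v.1.1.1.2.2.2.2) := (ptime_prime h3).and (ptime_hit h1)

theorem ptime_filter (h1 : StPTHit) (h3 : ST.StPTPrime) : PTime fun u : GT × ℕ =>
    (List.range (bD u.1.1.2.2.1)).filter fun p => isPrime (p + 1) &&
      hit u.1.1.1 (p + 1) u.1.1.2.1 (u.1.1.2.2.2.1 + 1) u.1.2 u.2 u.1.1.2.2.2.1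
        u.1.1.2.2.2.2 := by
  have hb : PTime fun u : GT × ℕ => bD u.1.1.2.2.1 := ptime_bDh (by fun_prop)
  exact PTime.filter (l := fun u : GT × ℕ => List.range (bD u.1.1.2.2.1))
    (f := fun u p => isPrime (p + 1) &&
      hit u.1.1.1 (p + 1) u.1.1.2.1 (u.1.1.2.2.2.1 + 1) u.1.2 u.2 u.1.1.2.2.2.1
        u.1.1.2.2.2.2) hb.range (ptime_body h1 h3)

theorem ptime_test (h1 : StPTHit) (h3 : ST.StPTPrime) : PTime fun u : GT × ℕ =>
    decide (kD u.1.1.2.2.1 < ((List.range (bD u.1.1.2.2.1)).filter fun p => isPrime (p + 1) &&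
      hit u.1.1.1 (p + 1) u.1.1.2.1 (u.1.1.2.2.2.1 + 1) u.1.2 u.2 u.1.1.2.2.2.1
        u.1.1.2.2.2.2).length) := by
  have hk : PTime fun u : GT × ℕ => kD u.1.1.2.2.1 := ptime_kDh (by fun_prop)
  exact hk.lt (ptime_filter h1 h3).length

theorem ptime_halfG (h1 : StPTHit) (h3 : ST.StPTPrime) : PTime fun u : GT =>
    halfG u.1.1 u.1.2.1 u.1.2.2.1 u.1.2.2.2.1 u.1.2.2.2.2 u.2 := by
  have h := PTime.any (l := fun u : GT =>
      List.range (u.1.2.1.length * u.1.2.1.length * u.1.2.1.length + 1))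
    (f := fun u t => decide (kD u.1.2.2.1 < ((List.range (bD u.1.2.2.1)).filter fun p =>
      isPrime (p + 1) && hit u.1.1 (p + 1) u.1.2.1 (u.1.2.2.2.1 + 1) u.2 t u.1.2.2.2.1
        u.1.2.2.2.2).length)) (by fun_prop) (ptime_test h1 h3)
  exact h.of_eq fun u => by simp only [halfG]

theorem ptime_gopt (h2 : StPTOpt) : PTime fun q : Bool × RMat × ℕ × ℕ × List (List ℕ) =>
    gopt q.1 q.2.1 (bD q.2.2.1) (q.2.2.2.1 + 1) := by
  have hb : PTime fun q : Bool × RMat × ℕ × ℕ × List (List ℕ) => bD q.2.2.1 :=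
    ptime_bDh (by fun_prop)
  have h3 : PTime fun q : Bool × RMat × ℕ × ℕ × List (List ℕ) =>
    (q.1, q.2.1, bD q.2.2.1, q.2.2.2.1 + 1) := by fun_prop
  exact (PTime.comp (f := fun q : Bool × RMat × ℕ × ℕ => gopt q.1 q.2.1 q.2.2.1 q.2.2.2)
    h2 h3).of_eq fun v => by simp only

end PTHalfAux

open PTHalfAux in
theorem stPTHalf (h1 : StPTHit) (h2 : StPTOpt) (h3 : ST.StPTPrime) : StPTHalf := by
  have h4 : PTime fun q : Bool × RMat × ℕ × ℕ × List (List ℕ) =>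
      (q, gopt q.1 q.2.1 (bD q.2.2.1) (q.2.2.2.1 + 1)) := PTime.id.pair (ptime_gopt h2)
  exact (PTime.comp (f := fun u : GT =>
    halfG u.1.1 u.1.2.1 u.1.2.2.1 u.1.2.2.2.1 u.1.2.2.2.2 u.2) (ptime_halfG h1 h3) h4).of_eq
      fun q => by simp only [half]

end Pool.Agent.Lib.MP_64d474_lc.ST4
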