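import Pool.Agent.Lib.MP_64d474_lc.ST4.Stmts4
import Pool.Agent.Lib.MP_64d474_lc.ST2.PTGoodF

/-!
# The test with the small determinants is computable in polynomial time
-/

set_option autoImplicit false

open Pool.Agent.Lib.PT Pool.Agent.Lib.MP_64d474_lc.ST
open Pool.Agent.Lib.MP_64d474_lc.ST2 (fval subs)

namespace Pool.Agent.Lib.MP_64d474_lc.ST4

namespace PTHitAux

/-- the input -/
abbrev In : Type := Bool × ℕ × RMat × ℕ × List ℕ × ℕ × ℕ × List (List ℕ)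

end PTHitAux

open PTHitAux in
theorem stPTHit (h1 : StPTCf) (h2 : StPTBas) (h3 : StPTSmall) (h4 : ST2.StPTFval) :
    StPTHit := by
  have e1 : PTime fun q : In => cf q.1 (q.2.1 + 1) q.2.2.1 :=
    h1.comp (g := fun q : In => (q.1, q.2.1, q.2.2.1)) (by fun_prop)
  have e2 : PTime fun q : In => bas q.1 (q.2.1 + 1) q.2.2.1 q.2.2.2.1 q.2.2.2.2.1 :=
    h2.comp (g := fun q : In => (q.1, q.2.1, q.2.2.1, q.2.2.2.1, q.2.2.2.2.1)) (by fun_prop)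
  have e3 : PTime fun q : In => smallM (q.2.1 + 1) q.2.2.1.length q.2.2.2.2.2.1
      (cf q.1 (q.2.1 + 1) q.2.2.1) (bas q.1 (q.2.1 + 1) q.2.2.1 q.2.2.2.1 q.2.2.2.2.1) :=
    h3.comp (g := fun q : In => (q.2.1, q.2.2.1.length, q.2.2.2.2.2.1,
      cf q.1 (q.2.1 + 1) q.2.2.1, bas q.1 (q.2.1 + 1) q.2.2.1 q.2.2.2.1 q.2.2.2.2.1))
      (PTime.pair (by fun_prop) (PTime.pair (by fun_prop) (PTime.pair (by fun_prop)
        (PTime.pair e1 e2))))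
  have e4 : PTime fun q : In => (bas q.1 (q.2.1 + 1) q.2.2.1 q.2.2.2.1 q.2.2.2.2.1).length :=
    e2.length
  have e5 : PTime fun q : In => subs
      (bas q.1 (q.2.1 + 1) q.2.2.1 q.2.2.2.1 q.2.2.2.2.1).length q.2.2.2.2.2.2.2 :=
    ST2.PTGoodFAux.ptime_subs.comp (g := fun q : In =>
      ((bas q.1 (q.2.1 + 1) q.2.2.1 q.2.2.2.1 q.2.2.2.2.1).length, q.2.2.2.2.2.2.2))
      (PTime.pair e4 (by fun_prop))
  have e6 : PTime fun q : In => fval (q.2.1 + 1)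
      (smallM (q.2.1 + 1) q.2.2.1.length q.2.2.2.2.2.1
        (cf q.1 (q.2.1 + 1) q.2.2.1) (bas q.1 (q.2.1 + 1) q.2.2.1 q.2.2.2.1 q.2.2.2.2.1))
      (subs (bas q.1 (q.2.1 + 1) q.2.2.1 q.2.2.2.1 q.2.2.2.2.1).length q.2.2.2.2.2.2.2) :=
    h4.comp (g := fun q : In => (q.2.1,
      smallM (q.2.1 + 1) q.2.2.1.length q.2.2.2.2.2.1
        (cf q.1 (q.2.1 + 1) q.2.2.1) (bas q.1 (q.2.1 + 1) q.2.2.1 q.2.2.2.1 q.2.2.2.2.1),
      subs (bas q.1 (q.2.1 + 1) q.2.2.1 q.2.2.2.1 q.2.2.2.2.1).length q.2.2.2.2.2.2.2))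
      (PTime.pair (by fun_prop) (PTime.pair e3 e5))
  have e7 : PTime fun q : In => decide
      ((bas q.1 (q.2.1 + 1) q.2.2.1 q.2.2.2.1 q.2.2.2.2.1).length ≤ q.2.2.2.2.2.2.1) := by
    have h := e4
    fun_prop
  have e8 : PTime fun q : In => !decide (fval (q.2.1 + 1)
      (smallM (q.2.1 + 1) q.2.2.1.length q.2.2.2.2.2.1
        (cf q.1 (q.2.1 + 1) q.2.2.1) (bas q.1 (q.2.1 + 1) q.2.2.1 q.2.2.2.1 q.2.2.2.2.1))
      (subs (bas q.1 (q.2.1 + 1) q.2.2.1 q.2.2.2.1 q.2.2.2.2.1).length q.2.2.2.2.2.2.2) = 0) := by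
    have h := e6
    fun_prop
  unfold StPTHit hit
  exact e7.and e8

end Pool.Agent.Lib.MP_64d474_lc.ST4
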