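import Pool.Agent.Lib.MP_64d474_lc.ST4.Stmts4

/-!
# The local search is computable in polynomial time
-/

set_option autoImplicit false

open Pool.Agent.Lib.PT Pool.Agent.Lib.MP_64d474_lc.ST

namespace Pool.Agent.Lib.MP_64d474_lc.ST4

namespace PTOptAux

/-- side, matrix, bound of the primes and number of rows -/
abbrev QT : Type := Bool × RMat × ℕ × ℕ

/-- replace an entry of a list -/
theorem set_eq (g : List ℕ) (i v : ℕ) :
    (List.range g.length).map (fun k => if k = i then v else g.getD k 0) = g.set i v := by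
  apply List.ext_getElem
  · simp
  · intro n h1 h2
    have h3 : n < g.length := by simpa using h2
    rw [List.getElem_map, List.getElem_range, List.getElem_set]
    by_cases h : n = i
    · rw [if_pos h, if_pos h.symm]
    · rw [if_neg h, if_neg fun e => h e.symm, List.getD_eq_getElem _ _ h3]

theorem ptime_cand (hd : StDiv) : PTime fun u : ℕ × List ℕ × ℕ => cand u.1 u.2.1 u.2.2 := by
  have h1 : PTime fun u : ℕ × List ℕ × ℕ => u.2.2 / (u.1 + 1) :=
    hd (ℕ × List ℕ × ℕ) (fun u => u.2.2) (fun u => u.1 + 1) (by fun_prop) (by fun_prop)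
  have h2 : PTime fun u : ℕ × List ℕ × ℕ => u.2.2 % (u.1 + 1) := by fun_prop
  have h3 : PTime fun u : (ℕ × List ℕ × ℕ) × ℕ =>
      if u.2 = u.1.2.2 / (u.1.1 + 1) then u.1.2.2 % (u.1.1 + 1) else u.1.2.1.getD u.2 0 := by
    have e1 : PTime fun u : (ℕ × List ℕ × ℕ) × ℕ => u.1.2.2 / (u.1.1 + 1) :=
      h1.comp (g := fun u : (ℕ × List ℕ × ℕ) × ℕ => u.1) (by fun_prop)
    have e2 : PTime fun u : (ℕ × List ℕ × ℕ) × ℕ => u.1.2.2 % (u.1.1 + 1) :=
      h2.comp (g := fun u : (ℕ × List ℕ × ℕ) × ℕ => u.1) (by fun_prop)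
    exact PTime.ite (p := fun u : (ℕ × List ℕ × ℕ) × ℕ => u.2 = u.1.2.2 / (u.1.1 + 1))
      (PTime.natEq (by fun_prop) e1) e2 (by fun_prop)
  have h4 := PTime.map (l := fun u : ℕ × List ℕ × ℕ => List.range u.2.1.length)
    (f := fun u k => if k = u.2.2 / (u.1 + 1) then u.2.2 % (u.1 + 1) else u.2.1.getD k 0)
    (by fun_prop) h3
  exact h4.of_eq fun u => set_eq u.2.1 (u.2.2 / (u.1 + 1)) (u.2.2 % (u.1 + 1))

/-- one step of the search -/
def stp (t : QT) (g : List ℕ) (d : ℕ) : List ℕ :=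
  if grkQ t.1 t.2.1 t.2.2.1 t.2.2.2 g <
      grkQ t.1 t.2.1 t.2.2.1 t.2.2.2 (cand t.2.1.length g d) then cand t.2.1.length g d
    else g

theorem ptime_stp (h1 : StPTGrk) (hd : StDiv) : PTime fun u : QT × List ℕ × ℕ =>
    stp u.1 u.2.1 u.2.2 := by
  have hc : PTime fun u : QT × List ℕ × ℕ => cand u.1.2.1.length u.2.1 u.2.2 :=
    (ptime_cand hd).comp (g := fun u : QT × List ℕ × ℕ => (u.1.2.1.length, u.2.1, u.2.2))
      (by fun_prop)
  have hg : PTime fun u : QT × List ℕ × ℕ =>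
      grkQ u.1.1 u.1.2.1 u.1.2.2.1 u.1.2.2.2 u.2.1 :=
    PTime.comp (f := fun q : Bool × RMat × ℕ × ℕ × List ℕ =>
      grkQ q.1 q.2.1 q.2.2.1 q.2.2.2.1 q.2.2.2.2) h1
      (g := fun u : QT × List ℕ × ℕ => (u.1.1, u.1.2.1, u.1.2.2.1, u.1.2.2.2, u.2.1))
      (by fun_prop)
  have hg' : PTime fun u : QT × List ℕ × ℕ =>
      grkQ u.1.1 u.1.2.1 u.1.2.2.1 u.1.2.2.2 (cand u.1.2.1.length u.2.1 u.2.2) :=
    PTime.comp (f := fun q : Bool × RMat × ℕ × ℕ × List ℕ =>
      grkQ q.1 q.2.1 q.2.2.1 q.2.2.2.1 q.2.2.2.2) h1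
      (g := fun u : QT × List ℕ × ℕ => (u.1.1, u.1.2.1, u.1.2.2.1, u.1.2.2.2,
        cand u.1.2.1.length u.2.1 u.2.2))
      (PTime.pair (by fun_prop) (PTime.pair (by fun_prop) (PTime.pair (by fun_prop)
        (PTime.pair (by fun_prop) hc))))
  exact PTime.ite (p := fun u : QT × List ℕ × ℕ =>
    grkQ u.1.1 u.1.2.1 u.1.2.2.1 u.1.2.2.2 u.2.1 <
      grkQ u.1.1 u.1.2.1 u.1.2.2.1 u.1.2.2.2 (cand u.1.2.1.length u.2.1 u.2.2))
    (PTime.lt hg hg') hc (by fun_prop)

/-! ### Sizes -/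

/-- at most `S` entries, that are at most `S` -/
def Inv (S : ℕ) (g : List ℕ) : Prop := g.length ≤ S ∧ ∀ x ∈ g, x ≤ S

theorem sz_inv {S : ℕ} {g : List ℕ} (h : Inv S g) : sz g ≤ S * (2 * S + 2) + 1 := by
  have h2 : ∀ x ∈ g, sz x ≤ 2 * S + 1 := by
    intro x hx
    have := h.2 x hx
    rw [sz_nat]
    omega
  have h3 := sz_le_of_forall h2
  have h4 : g.length * (2 * S + 1 + 1) ≤ S * (2 * S + 2) := Nat.mul_le_mul_right _ h.1
  omega

theorem inv_self (g : List ℕ) : Inv (sz g) g := by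
  refine ⟨length_le_sz g, fun x hx => ?_⟩
  have h1 : sz x ≤ sz g := sz_mem_le hx
  rw [sz_nat] at h1
  omega

theorem Inv.mono {S S' : ℕ} {g : List ℕ} (h : Inv S g) (hS : S ≤ S') : Inv S' g :=
  ⟨h.1.trans hS, fun x hx => (h.2 x hx).trans hS⟩

theorem inv_cand {n S : ℕ} (hn : n ≤ S) {g : List ℕ} (h : Inv S g) (d : ℕ) :
    Inv S (cand n g d) := by
  unfold cand
  refine ⟨by rw [List.length_set]; exact h.1, fun x hx => ?_⟩
  rcases List.mem_or_eq_of_mem_set hx with h1 | h1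
  · exact h.2 x h1
  · rw [h1]
    exact (Nat.le_of_lt_succ (Nat.mod_lt _ (Nat.succ_pos n))).trans hn

theorem inv_stp {t : QT} {S : ℕ} (hn : t.2.1.length ≤ S) {g : List ℕ} (h : Inv S g) (d : ℕ) :
    Inv S (stp t g d) := by
  unfold stp
  split_ifs
  · exact inv_cand hn h d
  · exact h

theorem inv_foldl {t : QT} {S : ℕ} (hn : t.2.1.length ≤ S) (l : List ℕ) {g : List ℕ}
    (h : Inv S g) : Inv S (l.foldl (stp t) g) := by
  induction l generalizing g with
  | nil => exact h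
  | cons x l ih =>
    rw [List.foldl_cons]
    exact ih (inv_stp hn h x)

theorem inv_iter {t : QT} {S : ℕ} (hn : t.2.1.length ≤ S) (i : ℕ) {g : List ℕ}
    (h : Inv S g) : Inv S ((gpass t.1 t.2.1 t.2.2.1 t.2.2.2)^[i] g) := by
  induction i generalizing g with
  | zero => exact h
  | succ i ih =>
    rw [Function.iterate_succ_apply]
    exact ih (inv_foldl hn _ h)

theorem pb_inv {α : Type} [Enc α] {f : α → ℕ} (hf : PB f) :
    PB fun a => f a * (2 * f a + 2) + 1 :=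
  (hf.mul (((PB.const 2).mul hf).add (PB.const 2))).add (PB.const 1)

theorem ptime_pass (h1 : StPTGrk) (hd : StDiv) : PTime fun u : QT × List ℕ =>
    gpass u.1.1 u.1.2.1 u.1.2.2.1 u.1.2.2.2 u.2 := by
  refine PTime.foldl (l := fun u : QT × List ℕ =>
      List.range (u.1.2.2.2 * u.1.2.1.length * (u.1.2.1.length + 1))) (s := fun u => u.2)
    (f := fun u g d => stp u.1 g d) (by fun_prop) (by fun_prop) ?_
    (B := fun u => sz u * (2 * sz u + 2) + 1) (pb_inv PB.sz) ?_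
  · exact (ptime_stp h1 hd).comp (g := fun p : (QT × List ℕ) × List ℕ × ℕ =>
      (p.1.1, p.2.1, p.2.2)) (by fun_prop)
  · intro u l₁ l₂ _
    obtain ⟨t, g⟩ := u
    obtain ⟨b, A, B, h⟩ := t
    have hs : sz ((b, A, B, h), g) = sz b + (sz A + (sz B + sz h + 1) + 1) + 1 + sz g + 1 := by
      rw [sz_mk, sz_mk, sz_mk, sz_mk]
    have h2 := length_le_sz A
    exact sz_inv (inv_foldl (t := (b, A, B, h)) (by show A.length ≤ _; rw [hs]; omega) l₁
      ((inv_self g).mono (by rw [hs]; omega)))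

end PTOptAux

open PTOptAux

/-- **Module PTOpt.** -/
theorem stPTOpt (h1 : StPTGrk) (hd : ST.StDiv) : StPTOpt := by
  have hz : PTime fun t : QT => List.replicate (t.2.2.2 * t.2.1.length) 0 := by fun_prop
  refine PTime.iterate (n := fun t : QT => t.2.2.2 * t.2.1.length)
    (s := fun t => List.replicate (t.2.2.2 * t.2.1.length) 0)
    (f := fun t g => gpass t.1 t.2.1 t.2.2.1 t.2.2.2 g)
    (B := fun t => (sz t * sz t) * (2 * (sz t * sz t) + 2) + 1) (by fun_prop) hz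
    (ptime_pass h1 hd) (pb_inv (PB.sz.mul PB.sz)) ?_
  intro t i _
  obtain ⟨b, A, B, h⟩ := t
  have hs : sz (b, A, B, h) = sz b + (sz A + (sz B + (2 * h + 1) + 1) + 1) + 1 := by
    rw [sz_mk, sz_mk, sz_mk, sz_nat h]
  have h2 := length_le_sz A
  have h3 : A.length ≤ sz (b, A, B, h) := by rw [hs]; omega
  have h4 : h ≤ sz (b, A, B, h) := by rw [hs]; omega
  have h5 : h * A.length ≤ sz (b, A, B, h) * sz (b, A, B, h) := Nat.mul_le_mul h4 h3
  refine sz_inv (inv_iter (t := (b, A, B, h)) (S := sz (b, A, B, h) * sz (b, A, B, h)) ?_ i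
    ⟨?_, ?_⟩)
  · exact h3.trans (Nat.le_mul_of_pos_right _ (sz_pos _))
  · rw [List.length_replicate]
    exact h5
  · intro x hx
    rw [List.eq_of_mem_replicate hx]
    exact Nat.zero_le _

end Pool.Agent.Lib.MP_64d474_lc.ST4
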