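import Pool.Agent.Lib.MP_64d474_lc.ST4.Stmts4
import Pool.Agent.Lib.MP_64d474_lc.ST3.PTPar3

/-!
# The parameters of the fourth machine are computable in polynomial time
-/

set_option autoImplicit false

open Pool.Agent.Lib.PT Pool.Agent.Lib.MP_64d474_lc.ST
open Pool.Agent.Lib.MP_64d474_lc.ST2 (rw' nr)
open Pool.Agent.Lib.MP_64d474_lc.ST3 (low his dgs rs3 cost3)
open Pool.Agent.Lib.MP_64d474_lc.ST3.PTPar3Aux

namespace Pool.Agent.Lib.MP_64d474_lc.ST4

namespace PTPar4Aux

theorem ptime_bD {α : Type} [Enc α] {f : α → ℕ} (hf : PTime f) : PTime fun a => bD (f a) := by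
  unfold bD KD kD
  fun_prop

theorem ptime_dk (h2 : StPTCod) (h3 : ST.StPTWell) (h4 : ST.StPTParse) :
    PTime fun w : List Letter => dk w := by
  have h5 : PTime fun w : List Letter => parse w := h4
  have h6 : PTime fun w : List Letter => wellformed w := h3
  have h7 : PTime fun w : List Letter => bD w.length := ptime_bD (by fun_prop)
  have h9 : PTime fun w : List Letter => (parse w, bD w.length) := h5.pair h7
  have h8 : PTime fun w : List Letter => cod (parse w) (bD w.length) :=
    (PTime.comp (f := fun q : RMat × ℕ => cod q.1 q.2) h2 h9).of_eq fun w => by simp only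
  exact (PTime.cond h6 h8 (PTime.const 0)).of_eq fun w => by simp only [dk]

theorem ptime_dens (h : PTime fun w : List Letter => dk w) :
    PTime fun w : List Letter => dens w := by
  have hnr := ptime_nr
  unfold dens
  fun_prop

theorem ptime_cK (h : PTime fun w : List Letter => dk w)
    (hd : PTime fun w : List Letter => dens w) (hdiv : StDiv) :
    PTime fun w : List Letter => cK w := by
  have hnr := ptime_nr
  have h1 : PTime fun w : List Letter => 2 * dk w := by fun_prop
  have h2 : PTime fun w : List Letter => 2 * dk w / nr w := hdiv _ _ _ h1 hnr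
  exact (PTime.cond hd h2 hnr).of_eq fun w => by simp only [cK]

theorem ptime_useW (h : PTime fun w : List Letter => cK w)
    (hc : PTime fun w : List Letter => cost3 w) : PTime fun w : List Letter => useW w := by
  unfold useW
  fun_prop

theorem ptime_bl4 (hu : PTime fun w : List Letter => useW w)
    (hd : PTime fun w : List Letter => dgs (rw' w) (rs3 w))
    (hm : PTime fun w : List Letter => dmax (low (rw' w) (rs3 w)).sum (rs3 w))
    (hh : PTime fun w : List Letter => his (rw' w) (rs3 w))
    (hc : PTime fun w : List Letter => cK w) :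
    PTime fun w : List Letter => bl4 w :=
  (PTime.cond hu ((hd.replicate hm).append hh) (hc.replicate (PTime.const 1))).of_eq
    fun w => by simp only [bl4]

end PTPar4Aux

open PTPar4Aux in
theorem stPTPar4 (h1 : ST3.StPTPar3) (h2 : StPTCod) (h3 : ST.StPTWell) (h4 : ST.StPTParse)
    (hd : ST.StDiv) (h5 : ST3.StPTBest) : StPTPar4 := by
  have hrw : PTime fun w : List Letter => rw' w := h1.1
  have hrs : PTime fun w : List Letter => rs3 w := h1.2.1
  have hcost := ptime_cost3 hrw hrs h5.2.1
  have hl := ptime_low hrw hrs h5.2.2.1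
  have hh := ptime_his hrw hrs h5.2.2.2
  have hsum : PTime fun w : List Letter => (low (rw' w) (rs3 w)).sum := hl.sum
  have hdiv : PTime fun w : List Letter => (low (rw' w) (rs3 w)).sum / rs3 w :=
    hd _ _ _ hsum hrs
  have hdk := ptime_dk h2 h3 h4
  have hde := ptime_dens hdk
  have hcK := ptime_cK hdk hde hd
  have hu := ptime_useW hcK hcost
  exact ⟨hcK, hde, hu, ptime_bl4 hu (ptime_dgs hrs hdiv) (ptime_dmax hrs hsum) hh hcK⟩

end Pool.Agent.Lib.MP_64d474_lc.ST4
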