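import Pool.Agent.Lib.MP_64d474_lc.ST4.Stmts4
import Pool.Agent.Lib.MP_64d474_lc.ST2.PTRk

/-!
# The relations between the rows of a matrix modulo a prime are computable in polynomial time
-/

set_option autoImplicit false

open Pool.Agent.Lib.PT Pool.Agent.Lib.MP_64d474_lc.ST
open Pool.Agent.Lib.MP_64d474_lc.ST2 (rstep)

namespace Pool.Agent.Lib.MP_64d474_lc.ST4

namespace PTRelM

open Pool.Agent.Lib.MP_64d474_lc.ST2.PTRkM (ptime_rstep inv_iter count_iter sz_state)
open PTElimM

/-- the iterated elimination step -/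
theorem ptime_iter (hz : ST.StZip) : PTime fun q : ℕ × ℕ × List (List ℕ) =>
    ((fun s => rstep (q.1 + 1) s)^[q.2.1] (0, q.2.2)) := by
  refine PTime.iterate (n := fun q : ℕ × ℕ × List (List ℕ) => q.2.1)
    (s := fun q => (0, q.2.2)) (f := fun q s => rstep (q.1 + 1) s)
    (B := fun q => sz q * (sz q * sz q + 1 + 1) + 2 * sz q + 3) (by fun_prop)
    (PTime.pair (PTime.const 0) (by fun_prop)) ?_ ?_ ?_
  · exact (ptime_rstep hz).comp
      (g := fun p : (ℕ × ℕ × List (List ℕ)) × ℕ × List (List ℕ) => (p.1.1, p.2)) (by fun_prop)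
  · exact ((PB.sz.mul (((PB.sz.mul PB.sz).add (PB.const 1)).add (PB.const 1))).add
      ((PB.const 2).mul PB.sz)).add (PB.const 3)
  · intro q i hi
    obtain ⟨q, n, M⟩ := q
    change i ≤ n at hi
    have hs : sz (q, n, M) = 2 * q + 1 + (2 * n + 1 + sz M + 1) + 1 := by
      rw [sz_mk, sz_mk, sz_nat, sz_nat]
    have h0 : sz M * (2 * q + 2) ≤ sz (q, n, M) * sz (q, n, M) := by
      apply Nat.mul_le_mul
      · rw [hs]; omega
      · rw [hs]; omega
    have hI : Inv (sz M) (sz (q, n, M) * sz (q, n, M) + 1) ((0, M) : ℕ × List (List ℕ)).2 := by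
      refine ⟨length_le_sz M, ?_⟩
      intro r hr
      have h1 : sz r ≤ sz M := sz_mem_le hr
      have h2 := length_le_sz r
      have h3 : sz M ≤ sz (q, n, M) := by rw [hs]; omega
      have h4 : sz (q, n, M) ≤ sz (q, n, M) * sz (q, n, M) := Nat.le_mul_self _
      exact ⟨by omega, by omega⟩
    have hc := count_iter (q + 1) i (0, M)
    have hc' : ((rstep (q + 1))^[i] (0, M)).1 ≤ sz (q, n, M) := by
      change _ ≤ 0 + i at hc
      rw [hs]
      omega
    have h5 := sz_state (inv_iter (q := q) (S := sz M) (B := sz (q, n, M) * sz (q, n, M) + 1)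
      (by omega) i hI) hc'
    have h6 : sz M * (sz (q, n, M) * sz (q, n, M) + 1 + 1)
        ≤ sz (q, n, M) * (sz (q, n, M) * sz (q, n, M) + 1 + 1) :=
      Nat.mul_le_mul_right _ (by rw [hs]; omega)
    exact h5.trans (by
      change _ ≤ sz (q, n, M) * (sz (q, n, M) * sz (q, n, M) + 1 + 1) + 2 * sz (q, n, M) + 3
      omega)

/-- the unit vector -/
theorem ptime_uni : PTime fun q : ℕ × ℕ => uni q.1 q.2 := by
  refine PTime.map (l := fun q : ℕ × ℕ => List.range q.1)
    (f := fun (q : ℕ × ℕ) j => if j = q.2 then 1 else 0) (by fun_prop) ?_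
  exact PTime.ite (p := fun p : (ℕ × ℕ) × ℕ => p.2 = p.1.2) (by fun_prop)
    (PTime.const 1) (PTime.const 0)

/-- the matrix with the unit matrix to its right -/
theorem ptime_aug (hz : ST.StZip) : PTime fun R : List (List ℕ) =>
    List.zipWith (fun r i => r ++ uni R.length i) R (List.range R.length) := by
  refine hz (List (List ℕ)) (List ℕ) ℕ (List ℕ) (fun R => R) (fun R => List.range R.length)
    (fun R r i => r ++ uni R.length i) (by fun_prop) (by fun_prop) ?_
  have h1 : PTime fun q : List (List ℕ) × List ℕ × ℕ => uni q.1.length q.2.2 :=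
    ptime_uni.comp (g := fun q : List (List ℕ) × List ℕ × ℕ => (q.1.length, q.2.2)) (by fun_prop)
  exact PTime.append (l := fun q : List (List ℕ) × List ℕ × ℕ => q.2.1) (by fun_prop) h1

end PTRelM

open PTRelM

/-- Module PTRel. -/
theorem stPTRel (hz : ST.StZip) : StPTRel := by
  have h1 : PTime fun q : ℕ × ℕ × List (List ℕ) =>
      List.zipWith (fun r i => r ++ uni q.2.2.length i) q.2.2 (List.range q.2.2.length) :=
    (ptime_aug hz).comp (g := fun q : ℕ × ℕ × List (List ℕ) => q.2.2) (by fun_prop)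
  have h2 := (ptime_iter hz).comp
    (g := fun q : ℕ × ℕ × List (List ℕ) => (q.1, q.2.1,
      List.zipWith (fun r i => r ++ uni q.2.2.length i) q.2.2 (List.range q.2.2.length)))
    (PTime.pair (by fun_prop) (PTime.pair (by fun_prop) h1))
  exact (h2.snd').of_eq fun q => rfl

end Pool.Agent.Lib.MP_64d474_lc.ST4
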