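import Pool.Agent.Lib.MP_64d474_lc.ST4.Stmts4

/-!
# The small symbolic matrix is computable in polynomial time
-/

set_option autoImplicit false

open Pool.Agent.Lib.PT Pool.Agent.Lib.MP_64d474_lc.ST
open Pool.Agent.Lib.MP_64d474_lc.ST2 (pwm)

namespace Pool.Agent.Lib.MP_64d474_lc.ST4

namespace PTSmallAux

/-- the arguments of `smallM` -/
abbrev S0 : Type := ℕ × ℕ × ℕ × List (List (List ℕ)) × List (List ℕ)

/-- the arguments of `sco` -/
abbrev S1 : Type := ℕ × ℕ × ℕ × ℕ × List (List ℕ) × List ℕ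

theorem ptime_sco (h1 : ST2.StPTPow) : PTime fun s : S1 =>
    sco (s.1 + 1) s.2.1 s.2.2.1 s.2.2.2.1 s.2.2.2.2.1 s.2.2.2.2.2 := by
  have h1' : PTime fun q : ℕ × ℕ × ℕ => pwm (q.1 + 1) q.2.1 q.2.2 := h1
  have a1 : PTime fun q : S1 × ℕ => pwm (q.1.1 + 1) q.1.2.2.1 ((q.1.2.2.2.1 + 1) * q.2) :=
    h1'.comp (g := fun q : S1 × ℕ => (q.1.1, q.1.2.2.1, (q.1.2.2.2.1 + 1) * q.2)) (by fun_prop)
  have a2 : PTime fun q : S1 × ℕ => (List.range q.1.2.1).map fun d =>
      (q.1.2.2.2.2.1.getD q.2 []).getD d 0 * q.1.2.2.2.2.2.getD d 0 :=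
    PTime.map (f := fun (q : S1 × ℕ) (d : ℕ) =>
      (q.1.2.2.2.2.1.getD q.2 []).getD d 0 * q.1.2.2.2.2.2.getD d 0) (by fun_prop) (by fun_prop)
  have a3 : PTime fun s : S1 => (List.range s.2.1).map fun c =>
      pwm (s.1 + 1) s.2.2.1 ((s.2.2.2.1 + 1) * c) * ((List.range s.2.1).map fun d =>
        (s.2.2.2.2.1.getD c []).getD d 0 * s.2.2.2.2.2.getD d 0).sum :=
    PTime.map (f := fun (s : S1) (c : ℕ) =>
      pwm (s.1 + 1) s.2.2.1 ((s.2.2.2.1 + 1) * c) * ((List.range s.2.1).map fun d =>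
        (s.2.2.2.2.1.getD c []).getD d 0 * s.2.2.2.2.2.getD d 0).sum) (by fun_prop)
      (a1.mul a2.sum)
  have a4 : PTime fun s : S1 => s.1 + 1 := by fun_prop
  exact a3.sum.mod a4

end PTSmallAux

open PTSmallAux in
theorem stPTSmall (h1 : ST2.StPTPow) : StPTSmall := by
  have c1 : PTime fun x : ((S0 × ℕ) × List ℕ) × ℕ =>
      sco (x.1.1.1.1 + 1) x.1.1.1.2.1 x.1.1.1.2.2.1 x.1.1.2
        (x.1.1.1.2.2.2.1.getD x.2 []) x.1.2 :=
    (ptime_sco h1).comp (g := fun x : ((S0 × ℕ) × List ℕ) × ℕ =>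
      (x.1.1.1.1, x.1.1.1.2.1, x.1.1.1.2.2.1, x.1.1.2, x.1.1.1.2.2.2.1.getD x.2 [], x.1.2))
      (by fun_prop)
  have c2 : PTime fun x : ((S0 × ℕ) × List ℕ) × ℕ =>
      List.replicate (sco (x.1.1.1.1 + 1) x.1.1.1.2.1 x.1.1.1.2.2.1 x.1.1.2
        (x.1.1.1.2.2.2.1.getD x.2 []) x.1.2)
        (((false, [true]), List.replicate x.2 true) : RPair) :=
    PTime.replicate c1 (by fun_prop)
  have c3 : PTime fun y : (S0 × ℕ) × List ℕ =>
      (List.range y.1.1.2.2.2.1.length).flatMap fun q =>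
        List.replicate (sco (y.1.1.1 + 1) y.1.1.2.1 y.1.1.2.2.1 y.1.2
          (y.1.1.2.2.2.1.getD q []) y.2) (((false, [true]), List.replicate q true) : RPair) :=
    PTime.flatMap (f := fun (y : (S0 × ℕ) × List ℕ) (q : ℕ) =>
        List.replicate (sco (y.1.1.1 + 1) y.1.1.2.1 y.1.1.2.2.1 y.1.2
          (y.1.1.2.2.2.1.getD q []) y.2) (((false, [true]), List.replicate q true) : RPair))
      (by fun_prop) c2
  have c4 : PTime fun z : S0 × ℕ => z.1.2.2.2.2.map fun u =>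
      (List.range z.1.2.2.2.1.length).flatMap fun q =>
        List.replicate (sco (z.1.1 + 1) z.1.2.1 z.1.2.2.1 z.2
          (z.1.2.2.2.1.getD q []) u) (((false, [true]), List.replicate q true) : RPair) :=
    PTime.map (f := fun (z : S0 × ℕ) (u : List ℕ) =>
      (List.range z.1.2.2.2.1.length).flatMap fun q =>
        List.replicate (sco (z.1.1 + 1) z.1.2.1 z.1.2.2.1 z.2
          (z.1.2.2.2.1.getD q []) u) (((false, [true]), List.replicate q true) : RPair))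
      (by fun_prop) c3
  exact PTime.map (f := fun (s : S0) (a : ℕ) => s.2.2.2.2.map fun u =>
      (List.range s.2.2.2.1.length).flatMap fun q =>
        List.replicate (sco (s.1 + 1) s.2.1 s.2.2.1 a
          (s.2.2.2.1.getD q []) u) (((false, [true]), List.replicate q true) : RPair))
      (by fun_prop) c4

end Pool.Agent.Lib.MP_64d474_lc.ST4
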