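import Pool.Agent.Lib.MP_64d474_lc.ST4.Stmts4

/-!
# A pencil of linear maps (module Pen2)

If the rank of `T + t T'` is at most the rank of `T` for all `t`, then `T'` maps the kernel of `T`
into the range of `T`.
-/

set_option autoImplicit false

open Module

namespace Pool.Agent.Lib.MP_64d474_lc.ST4

namespace Pen2

variable {F V W : Type} [Field F] [CharZero F] [AddCommGroup V] [Module F V] [AddCommGroup W]
  [Module F W] [Module.Finite F V] [Module.Finite F W]

/-- The map `(c, r) ↦ c y + r`. -/
def base (T : V →ₗ[F] W) (y : W) : (F × LinearMap.range T) →ₗ[F] W :=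
  (LinearMap.toSpanSingleton F W y).coprod (LinearMap.range T).subtype

omit [CharZero F] [Module.Finite F V] [Module.Finite F W] in
theorem base_apply (T : V →ₗ[F] W) (y : W) (c : F) (r : LinearMap.range T) :
    base T y (c, r) = c • y + r := by
  simp [base]

omit [CharZero F] [Module.Finite F V] [Module.Finite F W] in
theorem ker_base {T : V →ₗ[F] W} {y : W} (hy : y ∉ LinearMap.range T) :
    LinearMap.ker (base T y) = ⊥ := by
  rw [LinearMap.ker_eq_bot']
  rintro ⟨c, r⟩ h
  rw [base_apply] at h
  by_cases hc : c = 0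
  · subst hc
    rw [zero_smul, zero_add] at h
    have : r = 0 := Subtype.ext h
    rw [this]
    rfl
  · exfalso
    apply hy
    have h1 : y = c⁻¹ • (-(r : W)) := by
      have h2 : c • y = -(r : W) := eq_neg_of_add_eq_zero_left h
      rw [← h2, smul_smul, inv_mul_cancel₀ hc, one_smul]
    rw [h1]
    exact Submodule.smul_mem _ _ (Submodule.neg_mem _ r.2)

theorem main (T T' : V →ₗ[F] W) (h : ∀ t : F, finrank F (LinearMap.range (T + t • T')) ≤
    finrank F (LinearMap.range T)) (x : V) (hx : T x = 0) : T' x ∈ LinearMap.range T := by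
  by_contra hy
  obtain ⟨s, hs⟩ := T.rangeRestrict.exists_rightInverse_of_surjective T.range_rangeRestrict
  have hs' : ∀ r : LinearMap.range T, T (s r) = r := fun r => by
    have h1 := congrArg Subtype.val (LinearMap.congr_fun hs r)
    exact h1
  obtain ⟨φ, hφ⟩ := (base T (T' x)).exists_leftInverse_of_injective (ker_base hy)
  have hφ' : ∀ e, φ (base T (T' x) e) = e := fun e => LinearMap.congr_fun hφ e
  let N : Module.End F (F × LinearMap.range T) :=
    φ ∘ₗ T' ∘ₗ s ∘ₗ LinearMap.snd F F (LinearMap.range T)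
  have hfin : {μ : F | N.HasEigenvalue μ}.Finite := Module.End.finite_hasEigenvalue N
  obtain ⟨μ, hμ⟩ := (hfin.union (Set.finite_singleton (0 : F))).infinite_compl.nonempty
  rw [Set.mem_compl_iff, Set.mem_union, Set.mem_singleton_iff, Set.mem_ofPred_eq, not_or] at hμ
  obtain ⟨hμ1, hμ0⟩ := hμ
  have hinj : ∀ e : F × LinearMap.range T, N e = μ • e → e = 0 := by
    intro e he
    by_contra hne
    exact hμ1 (Module.End.hasEigenvalue_of_hasEigenvector
      (Module.End.hasEigenvector_iff.2 ⟨Module.End.mem_eigenspace_iff.2 he, hne⟩))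
  set t : F := -μ⁻¹ with ht
  have ht0 : t ≠ 0 := by
    rw [ht]
    exact neg_ne_zero.2 (inv_ne_zero hμ0)
  let S : (F × LinearMap.range T) →ₗ[F] W :=
    base T (T' x) + t • (T' ∘ₗ s ∘ₗ LinearMap.snd F F (LinearMap.range T))
  have hSinj : Function.Injective S := by
    rw [← LinearMap.ker_eq_bot, LinearMap.ker_eq_bot']
    intro e he
    apply hinj
    have h1 : φ (S e) = e + t • N e := by
      show φ (base T (T' x) e + t • (T' (s e.2))) = _
      rw [map_add, map_smul, hφ']
      rfl
    rw [he, map_zero] at h1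
    have h2 : N e = -(t⁻¹ • e) := by
      have h3 : t • N e = -e := eq_neg_of_add_eq_zero_right h1.symm
      rw [← smul_neg, ← h3, smul_smul, inv_mul_cancel₀ ht0, one_smul]
    rw [h2, ht, inv_neg, inv_inv, neg_smul, neg_neg]
  have hSr : LinearMap.range S ≤ LinearMap.range (T + t • T') := by
    rintro _ ⟨⟨c, r⟩, rfl⟩
    refine ⟨(c * t⁻¹) • x + s r, ?_⟩
    show T ((c * t⁻¹) • x + s r) + t • T' ((c * t⁻¹) • x + s r) =
      base T (T' x) (c, r) + t • T' (s r)
    rw [base_apply, map_add, map_add, map_smul, map_smul, hx, smul_zero, zero_add, hs', smul_add,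
      smul_smul]
    have h1 : t * (c * t⁻¹) = c := by
      field_simp
    rw [h1]
    abel
  have h1 := Submodule.finrank_mono hSr
  rw [LinearMap.finrank_range_of_inj hSinj, Module.finrank_prod, Module.finrank_self] at h1
  have h2 := h t
  omega

end Pen2

/-- (Pen2) -/
theorem stPen2 : StPen2 := by
  intro F _ _ V W _ _ _ _ _ _ T T' h x hx
  exact Pen2.main T T' h x hx

end Pool.Agent.Lib.MP_64d474_lc.ST4
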