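import Pool.Agent.Lib.MP_64d474_lc.ST4.Stmts4

/-!
# Matrix pencils of small rank
-/

set_option autoImplicit false

namespace Pool.Agent.Lib.MP_64d474_lc.ST4

namespace PencilAux

open Matrix Polynomial

variable {F : Type} [Field F] {r d : ℕ}

/-- If the first block is invertible and the rank is at most `r` then the Schur complement is
zero. -/
theorem schur (A : Matrix (Fin r) (Fin r) F) (B : Matrix (Fin r) (Fin d) F)
    (C : Matrix (Fin d) (Fin r) F) (D : Matrix (Fin d) (Fin d) F) (hA : IsUnit A.det)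
    (h : (Matrix.fromBlocks A B C D).rank ≤ r) : D = C * A⁻¹ * B := by
  let N : Matrix (Fin r ⊕ Fin d) (Fin r ⊕ Fin d) F := Matrix.fromBlocks A B C D
  let f : (Fin r → F) →ₗ[F] (Fin r ⊕ Fin d → F) := (N.submatrix id Sum.inl).mulVecLin
  have hf : ∀ x, f x = Sum.elim (A.mulVec x) (C.mulVec x) := by
    intro x
    funext i
    rcases i with i | i
    · rfl
    · rfl
  have hf2 : ∀ x, f x = N.mulVecLin (Sum.elim x 0) := by
    intro x
    rw [hf, Matrix.mulVecLin_apply, Matrix.fromBlocks_mulVec]
    simp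
  have hinj : Function.Injective f := by
    rw [← LinearMap.ker_eq_bot, LinearMap.ker_eq_bot']
    intro x hx
    have h1 : A.mulVec x = 0 := by
      rw [hf] at hx
      funext i
      exact congrFun hx (Sum.inl i)
    have h2 : A⁻¹.mulVec (A.mulVec x) = 0 := by rw [h1, Matrix.mulVec_zero]
    rwa [Matrix.mulVec_mulVec, Matrix.nonsing_inv_mul A hA, Matrix.one_mulVec] at h2
  have hle : LinearMap.range f ≤ LinearMap.range N.mulVecLin := by
    rintro _ ⟨x, rfl⟩
    exact ⟨_, (hf2 x).symm⟩
  have hrk : Module.finrank F (LinearMap.range N.mulVecLin) ≤ Module.finrank F (LinearMap.range f) := by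
    rw [LinearMap.finrank_range_of_inj hinj, Module.finrank_fin_fun]
    exact h
  have heq := Submodule.eq_of_le_of_finrank_le hle hrk
  have key : ∀ v : Fin d → F, D.mulVec v = (C * A⁻¹ * B).mulVec v := by
    intro v
    have h1 : N.mulVecLin (Sum.elim 0 v) ∈ LinearMap.range f := by
      rw [heq]
      exact ⟨_, rfl⟩
    obtain ⟨x, hx⟩ := h1
    rw [hf, Matrix.mulVecLin_apply, Matrix.fromBlocks_mulVec] at hx
    simp only [Sum.elim_comp_inl, Sum.elim_comp_inr, Matrix.mulVec_zero, zero_add] at hx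
    have h2 : A.mulVec x = B.mulVec v := by
      funext i
      exact congrFun hx (Sum.inl i)
    have h3 : C.mulVec x = D.mulVec v := by
      funext i
      exact congrFun hx (Sum.inr i)
    have h4 : x = A⁻¹.mulVec (B.mulVec v) := by
      rw [← h2, Matrix.mulVec_mulVec, Matrix.nonsing_inv_mul A hA, Matrix.one_mulVec]
    rw [← h3, h4, Matrix.mulVec_mulVec, Matrix.mulVec_mulVec, Matrix.mul_assoc]
  ext i j
  have := congrFun (key (Pi.single j 1)) i
  simpa using this

theorem zero [CharZero F] (L : Matrix (Fin r) (Fin r) F) (B : Matrix (Fin r) (Fin d) F)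
    (C : Matrix (Fin d) (Fin r) F) (D : Matrix (Fin d) (Fin d) F)
    (h : ∀ t : F, t ≠ 0 → (1 + t • L).det ≠ 0 → D = t • (C * (1 + t • L)⁻¹ * B)) : D = 0 := by
  ext i j
  let P : Matrix (Fin r) (Fin r) F[X] := 1 + (X : F[X]) • L.map Polynomial.C
  let q : F[X] := P.det
  let p : F[X] := q * Polynomial.C (D i j) -
    X * (C.map Polynomial.C * P.adjugate * B.map Polynomial.C) i j
  have hP : ∀ t : F, (Polynomial.evalRingHom t).mapMatrix P = 1 + t • L := by
    intro t
    ext a b
    by_cases hab : a = b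
    · subst hab
      simp [P]
      ring
    · simp [P, hab]
      ring
  have hq : ∀ t : F, q.eval t = (1 + t • L).det := by
    intro t
    have h1 : q.eval t = (Polynomial.evalRingHom t) P.det := rfl
    rw [h1, RingHom.map_det, hP]
  have hadj : ∀ t : F, (Polynomial.evalRingHom t).mapMatrix P.adjugate =
      (1 + t • L).adjugate := by
    intro t
    rw [RingHom.map_adjugate, hP]
  have hprod : ∀ t : F, ((C.map Polynomial.C * P.adjugate * B.map Polynomial.C) i j).eval t =
      (C * (1 + t • L).adjugate * B) i j := by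
    intro t
    have h1 : (Polynomial.evalRingHom t).mapMatrix
        (C.map Polynomial.C * P.adjugate * B.map Polynomial.C) =
        C * (1 + t • L).adjugate * B := by
      rw [RingHom.mapMatrix_apply, Matrix.map_mul, Matrix.map_mul, ← RingHom.mapMatrix_apply _ P.adjugate,
        hadj]
      congr 1
      · congr 1
        ext a b
        simp
      · ext a b
        simp
    have h2 := congrFun (congrFun h1 i) j
    simpa using h2
  have hpq : p * q * X = 0 := by
    apply Polynomial.funext
    intro t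
    rw [Polynomial.eval_mul, Polynomial.eval_mul, Polynomial.eval_X, Polynomial.eval_zero]
    by_cases ht : t = 0
    · rw [ht, mul_zero]
    · by_cases hd : (1 + t • L).det = 0
      · rw [hq, hd, mul_zero, zero_mul]
      · have h1 := congrFun (congrFun (h t ht hd) i) j
        have h2 : p.eval t = 0 := by
          have h3 : p.eval t = (1 + t • L).det * D i j -
              t * (C * (1 + t • L).adjugate * B) i j := by
            rw [Polynomial.eval_sub, Polynomial.eval_mul, Polynomial.eval_mul, Polynomial.eval_X,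
              Polynomial.eval_C, hq, hprod]
          have h4 : (1 + t • L).adjugate = (1 + t • L).det • (1 + t • L)⁻¹ := by
            rw [Matrix.inv_def, smul_smul, Ring.mul_inverse_cancel _ (isUnit_iff_ne_zero.mpr hd),
              one_smul]
          rw [h3, h4, Matrix.mul_smul, Matrix.smul_mul, Matrix.smul_apply, h1, Matrix.smul_apply,
            smul_eq_mul, smul_eq_mul]
          ring
        rw [h2, zero_mul, zero_mul]
  have hX : (X : F[X]) ≠ 0 := Polynomial.X_ne_zero
  have hq0 : q ≠ 0 := by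
    intro h0
    have h1 := hq 0
    rw [h0, zero_smul, add_zero, Matrix.det_one, Polynomial.eval_zero] at h1
    exact zero_ne_one h1
  have hp : p = 0 := by
    rcases mul_eq_zero.mp hpq with h1 | h1
    · rcases mul_eq_zero.mp h1 with h2 | h2
      · exact h2
      · exact absurd h2 hq0
    · exact absurd h1 hX
  have h5 : p.eval 0 = D i j := by
    rw [Polynomial.eval_sub, Polynomial.eval_mul, Polynomial.eval_mul, Polynomial.eval_X,
      Polynomial.eval_C, hq, zero_smul, add_zero, Matrix.det_one, zero_mul, sub_zero, one_mul]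
  rw [← h5, hp, Polynomial.eval_zero]
  rfl

theorem step (L : Matrix (Fin r) (Fin r) F) (t : F) (ht : (1 + t • L).det ≠ 0)
    (B : Matrix (Fin r) (Fin d) F) :
    (1 + t • L)⁻¹ * B = B - t • ((1 + t • L)⁻¹ * (L * B)) := by
  have h1 : (1 + t • L)⁻¹ * (1 + t • L) = 1 :=
    Matrix.nonsing_inv_mul _ (isUnit_iff_ne_zero.mpr ht)
  have h2 : (1 + t • L)⁻¹ * ((1 + t • L) * B) = B := by
    rw [← Matrix.mul_assoc, h1, Matrix.one_mul]
  rw [Matrix.add_mul, Matrix.one_mul, Matrix.mul_add, Matrix.smul_mul, Matrix.mul_smul] at h2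
  exact eq_sub_of_add_eq h2

theorem all [CharZero F] (L : Matrix (Fin r) (Fin r) F) (B : Matrix (Fin r) (Fin d) F)
    (C : Matrix (Fin d) (Fin r) F)
    (h : ∀ t : F, t ≠ 0 → (1 + t • L).det ≠ 0 → C * ((1 + t • L)⁻¹ * B) = 0) (k : ℕ) :
    C * (L ^ k * B) = 0 ∧
      ∀ t : F, t ≠ 0 → (1 + t • L).det ≠ 0 → C * ((1 + t • L)⁻¹ * (L * (L ^ k * B))) = 0 := by
  have one : ∀ B' : Matrix (Fin r) (Fin d) F,
      (∀ t : F, t ≠ 0 → (1 + t • L).det ≠ 0 → C * ((1 + t • L)⁻¹ * B') = 0) →
      C * B' = 0 ∧
        ∀ t : F, t ≠ 0 → (1 + t • L).det ≠ 0 → C * ((1 + t • L)⁻¹ * (L * B')) = 0 := by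
    intro B' h'
    have h1 : ∀ t : F, t ≠ 0 → (1 + t • L).det ≠ 0 →
        C * B' = t • (C * (1 + t • L)⁻¹ * (L * B')) := by
      intro t ht hd
      have h2 := h' t ht hd
      rw [step L t hd, Matrix.mul_sub, Matrix.mul_smul] at h2
      rw [Matrix.mul_assoc]
      exact sub_eq_zero.mp h2
    have h3 := zero L (L * B') C (C * B') h1
    refine ⟨h3, fun t ht hd => ?_⟩
    have h4 := h1 t ht hd
    rw [h3, Matrix.mul_assoc] at h4
    exact (smul_eq_zero.mp h4.symm).resolve_left ht
  induction k with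
  | zero =>
    have h0 := one B h
    rwa [pow_zero, Matrix.one_mul]
  | succ k ih =>
    have h0 := one (L * (L ^ k * B)) ih.2
    rw [pow_succ', Matrix.mul_assoc]
    exact h0

end PencilAux

theorem stPencil : StPencil := by
  intro F _ _ r d M hM
  have h1 : ∀ t : F, t ≠ 0 → (1 + t • M.toBlocks₁₁).det ≠ 0 →
      M.toBlocks₂₂ = t • (M.toBlocks₂₁ * (1 + t • M.toBlocks₁₁)⁻¹ * M.toBlocks₁₂) := by
    intro t ht hd
    have e : (Matrix.fromBlocks 1 0 0 0 + t • M : BM F r d) =
        Matrix.fromBlocks (1 + t • M.toBlocks₁₁) (t • M.toBlocks₁₂) (t • M.toBlocks₂₁)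
          (t • M.toBlocks₂₂) := by
      conv_lhs => rw [← Matrix.fromBlocks_toBlocks M]
      rw [Matrix.fromBlocks_smul, Matrix.fromBlocks_add, zero_add, zero_add, zero_add]
    have h2 := hM t
    rw [e] at h2
    have h3 := PencilAux.schur _ _ _ _ (isUnit_iff_ne_zero.mpr hd) h2
    rw [Matrix.smul_mul, Matrix.smul_mul, Matrix.mul_smul] at h3
    exact smul_right_injective _ ht h3
  have h2 := PencilAux.zero _ _ _ _ h1
  refine ⟨h2, fun k => ?_⟩
  have h3 : ∀ t : F, t ≠ 0 → (1 + t • M.toBlocks₁₁).det ≠ 0 →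
      M.toBlocks₂₁ * ((1 + t • M.toBlocks₁₁)⁻¹ * M.toBlocks₁₂) = 0 := by
    intro t ht hd
    have h4 := h1 t ht hd
    rw [h2, Matrix.mul_assoc] at h4
    exact (smul_eq_zero.mp h4.symm).resolve_left ht
  have h4 := (PencilAux.all _ _ _ h3 k).1
  rwa [Matrix.mul_assoc]

end Pool.Agent.Lib.MP_64d474_lc.ST4
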