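import Pool.Agent.Lib.MP_64d474_lc.ST4.Stmts4

/-!
# Module (Phi): spaces of matrices with common kernel vectors on both sides
-/

set_option autoImplicit false

namespace Pool.Agent.Lib.MP_64d474_lc.ST4

open Module

namespace PhiAux

variable {F : Type} [Field F] {r p : ℕ}

/-- the linear map to the homomorphisms -/
noncomputable def T (B C : Submodule F (Fin r → F)) (W : Submodule F (Matrix (Fin r) (Fin r) F))
    (hB : ∀ X ∈ W, B ≤ LinearMap.ker X.mulVecLin) (hC : ∀ X ∈ W, ∀ v, X.mulVecLin v ∈ C) :
    W →ₗ[F] (((Fin r → F) ⧸ B) →ₗ[F] C) where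
  toFun X := B.liftQ ((X : Matrix (Fin r) (Fin r) F).mulVecLin.codRestrict C (hC X X.2)) (by
    intro v hv
    have h1 := hB X X.2 hv
    rw [LinearMap.mem_ker] at h1 ⊢
    exact Subtype.ext h1)
  map_add' X Y := by
    refine Submodule.linearMap_qext _ (LinearMap.ext fun v => Subtype.ext ?_)
    change ((X : Matrix (Fin r) (Fin r) F) + Y).mulVec v =
      (X : Matrix (Fin r) (Fin r) F).mulVec v + (Y : Matrix (Fin r) (Fin r) F).mulVec v
    rw [Matrix.add_mulVec]
  map_smul' a X := by
    refine Submodule.linearMap_qext _ (LinearMap.ext fun v => Subtype.ext ?_)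
    change (a • (X : Matrix (Fin r) (Fin r) F)).mulVec v =
      a • (X : Matrix (Fin r) (Fin r) F).mulVec v
    rw [Matrix.smul_mulVec]

theorem T_inj (B C : Submodule F (Fin r → F)) (W : Submodule F (Matrix (Fin r) (Fin r) F))
    (hB : ∀ X ∈ W, B ≤ LinearMap.ker X.mulVecLin) (hC : ∀ X ∈ W, ∀ v, X.mulVecLin v ∈ C) :
    Function.Injective (T B C W hB hC) := by
  rw [injective_iff_map_eq_zero]
  intro X hX
  apply Subtype.ext
  have h1 : ∀ v, (X : Matrix (Fin r) (Fin r) F).mulVec v = 0 := by
    intro v
    have h2 := congrArg (fun f : ((Fin r → F) ⧸ B) →ₗ[F] C => ((f (B.mkQ v) : C) : Fin r → F)) hX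
    exact h2
  ext i j
  have h3 := congrFun (h1 (Pi.single j 1)) i
  rw [Matrix.mulVec_single_one] at h3
  exact h3

end PhiAux

open PhiAux in
theorem stPhi : StPhi := by
  intro F _ r p b c hb hc W hW
  classical
  set B : Submodule F (Fin r → F) := Submodule.span F (Set.range b) with hBdef
  set C : Submodule F (Fin r → F) := LinearMap.ker (Matrix.mulVecLin (Matrix.of c)) with hCdef
  have hB : ∀ X ∈ W, B ≤ LinearMap.ker X.mulVecLin := by
    intro X hX
    rw [hBdef, Submodule.span_le]
    rintro _ ⟨i, rfl⟩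
    exact (hW X hX i).1
  have hC : ∀ X ∈ W, ∀ v, X.mulVecLin v ∈ C := by
    intro X hX v
    rw [hCdef, LinearMap.mem_ker]
    funext i
    have h1 := (hW X hX i).2
    change c i ⬝ᵥ X.mulVec v = 0
    rw [Matrix.dotProduct_mulVec, h1, zero_dotProduct]
  have h1 : finrank F B = p := by
    rw [hBdef, finrank_span_eq_card hb, Fintype.card_fin]
  have h2 : finrank F ((Fin r → F) ⧸ B) + p = r := by
    have h3 := Submodule.finrank_quotient_add_finrank B
    rw [h1, finrank_fin_fun] at h3
    exact h3
  have h4 : finrank F C + p = r := by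
    have h5 := LinearMap.finrank_range_add_finrank_ker (Matrix.mulVecLin (Matrix.of c))
    have h6 : finrank F (LinearMap.range (Matrix.mulVecLin (Matrix.of c))) = p := by
      have h7 : (Matrix.of c).rank = Fintype.card (Fin p) := LinearIndependent.rank_matrix hc
      rw [Fintype.card_fin] at h7
      exact h7
    rw [h6, finrank_fin_fun] at h5
    rw [hCdef]
    omega
  have h8 := LinearMap.finrank_le_finrank_of_injective (T_inj B C W hB hC)
  rw [Module.finrank_linearMap] at h8
  have h9 : finrank F ((Fin r → F) ⧸ B) = r - p := by omega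
  have h10 : finrank F C = r - p := by omega
  rwa [h9, h10] at h8

end Pool.Agent.Lib.MP_64d474_lc.ST4
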