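import Pool.Agent.Lib.MP_64d474_lc.ST4.Stmts4

/-!
# Relations between rows by elimination
-/

set_option autoImplicit false

open Module Pool.Agent.Lib.MP_64d474_lc.ST
open Pool.Agent.Lib.MP_64d474_lc.ST2 (rstep)

namespace Pool.Agent.Lib.MP_64d474_lc.ST4

namespace RelM

variable {p : ℕ}

/-- the vector of a row -/
def vc (p : ℕ) (r : List ℕ) : ℕ → ZMod p := fun j => ((r.getD j 0 : ℕ) : ZMod p)

/-- the vector without the first entry -/
def tl (p : ℕ) : (ℕ → ZMod p) →ₗ[ZMod p] (ℕ → ZMod p) where
  toFun v := fun i => v (i + 1)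
  map_add' _ _ := rfl
  map_smul' _ _ := rfl

/-- the vector with a further first entry `0` -/
def cz (p : ℕ) : (ℕ → ZMod p) →ₗ[ZMod p] (ℕ → ZMod p) where
  toFun v := fun i => Nat.casesOn i 0 fun j => v j
  map_add' v w := by
    funext i
    cases i <;> simp
  map_smul' c v := by
    funext i
    cases i <;> simp

theorem cz_zero (v : ℕ → ZMod p) : cz p v 0 = 0 := rfl

theorem cz_succ (v : ℕ → ZMod p) (i : ℕ) : cz p v (i + 1) = v i := rfl

theorem cz_inj : Function.Injective (cz p) := by
  intro v w h
  funext i
  exact congrFun h (i + 1)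

theorem cz_tl (v : ℕ → ZMod p) (h : v 0 = 0) : cz p (tl p v) = v := by
  funext i
  cases i with
  | zero => exact h.symm
  | succ i => rfl

theorem tl_cz (v : ℕ → ZMod p) : tl p (cz p v) = v := rfl

/-- the span of the rows -/
def Sp (p : ℕ) (L : List (List ℕ)) : Submodule (ZMod p) (ℕ → ZMod p) :=
  Submodule.span (ZMod p) {v | ∃ r ∈ L, vc p r = v}

theorem fin_Sp [Fact p.Prime] (L : List (List ℕ)) : FiniteDimensional (ZMod p) (Sp p L) := by
  refine FiniteDimensional.span_of_finite _ ?_
  have : {v | ∃ r ∈ L, vc p r = v} = vc p '' {r | r ∈ L} := rfl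
  rw [this]
  exact (List.finite_toSet L).image _

theorem vc_tail (r : List ℕ) : vc p r.tail = tl p (vc p r) := by
  funext i
  cases r with
  | nil => simp [vc, tl]
  | cons x r => simp [vc, tl]

theorem vc_zero (r : List ℕ) : vc p r 0 = ((r.headD 0 : ℕ) : ZMod p) := by
  cases r <;> simp [vc]

theorem vc_zip (hp : 0 < p) (h s : ℕ) : ∀ (xs ys : List ℕ), xs.length = ys.length →
    vc p (List.zipWith (fun x y => (h * y + (p - s % p) * x) % p) xs ys) =
      (h : ZMod p) • vc p ys - (s : ZMod p) • vc p xs
  | [], [], _ => by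
    funext i
    simp [vc]
  | [], y :: ys, hl => by simp at hl
  | x :: xs, [], hl => by simp at hl
  | x :: xs, y :: ys, hl => by
    have ih := vc_zip hp h s xs ys (by simpa using hl)
    funext i
    cases i with
    | zero =>
      have h1 : ((p - s % p : ℕ) : ZMod p) = -(s : ZMod p) := by
        rw [Nat.cast_sub (Nat.mod_lt s hp).le, ZMod.natCast_mod]
        simp
      simp only [List.zipWith_cons_cons, vc, List.getD_cons_zero, Pi.sub_apply, Pi.smul_apply,
        smul_eq_mul, ZMod.natCast_mod, Nat.cast_add, Nat.cast_mul, h1]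
      ring
    | succ i =>
      have h2 := congrFun ih i
      simpa only [List.zipWith_cons_cons, vc, List.getD_cons_succ, Pi.sub_apply, Pi.smul_apply,
        smul_eq_mul] using h2

/-- one step of the elimination for the pivot row `a` -/
def ph (p : ℕ) (a : List ℕ) : (ℕ → ZMod p) →ₗ[ZMod p] (ℕ → ZMod p) where
  toFun v := (vc p a 0) • tl p v - (v 0) • tl p (vc p a)
  map_add' v w := by
    rw [map_add, Pi.add_apply]
    module
  map_smul' c v := by
    rw [map_smul, Pi.smul_apply, smul_eq_mul, RingHom.id_apply]
    module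

theorem ph_apply (a : List ℕ) (v : ℕ → ZMod p) :
    ph p a v = (vc p a 0) • tl p v - (v 0) • tl p (vc p a) := rfl

theorem vc_comb (hp : 0 < p) (a r : List ℕ) (h : a.length = r.length) :
    vc p (comb p a r) = ph p a (vc p r) := by
  rw [comb, vc_zip hp _ _ _ _ (by rw [List.length_tail, List.length_tail, h]), ph_apply,
    vc_zero, vc_zero, vc_tail, vc_tail]

theorem headNZ_iff (r : List ℕ) : headNZ p r = true ↔ vc p r 0 ≠ 0 := by
  rw [vc_zero]
  unfold headNZ
  rw [Bool.not_eq_true', decide_eq_false_iff_not, Ne, ZMod.natCast_eq_zero_iff,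
    Nat.dvd_iff_mod_eq_zero]

/-- the properties of the rows -/
structure Gd (p n : ℕ) (L : List (List ℕ)) : Prop where
  len : ∀ r ∈ L, r.length = n
  ind : L.length ≤ finrank (ZMod p) (Sp p L)

theorem step [hp : Fact p.Prime] (n c : ℕ) (L : List (List ℕ)) (h : Gd p (n + 1) L) :
    Gd p n (rstep p (c, L)).2 ∧
      ∀ y, y ∈ Sp p (rstep p (c, L)).2 ↔ cz p y ∈ Sp p L := by
  have e0 : rstep p (c, L) = if (L.filter (headNZ p)).isEmpty then (c, L.map List.tail) else
      (c + 1, ((L.filter (headNZ p)).tail ++ L.filter fun r => !headNZ p r).map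
        (comb p ((L.filter (headNZ p)).headD []))) := rfl
  rw [e0]
  cases hF : L.filter (headNZ p) with
  | nil =>
    rw [if_pos (List.isEmpty_nil)]
    have h0 : ∀ r ∈ L, vc p r 0 = 0 := by
      intro r hrL
      by_contra h4
      exact (List.filter_eq_nil_iff.1 hF r hrL) ((headNZ_iff r).2 h4)
    have h1 : ∀ v ∈ Sp p L, v 0 = 0 := by
      intro v hv
      induction hv using Submodule.span_induction with
      | mem v hv =>
        obtain ⟨r, hr, rfl⟩ := hv
        exact h0 r hr
      | zero => rfl
      | add x y _ _ hx hy => rw [Pi.add_apply, hx, hy, add_zero]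
      | smul a x _ hx => rw [Pi.smul_apply, hx, smul_zero]
    have h2 : Sp p L = (Sp p (L.map List.tail)).map (cz p) := by
      rw [Sp, Sp, Submodule.map_span]
      congr 1
      ext v
      constructor
      · rintro ⟨r, hr, rfl⟩
        refine ⟨vc p r.tail, ⟨r.tail, List.mem_map_of_mem hr, rfl⟩, ?_⟩
        rw [vc_tail, cz_tl _ (h0 r hr)]
      · rintro ⟨_, ⟨r', hr', rfl⟩, rfl⟩
        obtain ⟨r, hr, rfl⟩ := List.mem_map.1 hr'
        refine ⟨r, hr, ?_⟩
        rw [vc_tail, cz_tl _ (h0 r hr)]
    refine ⟨⟨?_, ?_⟩, fun y => ?_⟩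
    · intro r' hr'
      obtain ⟨r, hr, rfl⟩ := List.mem_map.1 hr'
      rw [List.length_tail, h.len r hr]
      rfl
    · have h3 := (Submodule.equivMapOfInjective (cz p) cz_inj
        (Sp p (L.map List.tail))).finrank_eq
      have h4 := h.ind
      rw [h2, ← h3] at h4
      simpa using h4
    · rw [h2, Submodule.mem_map]
      constructor
      · intro hy
        exact ⟨y, hy, rfl⟩
      · rintro ⟨y', hy', he⟩
        rwa [← cz_inj he]
  | cons a T =>
    rw [if_neg (by simp)]
    have haF : a ∈ L.filter (headNZ p) := by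
      rw [hF]
      exact List.mem_cons_self
    have haL : a ∈ L := (List.mem_filter.1 haF).1
    have hah : vc p a 0 ≠ 0 := (headNZ_iff a).1 (List.mem_filter.1 haF).2
    rw [List.tail_cons, List.headD_cons]
    set S : List (List ℕ) := T ++ L.filter fun r => !headNZ p r with hS
    have hmem : ∀ r, r ∈ L ↔ r = a ∨ r ∈ S := by
      intro r
      rw [hS, List.mem_append, ← or_assoc, ← List.mem_cons, ← hF, List.mem_filter,
        List.mem_filter]
      constructor
      · intro h
        by_cases h1 : headNZ p r = true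
        · exact Or.inl ⟨h, h1⟩
        · exact Or.inr ⟨h, by simp [h1]⟩
      · rintro (h | h)
        · exact h.1
        · exact h.1
    have hlen : L.length = S.length + 1 := by
      have h1 := List.length_eq_length_filter_add (l := L) (headNZ p)
      rw [h1, hF, hS, List.length_append, List.length_cons]
      omega
    have hpa : ph p a (vc p a) = 0 := by
      rw [ph_apply, sub_self]
    have hmap : Sp p (S.map (comb p a)) = (Sp p L).map (ph p a) := by
      apply le_antisymm
      · refine Submodule.span_le.2 ?_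
        rintro _ ⟨r', hr', rfl⟩
        obtain ⟨r, hr, rfl⟩ := List.mem_map.1 hr'
        have hrL := (hmem r).2 (Or.inr hr)
        rw [vc_comb hp.out.pos a r (by rw [h.len a haL, h.len r hrL])]
        exact Submodule.mem_map_of_mem (Submodule.subset_span ⟨r, hrL, rfl⟩)
      · rw [Sp, Submodule.map_span, Submodule.span_le]
        rintro _ ⟨_, ⟨r, hr, rfl⟩, rfl⟩
        rcases (hmem r).1 hr with rfl | hrS
        · rw [hpa]
          exact Submodule.zero_mem _
        · refine Submodule.subset_span ⟨comb p a r, List.mem_map_of_mem hrS, ?_⟩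
          rw [vc_comb hp.out.pos a r (by rw [h.len a haL, h.len r hr])]
    refine ⟨⟨?_, ?_⟩, fun y => ?_⟩
    · intro r' hr'
      obtain ⟨r, hr, rfl⟩ := List.mem_map.1 hr'
      have hrL := (hmem r).2 (Or.inr hr)
      rw [comb, List.length_zipWith, List.length_tail, List.length_tail, h.len a haL,
        h.len r hrL]
      simp
    · change (S.map (comb p a)).length ≤ finrank (ZMod p) (Sp p (S.map (comb p a)))
      have hfd := fin_Sp (p := p) L
      have h3 := LinearMap.finrank_range_add_finrank_ker ((ph p a).domRestrict (Sp p L))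
      rw [LinearMap.range_domRestrict, ← hmap] at h3
      have h4 : finrank (ZMod p) (LinearMap.ker ((ph p a).domRestrict (Sp p L))) ≤ 1 := by
        refine finrank_le_one ⟨⟨vc p a, Submodule.subset_span ⟨a, haL, rfl⟩⟩, ?_⟩ ?_
        · rw [LinearMap.mem_ker, LinearMap.domRestrict_apply]
          exact hpa
        · rintro ⟨⟨v, hv⟩, hv0⟩
          rw [LinearMap.mem_ker, LinearMap.domRestrict_apply, ph_apply, sub_eq_zero] at hv0
          refine ⟨(vc p a 0)⁻¹ * v 0, ?_⟩
          apply Subtype.ext
          apply Subtype.ext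
          change ((vc p a 0)⁻¹ * v 0) • vc p a = v
          have h5 : v 0 • vc p a = vc p a 0 • v := by
            funext i
            cases i with
            | zero =>
              simp only [Pi.smul_apply, smul_eq_mul]
              ring
            | succ i => exact (congrFun hv0 i).symm
          rw [mul_smul, h5, smul_smul, inv_mul_cancel₀ hah, one_smul]
      have h5 := h.ind
      rw [List.length_map]
      omega
    · rw [hmap, Submodule.mem_map]
      constructor
      · rintro ⟨v, hv, rfl⟩
        have h1 : cz p (ph p a v) = (vc p a 0) • v - (v 0) • vc p a := by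
          funext i
          cases i with
          | zero =>
            rw [cz_zero]
            simp only [Pi.sub_apply, Pi.smul_apply, smul_eq_mul]
            ring
          | succ i => rfl
        rw [h1]
        exact Submodule.sub_mem _ (Submodule.smul_mem _ _ hv)
          (Submodule.smul_mem _ _ (Submodule.subset_span ⟨a, haL, rfl⟩))
      · intro hy
        refine ⟨(vc p a 0)⁻¹ • cz p y, Submodule.smul_mem _ _ hy, ?_⟩
        rw [map_smul, ph_apply, tl_cz, cz_zero, zero_smul, sub_zero, smul_smul,
          inv_mul_cancel₀ hah, one_smul]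

theorem main [hp : Fact p.Prime] (q : ℕ) : ∀ (N c : ℕ) (L : List (List ℕ)),
    Gd p (N + q) L → Gd p q ((rstep p)^[N] (c, L)).2 ∧
      ∀ y, y ∈ Sp p ((rstep p)^[N] (c, L)).2 ↔ (cz p)^[N] y ∈ Sp p L := by
  intro N
  induction N with
  | zero =>
    intro c L h
    rw [Nat.zero_add] at h
    exact ⟨h, fun y => Iff.rfl⟩
  | succ N ih =>
    intro c L h
    have e : N + 1 + q = N + q + 1 := by omega
    rw [e] at h
    obtain ⟨h1, h2⟩ := step (N + q) c L h
    rw [Function.iterate_succ_apply]
    obtain ⟨h3, h4⟩ := ih (rstep p (c, L)).1 (rstep p (c, L)).2 h1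
    refine ⟨h3, fun y => ?_⟩
    rw [h4, h2, Function.iterate_succ_apply']

theorem cz_it (N : ℕ) (y : ℕ → ZMod p) (j : ℕ) :
    ((cz p)^[N] y) j = if j < N then 0 else y (j - N) := by
  induction N generalizing j with
  | zero => simp
  | succ N ih =>
    rw [Function.iterate_succ_apply']
    cases j with
    | zero => rw [cz_zero, if_pos (by omega)]
    | succ j =>
      rw [cz_succ, ih, Nat.add_sub_add_right]
      by_cases h : j < N
      · rw [if_pos h, if_pos (by omega)]
      · rw [if_neg h, if_neg (by omega)]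

/-- a vector of length `q` as a function on the natural numbers -/
def ex (p q : ℕ) : (Fin q → ZMod p) →ₗ[ZMod p] (ℕ → ZMod p) where
  toFun z := fun i => if h : i < q then z ⟨i, h⟩ else 0
  map_add' v w := by
    funext i
    by_cases h : i < q <;> simp [h]
  map_smul' c v := by
    funext i
    by_cases h : i < q <;> simp [h]

theorem ex_apply (q : ℕ) (z : Fin q → ZMod p) (i : ℕ) :
    ex p q z i = if h : i < q then z ⟨i, h⟩ else 0 := rfl

theorem ex_inj (q : ℕ) : Function.Injective (ex p q) := by
  intro v w h
  funext i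
  have h1 := congrFun h i
  simpa only [ex_apply, i.2, dif_pos] using h1

theorem vc_ex (q : ℕ) (r : List ℕ) (h : r.length = q) :
    vc p r = ex p q fun i => ((r.getD i 0 : ℕ) : ZMod p) := by
  funext i
  rw [ex_apply]
  by_cases hi : i < q
  · rw [dif_pos hi]
    rfl
  · rw [dif_neg hi, vc, List.getD_eq_default _ _ (by omega), Nat.cast_zero]

/-- the start of the elimination -/
def st (R : List (List ℕ)) : List (List ℕ) :=
  List.zipWith (fun r i => r ++ uni R.length i) R (List.range R.length)

theorem st_len (R : List (List ℕ)) : (st R).length = R.length := by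
  rw [st, List.length_zipWith, List.length_range, Nat.min_self]

theorem st_get (R : List (List ℕ)) (i : ℕ) (hi : i < (st R).length) :
    (st R)[i] = R.getD i [] ++ uni R.length i := by
  have hi' : i < R.length := by rwa [st_len] at hi
  simp only [st, List.getElem_zipWith, List.getElem_range]
  rw [List.getD_eq_getElem _ _ hi']

/-- the vectors of the rows at the start -/
def bs (p : ℕ) (R : List (List ℕ)) (i : Fin R.length) : ℕ → ZMod p :=
  vc p (R.getD i [] ++ uni R.length i)

theorem bs_lt (N : ℕ) (R : List (List ℕ)) (hR : ∀ r ∈ R, r.length = N) (i : Fin R.length) (j : ℕ)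
    (hj : j < N) : bs p R i j = (((R.getD i []).getD j 0 : ℕ) : ZMod p) := by
  have h1 : (R.getD i []).length = N := by
    rw [List.getD_eq_getElem _ _ i.2]
    exact hR _ (List.getElem_mem i.2)
  rw [bs, vc, List.getD_append _ _ _ _ (by omega)]

theorem bs_ge (N : ℕ) (R : List (List ℕ)) (hR : ∀ r ∈ R, r.length = N) (i : Fin R.length) (k : ℕ) :
    bs p R i (N + k) = if k = i then 1 else 0 := by
  have h1 : (R.getD i []).length = N := by
    rw [List.getD_eq_getElem _ _ i.2]
    exact hR _ (List.getElem_mem i.2)
  rw [bs, vc, List.getD_append_right _ _ _ _ (by omega), h1, Nat.add_sub_cancel_left, uni]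
  by_cases hk : k < R.length
  · rw [List.getD_eq_getElem _ _ (by simpa using hk)]
    simp only [List.getElem_map, List.getElem_range]
    split_ifs <;> simp
  · rw [List.getD_eq_default _ _ (by simpa using hk), if_neg (by
      have := i.2
      omega), Nat.cast_zero]

theorem Sp_st (R : List (List ℕ)) : Sp p (st R) = Submodule.span (ZMod p) (Set.range (bs p R)) := by
  rw [Sp]
  congr 1
  ext v
  constructor
  · rintro ⟨r, hr, rfl⟩
    obtain ⟨i, hi, rfl⟩ := List.mem_iff_getElem.1 hr
    exact ⟨⟨i, by rwa [st_len] at hi⟩, by rw [st_get]; rfl⟩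
  · rintro ⟨i, rfl⟩
    have hi : (i : ℕ) < (st R).length := by
      rw [st_len]
      exact i.2
    exact ⟨(st R)[(i : ℕ)], List.getElem_mem hi, by rw [st_get]; rfl⟩

theorem sum_bs_ge [Fact p.Prime] (N : ℕ) (R : List (List ℕ)) (hR : ∀ r ∈ R, r.length = N)
    (c : Fin R.length → ZMod p) (k : ℕ) :
    (∑ i, c i • bs p R i) (N + k) = ex p R.length c k := by
  rw [Finset.sum_apply, ex_apply]
  simp only [Pi.smul_apply, bs_ge N R hR, smul_eq_mul, mul_ite, mul_one, mul_zero]
  by_cases hk : k < R.length
  · rw [dif_pos hk, Finset.sum_eq_single (⟨k, hk⟩ : Fin R.length)]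
    · rw [if_pos rfl]
    · intro i _ hi
      rw [if_neg]
      intro h
      exact hi (Fin.ext h.symm)
    · intro h
      exact absurd (Finset.mem_univ _) h
  · rw [dif_neg hk]
    refine Finset.sum_eq_zero fun i _ => ?_
    rw [if_neg]
    have := i.2
    omega

theorem ind_bs [Fact p.Prime] (N : ℕ) (R : List (List ℕ)) (hR : ∀ r ∈ R, r.length = N) :
    LinearIndependent (ZMod p) (bs p R) := by
  rw [Fintype.linearIndependent_iff]
  intro c hc i
  have h1 := congrFun hc (N + i)
  rw [sum_bs_ge N R hR, ex_apply, dif_pos i.2] at h1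
  exact h1

theorem gd_st [Fact p.Prime] (N : ℕ) (R : List (List ℕ)) (hR : ∀ r ∈ R, r.length = N) :
    Gd p (N + R.length) (st R) := by
  refine ⟨fun r hr => ?_, ?_⟩
  · obtain ⟨i, hi, rfl⟩ := List.mem_iff_getElem.1 hr
    have hi' : i < R.length := by rwa [st_len] at hi
    rw [st_get, List.length_append, List.getD_eq_getElem _ _ hi',
      hR _ (List.getElem_mem hi')]
    simp [uni]
  · rw [st_len, Sp_st, finrank_span_eq_card (ind_bs N R hR), Fintype.card_fin]

end RelM

open RelM

/-- (Rel) -/
theorem stRel : StRel := by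
  intro p hp N R hR
  obtain ⟨⟨hlen, hind⟩, hmem⟩ := main (p := p) R.length N 0 (st R) (gd_st N R hR)
  have hrel : rel p N R = ((rstep p)^[N] (0, st R)).2 := rfl
  rw [← hrel] at hlen hind hmem
  set U := rel p N R with hU
  -- the span of the columns
  have hcol : Sp p U = (Submodule.span (ZMod p)
      (Set.range (colM p R.length U).col)).map (ex p R.length) := by
    rw [Sp, Submodule.map_span]
    congr 1
    ext v
    constructor
    · rintro ⟨r, hr, rfl⟩
      obtain ⟨i, hi, rfl⟩ := List.mem_iff_getElem.1 hr
      refine ⟨(colM p R.length U).col ⟨i, hi⟩, ⟨⟨i, hi⟩, rfl⟩, ?_⟩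
      rw [vc_ex R.length _ (hlen _ hr)]
      congr 1
      funext j
      rw [Matrix.col_apply, colM, List.getD_eq_getElem _ _ hi]
    · rintro ⟨_, ⟨i, rfl⟩, rfl⟩
      refine ⟨U[(i : ℕ)], List.getElem_mem i.2, ?_⟩
      rw [vc_ex R.length _ (hlen _ (List.getElem_mem i.2))]
      congr 1
      funext j
      rw [Matrix.col_apply, colM, List.getD_eq_getElem _ _ i.2]
  refine ⟨hlen, ?_, ?_⟩
  · rw [Matrix.range_mulVecLin]
    ext z
    have h1 : z ∈ Submodule.span (ZMod p) (Set.range (colM p R.length U).col) ↔
        ex p R.length z ∈ Sp p U := by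
      rw [hcol, Submodule.mem_map]
      constructor
      · intro h
        exact ⟨z, h, rfl⟩
      · rintro ⟨z', h, he⟩
        rwa [← ex_inj _ he]
    rw [h1, hmem, Sp_st, Submodule.mem_span_range_iff_exists_fun, LinearMap.mem_ker,
      Matrix.mulVecLin_apply]
    constructor
    · rintro ⟨c, hc⟩
      have hcz : c = z := by
        apply ex_inj (p := p) R.length
        funext k
        have h2 := congrFun hc (N + k)
        rw [sum_bs_ge N R hR, cz_it, if_neg (by omega), Nat.add_sub_cancel_left] at h2
        exact h2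
      funext j
      have h2 := congrFun hc j
      rw [cz_it, if_pos j.2, Finset.sum_apply] at h2
      rw [Pi.zero_apply, ← h2, Matrix.mulVec, dotProduct, hcz]
      refine Finset.sum_congr rfl fun i _ => ?_
      rw [Pi.smul_apply, bs_lt N R hR i j j.2, smul_eq_mul, mul_comm]
      rfl
    · intro h
      refine ⟨z, ?_⟩
      funext j
      by_cases hj : j < N
      · have h2 := congrFun h ⟨j, hj⟩
        rw [Matrix.mulVec, dotProduct, Pi.zero_apply] at h2
        rw [cz_it, if_pos hj, Finset.sum_apply, ← h2]
        refine Finset.sum_congr rfl fun i _ => ?_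
        rw [Pi.smul_apply, bs_lt N R hR i j hj, smul_eq_mul, mul_comm]
        rfl
      · obtain ⟨k, rfl⟩ := Nat.exists_eq_add_of_le (not_lt.1 hj)
        rw [sum_bs_ge N R hR, cz_it, if_neg (by omega), Nat.add_sub_cancel_left]
  · rw [Matrix.mulVec_injective_iff, linearIndependent_iff_card_le_finrank_span,
      Fintype.card_fin]
    have h3 := (Submodule.equivMapOfInjective (ex p R.length) (ex_inj _)
      (Submodule.span (ZMod p) (Set.range (colM p R.length U).col))).finrank_eq
    rw [← hcol] at h3
    rw [Set.finrank, h3]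
    exact hind

end Pool.Agent.Lib.MP_64d474_lc.ST4
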