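import Pool.Agent.Lib.MP_64d474_lc.ST4.Stmts4
import Pool.Agent.Lib.MP_64d474_lc.ST2.Tab

/-!
# The tables for a larger list of digits
-/

set_option autoImplicit false

open Finset Pool.Agent.Lib.MP_64d474_lc.ST
open Pool.Agent.Lib.MP_64d474_lc.ST2

namespace Pool.Agent.Lib.MP_64d474_lc.ST4

namespace TabEAux

open Pool.Agent.Lib.MP_64d474_lc.ST2.TabAux

theorem mem_subsE (n E : ℕ) (h : n ≤ E) (a : List ℕ) (ha : Fl n a) :
    a ∈ subs n (vecs 1 E) := by
  obtain ⟨q, rfl⟩ := ha
  unfold subs
  rw [List.mem_map]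
  refine ⟨(List.range E).map fun i => if q i then 1 else 0, ?_, ?_⟩
  · rw [stVecs]
    refine ⟨by simp, fun x hx => ?_⟩
    obtain ⟨i, _, rfl⟩ := List.mem_map.mp hx
    split_ifs <;> omega
  · refine List.filter_congr fun i hi => ?_
    have hi' : i < E := lt_of_lt_of_le (List.mem_range.mp hi) h
    have h1 : ((List.range E).map fun i => if q i then 1 else 0).getD i 0 =
        if q i then 1 else 0 := by
      rw [List.getD_eq_getElem _ _ (by simpa using hi')]
      simp
    rw [h1]
    by_cases h : q i = true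
    · simp [h]
    · simp [h]

theorem table (A : SMat) (p : ℕ) (hp : 0 < p) (n k : ℕ) (S : List (List ℕ))
    (hS : ∀ a, Fl n a → a ∈ S) :
    ((fstep p (raw A) S)^[k] (0, [(([], [], []), 1 % p)])).1 = k ∧
    ∀ a b c : List ℕ, Fl n a → Fl n b → Fl n c → a.length = k → b.length = k → c.length = k →
      ((look ((fstep p (raw A) S)^[k] (0, [(([], [], []), 1 % p)])).2
        (a, b, c) : ℕ) : ZMod p) = ((HL A k a b c : ℤ) : ZMod p) := by
  induction k with
  | zero =>
    refine ⟨rfl, fun a b c _ _ _ ha hb hc => ?_⟩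
    rw [List.length_eq_zero_iff] at ha hb hc
    subst ha hb hc
    unfold HL
    rw [tri_zero]
    simp [look]
  | succ k ih =>
    rw [Function.iterate_succ_apply']
    generalize (fstep p (raw A) S)^[k] (0, [(([], [], []), 1 % p)]) = s at ih ⊢
    obtain ⟨h1, h2⟩ := ih
    refine ⟨by unfold fstep; rw [h1], fun a b c fa fb fc ha hb hc => ?_⟩
    unfold fstep
    rw [h1]
    have hx : (a, b, c) ∈ keys S (k + 1) := by
      rw [mem_keys]
      exact ⟨⟨hS a fa, ha⟩, ⟨hS b fb, hb⟩, ⟨hS c fc, hc⟩⟩
    rw [look_map _ (fun x => fnew p (raw A) k s.2 x) _ hx, HL_succ A k a b c ha hb hc]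
    unfold fnew
    rw [ZMod.natCast_mod, sum_flat, sum_map_range]
    simp only [sum_flat, sum_map_range]
    push_cast
    refine Finset.sum_congr rfl fun j _ => Finset.sum_congr rfl fun l _ =>
      Finset.sum_congr rfl fun r _ => ?_
    rw [ent_raw, ent_raw, cast_ipm p hp, cast_sgm p _ hp, h2 _ _ _
      (fa.erase (by rw [ha]; exact j.isLt)) (fb.erase (by rw [hb]; exact l.isLt))
      (fc.erase (by rw [hc]; exact r.isLt))
      (by rw [List.length_eraseIdx_of_lt (by rw [ha]; exact j.isLt), ha]; rfl)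
      (by rw [List.length_eraseIdx_of_lt (by rw [hb]; exact l.isLt), hb]; rfl)
      (by rw [List.length_eraseIdx_of_lt (by rw [hc]; exact r.isLt), hc]; rfl)]
    push_cast
    ring

end TabEAux

open Pool.Agent.Lib.MP_64d474_lc.ST2.TabAux TabEAux in
/-- (TabE) the tables compute the Fischer norm modulo `p` -/
theorem stTabE : StTabE := by
  intro A p E hp hE
  unfold fval
  have hl : (raw A).length = A.length := by unfold raw; rw [List.length_map]
  rw [hl]
  rw [(TabEAux.table A p hp A.length A.length (subs A.length (vecs 1 E))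
    (fun a ha => mem_subsE _ _ hE a ha)).2 _ _ _ (Fl.range _) (Fl.range _) (Fl.range _)
    List.length_range List.length_range List.length_range]
  congr 1
  unfold HL tri Hf
  have hg : ∀ i : Fin A.length, (List.range A.length).getD i 0 = i := by
    intro i
    rw [List.getD_eq_getElem _ _ (by simp)]
    simp
  simp only [hg, Finset.mul_sum]
  refine Finset.sum_congr rfl fun σ _ => Finset.sum_congr rfl fun π _ =>
    Finset.sum_congr rfl fun κ _ => ?_
  ring

end Pool.Agent.Lib.MP_64d474_lc.ST4
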