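import Pool.Agent.Lib.MP_64d474_lc.ST4.Stmts4

/-!
# Elements of largest rank
-/

set_option autoImplicit false

open Finset Module

namespace Pool.Agent.Lib.MP_64d474_lc.ST4

namespace TopAux

section

variable {F : Type} [Field F] {n r d : ℕ}

/-- multiplication with invertible matrices and reindexing -/
noncomputable def psi (P Q : Matrix (Fin n) (Fin n) F) (e : Fin n ≃ Fin r ⊕ Fin d)
    (hP : IsUnit P.det) (hQ : IsUnit Q.det) : BM F r d ≃ₗ[F] Matrix (Fin n) (Fin n) F where
  toFun N := P * N.submatrix e e * Q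
  map_add' x y := by
    change P * (x.submatrix e e + y.submatrix e e) * Q = _
    rw [Matrix.mul_add, Matrix.add_mul]
  map_smul' c x := by
    change P * (c • x.submatrix e e) * Q = c • (P * x.submatrix e e * Q)
    rw [Matrix.mul_smul, Matrix.smul_mul]
  invFun M := (P⁻¹ * M * Q⁻¹).submatrix e.symm e.symm
  left_inv N := by
    have h1 : P⁻¹ * (P * N.submatrix e e * Q) * Q⁻¹ = N.submatrix e e := by
      rw [Matrix.mul_assoc P, ← Matrix.mul_assoc P⁻¹, Matrix.nonsing_inv_mul _ hP, Matrix.one_mul,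
        Matrix.mul_assoc, Matrix.mul_nonsing_inv _ hQ, Matrix.mul_one]
    change (P⁻¹ * (P * N.submatrix e e * Q) * Q⁻¹).submatrix e.symm e.symm = N
    rw [h1, Matrix.submatrix_submatrix]
    simp
  right_inv M := by
    change P * ((P⁻¹ * M * Q⁻¹).submatrix e.symm e.symm).submatrix e e * Q = M
    rw [Matrix.submatrix_submatrix]
    have h1 : (e.symm ∘ e : Fin n → Fin n) = id := by
      funext x
      simp
    rw [h1, Matrix.submatrix_id_id, Matrix.mul_assoc P⁻¹, ← Matrix.mul_assoc P,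
      Matrix.mul_nonsing_inv _ hP, Matrix.one_mul, Matrix.mul_assoc, Matrix.nonsing_inv_mul _ hQ,
      Matrix.mul_one]

theorem psi_apply (P Q : Matrix (Fin n) (Fin n) F) (e : Fin n ≃ Fin r ⊕ Fin d)
    (hP : IsUnit P.det) (hQ : IsUnit Q.det) (N : BM F r d) :
    psi P Q e hP hQ N = P * N.submatrix e e * Q := rfl

theorem rank_psi (P Q : Matrix (Fin n) (Fin n) F) (e : Fin n ≃ Fin r ⊕ Fin d)
    (hP : IsUnit P.det) (hQ : IsUnit Q.det) (N : BM F r d) :
    (psi P Q e hP hQ N).rank = N.rank := by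
  rw [psi_apply, Matrix.rank_mul_eq_left_of_isUnit_det Q _ hQ,
    Matrix.rank_mul_eq_right_of_isUnit_det P _ hP, Matrix.rank_submatrix]

/-- the upper right block at a vector -/
def fm (ξ : Fin d → F) : BM F r d →ₗ[F] (Fin r → F) where
  toFun M := M.toBlocks₁₂.mulVec ξ
  map_add' x y := Matrix.add_mulVec x.toBlocks₁₂ y.toBlocks₁₂ ξ
  map_smul' c x := Matrix.smul_mulVec c x.toBlocks₁₂ ξ

/-- a vector times the lower left block -/
def gm (η : Fin d → F) : BM F r d →ₗ[F] (Fin r → F) where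
  toFun M := Matrix.vecMul η M.toBlocks₂₁
  map_add' x y := Matrix.vecMul_add x.toBlocks₂₁ y.toBlocks₂₁ η
  map_smul' c x := by
    change Matrix.vecMul η (c • x.toBlocks₂₁) = c • Matrix.vecMul η x.toBlocks₂₁
    rw [← Matrix.mulVec_transpose, Matrix.transpose_smul, Matrix.smul_mulVec,
      Matrix.mulVec_transpose]

/-- extension by zero, reindexing, and multiplication -/
def Lm (P : Matrix (Fin n) (Fin n) F) (e : Fin n ≃ Fin r ⊕ Fin d) :
    (Fin r → F) →ₗ[F] (Fin n → F) where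
  toFun y := P.mulVec ((Sum.elim y (0 : Fin d → F)) ∘ e)
  map_add' x y := by
    rw [← Matrix.mulVec_add]
    congr 1
    funext i
    simp only [Function.comp_apply, Pi.add_apply]
    cases e i <;> simp
  map_smul' c x := by
    rw [RingHom.id_apply, ← Matrix.mulVec_smul]
    congr 1
    funext i
    simp only [Function.comp_apply, Pi.smul_apply]
    cases e i <;> simp

theorem Lm_injective (P : Matrix (Fin n) (Fin n) F) (e : Fin n ≃ Fin r ⊕ Fin d)
    (hP : IsUnit P.det) : Function.Injective (Lm P e) := by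
  intro x y hxy
  have hPu : IsUnit P := (Matrix.isUnit_iff_isUnit_det P).2 hP
  have h1 := Matrix.mulVec_injective_of_isUnit hPu hxy
  funext i
  have h2 := congrFun h1 (e.symm (Sum.inl i))
  simpa using h2

/-- a matrix in normal form at a vector -/
theorem normal_mulVec {x : Fin n → F} {e : Fin n ≃ Fin r ⊕ Fin d}
    (h : ((Matrix.fromBlocks 1 0 0 0 : BM F r d).submatrix e e).mulVec x = 0) (i : Fin r) :
    x (e.symm (Sum.inl i)) = 0 := by
  rw [Matrix.submatrix_mulVec_equiv, ← Sum.elim_comp_inl_inr (x ∘ e.symm),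
    Matrix.fromBlocks_mulVec] at h
  have h1 := congrFun h (e.symm (Sum.inl i))
  simpa using h1

theorem block_mulVec (M : BM F r d) {x : Fin n → F} {e : Fin n ≃ Fin r ⊕ Fin d}
    (h : ∀ i, x (e.symm (Sum.inl i)) = 0) (h0 : M.toBlocks₂₂ = 0) :
    (M.submatrix e e).mulVec x =
      (Sum.elim (M.toBlocks₁₂.mulVec fun j => x (e.symm (Sum.inr j))) (0 : Fin d → F)) ∘ e := by
  have h1 : (x ∘ e.symm) ∘ Sum.inl = (0 : Fin r → F) := funext h
  rw [Matrix.submatrix_mulVec_equiv, ← Sum.elim_comp_inl_inr (x ∘ e.symm), h1,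
    ← Matrix.fromBlocks_toBlocks M, Matrix.fromBlocks_mulVec, h0]
  congr 1
  rw [Sum.elim_comp_inl, Sum.elim_comp_inr, Matrix.mulVec_zero, Matrix.mulVec_zero,
    Matrix.zero_mulVec, zero_add, add_zero]
  rfl

/-- the dimension of the image -/
theorem finrank_image {V : Submodule F (Matrix (Fin n) (Fin n) F)} {V' : Submodule F (BM F r d)}
    (Ψ : BM F r d ≃ₗ[F] Matrix (Fin n) (Fin n) F) (hV : ∀ M, M ∈ V' ↔ Ψ M ∈ V)
    {a : Matrix (Fin n) (Fin n) F →ₗ[F] (Fin n → F)} {f : BM F r d →ₗ[F] (Fin r → F)}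
    {L : (Fin r → F) →ₗ[F] (Fin n → F)} (hL : Function.Injective L)
    (key : ∀ M ∈ V', a (Ψ M) = L (f M)) : finrank F (V.map a) = finrank F (V'.map f) := by
  have h1 : V.map a = (V'.map f).map L := by
    ext z
    constructor
    · rintro ⟨X, hX, rfl⟩
      have hm : Ψ.symm X ∈ V' := by
        rw [hV, LinearEquiv.apply_symm_apply]
        exact hX
      refine ⟨f (Ψ.symm X), ⟨Ψ.symm X, hm, rfl⟩, ?_⟩
      rw [← key _ hm, LinearEquiv.apply_symm_apply]
    · rintro ⟨_, ⟨M, hM, rfl⟩, rfl⟩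
      exact ⟨Ψ M, (hV M).1 hM, key M hM⟩
  rw [h1]
  exact (Submodule.equivMapOfInjective L hL (V'.map f)).finrank_eq.symm

end

theorem arith {n k r d : ℕ} (hn : r + d = n) (hd : 1 ≤ d) (h16 : 16 * k ≤ n * n)
    (h0 : r + d * d ≤ k) (h1 : (2 * k / n + 1) * (r - (2 * k / n + 1)) + r + d * d ≤ k) :
    False := by
  have hn0 : 0 < n := by omega
  obtain ⟨h, hh⟩ : ∃ h, h = 2 * k / n + 1 := ⟨_, rfl⟩
  rw [← hh] at h1
  have h2 : 2 * k < h * n := by
    rw [hh]
    have h3 := Nat.div_add_mod (2 * k) n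
    have h4 := Nat.mod_lt (2 * k) hn0
    nlinarith
  have h3 : (h - 1) * n ≤ 2 * k := by
    rw [hh, Nat.add_sub_cancel]
    exact Nat.div_mul_le_self _ _
  have h4 : 4 * d ≤ n := by
    by_contra hcon
    rw [not_le] at hcon
    have : n * n < (4 * d) * (4 * d) := Nat.mul_self_lt_mul_self hcon
    nlinarith
  have h5 : 12 ≤ n := by
    have h6 : 3 * n ≤ 4 * r := by omega
    by_contra hcon
    rw [not_le] at hcon
    nlinarith
  have h6 : 8 * (h - 1) ≤ n := by
    have h7 : (8 * (h - 1)) * n ≤ n * n := by nlinarith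
    exact Nat.le_of_mul_le_mul_right h7 hn0
  obtain ⟨s, hs⟩ : ∃ s, s = r - h := ⟨_, rfl⟩
  rw [← hs] at h1
  have h7 : n ≤ 2 * s := by omega
  have h8 : h * n ≤ 2 * (h * s) := by
    have := Nat.mul_le_mul_left h h7
    nlinarith
  nlinarith

theorem core (h1 : StPencil) (h2 : StCommon) (h3 : StBlk4) {F : Type} [Field F] [CharZero F]
    {n k r d : ℕ} (hn : r + d = n) (hd : 1 ≤ d) (V : Submodule F (Matrix (Fin n) (Fin n) F))
    (A : Matrix (Fin n) (Fin n) F) (hA : A ∈ V) (hmax : ∀ M ∈ V, M.rank ≤ r)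
    (hk : n * n = finrank F V + k) (h16 : 16 * k ≤ n * n) (ξ η : Fin n → F) (hξ : ξ ≠ 0)
    (hη : η ≠ 0) (hAξ : A.mulVec ξ = 0) (hAη : A.transpose.mulVec η = 0)
    (P Q : Matrix (Fin n) (Fin n) F) (e : Fin n ≃ Fin r ⊕ Fin d) (hP : IsUnit P.det)
    (hQ : IsUnit Q.det)
    (hPQ : A = P * (Matrix.fromBlocks 1 0 0 0 : BM F r d).submatrix e e * Q) :
    finrank F (V.map (ev ξ)) ≤ 2 * k / n ∨ finrank F ((V.map tp).map (ev η)) ≤ 2 * k / n := by
  have hPu : IsUnit P := (Matrix.isUnit_iff_isUnit_det P).2 hP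
  have hQu : IsUnit Q := (Matrix.isUnit_iff_isUnit_det Q).2 hQ
  have hPT : IsUnit P.transpose.det := by rwa [Matrix.det_transpose]
  have hQT : IsUnit Q.transpose.det := by rwa [Matrix.det_transpose]
  have hPTu : IsUnit P.transpose := (Matrix.isUnit_iff_isUnit_det _).2 hPT
  have hQTu : IsUnit Q.transpose := (Matrix.isUnit_iff_isUnit_det _).2 hQT
  set J : BM F r d := Matrix.fromBlocks 1 0 0 0 with hJ
  have hJT : J.transpose = J := by
    rw [hJ, Matrix.fromBlocks_transpose, Matrix.transpose_one, Matrix.transpose_zero,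
      Matrix.transpose_zero, Matrix.transpose_zero]
  set Ψ := psi P Q e hP hQ with hΨ
  set V' : Submodule F (BM F r d) := V.comap Ψ.toLinearMap with hV'
  have hmem : ∀ M, M ∈ V' ↔ Ψ M ∈ V := fun M => Iff.rfl
  have hJV : J ∈ V' := by
    rw [hmem, hΨ, psi_apply, ← hPQ]
    exact hA
  have hdim : finrank F V' = finrank F V := by
    have e1 : V'.map Ψ.toLinearMap = V := Submodule.map_comap_eq_of_surjective Ψ.surjective V
    rw [← e1]
    exact (LinearEquiv.finrank_map_eq Ψ V').symm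
  have hpen : ∀ M ∈ V', M.toBlocks₂₂ = 0 ∧
      ∀ k : ℕ, M.toBlocks₂₁ * M.toBlocks₁₁ ^ k * M.toBlocks₁₂ = 0 := by
    intro M hM
    refine h1 F r d M fun t => ?_
    have hm : J + t • M ∈ V' := add_mem hJV (Submodule.smul_mem _ _ hM)
    rw [← rank_psi P Q e hP hQ]
    exact hmax _ hm
  -- the vectors
  set x : Fin n → F := Q.mulVec ξ with hx
  set y : Fin n → F := P.transpose.mulVec η with hy
  have hx0 : ∀ i, x (e.symm (Sum.inl i)) = 0 := by
    refine normal_mulVec (e := e) (Matrix.mulVec_injective_of_isUnit hPu ?_)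
    rw [Matrix.mulVec_zero, Matrix.mulVec_mulVec, hx, Matrix.mulVec_mulVec, ← hPQ, hAξ]
  have hy0 : ∀ i, y (e.symm (Sum.inl i)) = 0 := by
    refine normal_mulVec (e := e) (Matrix.mulVec_injective_of_isUnit hQTu ?_)
    rw [Matrix.mulVec_zero, Matrix.mulVec_mulVec, hy, Matrix.mulVec_mulVec, ← hAη, hPQ,
      Matrix.transpose_mul, Matrix.transpose_mul, Matrix.transpose_submatrix, ← hJ, hJT,
      Matrix.mul_assoc]
  set ξ' : Fin d → F := fun j => x (e.symm (Sum.inr j)) with hξ'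
  set η' : Fin d → F := fun j => y (e.symm (Sum.inr j)) with hη'
  have hξ0 : ξ' ≠ 0 := by
    intro h
    refine hξ (Matrix.mulVec_injective_of_isUnit hQu ?_)
    rw [Matrix.mulVec_zero]
    funext i
    change x i = 0
    rw [← e.symm_apply_apply i]
    rcases e i with j | j
    · exact hx0 j
    · exact congrFun h j
  have hη0 : η' ≠ 0 := by
    intro h
    refine hη (Matrix.mulVec_injective_of_isUnit hPTu ?_)
    rw [Matrix.mulVec_zero]
    funext i
    change y i = 0
    rw [← e.symm_apply_apply i]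
    rcases e i with j | j
    · exact hy0 j
    · exact congrFun h j
  have d1 : finrank F (V.map (ev ξ)) = finrank F (V'.map (fm ξ')) := by
    refine finrank_image Ψ hmem (L := Lm P e) (Lm_injective P e hP) fun M hM => ?_
    change (P * M.submatrix e e * Q).mulVec ξ = P.mulVec _
    rw [← Matrix.mulVec_mulVec, ← hx, ← Matrix.mulVec_mulVec, block_mulVec M hx0 (hpen M hM).1]
    rfl
  have d2 : finrank F ((V.map tp).map (ev η)) = finrank F (V'.map (gm η')) := by
    rw [← Submodule.map_comp]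
    refine finrank_image Ψ hmem (L := Lm Q.transpose e) (Lm_injective Q.transpose e hQT)
      fun M hM => ?_
    change ((P * M.submatrix e e * Q).transpose).mulVec η =
      Q.transpose.mulVec ((Sum.elim (Matrix.vecMul η' M.toBlocks₂₁) (0 : Fin d → F)) ∘ e)
    rw [Matrix.transpose_mul, Matrix.transpose_mul, Matrix.transpose_submatrix,
      ← Matrix.mulVec_mulVec, ← Matrix.mulVec_mulVec, ← hy,
      block_mulVec M.transpose hy0 (by
        have := (hpen M hM).1
        ext i j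
        exact congrFun (congrFun this j) i)]
    have e3 : (M.transpose.toBlocks₁₂).mulVec η' = Matrix.vecMul η' M.toBlocks₂₁ :=
      Matrix.mulVec_transpose M.toBlocks₂₁ η'
    rw [← e3]
  rw [d1, d2]
  by_contra hcon
  rw [not_or, not_le, not_le] at hcon
  have hblk : ∀ M ∈ V', M.toBlocks₂₂ = 0 ∧ M.toBlocks₂₁ * M.toBlocks₁₂ = 0 ∧
      M.toBlocks₂₁ * (M.toBlocks₁₁ * M.toBlocks₁₁) * M.toBlocks₁₂ = 0 := by
    intro M hM
    obtain ⟨p1, p2⟩ := hpen M hM
    refine ⟨p1, ?_, ?_⟩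
    · have := p2 0
      rwa [pow_zero, Matrix.mul_one] at this
    · have := p2 2
      rwa [pow_two] at this
  have hdk : finrank F V' + k = (r + d) * (r + d) := by rw [hdim, hn, hk]
  have b0 := h3 F r d 0 k V' hblk hdk ξ' η' hξ0 hη0 ⟨fun _ => 0, fun i => i.elim0,
    linearIndependent_empty_type, linearIndependent_empty_type⟩
  rw [Nat.zero_mul, Nat.zero_add] at b0
  obtain ⟨v, v1, v2⟩ := h2 F V' (Fin r → F) (Fin r → F) ((fm ξ').domRestrict V')
    ((gm η').domRestrict V') (2 * k / n + 1)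
    (by rw [LinearMap.range_domRestrict]; exact hcon.1)
    (by rw [LinearMap.range_domRestrict]; exact hcon.2)
  have b1 := h3 F r d (2 * k / n + 1) k V' hblk hdk ξ' η' hξ0 hη0
    ⟨fun i => (v i : BM F r d), fun i => (v i).2, v1, v2⟩
  exact arith hn hd h16 b0 b1

end TopAux

open TopAux in
theorem stTop (h1 : StPencil) (h2 : StCommon) (h3 : StBlk4) (h4 : StNF) : StTop := by
  intro F _ _ n k V A hA hmax hlt hk h16 ξ η hξ hη hAξ hAη
  obtain ⟨P, Q, e, hP, hQ, hPQ⟩ := h4 F n A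
  exact core h1 h2 h3 (by omega) (by omega) V A hA hmax hk h16 ξ η hξ hη hAξ hAη P Q e hP hQ hPQ

end Pool.Agent.Lib.MP_64d474_lc.ST4
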